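import Pool.Agent.EPO.Defs2

open scoped Manifold Topology LinearAlgebra.Projectivization
open Filter Metric Set

namespace Pool.Agent.EPO

theorem met_pos {w : ℂ} (h0 : w ≠ 0) (h1 : w ≠ 1) : 0 < met w := by
  have h2 : 0 < ‖w‖ := norm_pos_iff.2 h0
  have h3 : 0 < ‖w - 1‖ := norm_pos_iff.2 (sub_ne_zero.2 h1)
  unfold met
  positivity

private theorem mti_cube {x : ℝ} (hx : 0 ≤ x) : (x ^ (1 / 3 : ℝ)) ^ 3 = x := by
  rw [← Real.rpow_natCast, ← Real.rpow_mul hx]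
  norm_num

private theorem mti_five {x : ℝ} (hx : 0 ≤ x) : x ^ (5 / 3 : ℝ) = (x ^ (1 / 3 : ℝ)) ^ 5 := by
  rw [← Real.rpow_natCast, ← Real.rpow_mul hx]
  norm_num

private theorem mti_key {a b : ℝ} (ha : 0 < a) (hb : 0 < b) (hab : 1 ≤ a ^ 3 + b ^ 3)
    (hle : b ≤ a) : (1 + a) * (1 + b) / 40 ≤ b ^ 5 / (1 + a) ^ 2 + a ^ 5 / (1 + b) ^ 2 := by
  have h3 : b ^ 3 ≤ a ^ 3 := pow_le_pow_left₀ hb.le hle 3
  have h4 : (0.79 : ℝ) ≤ a := by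
    by_contra hlt
    push Not at hlt
    have : a ^ 3 < (0.79 : ℝ) ^ 3 := pow_lt_pow_left₀ hlt ha.le (by norm_num)
    norm_num at this
    linarith
  have h5 : (1 + a) ^ 4 ≤ 40 * a ^ 5 := by
    obtain ⟨t, ht, rfl⟩ : ∃ t : ℝ, 0 ≤ t ∧ a = 0.79 + t := ⟨a - 0.79, by linarith, by ring⟩
    have e : 40 * (0.79 + t) ^ 5 - (1 + (0.79 + t)) ^ 4 =
        (40 * 0.79 ^ 5 - 1.79 ^ 4) + (200 * 0.79 ^ 4 - 4 * 1.79 ^ 3) * t +
        (400 * 0.79 ^ 3 - 6 * 1.79 ^ 2) * t ^ 2 + (400 * 0.79 ^ 2 - 4 * 1.79) * t ^ 3 +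
        (200 * 0.79 - 1) * t ^ 4 + 40 * t ^ 5 := by ring
    have : 0 ≤ 40 * (0.79 + t) ^ 5 - (1 + (0.79 + t)) ^ 4 := by
      rw [e]
      have c0 : (0 : ℝ) ≤ 40 * 0.79 ^ 5 - 1.79 ^ 4 := by norm_num
      have c1 : (0 : ℝ) ≤ 200 * 0.79 ^ 4 - 4 * 1.79 ^ 3 := by norm_num
      have c2 : (0 : ℝ) ≤ 400 * 0.79 ^ 3 - 6 * 1.79 ^ 2 := by norm_num
      have c3 : (0 : ℝ) ≤ 400 * 0.79 ^ 2 - 4 * 1.79 := by norm_num
      have c4 : (0 : ℝ) ≤ 200 * 0.79 - 1 := by norm_num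
      positivity
    linarith
  have h6 : (1 + a) * (1 + b) / 40 ≤ a ^ 5 / (1 + b) ^ 2 := by
    rw [div_le_div_iff₀ (by norm_num) (by positivity)]
    have h7 : (1 + b) ^ 3 ≤ (1 + a) ^ 3 := pow_le_pow_left₀ (by positivity) (by linarith) 3
    calc (1 + a) * (1 + b) * (1 + b) ^ 2 = (1 + a) * (1 + b) ^ 3 := by ring
      _ ≤ (1 + a) * (1 + a) ^ 3 := mul_le_mul_of_nonneg_left h7 (by positivity)
      _ = (1 + a) ^ 4 := by ring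
      _ ≤ 40 * a ^ 5 := h5
      _ = a ^ 5 * 40 := by ring
  have h8 : 0 ≤ b ^ 5 / (1 + a) ^ 2 := by positivity
  linarith

theorem met_curv {w : ℂ} (h0 : w ≠ 0) (h1 : w ≠ 1) :
    met w / 40 ≤ 1 / (‖w‖ ^ (5 / 3 : ℝ) * (1 + ‖w‖ ^ (1 / 3 : ℝ)) ^ 2) +
      1 / (‖w - 1‖ ^ (5 / 3 : ℝ) * (1 + ‖w - 1‖ ^ (1 / 3 : ℝ)) ^ 2) := by
  have h2 : 0 < ‖w‖ := norm_pos_iff.2 h0
  have h3 : 0 < ‖w - 1‖ := norm_pos_iff.2 (sub_ne_zero.2 h1)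
  unfold met
  rw [mti_five h2.le, mti_five h3.le]
  have ha3 := mti_cube h2.le
  have hb3 := mti_cube h3.le
  have ha : 0 < ‖w‖ ^ (1 / 3 : ℝ) := Real.rpow_pos_of_pos h2 _
  have hb : 0 < ‖w - 1‖ ^ (1 / 3 : ℝ) := Real.rpow_pos_of_pos h3 _
  have hsum : 1 ≤ ‖w‖ + ‖w - 1‖ := by
    have := norm_sub_le w (w - 1)
    rw [sub_sub_cancel, norm_one] at this
    exact this
  generalize ‖w‖ ^ (1 / 3 : ℝ) = a at *
  generalize ‖w - 1‖ ^ (1 / 3 : ℝ) = b at *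
  have hab : 1 ≤ a ^ 3 + b ^ 3 := by rw [ha3, hb3]; exact hsum
  have key : (1 + a) * (1 + b) / 40 ≤ b ^ 5 / (1 + a) ^ 2 + a ^ 5 / (1 + b) ^ 2 := by
    rcases le_total b a with h | h
    · exact mti_key ha hb hab h
    · have := mti_key hb ha (by linarith) h
      rw [mul_comm (1 + a) (1 + b), add_comm (b ^ 5 / (1 + a) ^ 2)]
      exact this
  have e1 : (1 + a) * (1 + b) / (a ^ 5 * b ^ 5) / 40 =
      (1 + a) * (1 + b) / 40 * (1 / (a ^ 5 * b ^ 5)) := by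
    field_simp
  have e2 : 1 / (a ^ 5 * (1 + a) ^ 2) + 1 / (b ^ 5 * (1 + b) ^ 2) =
      (b ^ 5 / (1 + a) ^ 2 + a ^ 5 / (1 + b) ^ 2) * (1 / (a ^ 5 * b ^ 5)) := by
    field_simp
  rw [e1, e2]
  exact mul_le_mul_of_nonneg_right key (by positivity)

theorem met_ge {w : ℂ} (h0 : w ≠ 0) (h1 : w ≠ 1) : 1 / (4 * (1 + ‖w‖ ^ 2) ^ 2) ≤ met w := by
  have h2 : 0 < ‖w‖ := norm_pos_iff.2 h0
  have h3 : 0 < ‖w - 1‖ := norm_pos_iff.2 (sub_ne_zero.2 h1)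
  unfold met
  rw [mti_five h2.le, mti_five h3.le]
  have ha3 := mti_cube h2.le
  have hb3 := mti_cube h3.le
  have ha : 0 < ‖w‖ ^ (1 / 3 : ℝ) := Real.rpow_pos_of_pos h2 _
  have hb : 0 < ‖w - 1‖ ^ (1 / 3 : ℝ) := Real.rpow_pos_of_pos h3 _
  have hsum : ‖w - 1‖ ≤ ‖w‖ + 1 := by
    have := norm_sub_le w 1
    rwa [norm_one] at this
  generalize ‖w‖ ^ (1 / 3 : ℝ) = a at *
  generalize ‖w - 1‖ ^ (1 / 3 : ℝ) = b at *
  rw [← ha3] at hsum ⊢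
  rw [← hb3] at hsum
  rw [div_le_div_iff₀ (by positivity) (by positivity), one_mul]
  have hq : (1.26 : ℝ) ^ 5 ≤ 4 := by norm_num
  have h12 : a ^ 5 * b ^ 5 ≤ 4 * (1 + (a ^ 3) ^ 2) ^ 2 := by
    rcases le_total a 1 with h | h
    · have hb1 : b ≤ 1.26 := by
        by_contra hlt
        push Not at hlt
        have e1 : (1.26 : ℝ) ^ 3 < b ^ 3 := pow_lt_pow_left₀ hlt (by norm_num) (by norm_num)
        have e2 : a ^ 3 ≤ 1 := pow_le_one₀ ha.le h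
        norm_num at e1
        linarith
      have e3 : a ^ 5 ≤ 1 := pow_le_one₀ ha.le h
      have e4 : b ^ 5 ≤ 1.26 ^ 5 := pow_le_pow_left₀ hb.le hb1 5
      have e5 : a ^ 5 * b ^ 5 ≤ 1 * 4 :=
        mul_le_mul e3 (e4.trans hq) (by positivity) (by norm_num)
      have e6 : (1 : ℝ) ≤ (1 + (a ^ 3) ^ 2) ^ 2 := by
        have : (1 : ℝ) ≤ 1 + (a ^ 3) ^ 2 := by nlinarith [sq_nonneg (a ^ 3)]
        exact one_le_pow₀ this
      linarith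
    · have hb1 : b ≤ 1.26 * a := by
        by_contra hlt
        push Not at hlt
        have e1 : (1.26 * a) ^ 3 < b ^ 3 := pow_lt_pow_left₀ hlt (by positivity) (by norm_num)
        have e2 : 1 ≤ a ^ 3 := one_le_pow₀ h
        rw [mul_pow] at e1
        norm_num at e1
        linarith
      have e4 : b ^ 5 ≤ (1.26 * a) ^ 5 := pow_le_pow_left₀ hb.le hb1 5
      have e5 : (1.26 * a) ^ 5 ≤ 4 * a ^ 5 := by
        rw [mul_pow]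
        exact mul_le_mul_of_nonneg_right hq (by positivity)
      have e6 : a ^ 5 * b ^ 5 ≤ a ^ 5 * (4 * a ^ 5) :=
        mul_le_mul_of_nonneg_left (e4.trans e5) (by positivity)
      have e7 : a ^ 10 ≤ a ^ 12 := pow_le_pow_right₀ h (by norm_num)
      have e8 : a ^ 12 ≤ (1 + (a ^ 3) ^ 2) ^ 2 := by
        have : (1 + (a ^ 3) ^ 2) ^ 2 = 1 + 2 * a ^ 6 + a ^ 12 := by ring
        rw [this]
        have : 0 ≤ a ^ 6 := by positivity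
        linarith
      calc a ^ 5 * b ^ 5 ≤ a ^ 5 * (4 * a ^ 5) := e6
        _ = 4 * a ^ 10 := by ring
        _ ≤ 4 * (1 + (a ^ 3) ^ 2) ^ 2 := by linarith
  have h13 : (1 : ℝ) ≤ (1 + a) * (1 + b) := by nlinarith
  calc a ^ 5 * b ^ 5 ≤ 1 * (4 * (1 + (a ^ 3) ^ 2) ^ 2) := by rw [one_mul]; exact h12
    _ ≤ (1 + a) * (1 + b) * (4 * (1 + (a ^ 3) ^ 2) ^ 2) :=
      mul_le_mul_of_nonneg_right h13 (by positivity)

end Pool.Agent.EPO
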