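import Pool.Agent.EPO.LLQ
import Pool.Agent.EPO.MTI

open scoped Manifold Topology LinearAlgebra.Projectivization
open Filter Metric Set

namespace Pool.Agent.EPO

/-- a holomorphic branch of the sixth root -/
private theorem MET_branch {w : ℂ → ℂ} {ζ : ℂ} (ha : AnalyticAt ℂ w ζ) (h0 : w ζ ≠ 0) :
    ∃ h : ℂ → ℂ, AnalyticAt ℂ h ζ ∧ (∀ᶠ η in 𝓝 ζ, h η ^ 6 = w η) := by
  refine ⟨fun η => Complex.exp (Complex.log (w ζ) / 6) *
    Complex.exp (Complex.log (w η / w ζ) / 6), ?_, ?_⟩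
  · have h1 : AnalyticAt ℂ (fun η => w η / w ζ) ζ := ha.div analyticAt_const h0
    have h2 : AnalyticAt ℂ (fun η => Complex.log (w η / w ζ)) ζ := by
      refine h1.clog ?_
      simp [div_self h0]
    have h3 : AnalyticAt ℂ (fun η => Complex.log (w η / w ζ) / 6) ζ :=
      h2.div analyticAt_const (by norm_num)
    exact analyticAt_const.mul h3.cexp
  · have hne : ∀ᶠ η in 𝓝 ζ, w η ≠ 0 := ha.continuousAt.eventually_ne h0
    filter_upwards [hne] with η hη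
    rw [mul_pow, ← Complex.exp_nat_mul, ← Complex.exp_nat_mul]
    have e1 : ((6 : ℕ) : ℂ) * (Complex.log (w ζ) / 6) = Complex.log (w ζ) := by
      push_cast; ring
    have e2 : ((6 : ℕ) : ℂ) * (Complex.log (w η / w ζ) / 6) = Complex.log (w η / w ζ) := by
      push_cast; ring
    rw [e1, e2, Complex.exp_log h0, Complex.exp_log (div_ne_zero hη h0)]
    field_simp

private theorem MET_norm {a b : ℂ} (h : a ^ 6 = b) : ‖a‖ ^ 2 = ‖b‖ ^ (1 / 3 : ℝ) := by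
  have h1 : ‖b‖ = (‖a‖ ^ 2) ^ (3 : ℕ) := by
    rw [← h, norm_pow, ← pow_mul]
  rw [h1]
  rw [← Real.rpow_natCast (‖a‖ ^ 2) 3, ← Real.rpow_mul (by positivity)]
  norm_num

private theorem MET_norm5 {a b : ℂ} (h : a ^ 6 = b) : ‖a‖ ^ 10 = ‖b‖ ^ (5 / 3 : ℝ) := by
  have h1 : ‖b‖ ^ (5 / 3 : ℝ) = (‖b‖ ^ (1 / 3 : ℝ)) ^ (5 : ℕ) := by
    rw [← Real.rpow_natCast, ← Real.rpow_mul (norm_nonneg _)]
    norm_num
  rw [h1, ← MET_norm h]
  ring

private theorem MET_one {w : ℂ → ℂ} {ζ : ℂ} (ha : AnalyticAt ℂ w ζ) (h0 : w ζ ≠ 0) :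
    LL (fun η => Real.log (1 + ‖w η‖ ^ (1 / 3 : ℝ))) ζ
      (‖deriv w ζ‖ ^ 2 / 36 * (1 / (‖w ζ‖ ^ (5 / 3 : ℝ) * (1 + ‖w ζ‖ ^ (1 / 3 : ℝ)) ^ 2))) := by
  obtain ⟨h, hh, h6⟩ := MET_branch ha h0
  have hL := LL_log_one_add hh
  have h6ζ : h ζ ^ 6 = w ζ := h6.self_of_nhds
  have hder : deriv w ζ = 6 * h ζ ^ 5 * deriv h ζ := by
    have e1 : deriv w ζ = deriv (fun η => h η ^ 6) ζ := by
      apply Filter.EventuallyEq.deriv_eq
      filter_upwards [h6] with η hη using hη.symm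
    rw [e1]
    have := (hh.differentiableAt.hasDerivAt.pow 6).deriv
    have e2 : deriv (fun η => h η ^ 6) ζ = deriv (h ^ 6) ζ := rfl
    rw [e2, this]
    norm_num
  have hc : ‖deriv w ζ‖ ^ 2 / 36 *
      (1 / (‖w ζ‖ ^ (5 / 3 : ℝ) * (1 + ‖w ζ‖ ^ (1 / 3 : ℝ)) ^ 2)) =
      ‖deriv h ζ‖ ^ 2 / (1 + ‖h ζ‖ ^ 2) ^ 2 := by
    rw [← MET_norm h6ζ, ← MET_norm5 h6ζ, hder]
    have hne : ‖h ζ‖ ≠ 0 := by
      intro hz
      have : h ζ = 0 := norm_eq_zero.mp hz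
      rw [this] at h6ζ
      exact h0 (by rw [← h6ζ]; norm_num)
    have hp : (1 + ‖h ζ‖ ^ 2) ≠ 0 := by positivity
    rw [norm_mul, norm_mul, norm_pow]
    have : ‖(6 : ℂ)‖ = 6 := by norm_num
    rw [this]
    field_simp
    ring
  rw [hc]
  refine hL.congr ?_
  filter_upwards [h6] with η hη
  rw [MET_norm hη]

theorem LL_met {w : ℂ → ℂ} {ζ : ℂ} (ha : AnalyticAt ℂ w ζ) (h0 : w ζ ≠ 0) (h1 : w ζ ≠ 1)
    (hd : deriv w ζ ≠ 0) :
    LL (fun η => Real.log (met (w η) * ‖deriv w η‖ ^ 2)) ζ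
      (met (w ζ) * ‖deriv w ζ‖ ^ 2 / 1440) := by
  have ha1 : AnalyticAt ℂ (fun η => w η - 1) ζ := ha.sub analyticAt_const
  have h1' : w ζ - 1 ≠ 0 := sub_ne_zero.mpr h1
  have hda : AnalyticAt ℂ (deriv w) ζ := ha.deriv
  have L1 := MET_one ha h0
  have L2 := MET_one (w := fun η => w η - 1) ha1 h1'
  have e2 : deriv (fun η => w η - 1) ζ = deriv w ζ := by simp
  rw [e2] at L2
  have L3 := (LL_neg_log_norm ha h0).const_mul (a := 5 / 3) (by norm_num)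
  have L4 := (LL_neg_log_norm (h := fun η => w η - 1) ha1 h1').const_mul (a := 5 / 3)
    (by norm_num)
  have L5 := (LL_log_norm hda hd).const_mul (a := 2) (by norm_num)
  have L := (((L1.add L2).add L3).add L4).add L5
  have hcongr : (fun η => Real.log (met (w η) * ‖deriv w η‖ ^ 2)) =ᶠ[𝓝 ζ]
      (fun η => (Real.log (1 + ‖w η‖ ^ (1 / 3 : ℝ)) + Real.log (1 + ‖w η - 1‖ ^ (1 / 3 : ℝ)) +
        5 / 3 * (-Real.log ‖w η‖) + 5 / 3 * (-Real.log ‖w η - 1‖) +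
        2 * Real.log ‖deriv w η‖)) := by
    filter_upwards [ha.continuousAt.eventually_ne h0, ha1.continuousAt.eventually_ne h1',
      hda.continuousAt.eventually_ne hd] with η h2 h3 h4
    have n2 : 0 < ‖w η‖ := norm_pos_iff.mpr h2
    have n3 : 0 < ‖w η - 1‖ := norm_pos_iff.mpr h3
    have n4 : 0 < ‖deriv w η‖ := norm_pos_iff.mpr h4
    have p2 : 0 < ‖w η‖ ^ (5 / 3 : ℝ) := Real.rpow_pos_of_pos n2 _
    have p3 : 0 < ‖w η - 1‖ ^ (5 / 3 : ℝ) := Real.rpow_pos_of_pos n3 _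
    have q2 : 0 < 1 + ‖w η‖ ^ (1 / 3 : ℝ) := by positivity
    have q3 : 0 < 1 + ‖w η - 1‖ ^ (1 / 3 : ℝ) := by positivity
    rw [met, Real.log_mul (by positivity) (by positivity), Real.log_div (by positivity)
      (by positivity), Real.log_mul q2.ne' q3.ne', Real.log_mul p2.ne' p3.ne',
      Real.log_rpow n2, Real.log_rpow n3, Real.log_pow]
    push_cast
    ring
  refine (L.congr hcongr).mono ?_
  have hm := met_curv h0 h1
  have hs : 0 ≤ ‖deriv w ζ‖ ^ 2 / 36 := by positivity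
  have := mul_le_mul_of_nonneg_left hm hs
  calc met (w ζ) * ‖deriv w ζ‖ ^ 2 / 1440 = ‖deriv w ζ‖ ^ 2 / 36 * (met (w ζ) / 40) := by ring
    _ ≤ _ := this
    _ = _ := by ring

theorem met_cont {w : ℂ → ℂ} {ζ : ℂ} (ha : AnalyticAt ℂ w ζ) (h0 : w ζ ≠ 0) (h1 : w ζ ≠ 1) :
    ContinuousAt (fun η => met (w η) * ‖deriv w η‖ ^ 2) ζ := by
  have hda : AnalyticAt ℂ (deriv w) ζ := ha.deriv
  have n0 : ‖w ζ‖ ≠ 0 := norm_ne_zero_iff.mpr h0
  have n1 : ‖w ζ - 1‖ ≠ 0 := norm_ne_zero_iff.mpr (sub_ne_zero.mpr h1)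
  have c0 : ContinuousAt (fun η => ‖w η‖) ζ := ha.continuousAt.norm
  have c1 : ContinuousAt (fun η => ‖w η - 1‖) ζ := (ha.continuousAt.sub continuousAt_const).norm
  have a0 : ∀ r : ℝ, ContinuousAt (fun η => ‖w η‖ ^ r) ζ := fun r =>
    c0.rpow_const (Or.inl n0)
  have a1 : ∀ r : ℝ, ContinuousAt (fun η => ‖w η - 1‖ ^ r) ζ := fun r =>
    c1.rpow_const (Or.inl n1)
  have hmet : ContinuousAt (fun η => met (w η)) ζ := by
    unfold met
    refine ((continuousAt_const.add (a0 _)).mul (continuousAt_const.add (a1 _))).div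
      ((a0 _).mul (a1 _)) ?_
    have p0 : 0 < ‖w ζ‖ := norm_pos_iff.mpr h0
    have p1 : 0 < ‖w ζ - 1‖ := norm_pos_iff.mpr (sub_ne_zero.mpr h1)
    positivity
  exact hmet.mul (hda.continuousAt.norm.pow 2)

end Pool.Agent.EPO
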