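import Pool.Agent.EPO.LLD
import Pool.Agent.EPO.MET

open scoped Manifold Topology LinearAlgebra.Projectivization
open Filter Metric Set

namespace Pool.Agent.EPO

private theorem AHL_aux {w : ℂ → ℂ} {c : ℂ} {r ρ : ℝ} (hρ : 0 < ρ) (hρr : ρ < r)
    (hw : DifferentiableOn ℂ w (ball c r))
    (h01 : ∀ ζ ∈ ball c r, w ζ ≠ 0 ∧ w ζ ≠ 1) :
    met (w c) * ‖deriv w c‖ ^ 2 * ρ ^ 2 ≤ 2880 := by
  have han : ∀ ζ ∈ ball c r, AnalyticAt ℂ w ζ := fun ζ hζ =>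
    hw.analyticAt (isOpen_ball.mem_nhds hζ)
  have hsub : closedBall c ρ ⊆ ball c r := closedBall_subset_ball hρr
  set m : ℂ → ℝ := fun η => met (w η) * ‖deriv w η‖ ^ 2 with hm
  have hmc : ∀ ζ ∈ ball c r, ContinuousAt m ζ := fun ζ hζ =>
    met_cont (han ζ hζ) (h01 ζ hζ).1 (h01 ζ hζ).2
  set G : ℂ → ℝ := fun η => (ρ ^ 2 - ‖η - c‖ ^ 2) ^ 2 * m η with hG
  have hGc : ContinuousOn G (closedBall c ρ) := by
    intro ζ hζ
    have h1 : ContinuousAt (fun η : ℂ => (ρ ^ 2 - ‖η - c‖ ^ 2) ^ 2) ζ := by fun_prop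
    exact (h1.mul (hmc ζ (hsub hζ))).continuousWithinAt
  obtain ⟨ζ, hζ, hmax⟩ := (isCompact_closedBall c ρ).exists_isMaxOn
    ⟨c, mem_closedBall_self hρ.le⟩ hGc
  have hGcc : G c = ρ ^ 4 * m c := by
    simp only [hG, sub_self, norm_zero]
    ring
  have hcζ : G c ≤ G ζ := hmax (mem_closedBall_self hρ.le)
  have key : G ζ ≤ 2880 * ρ ^ 2 := by
    rcases le_or_gt (G ζ) 0 with hG0 | hG0
    · exact hG0.trans (by positivity)
    have hζr := hsub hζ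
    have hm0 : 0 < m ζ := by
      by_contra hcon
      rw [not_lt] at hcon
      have : G ζ ≤ 0 := mul_nonpos_of_nonneg_of_nonpos (sq_nonneg _) hcon
      linarith
    have hd0 : deriv w ζ ≠ 0 := by
      intro h0
      simp only [hm, h0, norm_zero] at hm0
      norm_num at hm0
    have hne : ρ ^ 2 - ‖ζ - c‖ ^ 2 ≠ 0 := by
      intro h0
      simp only [hG, h0] at hG0
      norm_num at hG0
    have hle : ‖ζ - c‖ ≤ ρ := by
      rw [← dist_eq_norm]; exact mem_closedBall.1 hζ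
    have hlt : ‖ζ - c‖ < ρ := by
      rcases hle.eq_or_lt with h | h
      · exact absurd (by rw [h]; ring) hne
      · exact h
    have hD : 0 < ρ ^ 2 - ‖ζ - c‖ ^ 2 := by
      have := norm_nonneg (ζ - c)
      nlinarith
    have hLL := (LL_met (han ζ hζr) (h01 ζ hζr).1 (h01 ζ hζr).2 hd0).add (LL_disc hρ hlt)
    have hloc : IsLocalMax (fun η => Real.log (met (w η) * ‖deriv w η‖ ^ 2) +
        2 * Real.log (ρ ^ 2 - ‖η - c‖ ^ 2)) ζ := by
      have e1 : ∀ᶠ η in 𝓝 ζ, 0 < m η := (hmc ζ hζr).eventually (lt_mem_nhds hm0)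
      have e2 : ∀ᶠ η in 𝓝 ζ, η ∈ ball c ρ :=
        isOpen_ball.mem_nhds (by rw [mem_ball, dist_eq_norm]; exact hlt)
      filter_upwards [e1, e2] with η h1 h2
      have h3 : ‖η - c‖ < ρ := by rw [← dist_eq_norm]; exact mem_ball.1 h2
      have h4 : 0 < ρ ^ 2 - ‖η - c‖ ^ 2 := by
        have := norm_nonneg (η - c)
        nlinarith
      have h5 : G η ≤ G ζ := hmax (ball_subset_closedBall h2)
      have h6 : ∀ x : ℂ, 0 < m x → 0 < ρ ^ 2 - ‖x - c‖ ^ 2 →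
          Real.log (met (w x) * ‖deriv w x‖ ^ 2) + 2 * Real.log (ρ ^ 2 - ‖x - c‖ ^ 2) =
            Real.log (G x) := by
        intro x hx1 hx2
        have : G x = (ρ ^ 2 - ‖x - c‖ ^ 2) ^ 2 * m x := rfl
        rw [this, Real.log_mul (by positivity) hx1.ne', Real.log_pow]
        push_cast
        simp only [hm]
        ring
      rw [h6 η h1 h4, h6 ζ hm0 hD]
      exact Real.log_le_log (by positivity) h5
    have h7 := hLL.nonpos_of_isLocalMax hloc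
    have h8 : m ζ / 1440 ≤ 2 * ρ ^ 2 / (ρ ^ 2 - ‖ζ - c‖ ^ 2) ^ 2 := by
      simp only [hm]
      linarith
    rw [le_div_iff₀ (by positivity)] at h8
    have : G ζ = (ρ ^ 2 - ‖ζ - c‖ ^ 2) ^ 2 * m ζ := rfl
    rw [this]
    linarith
  have h9 : ρ ^ 4 * m c ≤ 2880 * ρ ^ 2 := by
    rw [← hGcc]; exact hcζ.trans key
  have h10 : ρ ^ 2 * (m c * ρ ^ 2) ≤ ρ ^ 2 * 2880 := by linarith [h9]
  exact le_of_mul_le_mul_left h10 (by positivity)

/-- The Ahlfors-Schwarz lemma. -/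
theorem ahlfors {w : ℂ → ℂ} {c : ℂ} {r : ℝ} (hr : 0 < r) (hw : DifferentiableOn ℂ w (ball c r))
    (h01 : ∀ ζ ∈ ball c r, w ζ ≠ 0 ∧ w ζ ≠ 1) :
    met (w c) * ‖deriv w c‖ ^ 2 ≤ 2880 / r ^ 2 := by
  rw [le_div_iff₀ (by positivity)]
  have hcont : Tendsto (fun ρ : ℝ => met (w c) * ‖deriv w c‖ ^ 2 * ρ ^ 2) (𝓝[<] r)
      (𝓝 (met (w c) * ‖deriv w c‖ ^ 2 * r ^ 2)) := by
    have : ContinuousAt (fun ρ : ℝ => met (w c) * ‖deriv w c‖ ^ 2 * ρ ^ 2) r := by fun_prop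
    exact this.tendsto.mono_left nhdsWithin_le_nhds
  refine le_of_tendsto hcont ?_
  filter_upwards [Ioo_mem_nhdsLT hr] with ρ hρ
  exact AHL_aux hρ.1 hρ.2 hw h01

end Pool.Agent.EPO
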