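import Pool.Agent.EPO.BRL

open scoped Manifold Topology LinearAlgebra.Projectivization
open Filter Metric Set

namespace Pool.Agent.EPO

variable {Λ : Submodule ℤ ℂ} [DiscreteTopology Λ] [IsZLattice ℝ Λ] {n : ℕ}
  {f : ℂ → Fin (n + 1) → ℂ}

private theorem BRD_smul (hn : 3 ≤ n) {c : Fin (n + 1) → ℂ} {B : Fin n → ℂ × ℂ} (h : Roots c B)
    {a : ℂ} (ha : a ≠ 0) : ∃ B' : Fin n → ℂ × ℂ, Roots (a • c) B' := by
  classical
  have h0 : 0 < n := by omega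
  set s : Fin n → ℂ := fun i => if i = ⟨0, h0⟩ then a else 1 with hs
  have hs0 : ∀ i, s i ≠ 0 := by
    intro i
    simp only [hs]
    split_ifs
    · exact ha
    · exact one_ne_zero
  refine ⟨fun i => s i • B i, fun X => ?_, fun i j hij => ?_⟩
  · rw [form_smul_left, h.1]
    have e1 : ∀ i, wd X (s i • B i) = s i * wd X (B i) := by
      intro i
      simp only [wd, Prod.smul_fst, Prod.smul_snd, smul_eq_mul]
      ring
    simp only [e1, Finset.prod_mul_distrib]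
    congr 1
    simp only [hs, Finset.prod_ite_eq', Finset.mem_univ, if_true]
  · have e1 : wd (s i • B i) (s j • B j) = s i * s j * wd (B i) (B j) := by
      simp only [wd, Prod.smul_fst, Prod.smul_snd, smul_eq_mul]
      ring
    simp only [e1]
    exact mul_ne_zero (mul_ne_zero (hs0 i) (hs0 j)) (h.2 i j hij)

private theorem BRD_translate_one (hn : 3 ≤ n) (hf : IsCurve Λ f) {ω : ℂ} (hω : ω ∈ Λ) {ζ : ℂ}
    (h : ∃ B, Roots (f ζ) B) : ∃ B, Roots (f (ζ + ω)) B := by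
  obtain ⟨j, hj, hj'⟩ := hf.aut ω hω
  obtain ⟨B, hB⟩ := h
  rw [hj' ζ]
  exact BRD_smul hn hB (hj ζ)

theorem Br_translate (hn : 3 ≤ n) (hf : IsCurve Λ f) {ω : ℂ} (hω : ω ∈ Λ) (ζ : ℂ) :
    ζ + ω ∈ Br f ↔ ζ ∈ Br f := by
  have h1 : (∃ B, Roots (f (ζ + ω)) B) ↔ ∃ B, Roots (f ζ) B := by
    refine ⟨fun h => ?_, fun h => BRD_translate_one hn hf hω h⟩
    have := BRD_translate_one hn hf (Λ.neg_mem hω) h
    rwa [add_neg_cancel_right] at this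
  unfold Br
  rw [mem_setOf_eq, mem_setOf_eq, h1]

private theorem BRD_not_all (hn : 3 ≤ n) (hf : IsCurve Λ f) : ∃ ζ, ζ ∉ Br f := by
  obtain ⟨ζ, B, hB, hw⟩ := hf.reduced
  have hB0 : ∀ i, B i ≠ 0 := by
    intro i h0
    have : Nontrivial (Fin n) := Fin.nontrivial_iff_two_le.2 (by omega)
    obtain ⟨j, hj⟩ := exists_ne i
    apply hw i j hj.symm
    rw [h0]
    simp [wd]
  obtain ⟨s, hs⟩ := roots_of_zeros (by omega) (hf.no_fibre ζ) hB hw hB0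
  exact ⟨ζ, fun h => h ⟨_, hs⟩⟩

/-- the second alternative of `BRL` -/
private def BRDgood {n : ℕ} (f : ℂ → Fin (n + 1) → ℂ) (m : ℕ) (b : ℂ) : Prop :=
  ∃ δ > 0, ∃ c > 0, ∀ ζ ∈ ball b δ, ζ ≠ b → ζ ∉ Br f ∧
      ∀ X Y, form (f ζ) X = 0 → form (f ζ) Y = 0 → wd X Y ≠ 0 →
        c * ‖ζ - b‖ ^ m * ‖X‖ * ‖Y‖ ≤ ‖wd X Y‖

private theorem BRDgood_mono {m m' : ℕ} (hm : m ≤ m') {b : ℂ} (h : BRDgood f m b) :
    BRDgood f m' b := by
  obtain ⟨δ, hδ, c, hc, hall⟩ := h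
  refine ⟨min δ 1, lt_min hδ one_pos, c, hc, fun ζ hζ hne => ?_⟩
  obtain ⟨h1, h2⟩ := hall ζ (ball_subset_ball (min_le_left _ _) hζ) hne
  refine ⟨h1, fun X Y hX hY hw => le_trans ?_ (h2 X Y hX hY hw)⟩
  have h3 : ‖ζ - b‖ ≤ 1 := by
    have := ball_subset_ball (min_le_right δ 1) hζ
    rw [mem_ball, dist_eq_norm] at this
    exact this.le
  have h4 : ‖ζ - b‖ ^ m' ≤ ‖ζ - b‖ ^ m := pow_le_pow_of_le_one (norm_nonneg _) h3 hm
  gcongr

private theorem BRDgood_of_notMem (hn : 3 ≤ n) (hf : IsCurve Λ f) {b : ℂ} (hb : b ∉ Br f) :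
    BRDgood f 0 b := by
  obtain ⟨δ, hδ, c, hc, hall⟩ := BRR hn hf.hol hf.no_fibre hb
  refine ⟨δ, hδ, c, hc, fun ζ hζ _ => ?_⟩
  obtain ⟨h1, h2⟩ := hall ζ hζ
  refine ⟨h1, fun X Y hX hY hw => ?_⟩
  rw [pow_zero, mul_one]
  exact h2 X Y hX hY hw

private theorem BRD_point (hn : 3 ≤ n) (hf : IsCurve Λ f) (b : ℂ) : ∃ m, BRDgood f m b := by
  set S : Set ℂ := {b | ∃ δ > 0, ball b δ ⊆ Br f} with hS
  have hopen : IsOpen S := by
    rw [Metric.isOpen_iff]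
    rintro x ⟨δ, hδ, hx⟩
    refine ⟨δ / 2, by positivity, fun y hy => ⟨δ / 2, by positivity, ?_⟩⟩
    refine (ball_subset_ball' ?_).trans hx
    have := mem_ball.1 hy
    linarith
  have hclosed : IsClosed S := by
    rw [← isOpen_compl_iff, Metric.isOpen_iff]
    intro x hx
    obtain ⟨δ, hδ, h1 | ⟨c, hc, m, h2⟩⟩ := BRL hn hf.hol hf.no_fibre x
    · exact absurd ⟨δ, hδ, h1⟩ hx
    · refine ⟨δ, hδ, fun y hy hyS => ?_⟩
      by_cases hyx : y = x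
      · exact hx (hyx ▸ hyS)
      · obtain ⟨δ', hδ', h3⟩ := hyS
        exact (h2 y hy hyx).1 (h3 (mem_ball_self hδ'))
  have hclopen : IsClopen S := ⟨hclosed, hopen⟩
  rcases isClopen_iff.1 hclopen with h | h
  · obtain ⟨δ, hδ, h1 | ⟨c, hc, m, h2⟩⟩ := BRL hn hf.hol hf.no_fibre b
    · have : b ∈ S := ⟨δ, hδ, h1⟩
      rw [h] at this
      exact absurd this (notMem_empty b)
    · exact ⟨m, δ, hδ, c, hc, h2⟩
  · obtain ⟨ζ, hζ⟩ := BRD_not_all hn hf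
    obtain ⟨δ, hδ, h1⟩ : ζ ∈ S := by rw [h]; trivial
    exact absurd (h1 (mem_ball_self hδ)) hζ

private theorem BRD_local (hn : 3 ≤ n) (hf : IsCurve Λ f) (b : ℂ) :
    ∃ m, ∀ᶠ b' in 𝓝 b, BRDgood f m b' := by
  obtain ⟨m, hm⟩ := BRD_point hn hf b
  refine ⟨m, ?_⟩
  obtain ⟨δ, hδ, c, hc, hall⟩ := id hm
  filter_upwards [ball_mem_nhds b hδ] with b' hb'
  by_cases h : b' = b
  · rw [h]; exact hm
  · exact BRDgood_mono (Nat.zero_le m) (BRDgood_of_notMem hn hf (hall b' hb' h).1)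

private theorem BRD_cover (Λ : Submodule ℤ ℂ) [DiscreteTopology Λ] [IsZLattice ℝ Λ] :
    ∃ R : ℝ, ∀ ζ : ℂ, ∃ ω ∈ Λ, ‖ζ - ω‖ ≤ R := by
  have : Module.Finite ℤ Λ := ZLattice.module_finite ℝ Λ
  have : Module.Free ℤ Λ := ZLattice.module_free ℝ Λ
  set b := (Module.Free.chooseBasis ℤ Λ).ofZLatticeBasis ℝ with hb
  have hspan : Submodule.span ℤ (Set.range b) = Λ :=
    (Module.Free.chooseBasis ℤ Λ).ofZLatticeBasis_span ℝ
  refine ⟨∑ i, ‖b i‖, fun ζ => ⟨(ZSpan.floor b ζ : ℂ), ?_, ?_⟩⟩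
  · exact hspan.le (ZSpan.floor b ζ).2
  · exact ZSpan.norm_fract_le b ζ

private theorem BRDgood_translate (hn : 3 ≤ n) (hf : IsCurve Λ f) {m : ℕ} {b ω : ℂ} (hω : ω ∈ Λ)
    (h : BRDgood f m b) : BRDgood f m (b + ω) := by
  obtain ⟨δ, hδ, c, hc, hall⟩ := h
  refine ⟨δ, hδ, c, hc, fun ζ hζ hne => ?_⟩
  have h1 : ζ - ω ∈ ball b δ := by
    rw [mem_ball, dist_eq_norm] at hζ ⊢
    have : ζ - ω - b = ζ - (b + ω) := by ring
    rwa [this]
  have h2 : ζ - ω ≠ b := fun h => hne (by rw [← h]; ring)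
  obtain ⟨h3, h4⟩ := hall (ζ - ω) h1 h2
  have h5 : ζ ∉ Br f := by
    rw [← Br_translate hn hf hω, sub_add_cancel] at h3
    exact h3
  refine ⟨h5, fun X Y hX hY hw => ?_⟩
  obtain ⟨j, hj, hj'⟩ := hf.aut ω hω
  have h6 : f ζ = j (ζ - ω) • f (ζ - ω) := by
    have := hj' (ζ - ω)
    rwa [sub_add_cancel] at this
  rw [h6, form_smul_left] at hX hY
  have h7 := h4 X Y ((mul_eq_zero.1 hX).resolve_left (hj _))
    ((mul_eq_zero.1 hY).resolve_left (hj _)) hw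
  have : ζ - ω - b = ζ - (b + ω) := by ring
  rwa [this] at h7

/-- `Br` is discrete, with uniform exponents for the separation of the roots. -/
theorem BRD (hn : 3 ≤ n) (hf : IsCurve Λ f) :
    ∃ m : ℕ, ∀ b : ℂ, ∃ δ > 0, ∃ c > 0, ∀ ζ ∈ ball b δ, ζ ≠ b → ζ ∉ Br f ∧
      ∀ X Y, form (f ζ) X = 0 → form (f ζ) Y = 0 → wd X Y ≠ 0 →
        c * ‖ζ - b‖ ^ m * ‖X‖ * ‖Y‖ ≤ ‖wd X Y‖ := by
  obtain ⟨R, hR⟩ := BRD_cover Λ
  have hcomp : ∃ m, ∀ b ∈ closedBall (0 : ℂ) R, BRDgood f m b := by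
    refine (isCompact_closedBall (0 : ℂ) R).induction_on
      (p := fun s => ∃ m, ∀ b ∈ s, BRDgood f m b) ⟨0, by simp⟩ ?_ ?_ ?_
    · rintro s t hst ⟨m, hm⟩
      exact ⟨m, fun b hb => hm b (hst hb)⟩
    · rintro s t ⟨m, hm⟩ ⟨m', hm'⟩
      refine ⟨max m m', fun b hb => ?_⟩
      rcases hb with hb | hb
      · exact BRDgood_mono (le_max_left _ _) (hm b hb)
      · exact BRDgood_mono (le_max_right _ _) (hm' b hb)
    · intro b _
      obtain ⟨m, hm⟩ := BRD_local hn hf b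
      exact ⟨_, mem_nhdsWithin_of_mem_nhds hm, m, fun b' hb' => hb'⟩
  obtain ⟨m, hm⟩ := hcomp
  refine ⟨m, fun b => ?_⟩
  obtain ⟨ω, hω, hb⟩ := hR b
  have h1 := BRDgood_translate hn hf hω (hm (b - ω) (by simpa using hb))
  rw [sub_add_cancel] at h1
  exact h1

theorem Br_finite (hn : 3 ≤ n) (hf : IsCurve Λ f) :
    ∃ Brs : Finset ℂ, ∀ ζ, ζ ∈ Br f ↔ ∃ β ∈ Brs, ζ - β ∈ Λ := by
  obtain ⟨R, hR⟩ := BRD_cover Λ
  obtain ⟨m, hm⟩ := BRD hn hf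
  have hfin : (closedBall (0 : ℂ) R ∩ Br f).Finite := by
    refine (isCompact_closedBall (0 : ℂ) R).induction_on
      (p := fun s => (s ∩ Br f).Finite) (by simp) ?_ ?_ ?_
    · intro s t hst ht
      exact ht.subset (inter_subset_inter_left _ hst)
    · intro s t hs ht
      rw [union_inter_distrib_right]
      exact hs.union ht
    · intro b _
      obtain ⟨δ, hδ, c, hc, hall⟩ := hm b
      refine ⟨ball b δ, mem_nhdsWithin_of_mem_nhds (ball_mem_nhds b hδ), ?_⟩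
      refine (finite_singleton b).subset ?_
      rintro ζ ⟨h1, h2⟩
      by_contra hne
      exact (hall ζ h1 hne).1 h2
  refine ⟨hfin.toFinset, fun ζ => ⟨fun hζ => ?_, ?_⟩⟩
  · obtain ⟨ω, hω, hb⟩ := hR ζ
    refine ⟨ζ - ω, ?_, ?_⟩
    · rw [Set.Finite.mem_toFinset]
      refine ⟨by simpa using hb, ?_⟩
      rw [← Br_translate hn hf hω, sub_add_cancel]
      exact hζ
    · rw [sub_sub_cancel]; exact hω
  · rintro ⟨β, hβ, h⟩
    rw [Set.Finite.mem_toFinset] at hβ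
    have := (Br_translate hn hf h β).2 hβ.2
    rwa [add_sub_cancel] at this

end Pool.Agent.EPO
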