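import Pool.Agent.EPO.RTA

open scoped Manifold Topology LinearAlgebra.Projectivization
open Filter Metric Set

namespace Pool.Agent.EPO

/-- The form in the affine coordinate `t` of `β + t α`. -/
private noncomputable def BRLQ {n : ℕ} (c : Fin (n + 1) → ℂ) (α β : ℂ × ℂ) : Polynomial ℂ :=
  ∑ i : Fin (n + 1), Polynomial.C (c i) *
    ((Polynomial.C β.1 + Polynomial.C α.1 * Polynomial.X) ^ (i : ℕ) *
      (Polynomial.C β.2 + Polynomial.C α.2 * Polynomial.X) ^ (n - (i : ℕ)))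

private theorem BRLQ_eval {n : ℕ} (c : Fin (n + 1) → ℂ) (α β : ℂ × ℂ) (t : ℂ) :
    (BRLQ c α β).eval t = form c (β + t • α) := by
  simp only [BRLQ, form, Polynomial.eval_finsetSum, Polynomial.eval_mul, Polynomial.eval_C,
    Polynomial.eval_pow, Polynomial.eval_add, Polynomial.eval_X, Prod.fst_add, Prod.snd_add,
    Prod.smul_fst, Prod.smul_snd, smul_eq_mul]
  exact Finset.sum_congr rfl fun i _ => by ring

private theorem BRL_lin_deg (a b : ℂ) :
    (Polynomial.C b + Polynomial.C a * Polynomial.X : Polynomial ℂ).natDegree ≤ 1 := by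
  refine (Polynomial.natDegree_add_le _ _).trans (max_le (by simp) ?_)
  simpa using Polynomial.natDegree_C_mul_X_pow_le a 1

private theorem BRLQ_deg {n : ℕ} (c : Fin (n + 1) → ℂ) (α β : ℂ × ℂ) :
    (BRLQ c α β).natDegree ≤ n := by
  refine Polynomial.natDegree_sum_le_of_forall_le _ _ fun i _ => ?_
  refine (Polynomial.natDegree_C_mul_le _ _).trans (Polynomial.natDegree_mul_le.trans ?_)
  have h1 := Polynomial.natDegree_pow_le_of_le (i : ℕ) (BRL_lin_deg α.1 β.1)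
  have h2 := Polynomial.natDegree_pow_le_of_le (n - (i : ℕ)) (BRL_lin_deg α.2 β.2)
  have h3 := i.2
  omega

private theorem BRLQ_coeff {n : ℕ} (c : Fin (n + 1) → ℂ) (α β : ℂ × ℂ) :
    (BRLQ c α β).coeff n = form c α := by
  simp only [BRLQ, Polynomial.finsetSum_coeff, Polynomial.coeff_C_mul]
  rw [form]
  refine Finset.sum_congr rfl fun i _ => ?_
  congr 1
  have h1 := Polynomial.natDegree_pow_le_of_le (i : ℕ) (BRL_lin_deg α.1 β.1)
  have h2 := Polynomial.natDegree_pow_le_of_le (n - (i : ℕ)) (BRL_lin_deg α.2 β.2)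
  have h3 := Polynomial.coeff_mul_add_eq_of_natDegree_le h1 h2
  have h4 : (i : ℕ) * 1 + (n - (i : ℕ)) * 1 = n := by have := i.2; omega
  rw [h4] at h3
  rw [h3, Polynomial.coeff_pow_of_natDegree_le (BRL_lin_deg α.1 β.1),
    Polynomial.coeff_pow_of_natDegree_le (BRL_lin_deg α.2 β.2)]
  simp

/-- The monic polynomial of the roots. -/
private noncomputable def BRLP {n : ℕ} (c : Fin (n + 1) → ℂ) (α β : ℂ × ℂ) : Polynomial ℂ :=
  Polynomial.C (form c α)⁻¹ * BRLQ c α β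

private theorem BRLP_deg_le {n : ℕ} (c : Fin (n + 1) → ℂ) (α β : ℂ × ℂ) :
    (BRLP c α β).natDegree ≤ n :=
  (Polynomial.natDegree_C_mul_le _ _).trans (BRLQ_deg c α β)

private theorem BRLP_monic {n : ℕ} {c : Fin (n + 1) → ℂ} {α : ℂ × ℂ} (β : ℂ × ℂ)
    (hα : form c α ≠ 0) : (BRLP c α β).Monic := by
  refine Polynomial.monic_of_natDegree_le_of_coeff_eq_one n (BRLP_deg_le c α β) ?_
  rw [BRLP, Polynomial.coeff_C_mul, BRLQ_coeff, inv_mul_cancel₀ hα]

private theorem BRLP_deg {n : ℕ} {c : Fin (n + 1) → ℂ} {α : ℂ × ℂ} (β : ℂ × ℂ)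
    (hα : form c α ≠ 0) : (BRLP c α β).natDegree = n := by
  refine Polynomial.natDegree_eq_of_le_of_coeff_ne_zero (BRLP_deg_le c α β) ?_
  rw [BRLP, Polynomial.coeff_C_mul, BRLQ_coeff, inv_mul_cancel₀ hα]
  exact one_ne_zero

private theorem BRLP_root {n : ℕ} {c : Fin (n + 1) → ℂ} {α : ℂ × ℂ} (β : ℂ × ℂ)
    (hα : form c α ≠ 0) (t : ℂ) : t ∈ (BRLP c α β).roots ↔ form c (β + t • α) = 0 := by
  rw [Polynomial.mem_roots (BRLP_monic β hα).ne_zero, Polynomial.IsRoot, BRLP, Polynomial.eval_mul,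
    Polynomial.eval_C, BRLQ_eval, mul_eq_zero, or_iff_right (inv_ne_zero hα)]

/-- The discriminant (up to sign). -/
private noncomputable def BRLR {n : ℕ} (c : Fin (n + 1) → ℂ) (α β : ℂ × ℂ) : ℂ :=
  Polynomial.resultant (BRLP c α β) (Polynomial.derivative (BRLP c α β)) n (n - 1)

private theorem BRLR_eq {n : ℕ} {c : Fin (n + 1) → ℂ} {α : ℂ × ℂ} (β : ℂ × ℂ)
    (hα : form c α ≠ 0) : BRLR c α β = ((BRLP c α β).roots.map
      (fun r => (Polynomial.derivative (BRLP c α β)).eval r)).prod := by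
  have h1 := Polynomial.resultant_eq_prod_eval (BRLP c α β)
    (Polynomial.derivative (BRLP c α β)) (n - 1) (by
      have := Polynomial.natDegree_derivative_le (BRLP c α β)
      rwa [BRLP_deg β hα] at this) (IsAlgClosed.splits _)
  rw [BRLP_deg β hα, (BRLP_monic β hα).leadingCoeff, one_pow, one_mul] at h1
  exact h1

private theorem BRL_prod_le {s : Multiset ℂ} {g : ℂ → ℂ} {M : ℝ} (hM : 0 ≤ M)
    (h : ∀ x ∈ s, ‖g x‖ ≤ M) : ‖(s.map g).prod‖ ≤ M ^ (Multiset.card s) := by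
  induction s using Multiset.induction_on with
  | empty => simp
  | cons a s ih =>
    rw [Multiset.map_cons, Multiset.prod_cons, norm_mul, Multiset.card_cons, pow_succ, mul_comm]
    exact mul_le_mul (ih fun x hx => h x (Multiset.mem_cons_of_mem hx))
      (h a (Multiset.mem_cons_self _ _)) (norm_nonneg _) (pow_nonneg hM _)

private theorem BRL_wd (α β : ℂ × ℂ) (h : wd β α = 1) (t t' : ℂ) :
    wd (β + t • α) (β + t' • α) = t' - t := by
  have h1 : wd (β + t • α) (β + t' • α) = (t' - t) * wd β α := by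
    simp only [wd, Prod.fst_add, Prod.snd_add, Prod.smul_fst, Prod.smul_snd, smul_eq_mul]
    ring
  rw [h1, h, mul_one]

private theorem BRL_repr {n : ℕ} {c : Fin (n + 1) → ℂ} {α β : ℂ × ℂ} (hαβ : wd β α = 1)
    (hα : form c α ≠ 0) {X : ℂ × ℂ} (hX : X ≠ 0) (h0 : form c X = 0) :
    ∃ u t : ℂ, u ≠ 0 ∧ u = wd X α ∧ X = u • (β + t • α) ∧ form c (β + t • α) = 0 := by
  have h1 := wd_decomp β α X
  rw [hαβ, one_smul] at h1
  have hu : wd X α ≠ 0 := by
    intro hu
    rw [hu, zero_smul, zero_sub, ← neg_smul] at h1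
    have h2 : -wd X β ≠ 0 := by
      intro h3
      rw [h3, zero_smul] at h1
      exact hX h1
    rw [h1, form_smul_right] at h0
    exact (mul_ne_zero (pow_ne_zero _ h2) hα) h0
  have h2 : X = wd X α • (β + (-wd X β / wd X α) • α) := by
    rw [smul_add, smul_smul, mul_div_cancel₀ _ hu, neg_smul, ← sub_eq_add_neg]
    exact h1
  refine ⟨wd X α, -wd X β / wd X α, hu, rfl, h2, ?_⟩
  rw [h2, form_smul_right] at h0
  exact (mul_eq_zero.1 h0).resolve_left (pow_ne_zero _ hu)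

/-- If the discriminant vanishes, there is no full system of roots. -/
private theorem BRL_zero {n : ℕ} (hn : 3 ≤ n) {c : Fin (n + 1) → ℂ} {α β : ℂ × ℂ}
    (hαβ : wd β α = 1) (hα : form c α ≠ 0) (hR : BRLR c α β = 0) : ¬ ∃ B, Roots c B := by
  classical
  rintro ⟨B, hB⟩
  have hB0 : ∀ i, form c (B i) = 0 := fun i => by
    rw [hB.1]
    exact Finset.prod_eq_zero (Finset.mem_univ i) (by simp [wd, mul_comm])
  choose u t hu hu' hut ht using fun i => BRL_repr hαβ hα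
    (roots_ne_zero (by omega) hB i) (hB0 i)
  have htinj : Function.Injective t := by
    intro i j hij
    by_contra hne
    apply hB.2 i j hne
    rw [hut i, hut j, hij]
    simp only [wd, Prod.smul_fst, Prod.smul_snd, smul_eq_mul]
    ring
  set P := BRLP c α β with hP
  have hmem : ∀ i, t i ∈ P.roots := fun i => (BRLP_root β hα _).2 (ht i)
  have hcard : Multiset.card P.roots ≤ n := by
    have := P.card_roots'
    rwa [hP, BRLP_deg β hα] at this
  have hsub : Finset.univ.image t ⊆ P.roots.toFinset := by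
    intro x hx
    obtain ⟨i, -, rfl⟩ := Finset.mem_image.1 hx
    exact Multiset.mem_toFinset.2 (hmem i)
  have hc1 : n ≤ P.roots.toFinset.card := by
    have h1 := Finset.card_le_card hsub
    rwa [Finset.card_image_of_injective _ htinj, Finset.card_univ, Fintype.card_fin] at h1
  have hnodup : P.roots.Nodup := by
    rw [← Multiset.toFinset_card_eq_card_iff_nodup]
    exact le_antisymm (Multiset.toFinset_card_le _) (hcard.trans hc1)
  rw [BRLR_eq β hα, Multiset.prod_eq_zero_iff] at hR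
  obtain ⟨r, hr, hr0⟩ := Multiset.mem_map.1 hR
  rw [(IsAlgClosed.splits P).eval_root_derivative (BRLP_monic β hα) hr,
    Multiset.prod_eq_zero_iff] at hr0
  obtain ⟨s, hs, hs0⟩ := Multiset.mem_map.1 hr0
  have h2 := (hnodup.mem_erase_iff).1 hs
  exact h2.1 (sub_eq_zero.1 hs0).symm

/-- If the discriminant does not vanish there is a full system of roots, separated in terms of the
discriminant. -/
private theorem BRL_ne {n : ℕ} (hn : 3 ≤ n) {c : Fin (n + 1) → ℂ} {α β : ℂ × ℂ}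
    (hαβ : wd β α = 1) (hα : form c α ≠ 0) (hR : BRLR c α β ≠ 0) {κ : ℝ} (hκ : 0 < κ)
    (hκ' : ∀ X, form c X = 0 → κ * ‖X‖ ≤ ‖wd X α‖) :
    (∃ B, Roots c B) ∧ ∀ X Y, form c X = 0 → form c Y = 0 → wd X Y ≠ 0 →
      κ ^ 2 * (max 1 (2 * ((κ⁻¹ + ‖β‖) / ‖α‖)) ^ (n - 2) *
        (max 1 (2 * ((κ⁻¹ + ‖β‖) / ‖α‖)) ^ (n - 1)) ^ (n - 1))⁻¹ *
          ‖BRLR c α β‖ * ‖X‖ * ‖Y‖ ≤ ‖wd X Y‖ := by
  classical
  set P := BRLP c α β with hP
  have hPm : P.Monic := BRLP_monic β hα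
  have hcard : Multiset.card P.roots = n := by
    rw [← (IsAlgClosed.splits P).natDegree_eq_card_roots, hP, BRLP_deg β hα]
  have hRe := BRLR_eq β hα
  rw [← hP] at hRe
  have hPd : ∀ r ∈ P.roots, (Polynomial.derivative P).eval r ≠ 0 := by
    intro r hr h0
    apply hR
    rw [hRe]
    exact Multiset.prod_eq_zero (Multiset.mem_map.2 ⟨r, hr, h0⟩)
  have hPd' : ∀ r ∈ P.roots, (Polynomial.derivative P).eval r =
      ((P.roots.erase r).map (r - ·)).prod := fun r hr =>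
    (IsAlgClosed.splits P).eval_root_derivative hPm hr
  have hnodup : P.roots.Nodup := by
    rw [Multiset.nodup_iff_count_le_one]
    intro r
    by_contra hcon
    push Not at hcon
    have hr : r ∈ P.roots := Multiset.count_pos.1 (by omega)
    apply hPd r hr
    rw [hPd' r hr]
    refine Multiset.prod_eq_zero (Multiset.mem_map.2 ⟨r, ?_, sub_self r⟩)
    rw [← Multiset.count_pos, Multiset.count_erase_self]
    omega
  set T : ℝ := (κ⁻¹ + ‖β‖) / ‖α‖ with hT
  set S : ℝ := max 1 (2 * T) with hS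
  have hS1 : 1 ≤ S := le_max_left _ _
  have hα0 : α ≠ 0 := by
    rintro rfl
    simp [wd] at hαβ
  have hαn : 0 < ‖α‖ := norm_pos_iff.2 hα0
  have hrT : ∀ r ∈ P.roots, ‖r‖ ≤ T := by
    intro r hr
    have h1 := hκ' _ ((BRLP_root β hα r).1 hr)
    have h2 : wd (β + r • α) α = 1 := by
      rw [← hαβ]
      simp only [wd, Prod.fst_add, Prod.snd_add, Prod.smul_fst, Prod.smul_snd, smul_eq_mul]
      ring
    rw [h2, norm_one] at h1
    have h3 : ‖β + r • α‖ ≤ κ⁻¹ := by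
      rw [← one_div, le_div_iff₀ hκ, mul_comm]
      exact h1
    rw [hT, le_div_iff₀ hαn, ← norm_smul]
    have h4 : r • α = (β + r • α) - β := by abel
    rw [h4]
    exact (norm_sub_le _ _).trans (by linarith)
  have hdS : ∀ r ∈ P.roots, ∀ s ∈ P.roots, ‖r - s‖ ≤ S := fun r hr s hs =>
    (norm_sub_le _ _).trans ((by linarith [hrT r hr, hrT s hs] : _ ≤ 2 * T).trans
      (le_max_right _ _))
  have hdP : ∀ r ∈ P.roots, ‖(Polynomial.derivative P).eval r‖ ≤ S ^ (n - 1) := by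
    intro r hr
    rw [hPd' r hr]
    have h1 := BRL_prod_le (s := P.roots.erase r) (g := (r - ·)) (M := S) (by linarith)
      (fun x hx => hdS r hr x (Multiset.mem_of_mem_erase hx))
    rwa [Multiset.card_erase_of_mem hr, hcard] at h1
  refine ⟨?_, ?_⟩
  · have hc2 : P.roots.toFinset.card = n := by
      rw [Multiset.toFinset_card_of_nodup hnodup, hcard]
    set e := P.roots.toFinset.equivFinOfCardEq hc2 with he
    have hmem : ∀ i, ((e.symm i : ℂ)) ∈ P.roots := fun i =>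
      Multiset.mem_toFinset.1 (e.symm i).2
    have hc0 : c ≠ 0 := by
      rintro rfl
      exact hα (by simp [form])
    obtain ⟨s, hs⟩ := roots_of_zeros (n := n) (by omega) hc0
      (B := fun i => β + (e.symm i : ℂ) • α) (fun i => (BRLP_root β hα _).1 (hmem i))
      (fun i j hij => by
        rw [BRL_wd α β hαβ]
        exact sub_ne_zero.2 fun h => hij (e.symm.injective (Subtype.ext h)).symm)
      (fun i h => by
        have h2 : wd (β + (e.symm i : ℂ) • α) α = 1 := by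
          rw [← hαβ]
          simp only [wd, Prod.fst_add, Prod.snd_add, Prod.smul_fst, Prod.smul_snd, smul_eq_mul]
          ring
        rw [h] at h2
        simp [wd] at h2)
    exact ⟨_, hs⟩
  · intro X Y hX hY hXY
    have hX0 : X ≠ 0 := by
      rintro rfl
      simp [wd] at hXY
    have hY0 : Y ≠ 0 := by
      rintro rfl
      simp [wd] at hXY
    obtain ⟨u, t, hu, hu', hut, ht⟩ := BRL_repr hαβ hα hX0 hX
    obtain ⟨v, t', hv, hv', hvt, ht'⟩ := BRL_repr hαβ hα hY0 hY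
    have hwd : wd X Y = u * v * (t' - t) := by
      rw [← BRL_wd α β hαβ, hut, hvt]
      simp only [wd, Prod.smul_fst, Prod.smul_snd, smul_eq_mul]
      ring
    have hne : t' ≠ t := by
      rintro rfl
      rw [hwd, sub_self, mul_zero] at hXY
      exact hXY rfl
    have hm : t ∈ P.roots := (BRLP_root β hα t).2 ht
    have hm' : t' ∈ P.roots := (BRLP_root β hα t').2 ht'
    have hme : t' ∈ P.roots.erase t := (hnodup.mem_erase_iff).2 ⟨hne, hm'⟩
    have hb1 : ‖(Polynomial.derivative P).eval t‖ ≤ ‖t' - t‖ * S ^ (n - 2) := by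
      rw [hPd' t hm, ← Multiset.prod_map_erase hme, norm_mul, norm_sub_rev t t']
      refine mul_le_mul_of_nonneg_left ?_ (norm_nonneg _)
      have h1 := BRL_prod_le (s := (P.roots.erase t).erase t') (g := (t - ·)) (M := S)
        (by linarith) (fun x hx => hdS t hm x
          (Multiset.mem_of_mem_erase (Multiset.mem_of_mem_erase hx)))
      rw [Multiset.card_erase_of_mem hme, Multiset.card_erase_of_mem hm, hcard] at h1
      exact h1
    have hb2 : ‖BRLR c α β‖ ≤ ‖t' - t‖ * S ^ (n - 2) * (S ^ (n - 1)) ^ (n - 1) := by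
      rw [hRe, ← Multiset.prod_map_erase hm, norm_mul]
      refine mul_le_mul hb1 ?_ (norm_nonneg _) (by positivity)
      have h1 := BRL_prod_le (s := P.roots.erase t)
        (g := fun r => (Polynomial.derivative P).eval r) (M := S ^ (n - 1))
        (by positivity) (fun x hx => hdP x (Multiset.mem_of_mem_erase hx))
      rwa [Multiset.card_erase_of_mem hm, hcard] at h1
    have hb3 : (S ^ (n - 2) * (S ^ (n - 1)) ^ (n - 1))⁻¹ * ‖BRLR c α β‖ ≤ ‖t' - t‖ := by
      rw [inv_mul_le_iff₀ (by positivity)]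
      calc _ ≤ _ := hb2
        _ = _ := by ring
    rw [hwd, norm_mul, norm_mul]
    have h5 := hκ' X hX
    have h6 := hκ' Y hY
    rw [← hu'] at h5
    rw [← hv'] at h6
    calc κ ^ 2 * (S ^ (n - 2) * (S ^ (n - 1)) ^ (n - 1))⁻¹ * ‖BRLR c α β‖ * ‖X‖ * ‖Y‖
        = (κ * ‖X‖) * (κ * ‖Y‖) * ((S ^ (n - 2) * (S ^ (n - 1)) ^ (n - 1))⁻¹ *
          ‖BRLR c α β‖) := by ring
      _ ≤ ‖u‖ * ‖v‖ * ‖t' - t‖ := by
          refine mul_le_mul (mul_le_mul h5 h6 (by positivity) (norm_nonneg _)) hb3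
            (by positivity) (by positivity)

private theorem BRLR_diff {n : ℕ} {f : ℂ → Fin (n + 1) → ℂ} {U : Set ℂ}
    (hf : DifferentiableOn ℂ f U) {α : ℂ × ℂ} (β : ℂ × ℂ) (hα : ∀ ζ ∈ U, form (f ζ) α ≠ 0) :
    DifferentiableOn ℂ (fun ζ => BRLR (f ζ) α β) U := by
  have hfα : DifferentiableOn ℂ (fun ζ => form (f ζ) α) U :=
    form_diff hf (differentiableOn_const α)
  have hP : ∀ k, DifferentiableOn ℂ (fun ζ => (BRLP (f ζ) α β).coeff k) U := by
    intro k
    simp only [BRLP, BRLQ, Polynomial.coeff_C_mul, Polynomial.finsetSum_coeff]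
    refine (hfα.inv hα).mul (DifferentiableOn.fun_sum fun i _ => ?_)
    exact ((differentiableOn_pi.1 hf) i).mul (differentiableOn_const _)
  have hP' : ∀ k, DifferentiableOn ℂ
      (fun ζ => (Polynomial.derivative (BRLP (f ζ) α β)).coeff k) U := by
    intro k
    simp only [Polynomial.coeff_derivative]
    exact (hP (k + 1)).mul (differentiableOn_const _)
  simp only [BRLR, Polynomial.resultant, Matrix.det_apply']
  refine DifferentiableOn.fun_sum fun σ _ => ?_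
  refine (differentiableOn_const _).mul (DifferentiableOn.fun_finsetProd fun i _ => ?_)
  induction i using Fin.addCases with
  | left j =>
    simp only [Polynomial.sylvester, Matrix.of_apply, Fin.addCases_left]
    split_ifs
    · exact hP' _
    · exact differentiableOn_const _
  | right j =>
    simp only [Polynomial.sylvester, Matrix.of_apply, Fin.addCases_right]
    split_ifs
    · exact hP _
    · exact differentiableOn_const _

private theorem BRL_core {n : ℕ} (hn : 3 ≤ n) {f : ℂ → Fin (n + 1) → ℂ} (hf : Differentiable ℂ f)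
    (h0 : ∀ ζ, f ζ ≠ 0) (b : ℂ) :
    ∃ δ > 0, ∃ R : ℂ → ℂ, ∃ C > 0, DifferentiableOn ℂ R (ball b δ) ∧ ∀ ζ ∈ ball b δ,
      (R ζ = 0 → ζ ∈ Br f) ∧ (R ζ ≠ 0 → ζ ∉ Br f ∧
        ∀ X Y, form (f ζ) X = 0 → form (f ζ) Y = 0 → wd X Y ≠ 0 →
          C * ‖R ζ‖ * ‖X‖ * ‖Y‖ ≤ ‖wd X Y‖) := by
  -- a vector on which the form does not vanish
  have hα : ∃ α, form (f b) α ≠ 0 := by
    by_contra hcon
    push Not at hcon
    apply h0 b
    have hpoly : (∑ i : Fin (n + 1), Polynomial.C (f b i) * Polynomial.X ^ (i : ℕ) :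
        Polynomial ℂ) = 0 := by
      refine Polynomial.funext fun t => ?_
      have h1 := hcon (t, 1)
      simp only [form, one_pow, mul_one] at h1
      simpa [Polynomial.eval_finsetSum] using h1
    funext i
    have h2 := congrArg (fun p : Polynomial ℂ => p.coeff (i : ℕ)) hpoly
    simp only [Polynomial.finsetSum_coeff, Polynomial.coeff_C_mul, Polynomial.coeff_X_pow,
      Polynomial.coeff_zero] at h2
    rw [Finset.sum_eq_single i] at h2
    · simpa using h2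
    · intro j _ hj
      rw [if_neg fun h => hj (Fin.ext h.symm), mul_zero]
    · intro h
      exact absurd (Finset.mem_univ i) h
  obtain ⟨α, hα⟩ := hα
  have hα0 : α ≠ 0 := by
    rintro rfl
    apply hα
    have h1 := form_smul_right (0 : ℂ) (f b) (0 : ℂ × ℂ)
    rw [zero_smul, zero_pow (by omega), zero_mul] at h1
    exact h1
  have hβ : ∃ β : ℂ × ℂ, wd β α = 1 := by
    by_cases h2 : α.2 = 0
    · have h1 : α.1 ≠ 0 := fun h1 => hα0 (Prod.ext h1 h2)
      refine ⟨(0, -α.1⁻¹), ?_⟩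
      simp only [wd]
      field_simp
      ring
    · refine ⟨(α.2⁻¹, 0), ?_⟩
      simp only [wd]
      field_simp
      ring
  obtain ⟨β, hβ⟩ := hβ
  have hcα : Continuous fun ζ => form (f ζ) α := form_cont hf.continuous continuous_const
  obtain ⟨δ, hδ, hball⟩ := Metric.eventually_nhds_iff_ball.1
    (hcα.continuousAt.eventually_ne hα : ∀ᶠ ζ in 𝓝 b, form (f ζ) α ≠ 0)
  set K : Set (ℂ × (ℂ × ℂ)) := closedBall b (δ / 2) ×ˢ sphere (0 : ℂ × ℂ) 1 with hK
  have hKc : IsCompact K := (isCompact_closedBall b (δ / 2)).prod (isCompact_sphere 0 1)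
  set φ : ℂ × (ℂ × ℂ) → ℝ := fun y => ‖form (f y.1) y.2‖ + ‖wd y.2 α‖ with hφ
  have hφc : Continuous φ := by
    refine (form_cont (hf.continuous.comp continuous_fst) continuous_snd).norm.add ?_
    refine Continuous.norm ?_
    simp only [wd]
    fun_prop
  have hφpos : ∀ y ∈ K, 0 < φ y := by
    rintro ⟨ζ, X⟩ ⟨hζ, hX⟩
    have hX0 : X ≠ 0 := by
      rintro rfl
      simp at hX
    by_contra hcon
    have h1 : ‖form (f ζ) X‖ = 0 := le_antisymm (by
      have := norm_nonneg (wd X α)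
      simp only [hφ] at hcon
      linarith [norm_nonneg (form (f ζ) X)]) (norm_nonneg _)
    have h2 : ‖wd X α‖ = 0 := le_antisymm (by
      have := norm_nonneg (form (f ζ) X)
      simp only [hφ] at hcon
      linarith [norm_nonneg (wd X α)]) (norm_nonneg _)
    obtain ⟨s, hs, hs'⟩ := exists_smul_of_wd hX0 hα0 (norm_eq_zero.1 h2)
    have h3 : form (f ζ) α = 0 := by
      rw [hs', form_smul_right, norm_eq_zero.1 h1, mul_zero]
    exact hball ζ (closedBall_subset_ball (by linarith) hζ) h3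
  have hKne : K.Nonempty := by
    refine ⟨(b, ((1 : ℂ), (0 : ℂ))), mem_closedBall_self (by positivity), ?_⟩
    simp [Prod.norm_def]
  obtain ⟨y₀, hy₀, hmin⟩ := hKc.exists_isMinOn hKne hφc.continuousOn
  set κ : ℝ := φ y₀ with hκ
  have hκpos : 0 < κ := hφpos y₀ hy₀
  have hκ' : ∀ ζ ∈ ball b (δ / 2), ∀ X, form (f ζ) X = 0 → κ * ‖X‖ ≤ ‖wd X α‖ := by
    intro ζ hζ X hX
    by_cases hX0 : X = 0
    · rw [hX0]; simp [wd]
    have hn0 : 0 < ‖X‖ := norm_pos_iff.2 hX0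
    have hmem : (ζ, (((‖X‖⁻¹ : ℝ) : ℂ) • X)) ∈ K := by
      refine ⟨ball_subset_closedBall hζ, ?_⟩
      rw [mem_sphere, dist_zero_right, norm_smul, Complex.norm_real, norm_inv, norm_norm,
        inv_mul_cancel₀ hn0.ne']
    have h1 := hmin hmem
    simp only [mem_ofPred_eq] at h1
    have h2 : φ (ζ, (((‖X‖⁻¹ : ℝ) : ℂ) • X)) = ‖X‖⁻¹ * ‖wd X α‖ := by
      simp only [hφ]
      rw [form_smul_right, hX, mul_zero, norm_zero, zero_add]
      have h3 : wd ((((‖X‖⁻¹ : ℝ) : ℂ)) • X) α = (((‖X‖⁻¹ : ℝ) : ℂ)) * wd X α := by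
        simp only [wd, Prod.smul_fst, Prod.smul_snd, smul_eq_mul]; ring
      rw [h3, norm_mul, Complex.norm_real, norm_inv, norm_norm]
    rw [h2] at h1
    calc κ * ‖X‖ ≤ (‖X‖⁻¹ * ‖wd X α‖) * ‖X‖ := mul_le_mul_of_nonneg_right h1 hn0.le
      _ = ‖wd X α‖ := by field_simp
  refine ⟨δ / 2, by positivity, fun ζ => BRLR (f ζ) α β,
    κ ^ 2 * (max 1 (2 * ((κ⁻¹ + ‖β‖) / ‖α‖)) ^ (n - 2) *
        (max 1 (2 * ((κ⁻¹ + ‖β‖) / ‖α‖)) ^ (n - 1)) ^ (n - 1))⁻¹, ?_, ?_, ?_⟩
  · have h1 : (0 : ℝ) < max 1 (2 * ((κ⁻¹ + ‖β‖) / ‖α‖)) := lt_of_lt_of_le one_pos (le_max_left _ _)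
    positivity
  · exact BRLR_diff hf.differentiableOn β fun ζ hζ =>
      hball ζ (ball_subset_ball (by linarith) hζ)
  · intro ζ hζ
    have hζα := hball ζ (ball_subset_ball (by linarith) hζ)
    refine ⟨fun h => BRL_zero hn hβ hζα h, fun h => ?_⟩
    obtain ⟨h1, h2⟩ := BRL_ne hn hβ hζα h hκpos (hκ' ζ hζ)
    exact ⟨fun h3 => h3 h1, h2⟩

/-- The set `Br` near a point. -/
theorem BRL {n : ℕ} (hn : 3 ≤ n) {f : ℂ → Fin (n + 1) → ℂ} (hf : Differentiable ℂ f)
    (h0 : ∀ ζ, f ζ ≠ 0) (b : ℂ) :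
    ∃ δ > 0, ball b δ ⊆ Br f ∨ ∃ c > 0, ∃ m : ℕ, ∀ ζ ∈ ball b δ, ζ ≠ b → ζ ∉ Br f ∧
      ∀ X Y, form (f ζ) X = 0 → form (f ζ) Y = 0 → wd X Y ≠ 0 →
        c * ‖ζ - b‖ ^ m * ‖X‖ * ‖Y‖ ≤ ‖wd X Y‖ := by
  obtain ⟨δ, hδ, R, C, hC, hR, hall⟩ := BRL_core hn hf h0 b
  have han : AnalyticAt ℂ R b := hR.analyticAt (isOpen_ball.mem_nhds (mem_ball_self hδ))
  by_cases hz : ∀ᶠ z in 𝓝 b, R z = 0
  · obtain ⟨δ', hδ', h1⟩ := Metric.eventually_nhds_iff_ball.1 hz
    refine ⟨min δ δ', lt_min hδ hδ', Or.inl fun ζ hζ => ?_⟩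
    exact (hall ζ (ball_subset_ball (min_le_left _ _) hζ)).1
      (h1 ζ (ball_subset_ball (min_le_right _ _) hζ))
  · obtain ⟨m, g, hg, hg0, hRg⟩ := han.exists_eventuallyEq_pow_smul_nonzero_iff.2 hz
    have hgn : ∀ᶠ z in 𝓝 b, ‖g b‖ / 2 < ‖g z‖ := by
      refine hg.continuousAt.norm.eventually (lt_mem_nhds ?_)
      have := norm_pos_iff.2 hg0
      linarith
    obtain ⟨δ', hδ', h1⟩ := Metric.eventually_nhds_iff_ball.1 (hRg.and hgn)
    refine ⟨min δ δ', lt_min hδ hδ', Or.inr ⟨C * (‖g b‖ / 2), ?_, m, fun ζ hζ hζb => ?_⟩⟩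
    · have := norm_pos_iff.2 hg0
      positivity
    · obtain ⟨h2, h3⟩ := h1 ζ (ball_subset_ball (min_le_right _ _) hζ)
      have h4 := (hall ζ (ball_subset_ball (min_le_left _ _) hζ)).2
      have h5 : ‖R ζ‖ = ‖ζ - b‖ ^ m * ‖g ζ‖ := by
        rw [h2, norm_smul, norm_pow]
      have h6 : R ζ ≠ 0 := by
        rw [← norm_pos_iff, h5]
        have h7 : 0 < ‖ζ - b‖ := norm_pos_iff.2 (sub_ne_zero.2 hζb)
        have h8 : 0 < ‖g ζ‖ := lt_of_le_of_lt (by positivity) h3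
        positivity
      refine ⟨(h4 h6).1, fun X Y hX hY hXY => le_trans ?_ ((h4 h6).2 X Y hX hY hXY)⟩
      rw [h5]
      calc C * (‖g b‖ / 2) * ‖ζ - b‖ ^ m * ‖X‖ * ‖Y‖
          = (C * ‖ζ - b‖ ^ m * ‖X‖ * ‖Y‖) * (‖g b‖ / 2) := by ring
        _ ≤ (C * ‖ζ - b‖ ^ m * ‖X‖ * ‖Y‖) * ‖g ζ‖ :=
          mul_le_mul_of_nonneg_left h3.le (by positivity)
        _ = _ := by ring

theorem BRR {n : ℕ} (hn : 3 ≤ n) {f : ℂ → Fin (n + 1) → ℂ} (hf : Differentiable ℂ f)
    (h0 : ∀ ζ, f ζ ≠ 0) {b : ℂ} (hb : b ∉ Br f) :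
    ∃ δ > 0, ∃ c > 0, ∀ ζ ∈ ball b δ, ζ ∉ Br f ∧
      ∀ X Y, form (f ζ) X = 0 → form (f ζ) Y = 0 → wd X Y ≠ 0 → c * ‖X‖ * ‖Y‖ ≤ ‖wd X Y‖ := by
  obtain ⟨δ, hδ, R, C, hC, hR, hall⟩ := BRL_core hn hf h0 b
  have hRb : R b ≠ 0 := fun h => hb ((hall b (mem_ball_self hδ)).1 h)
  have hRc : ContinuousAt R b :=
    (hR.differentiableAt (isOpen_ball.mem_nhds (mem_ball_self hδ))).continuousAt
  have hpos := norm_pos_iff.2 hRb
  have hgn : ∀ᶠ z in 𝓝 b, ‖R b‖ / 2 < ‖R z‖ :=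
    hRc.norm.eventually (lt_mem_nhds (by linarith))
  obtain ⟨δ', hδ', h1⟩ := Metric.eventually_nhds_iff_ball.1 hgn
  refine ⟨min δ δ', lt_min hδ hδ', C * (‖R b‖ / 2), by positivity, fun ζ hζ => ?_⟩
  have h3 := h1 ζ (ball_subset_ball (min_le_right _ _) hζ)
  have h4 := (hall ζ (ball_subset_ball (min_le_left _ _) hζ)).2
  have h6 : R ζ ≠ 0 := norm_pos_iff.1 (lt_of_le_of_lt (by positivity) h3)
  refine ⟨(h4 h6).1, fun X Y hX hY hXY => le_trans ?_ ((h4 h6).2 X Y hX hY hXY)⟩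
  calc C * (‖R b‖ / 2) * ‖X‖ * ‖Y‖ = (C * ‖X‖ * ‖Y‖) * (‖R b‖ / 2) := by ring
    _ ≤ (C * ‖X‖ * ‖Y‖) * ‖R ζ‖ := mul_le_mul_of_nonneg_left h3.le (by positivity)
    _ = _ := by ring

end Pool.Agent.EPO
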