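import Pool.Agent.EPO.COE

open scoped Manifold Topology LinearAlgebra.Projectivization
open Filter Metric Set

namespace Pool.Agent.EPO

/-- The derivative of a form in a direction, explicitly. -/
noncomputable def SRT_L {n : ℕ} (c : Fin (n + 1) → ℂ) (B γ : ℂ × ℂ) : ℂ :=
  ∑ i : Fin (n + 1), c i * ((((i : ℕ) : ℂ) * B.1 ^ ((i : ℕ) - 1) * γ.1) * B.2 ^ (n - (i : ℕ)) +
    B.1 ^ (i : ℕ) * (((n - (i : ℕ) : ℕ) : ℂ) * B.2 ^ (n - (i : ℕ) - 1) * γ.2))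

theorem SRT_hasDeriv {n : ℕ} (c : Fin (n + 1) → ℂ) (B γ : ℂ × ℂ) :
    HasDerivAt (fun t : ℂ => form c (B + t • γ)) (SRT_L c B γ) 0 := by
  unfold form SRT_L
  apply HasDerivAt.fun_sum
  intro i _
  apply HasDerivAt.const_mul
  have h1 : HasDerivAt (fun t : ℂ => (B + t • γ).1) γ.1 0 := by
    have := ((hasDerivAt_id (0 : ℂ)).mul_const γ.1).const_add B.1
    simpa using this
  have h2 : HasDerivAt (fun t : ℂ => (B + t • γ).2) γ.2 0 := by
    have := ((hasDerivAt_id (0 : ℂ)).mul_const γ.2).const_add B.2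
    simpa using this
  have := (h1.fun_pow (i : ℕ)).fun_mul (h2.fun_pow (n - (i : ℕ)))
  simpa using this

theorem SRT_L_lin {n : ℕ} (c : Fin (n + 1) → ℂ) (B γ : ℂ × ℂ) :
    SRT_L c B γ = SRT_L c B (1, 0) * γ.1 + SRT_L c B (0, 1) * γ.2 := by
  unfold SRT_L
  rw [Finset.sum_mul, Finset.sum_mul, ← Finset.sum_add_distrib]
  refine Finset.sum_congr rfl fun i _ => ?_
  ring

theorem SRT_euler {n : ℕ} (c : Fin (n + 1) → ℂ) (B : ℂ × ℂ) :
    SRT_L c B B = n * form c B := by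
  unfold SRT_L form
  rw [Finset.mul_sum]
  refine Finset.sum_congr rfl fun i _ => ?_
  have hi : (i : ℕ) ≤ n := Nat.lt_succ_iff.mp i.2
  have e1 : ((i : ℕ) : ℂ) * B.1 ^ ((i : ℕ) - 1) * B.1 = ((i : ℕ) : ℂ) * B.1 ^ (i : ℕ) := by
    rcases Nat.eq_zero_or_pos (i : ℕ) with h | h
    · rw [h]; simp
    · rw [mul_assoc, ← pow_succ, Nat.sub_add_cancel h]
  have e2 : ((n - (i : ℕ) : ℕ) : ℂ) * B.2 ^ (n - (i : ℕ) - 1) * B.2 =
      ((n - (i : ℕ) : ℕ) : ℂ) * B.2 ^ (n - (i : ℕ)) := by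
    rcases Nat.eq_zero_or_pos (n - (i : ℕ)) with h | h
    · rw [h]; simp
    · rw [mul_assoc, ← pow_succ, Nat.sub_add_cancel h]
  rw [e1, e2, Nat.cast_sub hi]
  ring

theorem SRT_exists_wd {B : ℂ × ℂ} (hB : B ≠ 0) : ∃ γ, wd γ B ≠ 0 := by
  by_cases h : B.2 = 0
  · refine ⟨(0, 1), ?_⟩
    have : B.1 ≠ 0 := fun h1 => hB (Prod.ext h1 h)
    simpa [wd] using this
  · exact ⟨(1, 0), by simpa [wd] using h⟩

theorem SRT_grad {n : ℕ} {c : Fin (n + 1) → ℂ} {B : ℂ × ℂ} {g : ℂ}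
    (h : Grad c B g) (γ : ℂ × ℂ) : g * wd γ B = SRT_L c B γ :=
  (h γ).unique (SRT_hasDeriv c B γ)

theorem grad_exists {n : ℕ} {c : Fin (n + 1) → ℂ} {B : ℂ × ℂ} (hB : B ≠ 0)
    (h : form c B = 0) : ∃ g, Grad c B g := by
  have he : SRT_L c B (1, 0) * B.1 + SRT_L c B (0, 1) * B.2 = 0 := by
    rw [← SRT_L_lin, SRT_euler, h, mul_zero]
  by_cases h2 : B.2 = 0
  · have h1 : B.1 ≠ 0 := fun h1 => hB (Prod.ext h1 h2)
    have hp : SRT_L c B (1, 0) = 0 := by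
      rw [h2, mul_zero, add_zero] at he
      exact (mul_eq_zero.mp he).resolve_right h1
    refine ⟨-(SRT_L c B (0, 1)) / B.1, fun γ => ?_⟩
    have := SRT_hasDeriv c B γ
    rw [SRT_L_lin, hp] at this
    convert this using 1
    unfold wd
    rw [h2]
    field_simp
    ring
  · refine ⟨SRT_L c B (1, 0) / B.2, fun γ => ?_⟩
    have := SRT_hasDeriv c B γ
    rw [SRT_L_lin] at this
    convert this using 1
    unfold wd
    field_simp
    linear_combination (-γ.2) * he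

theorem grad_unique {n : ℕ} {c : Fin (n + 1) → ℂ} {B : ℂ × ℂ} {g g' : ℂ} (hB : B ≠ 0)
    (h : Grad c B g) (h' : Grad c B g') : g = g' := by
  obtain ⟨γ, hγ⟩ := SRT_exists_wd hB
  exact mul_right_cancel₀ hγ ((h γ).unique (h' γ))

theorem grad_smul {n : ℕ} (hn : 2 ≤ n) {c : Fin (n + 1) → ℂ} {B : ℂ × ℂ} {g : ℂ}
    (h : Grad c B g) (s : ℂ) (hs : s ≠ 0) : Grad c (s • B) (s ^ (n - 2) * g) := by
  intro γ
  have h0 : HasDerivAt (fun t : ℂ => t / s) (1 / s) 0 := by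
    simpa using (hasDerivAt_id (0 : ℂ)).div_const s
  have h1 := h γ
  have h1' : HasDerivAt (fun t : ℂ => form c (B + t • γ)) (g * wd γ B) ((fun t : ℂ => t / s) 0) := by
    simpa using h1
  have h2 := (h1'.comp (0 : ℂ) h0).const_mul (s ^ n)
  have e : (fun t : ℂ => form c (s • B + t • γ)) =
      fun t : ℂ => s ^ n * ((fun t : ℂ => form c (B + t • γ)) ∘ fun t : ℂ => t / s) t := by
    funext t
    simp only [Function.comp]
    rw [← form_smul_right, smul_add, smul_smul, mul_div_cancel₀ t hs]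
  rw [e]
  refine h2.congr_deriv ?_
  have e2 : s ^ n = s ^ (n - 2) * s * s := by
    rw [mul_assoc, ← pow_two, ← pow_add, Nat.sub_add_cancel hn]
  rw [e2]
  unfold wd
  simp only [Prod.smul_fst, Prod.smul_snd, smul_eq_mul]
  field_simp

theorem grad_smul_left {n : ℕ} {c : Fin (n + 1) → ℂ} {B : ℂ × ℂ} {g : ℂ} (h : Grad c B g)
    (j : ℂ) : Grad (j • c) B (j * g) := by
  intro γ
  have := (h γ).const_mul j
  simp only [form_smul_left]
  rw [mul_assoc]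
  exact this

/-- The coefficient `g` is minus the derivative in a direction `α` with `wd B α = 1`; it depends
holomorphically on parameters. -/
theorem grad_diff {n : ℕ} {U : Set ℂ} (hU : IsOpen U) {c : ℂ → Fin (n + 1) → ℂ} {B : ℂ → ℂ × ℂ}
    {g : ℂ → ℂ} (hc : DifferentiableOn ℂ c U) (hB : DifferentiableOn ℂ B U)
    (hB0 : ∀ ζ ∈ U, B ζ ≠ 0) (hg : ∀ ζ ∈ U, Grad (c ζ) (B ζ) (g ζ)) : DifferentiableOn ℂ g U := by
  intro ζ hζ
  obtain ⟨γ, hγ⟩ := SRT_exists_wd (hB0 ζ hζ)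
  have hB1 : DifferentiableOn ℂ (fun ξ => (B ξ).1) U := hB.fst
  have hB2 : DifferentiableOn ℂ (fun ξ => (B ξ).2) U := hB.snd
  have hc' : ∀ i, DifferentiableOn ℂ (fun ξ => c ξ i) U := fun i => differentiableOn_pi.mp hc i
  have hw : DifferentiableOn ℂ (fun ξ => wd γ (B ξ)) U := by
    unfold wd
    exact (hB2.const_mul _).sub (hB1.const_mul _)
  have hL : DifferentiableOn ℂ (fun ξ => SRT_L (c ξ) (B ξ) γ) U := by
    unfold SRT_L
    apply DifferentiableOn.fun_sum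
    intro i _
    exact (hc' i).mul ((((((hB1.pow _).const_mul _).mul_const _).mul (hB2.pow _))).add
      ((hB1.pow _).mul (((hB2.pow _).const_mul _).mul_const _)))
  have hd : DifferentiableWithinAt ℂ (fun ξ => SRT_L (c ξ) (B ξ) γ / wd γ (B ξ)) U ζ :=
    (hL ζ hζ).div (hw ζ hζ) hγ
  have hev : g =ᶠ[𝓝[U] ζ] fun ξ => SRT_L (c ξ) (B ξ) γ / wd γ (B ξ) := by
    have h1 : ∀ᶠ ξ in 𝓝[U] ζ, wd γ (B ξ) ≠ 0 :=
      (hw ζ hζ).continuousWithinAt.eventually_ne hγ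
    filter_upwards [h1, self_mem_nhdsWithin] with ξ hξ hξU
    rw [← SRT_grad (hg ξ hξU) γ]
    field_simp
  exact hd.congr_of_eventuallyEq hev (hev.eq_of_nhdsWithin hζ)

theorem NofR_wd {n : ℕ} (hn : 3 ≤ n) {c : Fin (n + 1) → ℂ} {B B' : ℂ × ℂ}
    {N : Fin (n - 2 + 1) → ℂ} (h : NofR c B N) (h' : NofR c B' N) : wd B B' = 0 := by
  obtain ⟨g, ⟨hB, hg, _, _⟩, hN⟩ := h
  obtain ⟨g', ⟨hB', hg', _, _⟩, hN'⟩ := h'
  have e : ver (n - 2) B = (g * g'⁻¹) • ver (n - 2) B' := by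
    rw [mul_smul, ← hN', hN, smul_smul, mul_inv_cancel₀ hg, one_smul]
  exact wd_eq_zero_of_ver (by omega) hB e

theorem NofR_eq {n : ℕ} (hn : 3 ≤ n) {c : Fin (n + 1) → ℂ} {B B' : ℂ × ℂ}
    {N N' : Fin (n - 2 + 1) → ℂ} (h : NofR c B N) (h' : NofR c B' N') (hw : wd B B' = 0) :
    N = N' := by
  obtain ⟨g, ⟨hB, hg, _, hG⟩, rfl⟩ := h
  obtain ⟨g', ⟨hB', hg', _, hG'⟩, rfl⟩ := h'
  obtain ⟨s, hs, rfl⟩ := exists_smul_of_wd hB hB' hw
  have e := grad_unique hB' hG' (grad_smul (by omega) hG s hs)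
  rw [ver_smul, e, smul_smul]
  congr 1
  have : s ^ (n - 2) ≠ 0 := pow_ne_zero _ hs
  field_simp

theorem NofR_mul {n : ℕ} {c : Fin (n + 1) → ℂ} {B : ℂ × ℂ} {N : Fin (n - 2 + 1) → ℂ} {j : ℂ}
    (hj : j ≠ 0) (h : NofR (j • c) B N) : NofR c B (j • N) := by
  obtain ⟨g, ⟨hB, hg, hf, hG⟩, rfl⟩ := h
  refine ⟨j⁻¹ * g, ⟨hB, mul_ne_zero (inv_ne_zero hj) hg, ?_, ?_⟩, ?_⟩
  · rw [form_smul_left] at hf
    exact (mul_eq_zero.mp hf).resolve_left hj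
  · have := grad_smul_left hG j⁻¹
    rwa [smul_smul, inv_mul_cancel₀ hj, one_smul] at this
  · rw [smul_smul, mul_inv, inv_inv]

theorem IsN_mul {n : ℕ} {c : Fin (n + 1) → ℂ} {N : Fin (n - 2 + 1) → ℂ} {j : ℂ}
    (hj : j ≠ 0) (h : IsN (j • c) N) : IsN c (j • N) := by
  obtain ⟨B, hB⟩ := h
  exact ⟨B, NofR_mul hj hB⟩

theorem IsM_mul {n : ℕ} (hn : 1 ≤ n) {c : Fin (n + 1) → ℂ} {M : Fin (n + 1) → ℂ} {j : ℂ}
    (hj : j ≠ 0) (h : IsM (j • c) M) : IsM c (j • M) := by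
  obtain ⟨X, hX, rfl⟩ := h
  obtain ⟨s, hs⟩ := IsAlgClosed.exists_pow_nat_eq j (n := n) (by omega)
  refine ⟨s • X, ?_, ?_⟩
  · rw [form_smul_right, hs, ← form_smul_left, hX]
  · rw [ver_smul, hs]

theorem IsN_ne {n : ℕ} {c : Fin (n + 1) → ℂ} {N : Fin (n - 2 + 1) → ℂ} (h : IsN c N) :
    N ≠ 0 := by
  obtain ⟨B, g, ⟨hB, hg, _, _⟩, rfl⟩ := h
  exact smul_ne_zero (inv_ne_zero hg) (ver_ne_zero _ hB)

theorem IsM_lower {n : ℕ} {c : Fin (n + 1) → ℂ} {M : Fin (n + 1) → ℂ} (h : IsM c M) :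
    1 ≤ (n + 1) * ‖c‖ * ‖M‖ := by
  obtain ⟨X, hX, rfl⟩ := h
  have := norm_form_le c X
  rw [hX, norm_one] at this
  rwa [norm_ver]

theorem IsM_ne {n : ℕ} {c : Fin (n + 1) → ℂ} {M : Fin (n + 1) → ℂ} (h : IsM c M) : M ≠ 0 := by
  rintro rfl
  have := IsM_lower h
  rw [norm_zero, mul_zero] at this
  linarith

/-- `IsM` is a closed condition. -/
theorem IsM_closed {n : ℕ} (hn : 1 ≤ n) {c : ℕ → Fin (n + 1) → ℂ} {M : ℕ → Fin (n + 1) → ℂ}
    {c₀ M₀ : Fin (n + 1) → ℂ} (h : ∀ᶠ k in atTop, IsM (c k) (M k))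
    (hc : Tendsto c atTop (𝓝 c₀)) (hM : Tendsto M atTop (𝓝 M₀)) : IsM c₀ M₀ := by
  have h' : ∀ᶠ k in atTop, ∃ X, form (c k) X = 1 ∧ M k = ver n X := h
  obtain ⟨X, hX⟩ : ∃ X : ℕ → ℂ × ℂ, ∀ᶠ k in atTop, form (c k) (X k) = 1 ∧ M k = ver n (X k) :=
    Filter.skolem.mp h'
  have hbd : ∃ R : ℝ, ∀ᶠ k in atTop, ‖X k‖ ≤ R := by
    have h1 : ∀ᶠ k in atTop, ‖M k‖ ≤ ‖M₀‖ + 1 := by
      have := hM.norm
      filter_upwards [this.eventually (gt_mem_nhds (lt_add_one ‖M₀‖))] with k hk using hk.le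
    refine ⟨‖M₀‖ + 1, ?_⟩
    filter_upwards [h1, hX] with k hk hXk
    rw [hXk.2, norm_ver] at hk
    by_contra hcon
    rw [not_le] at hcon
    have h1 : (1 : ℝ) ≤ ‖X k‖ := by linarith [norm_nonneg M₀]
    have h2 : ‖X k‖ ≤ ‖X k‖ ^ n := by
      calc ‖X k‖ = ‖X k‖ ^ 1 := (pow_one _).symm
        _ ≤ ‖X k‖ ^ n := pow_le_pow_right₀ h1 hn
    linarith
  obtain ⟨R, hR⟩ := hbd
  have hfreq : ∃ᶠ k in atTop, X k ∈ closedBall (0 : ℂ × ℂ) R := by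
    apply Eventually.frequently
    filter_upwards [hR] with k hk
    simpa using hk
  obtain ⟨X₀, _, φ, hφ, hlim⟩ := (isCompact_closedBall (0 : ℂ × ℂ) R).tendsto_subseq' hfreq
  refine ⟨X₀, ?_, ?_⟩
  · have hcont : Continuous (fun p : (Fin (n + 1) → ℂ) × (ℂ × ℂ) => form p.1 p.2) :=
      form_cont continuous_fst continuous_snd
    have h1 : Tendsto (fun k => form (c (φ k)) (X (φ k))) atTop (𝓝 (form c₀ X₀)) := by
      have := (hcont.tendsto (c₀, X₀)).comp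
        ((hc.comp hφ.tendsto_atTop).prodMk_nhds hlim)
      exact this
    have h2 : Tendsto (fun k => form (c (φ k)) (X (φ k))) atTop (𝓝 1) := by
      apply tendsto_const_nhds.congr'
      filter_upwards [hφ.tendsto_atTop.eventually hX] with k hk using hk.1.symm
    exact tendsto_nhds_unique h1 h2
  · have hcont : Continuous (fun X : ℂ × ℂ => ver n X) := by
      unfold ver
      fun_prop
    have h1 : Tendsto (fun k => ver n (X (φ k))) atTop (𝓝 (ver n X₀)) :=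
      (hcont.tendsto X₀).comp hlim
    have h2 : Tendsto (fun k => ver n (X (φ k))) atTop (𝓝 M₀) := by
      apply (hM.comp hφ.tendsto_atTop).congr'
      filter_upwards [hφ.tendsto_atTop.eventually hX] with k hk using hk.2
    exact tendsto_nhds_unique h2 h1

end Pool.Agent.EPO
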