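import Pool.Agent.EPO.Curve
import Pool.Agent.EPO.SRT

open scoped Manifold Topology LinearAlgebra.Projectivization
open Filter Metric Set

namespace Pool.Agent.EPO

section

variable {Λ : Submodule ℤ ℂ} [DiscreteTopology Λ] {n : ℕ}
  {f : ℂ → Fin (n + 1) → ℂ} {C : Type*} [TopologicalSpace C] [ChartedSpace ℂ C]
  {z : C → ℂ ⧸ Λ} {x : C → ℙ ℂ (ℂ × ℂ)}

/-- eventual statements near `p` and in the chart at `p` -/
theorem CNN_ev {p : C} {Q : C → Prop} :
    (∀ᶠ q in 𝓝 p, Q q) ↔ ∀ᶠ t in 𝓝 (chartAt ℂ p p), Q ((chartAt ℂ p).symm t) := by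
  have hp := mem_chart_source ℂ p
  have h1 := (chartAt ℂ p).symm.map_nhds_eq (x := chartAt ℂ p p) (by simpa using mem_chart_target ℂ p)
  rw [OpenPartialHomeomorph.left_inv _ hp] at h1
  rw [← h1]
  exact Filter.eventually_map

theorem CNN_ev' {p q : C} (hq : q ∈ (chartAt ℂ p).source) {Q : C → Prop} :
    (∀ᶠ q' in 𝓝 q, Q q') ↔ ∀ᶠ t in 𝓝 (chartAt ℂ p q), Q ((chartAt ℂ p).symm t) := by
  have h1 := (chartAt ℂ p).symm.map_nhds_eq (x := chartAt ℂ p q)
    (by simpa using (chartAt ℂ p).map_source hq)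
  rw [OpenPartialHomeomorph.left_inv _ hq] at h1
  rw [← h1]
  exact Filter.eventually_map

/-- If a holomorphic function is locally constant at points `q` arbitrarily near `p`, it is
constant near `p`. -/
theorem CNN_id {g : C → ℂ} {p : C} (hg : HolAt g p) :
    ∀ᶠ q in 𝓝 p, (∀ᶠ q' in 𝓝 q, g q' = g q) → g p = g q ∧ ∀ᶠ q' in 𝓝 p, g q' = g p := by
  obtain ⟨r, hr, hr'⟩ := Metric.eventually_nhds_iff_ball.1
    (hg.eventually_analyticAt.and ((chartAt ℂ p).open_target.mem_nhds (mem_chart_target ℂ p)))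
  have hU : (chartAt ℂ p) ⁻¹' ball (chartAt ℂ p p) r ∩ (chartAt ℂ p).source ∈ 𝓝 p := by
    refine inter_mem ?_ (chart_source_mem_nhds ℂ p)
    exact (chartAt ℂ p).continuousAt (mem_chart_source ℂ p) |>.preimage_mem_nhds (ball_mem_nhds _ hr)
  filter_upwards [hU] with q hq hc
  obtain ⟨hq1, hq2⟩ := hq
  rw [CNN_ev' hq2] at hc
  have hA : AnalyticOnNhd ℂ (g ∘ (chartAt ℂ p).symm) (ball (chartAt ℂ p p) r) :=
    fun t ht => (hr' t ht).1
  have hA' : AnalyticOnNhd ℂ (fun _ : ℂ => g q) (ball (chartAt ℂ p p) r) :=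
    fun t _ => analyticAt_const
  have key := hA.eqOn_of_preconnected_of_eventuallyEq hA'
    (convex_ball _ _).isPreconnected hq1 hc
  have hpp : g p = g q := by
    have := key (mem_ball_self hr)
    simpa [OpenPartialHomeomorph.left_inv _ (mem_chart_source ℂ p)] using this
  refine ⟨hpp, ?_⟩
  rw [CNN_ev, Metric.eventually_nhds_iff_ball]
  refine ⟨r, hr, fun t ht => ?_⟩
  rw [hpp]
  exact key ht

theorem CNN_lat {g : C → ℂ} {q : C} (hc : ∀ᶠ q' in 𝓝 q, g q' - g q ∈ Λ)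
    (hcont : ContinuousAt g q) : ∀ᶠ q' in 𝓝 q, g q' = g q := by
  obtain ⟨μ, hμ, hμ'⟩ : ∃ μ : ℝ, 0 < μ ∧ ∀ ω ∈ Λ, ‖ω‖ < μ → ω = 0 := by
    have h0 : ({0} : Set Λ) ∈ 𝓝 (0 : Λ) := by
      rw [nhds_discrete]
      exact Filter.mem_pure.2 rfl
    obtain ⟨μ, hμ, h⟩ := Metric.mem_nhds_iff.1 h0
    refine ⟨μ, hμ, fun ω hω hn => ?_⟩
    have : (⟨ω, hω⟩ : Λ) ∈ ball (0 : Λ) μ := by
      rw [mem_ball, dist_eq_norm, sub_zero]
      exact hn
    have h2 := h this
    exact congrArg Subtype.val (Set.mem_singleton_iff.1 h2)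
  have h1 : ∀ᶠ q' in 𝓝 q, ‖g q' - g q‖ < μ := by
    have := Metric.tendsto_nhds.1 hcont.tendsto μ hμ
    simpa [dist_eq_norm] using this
  filter_upwards [hc, h1] with q' h2 h3
  exact sub_eq_zero.1 (hμ' _ h2 h3)

theorem CNN_onCurve (hf : IsCurve Λ f) {a : ℂ ⧸ Λ} {y : ℙ ℂ (ℂ × ℂ)} {ζ : ℂ} {X : ℂ × ℂ}
    {hX : X ≠ 0} (ha : a = Λ.mkQ ζ) (hy : y = Projectivization.mk ℂ X hX) :
    OnCurve Λ f a y ↔ form (f ζ) X = 0 := by
  constructor
  · rintro ⟨ζ', X', hX', ha', hy', h⟩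
    have h1 : ζ - ζ' ∈ Λ := by
      rw [← Submodule.Quotient.mk_eq_zero Λ]
      have : Λ.mkQ (ζ - ζ') = 0 := by rw [map_sub, ← ha, ← ha', sub_self]
      exact this
    obtain ⟨j, hj, hfj⟩ := hf.aut _ h1
    have h2 : f ζ = j ζ' • f ζ' := by
      rw [← hfj ζ']
      congr 1
      ring
    have h3 : Projectivization.mk ℂ X hX = Projectivization.mk ℂ X' hX' := hy.symm.trans hy'
    obtain ⟨s, hs⟩ := (Projectivization.mk_eq_mk_iff' ℂ X X' hX hX').1 h3
    rw [h2, form_smul_left, ← hs, form_smul_right, h]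
    simp
  · intro h
    exact ⟨ζ, X, hX, ha, hy, h⟩

theorem CNN_hol_form (hf : IsCurve Λ f) {p : C} {h : C → ℂ} {X : C → ℂ × ℂ}
    (hl : IsLift Λ z x p h X) : HolAt (fun q => form (f (h q)) (X q)) p := by
  have hfa : ∀ (ζ : ℂ) (i : Fin (n + 1)), AnalyticAt ℂ (fun η => f η i) ζ := by
    intro ζ i
    have : Differentiable ℂ (fun η => f η i) := fun η => (differentiableAt_pi.1 (hf.hol η)) i
    exact this.analyticAt ζ
  have h1 := hl.hol
  have h2 := hl.hol₁
  have h3 := hl.hol₂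
  unfold HolAt at h1 h2 h3 ⊢
  have : ((fun q => form (f (h q)) (X q)) ∘ (chartAt ℂ p).symm) = fun t =>
      ∑ i : Fin (n + 1), (fun η => f η i) ((h ∘ (chartAt ℂ p).symm) t) *
        ((((fun q => (X q).1) ∘ (chartAt ℂ p).symm) t) ^ (i : ℕ) *
          (((fun q => (X q).2) ∘ (chartAt ℂ p).symm) t) ^ (n - (i : ℕ))) := by
    funext t
    rfl
  rw [this]
  refine Finset.analyticAt_fun_sum _ fun i _ => ?_
  refine AnalyticAt.mul ?_ ((h2.pow _).mul (h3.pow _))
  exact AnalyticAt.fun_comp (hfa _ i) h1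

theorem CNN_cont {g : C → ℂ} {p : C} (hg : HolAt g p) : ContinuousAt g p := by
  have h1 : ContinuousAt (g ∘ (chartAt ℂ p).symm) (chartAt ℂ p p) := hg.continuousAt
  have h2 : ContinuousAt (chartAt ℂ p) p := (chartAt ℂ p).continuousAt (mem_chart_source ℂ p)
  have h3 := ContinuousAt.comp h1 h2
  refine h3.congr ?_
  filter_upwards [chart_source_mem_nhds ℂ p] with q hq
  simp [OpenPartialHomeomorph.left_inv _ hq]

theorem CNN_cont' {g : C → ℂ} {p : C} (hg : HolAt g p) : ∀ᶠ q in 𝓝 p, ContinuousAt g q := by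
  have h1 := hg.eventually_analyticAt
  have h2 : ∀ᶠ q in 𝓝 p, AnalyticAt ℂ (g ∘ (chartAt ℂ p).symm) (chartAt ℂ p q) :=
    ((chartAt ℂ p).continuousAt (mem_chart_source ℂ p)).eventually h1
  filter_upwards [h2, chart_source_mem_nhds ℂ p,
    (chartAt ℂ p).open_source.eventually_mem (mem_chart_source ℂ p)] with q hq hqs _
  have h3 : ContinuousAt (chartAt ℂ p) q := (chartAt ℂ p).continuousAt hqs
  have h4 := ContinuousAt.comp hq.continuousAt h3
  refine h4.congr ?_
  filter_upwards [(chartAt ℂ p).open_source.eventually_mem hqs] with q' hq'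
  simp [OpenPartialHomeomorph.left_inv _ hq']

/-- On a connected surface the multiplicities are finite. -/
theorem CNN [ConnectedSpace C] (hf : IsCurve Λ f) (hm : HolMap Λ z x) (hz : ∃ p q, z p ≠ z q)
    (hx : ∃ p, ¬ OnCurve Λ f (z p) (x p)) : ∃ e k : C → ℕ, ∀ p, Local Λ f z x p (e p) (k p) := by
  choose h X hl using hm
  -- `z` is nowhere locally constant
  have hmk : ∀ a b : ℂ, Λ.mkQ a = Λ.mkQ b → a - b ∈ Λ := by
    intro a b hab
    rw [← Submodule.Quotient.mk_eq_zero Λ]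
    have : Λ.mkQ (a - b) = 0 := by rw [map_sub, hab, sub_self]
    exact this
  have hT : ∀ p, ¬ ∀ᶠ q in 𝓝 p, z q = z p := by
    set T : Set C := {p | ∀ᶠ q in 𝓝 p, z q = z p} with hTdef
    have hTo : IsOpen T := by
      rw [isOpen_iff_mem_nhds]
      intro p hp
      have hp' : ∀ᶠ q in 𝓝 p, z q = z p := hp
      filter_upwards [hp'.eventually_nhds, hp'] with q h1 h2
      show ∀ᶠ q' in 𝓝 q, z q' = z q
      filter_upwards [h1] with q' h3
      rw [h3, h2]
    have hTc : IsOpen Tᶜ := by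
      rw [isOpen_iff_mem_nhds]
      intro p hp
      filter_upwards [CNN_id (hl p).hol, CNN_cont' (hl p).hol, (hl p).lift_z.eventually_nhds]
        with q h1 h2 h3 h4
      apply hp
      have h5 : ∀ᶠ q' in 𝓝 q, h p q' - h p q ∈ Λ := by
        have h4' : ∀ᶠ q' in 𝓝 q, z q' = z q := h4
        filter_upwards [h3, h4'] with q' h6 h7
        apply hmk
        rw [← h6, h7]
        exact h3.self_of_nhds
      have h6 := (h1 (CNN_lat h5 h2)).2
      show ∀ᶠ q in 𝓝 p, z q = z p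
      filter_upwards [h6, (hl p).lift_z] with q' h7 h8
      rw [h8, h7]
      exact (hl p).lift_z.self_of_nhds.symm
    have hclopen : IsClopen T := ⟨isOpen_compl_iff.1 hTc, hTo⟩
    rcases isClopen_iff.1 hclopen with h1 | h1
    · intro p hp
      have : p ∈ T := hp
      rw [h1] at this
      exact this
    · exfalso
      obtain ⟨p, q, hpq⟩ := hz
      apply hpq
      have hlc : IsLocallyConstant z := by
        rw [IsLocallyConstant.iff_eventually_eq]
        intro p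
        have : p ∈ T := by rw [h1]; trivial
        exact this
      exact hlc.apply_eq_of_preconnectedSpace p q
  have hD : ∀ p, ¬ ∀ᶠ q in 𝓝 p, OnCurve Λ f (z q) (x q) := by
    set T : Set C := {p | ∀ᶠ q in 𝓝 p, OnCurve Λ f (z q) (x q)} with hTdef
    have hTo : IsOpen T := by
      rw [isOpen_iff_mem_nhds]
      intro p hp
      have hp' : ∀ᶠ q in 𝓝 p, OnCurve Λ f (z q) (x q) := hp
      exact hp'.eventually_nhds
    have hTc : IsOpen Tᶜ := by
      rw [isOpen_iff_mem_nhds]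
      intro p hp
      have hiff : ∀ᶠ q in 𝓝 p, (OnCurve Λ f (z q) (x q) ↔ form (f (h p q)) (X p q) = 0) := by
        filter_upwards [(hl p).lift_z, (hl p).lift_x] with q h1 h2
        obtain ⟨hX, h2⟩ := h2
        exact CNN_onCurve hf h1 h2
      filter_upwards [CNN_id (CNN_hol_form hf (hl p)), hiff.eventually_nhds] with q h1 h2 h3
      apply hp
      have h4 : ∀ᶠ q' in 𝓝 q, OnCurve Λ f (z q') (x q') := h3
      have h5 : form (f (h p q)) (X p q) = 0 := h2.self_of_nhds.1 h4.self_of_nhds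
      have h6 : ∀ᶠ q' in 𝓝 q, form (f (h p q')) (X p q') = form (f (h p q)) (X p q) := by
        filter_upwards [h2, h4] with q' h7 h8
        rw [h7.1 h8, h5]
      obtain ⟨h13, h9⟩ := h1 h6
      show ∀ᶠ q in 𝓝 p, OnCurve Λ f (z q) (x q)
      have h10 : form (f (h p p)) (X p p) = 0 := by
        have h14 : form (f (h p p)) (X p p) = form (f (h p q)) (X p q) := h13
        rw [h14, h5]
      filter_upwards [h9, hiff] with q' h11 h12
      rw [h12, h11, h10]
    have hclopen : IsClopen T := ⟨isOpen_compl_iff.1 hTc, hTo⟩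
    rcases isClopen_iff.1 hclopen with h1 | h1
    · intro p hp
      have : p ∈ T := hp
      rw [h1] at this
      exact this
    · exfalso
      obtain ⟨p, hp⟩ := hx
      have h15 : ∀ᶠ q in 𝓝 p, OnCurve Λ f (z q) (x q) := by
        have : p ∈ T := by rw [h1]; trivial
        exact this
      exact hp h15.self_of_nhds
  have e1 : ∀ p, ordAt (fun q => h p q - h p p) p ≠ ⊤ := by
    intro p htop
    apply hT p
    have h1 := analyticOrderAt_eq_top.1 htop
    have h2 : ∀ᶠ q in 𝓝 p, h p q - h p p = 0 := by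
      rw [CNN_ev]
      exact h1
    filter_upwards [h2, (hl p).lift_z] with q h3 h4
    rw [h4, sub_eq_zero.1 h3]
    exact (hl p).lift_z.self_of_nhds.symm
  have e2 : ∀ p, ordAt (fun q => form (f (h p q)) (X p q)) p ≠ ⊤ := by
    intro p htop
    apply hD p
    have h1 := analyticOrderAt_eq_top.1 htop
    have h2 : ∀ᶠ q in 𝓝 p, form (f (h p q)) (X p q) = 0 := by
      rw [CNN_ev]
      exact h1
    filter_upwards [h2, (hl p).lift_z, (hl p).lift_x] with q h3 h4 h5
    obtain ⟨hX, h5⟩ := h5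
    exact (CNN_onCurve hf h4 h5).2 h3
  refine ⟨fun p => (ordAt (fun q => h p q - h p p) p).toNat,
    fun p => (ordAt (fun q => form (f (h p q)) (X p q)) p).toNat, fun p => ?_⟩
  exact ⟨h p, X p, hl p, (ENat.natCast_toNat (e1 p)).symm, (ENat.natCast_toNat (e2 p)).symm⟩

end

end Pool.Agent.EPO
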