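import Pool.Agent.EPO.Defs2

open scoped Manifold Topology LinearAlgebra.Projectivization
open Filter Metric Set

namespace Pool.Agent.EPO

private lemma LCT_fin (Λ : Submodule ℤ ℂ) [DiscreteTopology Λ] (c : ℂ) (R : ℝ) :
    {ω : ℂ | ω ∈ Λ ∧ ‖ω - c‖ ≤ R}.Finite := by
  have hcl : IsClosed (Λ : Set ℂ) := by
    have : DiscreteTopology Λ.toAddSubgroup := inferInstanceAs (DiscreteTopology Λ)
    exact AddSubgroup.isClosed_of_discrete (H := Λ.toAddSubgroup)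
  have h1 : (closedBall c R ∩ (Λ : Set ℂ)).Finite := by
    have : DiscreteTopology (Λ : Set ℂ) := inferInstanceAs (DiscreteTopology Λ)
    exact Metric.finite_isBounded_inter_isClosed DiscreteTopology.isDiscrete isBounded_closedBall hcl
  refine h1.subset ?_
  rintro ω ⟨hω, hr⟩
  refine ⟨?_, hω⟩
  rw [mem_closedBall, dist_eq_norm]
  exact hr

theorem LCT (Λ : Submodule ℤ ℂ) [DiscreteTopology Λ] [IsZLattice ℝ Λ] (R : ℝ) :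
    ∃ K : ℕ, ∀ c : ℂ, {ω : ℂ | ω ∈ Λ ∧ ‖ω - c‖ ≤ R}.Finite ∧
      {ω : ℂ | ω ∈ Λ ∧ ‖ω - c‖ ≤ R}.ncard ≤ K := by
  refine ⟨{ω : ℂ | ω ∈ Λ ∧ ‖ω - 0‖ ≤ 2 * R}.ncard, fun c => ⟨LCT_fin Λ c R, ?_⟩⟩
  rcases Set.eq_empty_or_nonempty {ω : ℂ | ω ∈ Λ ∧ ‖ω - c‖ ≤ R} with h | ⟨ω₀, hω₀, hr₀⟩
  · rw [h, Set.ncard_empty]
    exact Nat.zero_le _
  · refine Set.ncard_le_ncard_of_injOn (fun ω => ω - ω₀) ?_ ?_ (LCT_fin Λ 0 (2 * R))
    · rintro ω ⟨hω, hr⟩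
      refine ⟨Λ.sub_mem hω hω₀, ?_⟩
      have h1 : ω - ω₀ - 0 = (ω - c) - (ω₀ - c) := by ring
      show ‖ω - ω₀ - 0‖ ≤ 2 * R
      rw [h1]
      have h2 := norm_sub_le (ω - c) (ω₀ - c)
      linarith
    · intro a _ b _ hab
      simpa using hab

end Pool.Agent.EPO
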