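import Pool.Agent.EPO.PTH
import Pool.Agent.EPO.LCT

open scoped Manifold Topology LinearAlgebra.Projectivization
open Filter Metric Set

namespace Pool.Agent.EPO

variable {Λ : Submodule ℤ ℂ} [DiscreteTopology Λ] [IsZLattice ℝ Λ] {n : ℕ}
  {f : ℂ → Fin (n + 1) → ℂ} {C : Type*} [TopologicalSpace C] [T2Space C] [CompactSpace C]
  {z : C → ℂ ⧸ Λ} {x : C → ℙ ℂ (ℂ × ℂ)} {e k : C → ℕ}

private theorem CNT_disc (Λ : Submodule ℤ ℂ) [DiscreteTopology Λ] :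
    ∃ δ > 0, ∀ ω ∈ Λ, ‖ω‖ < δ → ω = 0 := by
  have h : ({0} : Set Λ) ∈ 𝓝 (0 : Λ) := (isOpen_discrete _).mem_nhds rfl
  obtain ⟨δ, hδ, hb⟩ := Metric.mem_nhds_iff.mp h
  refine ⟨δ, hδ, fun ω hω hn => ?_⟩
  have h1 : (⟨ω, hω⟩ : Λ) ∈ ball (0 : Λ) δ := by
    rw [mem_ball, dist_zero_right]
    exact hn
  have h2 := hb h1
  rw [mem_singleton_iff] at h2
  exact congrArg Subtype.val h2

omit [IsZLattice ℝ Λ] [T2Space C] [CompactSpace C] in
private theorem CNT_near {P : Set C} {q : C} {e₀ k₀ : ℕ} {a₀ : ℂ} {ε : ℝ} {σ : ℂ → C}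
    (h : NF Λ f z x P q e₀ k₀ a₀ ε σ) {a b : ℂ} {t₀ : ℝ} (ht₀ : t₀ ∈ Icc (0 : ℝ) 1)
    (ha₀ : a₀ = a + t₀ * (b - a)) {γ : ℝ → C} (hγ : ContinuousOn γ (Icc 0 1))
    (hγq : γ t₀ = q) (hz : ∀ t ∈ Icc (0 : ℝ) 1, z (γ t) = Λ.mkQ (a + t * (b - a))) :
    ∀ᶠ t in 𝓝[Icc 0 1] t₀, ∃ u ∈ ball (0 : ℂ) ε, γ t = σ u ∧ u ^ e₀ = (t - t₀) * (b - a) := by
  obtain ⟨δ, hδ, hd⟩ := CNT_disc Λ
  set ε' : ℝ := min ε (min 1 (δ / 2)) with hε'
  have hε'0 : 0 < ε' := by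
    rw [hε']
    exact lt_min h.pos (lt_min one_pos (by linarith))
  have hε'ε : ε' ≤ ε := min_le_left _ _
  have hε'1 : ε' ≤ 1 := (min_le_right _ _).trans (min_le_left _ _)
  have hε'δ : ε' ≤ δ / 2 := (min_le_right _ _).trans (min_le_right _ _)
  have hV : ball (0 : ℂ) ε' ⊆ ball 0 ε := ball_subset_ball hε'ε
  have hopen := h.opn (ball 0 ε') hV isOpen_ball
  have hmem : γ t₀ ∈ σ '' ball (0 : ℂ) ε' := by
    rw [hγq, ← h.center]
    exact ⟨0, mem_ball_self hε'0, rfl⟩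
  have h1 : ∀ᶠ t in 𝓝[Icc 0 1] t₀, γ t ∈ σ '' ball (0 : ℂ) ε' :=
    (hγ t₀ ht₀).eventually (hopen.mem_nhds hmem)
  have h2 : ∀ᶠ t : ℝ in 𝓝[Icc 0 1] t₀, ‖((t : ℂ) - t₀) * (b - a)‖ < δ / 2 := by
    have hc : Continuous (fun t : ℝ => ‖((t : ℂ) - t₀) * (b - a)‖) := by fun_prop
    have h3 : Tendsto (fun t : ℝ => ‖((t : ℂ) - t₀) * (b - a)‖) (𝓝 t₀) (𝓝 0) := by
      have := hc.tendsto t₀
      simpa using this
    exact (h3.mono_left nhdsWithin_le_nhds).eventually (gt_mem_nhds (by linarith))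
  filter_upwards [h1, h2, self_mem_nhdsWithin] with t ht1 ht2 ht3
  obtain ⟨u, hu, hγu⟩ := ht1
  refine ⟨u, hV hu, hγu.symm, ?_⟩
  have h4 := h.zlift u (hV hu)
  rw [hγu, hz t ht3] at h4
  rw [Submodule.mkQ_apply, Submodule.mkQ_apply, Submodule.Quotient.eq] at h4
  have h5 : ((t : ℂ) - t₀) * (b - a) - u ^ e₀ ∈ Λ := by
    have h6 : ((t : ℂ) - t₀) * (b - a) - u ^ e₀ = a + t * (b - a) - (a₀ + u ^ e₀) := by
      rw [ha₀]; ring
    rw [h6]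
    exact h4
  have h7 : ‖u ^ e₀‖ ≤ δ / 2 := by
    rw [norm_pow]
    have hu' : ‖u‖ ≤ ε' := by
      rw [mem_ball, dist_zero_right] at hu
      exact hu.le
    calc ‖u‖ ^ e₀ ≤ ε' ^ e₀ := pow_le_pow_left₀ (norm_nonneg _) hu' _
      _ ≤ ε' := pow_le_of_le_one hε'0.le hε'1 (h.epos.ne')
      _ ≤ δ / 2 := hε'δ
  have h8 : ((t : ℂ) - t₀) * (b - a) - u ^ e₀ = 0 := by
    apply hd _ h5
    calc _ ≤ ‖((t : ℂ) - t₀) * (b - a)‖ + ‖u ^ e₀‖ := norm_sub_le _ _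
      _ < δ / 2 + δ / 2 := by linarith
      _ = δ := by ring
  exact (sub_eq_zero.mp h8).symm

/-- Two lifts of a segment which agree somewhere before the end have the same origin. -/
private theorem CNT_unique (H : AllNF Λ f z x e k) {a b : ℂ} {γ γ' : ℝ → C}
    (hγ : ContinuousOn γ (Icc 0 1)) (hγ' : ContinuousOn γ' (Icc 0 1))
    (hz : ∀ t ∈ Icc (0 : ℝ) 1, z (γ t) = Λ.mkQ (a + t * (b - a)))
    (hz' : ∀ t ∈ Icc (0 : ℝ) 1, z (γ' t) = Λ.mkQ (a + t * (b - a)))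
    (hs : ∀ t ∈ Ico (0 : ℝ) 1, γ t ∉ Spec e k) {t₁ : ℝ} (ht₁ : t₁ ∈ Ico (0 : ℝ) 1)
    (h : γ t₁ = γ' t₁) : γ 0 = γ' 0 := by
  -- local uniqueness
  have hloc : ∀ t ∈ Ico (0 : ℝ) 1, γ t = γ' t → ∀ᶠ s in 𝓝[Icc 0 1] t, γ s = γ' s := by
    intro t ht htt
    have htI : t ∈ Icc (0 : ℝ) 1 := ⟨ht.1, ht.2.le⟩
    obtain ⟨ε, σ, hN⟩ := H (γ t) (a + t * (b - a)) (hz t htI)
    have he : e (γ t) = 1 := by
      by_contra hne
      exact hs t ht (Or.inl hne)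
    have h1 := CNT_near hN htI rfl hγ rfl hz
    have h2 := CNT_near hN htI rfl hγ' htt.symm hz'
    filter_upwards [h1, h2] with s hs1 hs2
    obtain ⟨u, -, hu1, hu2⟩ := hs1
    obtain ⟨v, -, hv1, hv2⟩ := hs2
    rw [he, pow_one] at hu2 hv2
    rw [hu1, hv1, hu2, hv2]
  set A : Set ℝ := {s | γ (t₁ - s) = γ' (t₁ - s)} with hA
  have hmaps : MapsTo (fun s : ℝ => t₁ - s) (Icc 0 t₁) (Icc 0 1) := by
    intro s hs
    exact ⟨by linarith [hs.2], by linarith [hs.1, ht₁.2]⟩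
  have hcs : ContinuousOn (fun s : ℝ => t₁ - s) (Icc 0 t₁) := by fun_prop
  have hc1 : ContinuousOn (fun s : ℝ => γ (t₁ - s)) (Icc 0 t₁) := hγ.comp hcs hmaps
  have hc2 : ContinuousOn (fun s : ℝ => γ' (t₁ - s)) (Icc 0 t₁) := hγ'.comp hcs hmaps
  have hclosed : IsClosed (A ∩ Icc 0 t₁) := by
    have h3 : IsClosed {s ∈ Icc 0 t₁ | (fun s : ℝ => (γ (t₁ - s), γ' (t₁ - s))) s ∈ diagonal C} :=
      (hc1.prodMk hc2).preimage_isClosed_of_isClosed isClosed_Icc isClosed_diagonal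
    convert h3 using 1
    ext s
    simp only [hA, mem_inter_iff, mem_setOf_eq, mem_diagonal_iff]
    tauto
  have hsub : Icc 0 t₁ ⊆ A := by
    apply hclosed.Icc_subset_of_forall_mem_nhdsWithin
    · show γ (t₁ - 0) = γ' (t₁ - 0)
      rw [sub_zero]
      exact h
    · rintro s ⟨hsA, hs1⟩
      have ht : t₁ - s ∈ Ico (0 : ℝ) 1 := ⟨by linarith [hs1.2], by linarith [hs1.1, ht₁.2]⟩
      have h4 := hloc (t₁ - s) ht hsA
      have h5 : Tendsto (fun r : ℝ => t₁ - r) (𝓝[>] s) (𝓝[Icc 0 1] (t₁ - s)) := by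
        apply tendsto_nhdsWithin_of_tendsto_nhds_of_eventually_within
        · have : Continuous (fun r : ℝ => t₁ - r) := by fun_prop
          exact (this.tendsto s).mono_left nhdsWithin_le_nhds
        · have h6 : ∀ᶠ r in 𝓝[>] s, r < t₁ :=
            mem_nhdsWithin_of_mem_nhds (Iio_mem_nhds hs1.2)
          filter_upwards [h6, self_mem_nhdsWithin] with r hr1 hr2
          rw [mem_Ioi] at hr2
          exact ⟨by linarith, by linarith [hs1.1, ht₁.2]⟩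
      exact h5.eventually h4
  have h7 : t₁ ∈ A := hsub ⟨ht₁.1, le_refl _⟩
  have h8 : γ (t₁ - t₁) = γ' (t₁ - t₁) := h7
  rwa [sub_self] at h8

/-- At most `e q` segments with given ends lead to `q`. -/
theorem CNT_one (H : AllNF Λ f z x e k) {a b : ℂ} {q : C} (S : Finset C)
    (hS : ∀ p ∈ S, ∃ γ : ℝ → C, ContinuousOn γ (Icc 0 1) ∧ γ 0 = p ∧
        γ 1 = q ∧ (∀ t ∈ Icc (0 : ℝ) 1, z (γ t) = Λ.mkQ (a + t * (b - a))) ∧
        ∀ t ∈ Ico (0 : ℝ) 1, γ t ∉ Spec e k) (hab : a ≠ b) : S.card ≤ e q := by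
  classical
  rcases S.eq_empty_or_nonempty with rfl | ⟨p₀, hp₀⟩
  · simp
  choose! γ hc h0 h1 hz hs using hS
  have h11 : (1 : ℝ) ∈ Icc (0 : ℝ) 1 := ⟨zero_le_one, le_refl _⟩
  have hq : z q = Λ.mkQ (a + (1 : ℝ) * (b - a)) := by
    rw [← h1 p₀ hp₀]
    exact hz p₀ hp₀ 1 h11
  obtain ⟨ε, σ, hN⟩ := H q _ hq
  have hev : ∀ᶠ t in 𝓝[Icc 0 1] (1 : ℝ), ∀ p ∈ S, ∃ u ∈ ball (0 : ℂ) ε, γ p t = σ u ∧
      u ^ e q = (t - (1 : ℝ)) * (b - a) := by
    rw [Filter.eventually_all_finset]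
    intro p hp
    exact CNT_near hN h11 rfl (hc p hp) (h1 p hp) (hz p hp)
  have hne : (𝓝[Ico 0 1] (1 : ℝ)).NeBot := by
    rw [← mem_closure_iff_nhdsWithin_neBot, closure_Ico (zero_ne_one)]
    exact h11
  have hev2 : ∀ᶠ t in 𝓝[Ico 0 1] (1 : ℝ), t ∈ Ico (0 : ℝ) 1 ∧
      ∀ p ∈ S, ∃ u ∈ ball (0 : ℂ) ε, γ p t = σ u ∧ u ^ e q = (t - (1 : ℝ)) * (b - a) := by
    have h2 := hev.filter_mono (nhdsWithin_mono (1 : ℝ) (Ico_subset_Icc_self : Ico (0 : ℝ) 1 ⊆ Icc 0 1))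
    filter_upwards [h2, self_mem_nhdsWithin] with t ht1 ht2
    exact ⟨ht2, ht1⟩
  obtain ⟨t, ht, hu⟩ := hev2.exists
  choose! u hub hγu hue using hu
  have hinj : Set.InjOn u (S : Set C) := by
    intro p hp p' hp' hpp
    have h3 : γ p t = γ p' t := by
      rw [hγu p hp, hγu p' hp', hpp]
    have h4 := CNT_unique H (hc p hp) (hc p' hp') (hz p hp) (hz p' hp') (hs p hp) ht h3
    rwa [h0 p hp, h0 p' hp'] at h4
  have hmaps : ∀ p ∈ S, u p ∈ (Polynomial.nthRoots (e q)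
      (((t : ℂ) - (1 : ℝ)) * (b - a))).toFinset := by
    intro p hp
    rw [Multiset.mem_toFinset, Polynomial.mem_nthRoots hN.epos]
    exact hue p hp
  calc S.card ≤ (Polynomial.nthRoots (e q)
      (((t : ℂ) - (1 : ℝ)) * (b - a))).toFinset.card := Finset.card_le_card_of_injOn u hmaps hinj
    _ ≤ Multiset.card (Polynomial.nthRoots (e q)
      (((t : ℂ) - (1 : ℝ)) * (b - a))) := Multiset.toFinset_card_le _
    _ ≤ e q := Polynomial.card_nthRoots _ _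

/-- The degree of the covering is bounded by the special points. -/
theorem CNT (hf : Differentiable ℂ f) (hn : 3 ≤ n) (H : AllNF Λ f z x e k) {R : ℝ} (hR : 0 < R)
    (hS : ∀ c : ℂ, ¬ ∃ M, ASec f (ball c R) M) {K : ℕ}
    (hK : ∀ c : ℂ, {ω : ℂ | ω ∈ Λ ∧ ‖ω - c‖ ≤ R}.Finite ∧
      {ω : ℂ | ω ∈ Λ ∧ ‖ω - c‖ ≤ R}.ncard ≤ K) {a : ℂ}
    (ha : ∀ p ∈ Fib Λ z a, p ∉ Spec e k) (P : Finset C) (hP : ∀ p, p ∈ P ↔ p ∈ Spec e k) :
    (Fib Λ z a).ncard ≤ K * ∑ q ∈ P, e q := by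
  classical
  set F : Finset C := (Fib_finite H a).toFinset with hF
  have hFm : ∀ p, p ∈ F ↔ z p = Λ.mkQ a := by
    intro p
    rw [hF, Set.Finite.mem_toFinset]
    exact Iff.rfl
  have hcard : (Fib Λ z a).ncard = F.card := Set.ncard_eq_toFinset_card _ _
  have hex : ∀ p ∈ F, ∃ b : ℂ, ‖b - a‖ ≤ R ∧ ∃ γ : ℝ → C, ContinuousOn γ (Icc 0 1) ∧ γ 0 = p ∧
        γ 1 ∈ Spec e k ∧ (∀ t ∈ Icc (0 : ℝ) 1, z (γ t) = Λ.mkQ (a + t * (b - a))) ∧
        ∀ t ∈ Ico (0 : ℝ) 1, γ t ∉ Spec e k := by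
    intro p hp
    rw [hFm] at hp
    rcases PTH H (ha p hp) hp hR with ⟨s, hs, -⟩ | h
    · exact absurd ⟨_, sec_asec hf hn H isOpen_ball hs⟩ (hS a)
    · exact h
  choose! b hb γ hc h0 h1 hz hs using hex
  have h11 : (1 : ℝ) ∈ Icc (0 : ℝ) 1 := ⟨zero_le_one, le_refl _⟩
  have hz1 : ∀ p ∈ F, z (γ p 1) = Λ.mkQ (b p) := by
    intro p hp
    rw [hz p hp 1 h11]
    congr 1
    push_cast
    ring
  have hab : ∀ p ∈ F, a ≠ b p := by
    intro p hp hab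
    have h2 : γ p 1 ∈ Fib Λ z a := by
      show z (γ p 1) = Λ.mkQ a
      rw [hz1 p hp, ← hab]
    exact ha _ h2 (h1 p hp)
  rw [hcard, Finset.card_eq_sum_card_fiberwise (f := fun p => γ p 1) (t := P)
    (fun p hp => (hP _).mpr (h1 p hp)), Finset.mul_sum]
  apply Finset.sum_le_sum
  intro q hq
  obtain ⟨c, hcq⟩ := Submodule.mkQ_surjective Λ (z q)
  have hL := hK (a - c)
  set L : Finset ℂ := hL.1.toFinset with hLdef
  have hLc : L.card ≤ K := by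
    rw [hLdef, ← Set.ncard_eq_toFinset_card _ hL.1]
    exact hL.2
  have h3 : (F.filter (fun p => γ p 1 = q)).card ≤ e q * L.card := by
    apply Finset.card_le_mul_card_image_of_maps_to (f := fun p => b p - c)
    · intro p hp
      rw [Finset.mem_filter] at hp
      obtain ⟨hpF, hpq⟩ := hp
      rw [hLdef, Set.Finite.mem_toFinset]
      refine ⟨?_, ?_⟩
      · have h4 : Λ.mkQ (b p) = Λ.mkQ c := by
          rw [← hz1 p hpF, hpq, hcq]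
        rw [Submodule.mkQ_apply, Submodule.mkQ_apply, Submodule.Quotient.eq] at h4
        exact h4
      · have h5 : b p - c - (a - c) = b p - a := by ring
        rw [h5]
        exact hb p hpF
    · intro ω hω
      by_cases hne : ((F.filter (fun p => γ p 1 = q)).filter (fun p => b p - c = ω)).Nonempty
      · obtain ⟨p₀, hp₀⟩ := hne
        simp only [Finset.mem_filter] at hp₀
        apply CNT_one H (a := a) (b := ω + c) (q := q)
        · intro p hp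
          simp only [Finset.mem_filter] at hp
          obtain ⟨⟨hpF, hpq⟩, hpω⟩ := hp
          have hbp : b p = ω + c := by rw [← hpω]; ring
          refine ⟨γ p, hc p hpF, h0 p hpF, hpq, ?_, hs p hpF⟩
          rw [← hbp]
          exact hz p hpF
        · have hbp : b p₀ = ω + c := by rw [← hp₀.2]; ring
          rw [← hbp]
          exact hab p₀ hp₀.1.1
      · rw [Finset.not_nonempty_iff_eq_empty] at hne
        rw [hne, Finset.card_empty]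
        exact Nat.zero_le _
  calc _ ≤ e q * L.card := h3
    _ ≤ e q * K := Nat.mul_le_mul_left _ hLc
    _ = K * e q := mul_comm _ _

end Pool.Agent.EPO
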