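import Pool.Agent.EPO.Defs2

open scoped Manifold Topology LinearAlgebra.Projectivization
open Filter Metric Set

namespace Pool.Agent.EPO

theorem form_eq {n : ℕ} (c : Fin (n + 1) → ℂ) (X : ℂ × ℂ) : form c X = ∑ i, c i * ver n X i := by
  rfl

theorem form_smul_left {n : ℕ} (a : ℂ) (c : Fin (n + 1) → ℂ) (X : ℂ × ℂ) :
    form (a • c) X = a * form c X := by
  unfold form
  rw [Finset.mul_sum]
  refine Finset.sum_congr rfl fun i _ => ?_
  rw [Pi.smul_apply, smul_eq_mul, mul_assoc]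

theorem ver_smul (m : ℕ) (a : ℂ) (X : ℂ × ℂ) : ver m (a • X) = a ^ m • ver m X := by
  funext i
  have hi : (i : ℕ) + (m - (i : ℕ)) = m := Nat.add_sub_cancel' (Nat.lt_succ_iff.1 i.2)
  have ha : a ^ m = a ^ (i : ℕ) * a ^ (m - (i : ℕ)) := by rw [← pow_add, hi]
  simp only [ver, Prod.smul_fst, Prod.smul_snd, smul_eq_mul, Pi.smul_apply, mul_pow, ha]
  ring

theorem form_smul_right {n : ℕ} (a : ℂ) (c : Fin (n + 1) → ℂ) (X : ℂ × ℂ) :
    form c (a • X) = a ^ n * form c X := by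
  rw [form_eq, form_eq, ver_smul, Finset.mul_sum]
  refine Finset.sum_congr rfl fun i _ => ?_
  rw [Pi.smul_apply, smul_eq_mul]
  ring

theorem norm_ver (m : ℕ) (X : ℂ × ℂ) : ‖ver m X‖ = ‖X‖ ^ m := by
  apply le_antisymm
  · refine (pi_norm_le_iff_of_nonneg (by positivity)).2 fun i => ?_
    have hi : (i : ℕ) + (m - (i : ℕ)) = m := Nat.add_sub_cancel' (Nat.lt_succ_iff.1 i.2)
    calc ‖ver m X i‖ = ‖X.1‖ ^ (i : ℕ) * ‖X.2‖ ^ (m - (i : ℕ)) := by
          simp [ver]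
      _ ≤ ‖X‖ ^ (i : ℕ) * ‖X‖ ^ (m - (i : ℕ)) := by
          gcongr
          · exact norm_fst_le X
          · exact norm_snd_le X
      _ = ‖X‖ ^ m := by rw [← pow_add, hi]
  · rcases le_total ‖X.1‖ ‖X.2‖ with h | h
    · have h1 : ‖X‖ = ‖X.2‖ := by rw [Prod.norm_def, max_eq_right h]
      have h2 := norm_le_pi_norm (ver m X) 0
      rw [h1]
      calc ‖X.2‖ ^ m = ‖ver m X 0‖ := by simp [ver]
        _ ≤ _ := h2
    · have h1 : ‖X‖ = ‖X.1‖ := by rw [Prod.norm_def, max_eq_left h]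
      have h2 := norm_le_pi_norm (ver m X) (Fin.last m)
      rw [h1]
      calc ‖X.1‖ ^ m = ‖ver m X (Fin.last m)‖ := by simp [ver]
        _ ≤ _ := h2

theorem ver_ne_zero (m : ℕ) {X : ℂ × ℂ} (hX : X ≠ 0) : ver m X ≠ 0 := by
  rw [← norm_ne_zero_iff, norm_ver]
  exact pow_ne_zero _ (norm_ne_zero_iff.2 hX)

/-- proportional vectors of monomials come from proportional vectors -/
theorem wd_eq_zero_of_ver {m : ℕ} (hm : 1 ≤ m) {X Y : ℂ × ℂ} {a : ℂ} (hX : X ≠ 0)
    (h : ver m X = a • ver m Y) : wd X Y = 0 := by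
  obtain ⟨k, rfl⟩ : ∃ k, m = k + 1 := ⟨m - 1, by omega⟩
  have h0 := congrFun h 0
  have h1 := congrFun h 1
  have h2 := congrFun h (Fin.last (k + 1))
  have h3 := congrFun h (Fin.castSucc (Fin.last k))
  have e1 : ((1 : Fin (k + 1 + 1)) : ℕ) = 1 := rfl
  simp only [ver, Pi.smul_apply, smul_eq_mul, Fin.val_zero, pow_zero, one_mul,
    Nat.sub_zero, e1, pow_one, Nat.add_sub_cancel, Fin.val_last, Nat.sub_self, mul_one,
    Fin.val_castSucc, Nat.add_sub_cancel_left] at h0 h1 h2 h3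
  unfold wd
  by_cases hX1 : X.1 = 0
  · have hX2 : X.2 ≠ 0 := by
      intro h
      exact hX (Prod.ext hX1 h)
    have ha : a * Y.2 ^ (k + 1) ≠ 0 := by
      rw [← h0]
      exact pow_ne_zero _ hX2
    have ha1 : a ≠ 0 := left_ne_zero_of_mul ha
    have hY2 : Y.2 ≠ 0 := by
      intro h
      rw [h] at ha
      exact ha (by rw [zero_pow (Nat.succ_ne_zero k), mul_zero])
    have hY1 : Y.1 = 0 := by
      rw [hX1, zero_mul] at h1
      rcases mul_eq_zero.1 h1.symm with h | h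
      · exact absurd h ha1
      · rcases mul_eq_zero.1 h with h | h
        · exact h
        · exact absurd h (pow_ne_zero _ hY2)
    rw [hX1, hY1]
    ring
  · have ha : a * Y.1 ^ (k + 1) ≠ 0 := by
      rw [← h2]
      exact pow_ne_zero _ hX1
    have ha1 : a ≠ 0 := left_ne_zero_of_mul ha
    have hY1 : Y.1 ≠ 0 := by
      intro h
      rw [h] at ha
      exact ha (by rw [zero_pow (Nat.succ_ne_zero k), mul_zero])
    have h5 : (X.1 ^ k * X.2) * (a * Y.1 ^ (k + 1)) = X.1 ^ (k + 1) * (a * (Y.1 ^ k * Y.2)) := by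
      rw [h2, h3]
      ring
    have h6 : (a * X.1 ^ k * Y.1 ^ k) * (X.1 * Y.2 - X.2 * Y.1) = 0 := by
      linear_combination -h5
    rcases mul_eq_zero.1 h6 with h | h
    · exact absurd h (mul_ne_zero (mul_ne_zero ha1 (pow_ne_zero _ hX1)) (pow_ne_zero _ hY1))
    · exact h

theorem exists_smul_of_wd {X Y : ℂ × ℂ} (hX : X ≠ 0) (hY : Y ≠ 0) (h : wd X Y = 0) :
    ∃ s : ℂ, s ≠ 0 ∧ Y = s • X := by
  unfold wd at h
  by_cases hX1 : X.1 = 0
  · have hX2 : X.2 ≠ 0 := by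
      intro h
      exact hX (Prod.ext hX1 h)
    have hY1 : Y.1 = 0 := by
      rw [hX1, zero_mul, zero_sub, neg_eq_zero] at h
      exact (mul_eq_zero.1 h).resolve_left hX2
    have hY2 : Y.2 ≠ 0 := by
      intro h
      exact hY (Prod.ext hY1 h)
    refine ⟨Y.2 / X.2, div_ne_zero hY2 hX2, Prod.ext ?_ ?_⟩
    · simp [hX1, hY1]
    · simp [hX2]
  · have hY1 : Y.1 ≠ 0 := by
      intro h1
      rw [h1, mul_zero, sub_zero] at h
      exact hY (Prod.ext h1 ((mul_eq_zero.1 h).resolve_left hX1))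
    refine ⟨Y.1 / X.1, div_ne_zero hY1 hX1, Prod.ext ?_ ?_⟩
    · simp [hX1]
    · simp only [Prod.smul_snd, smul_eq_mul]
      field_simp
      linear_combination h

theorem norm_wd_le (X Y : ℂ × ℂ) : ‖wd X Y‖ ≤ 2 * ‖X‖ * ‖Y‖ := by
  unfold wd
  calc ‖X.1 * Y.2 - X.2 * Y.1‖ ≤ ‖X.1 * Y.2‖ + ‖X.2 * Y.1‖ := norm_sub_le _ _
    _ = ‖X.1‖ * ‖Y.2‖ + ‖X.2‖ * ‖Y.1‖ := by rw [norm_mul, norm_mul]
    _ ≤ ‖X‖ * ‖Y‖ + ‖X‖ * ‖Y‖ := by
        gcongr
        · exact norm_fst_le X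
        · exact norm_snd_le Y
        · exact norm_snd_le X
        · exact norm_fst_le Y
    _ = 2 * ‖X‖ * ‖Y‖ := by ring

theorem norm_form_le {n : ℕ} (c : Fin (n + 1) → ℂ) (X : ℂ × ℂ) :
    ‖form c X‖ ≤ (n + 1) * ‖c‖ * ‖X‖ ^ n := by
  rw [form_eq]
  calc ‖∑ i, c i * ver n X i‖ ≤ ∑ i : Fin (n + 1), ‖c i * ver n X i‖ := norm_sum_le _ _
    _ ≤ ∑ _i : Fin (n + 1), ‖c‖ * ‖X‖ ^ n := by
        refine Finset.sum_le_sum fun i _ => ?_
        rw [norm_mul, ← norm_ver]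
        gcongr
        · exact norm_le_pi_norm c i
        · exact norm_le_pi_norm (ver n X) i
    _ = (n + 1) * ‖c‖ * ‖X‖ ^ n := by
        rw [Finset.sum_const, Finset.card_univ, Fintype.card_fin, nsmul_eq_mul]
        push_cast
        ring

theorem wd_decomp (A B X : ℂ × ℂ) : wd A B • X = wd X B • A - wd X A • B := by
  unfold wd
  refine Prod.ext ?_ ?_
  · simp only [Prod.smul_fst, Prod.fst_sub, smul_eq_mul]
    ring
  · simp only [Prod.smul_snd, Prod.snd_sub, smul_eq_mul]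
    ring

/-- the linear polynomial attached to a vector -/
private noncomputable def COElin (A : ℂ × ℂ) : Polynomial ℂ :=
  Polynomial.C A.2 * Polynomial.X - Polynomial.C A.1

private lemma COElin_coeff_mul_zero (A : ℂ × ℂ) (p : Polynomial ℂ) :
    (COElin A * p).coeff 0 = - A.1 * p.coeff 0 := by
  unfold COElin
  rw [sub_mul, Polynomial.coeff_sub, mul_assoc, Polynomial.coeff_C_mul, Polynomial.coeff_X_mul_zero,
    Polynomial.coeff_C_mul]
  ring

private lemma COElin_coeff_mul_succ (A : ℂ × ℂ) (p : Polynomial ℂ) (i : ℕ) :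
    (COElin A * p).coeff (i + 1) = A.2 * p.coeff i - A.1 * p.coeff (i + 1) := by
  unfold COElin
  rw [sub_mul, Polynomial.coeff_sub, mul_assoc, Polynomial.coeff_C_mul, Polynomial.coeff_X_mul,
    Polynomial.coeff_C_mul]

private lemma COElin_prod_coeff {m : ℕ} (A : Fin m → ℂ × ℂ) (i : ℕ) (hi : m < i) :
    (∏ l, COElin (A l)).coeff i = 0 := by
  induction m generalizing i with
  | zero =>
    simp only [Finset.univ_eq_empty, Finset.prod_empty]
    rw [Polynomial.coeff_one, if_neg (by omega)]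
  | succ m ih =>
    rw [Fin.prod_univ_succ]
    obtain ⟨j, rfl⟩ : ∃ j, i = j + 1 := ⟨i - 1, by omega⟩
    rw [COElin_coeff_mul_succ, ih (fun l => A l.succ) j (by omega),
      ih (fun l => A l.succ) (j + 1) (by omega)]
    ring

private lemma COE_pr_range {m : ℕ} (A : Fin m → ℂ × ℂ) (X : ℂ × ℂ) :
    ∑ i ∈ Finset.range (m + 1), (∏ l, COElin (A l)).coeff i * (X.1 ^ i * X.2 ^ (m - i)) =
      ∏ l, wd X (A l) := by
  induction m with
  | zero => simp
  | succ m ih =>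
    have ih' := ih (fun l => A l.succ)
    rw [Fin.prod_univ_succ, Fin.prod_univ_succ]
    set p := ∏ l : Fin m, COElin (A l.succ) with hp
    rw [Finset.sum_range_succ']
    simp only [COElin_coeff_mul_succ, COElin_coeff_mul_zero]
    have h1 : ∑ i ∈ Finset.range (m + 1), ((A 0).2 * p.coeff i - (A 0).1 * p.coeff (i + 1)) *
        (X.1 ^ (i + 1) * X.2 ^ (m + 1 - (i + 1))) =
        (A 0).2 * X.1 * ∑ i ∈ Finset.range (m + 1), p.coeff i * (X.1 ^ i * X.2 ^ (m - i)) -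
        (A 0).1 * ∑ i ∈ Finset.range (m + 1), p.coeff (i + 1) * (X.1 ^ (i + 1) * X.2 ^ (m - i)) := by
      rw [Finset.mul_sum, Finset.mul_sum, ← Finset.sum_sub_distrib]
      refine Finset.sum_congr rfl fun i _ => ?_
      rw [Nat.add_sub_add_right]
      ring
    have h2 : ∑ i ∈ Finset.range (m + 1), p.coeff (i + 1) * (X.1 ^ (i + 1) * X.2 ^ (m - i)) +
        p.coeff 0 * X.2 ^ (m + 1) =
        X.2 * ∑ i ∈ Finset.range (m + 1), p.coeff i * (X.1 ^ i * X.2 ^ (m - i)) := by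
      have h3 : ∑ i ∈ Finset.range (m + 1 + 1), p.coeff i * (X.1 ^ i * X.2 ^ (m + 1 - i)) =
          ∑ i ∈ Finset.range (m + 1), p.coeff (i + 1) * (X.1 ^ (i + 1) * X.2 ^ (m - i)) +
          p.coeff 0 * X.2 ^ (m + 1) := by
        rw [Finset.sum_range_succ']
        simp only [Nat.add_sub_add_right, pow_zero, one_mul, Nat.sub_zero]
      rw [← h3, Finset.sum_range_succ]
      have h4 : p.coeff (m + 1) = 0 := COElin_prod_coeff (fun l => A l.succ) (m + 1) (by omega)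
      rw [h4, zero_mul, add_zero, Finset.mul_sum]
      refine Finset.sum_congr rfl fun i hi => ?_
      have hi' : i ≤ m := Nat.lt_succ_iff.1 (Finset.mem_range.1 hi)
      rw [Nat.succ_sub hi', pow_succ]
      ring
    rw [h1, ← ih']
    simp only [pow_zero, one_mul, Nat.sub_zero]
    unfold wd
    linear_combination (-(A 0).1) * h2

theorem pr_ver {m : ℕ} (A : Fin m → ℂ × ℂ) (X : ℂ × ℂ) : pr A (ver m X) = ∏ l, wd X (A l) := by
  rw [← COE_pr_range]
  unfold pr ver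
  exact Fin.sum_univ_eq_sum_range
    (fun i => (∏ l, COElin (A l)).coeff i * (X.1 ^ i * X.2 ^ (m - i))) (m + 1)

theorem pr_smul {m : ℕ} (A : Fin m → ℂ × ℂ) (a : ℂ) (M : Fin (m + 1) → ℂ) :
    pr A (a • M) = a * pr A M := by
  unfold pr
  rw [Finset.mul_sum]
  refine Finset.sum_congr rfl fun i _ => ?_
  rw [Pi.smul_apply, smul_eq_mul]
  ring

/-- `pr` is homogeneous in each of the vectors `A l`. -/
theorem pr_smul_left {m : ℕ} (s : Fin m → ℂ) (A : Fin m → ℂ × ℂ) (M : Fin (m + 1) → ℂ) :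
    pr (fun l => s l • A l) M = (∏ l, s l) * pr A M := by
  unfold pr
  have h : (∏ l, (Polynomial.C (s l • A l).2 * Polynomial.X - Polynomial.C (s l • A l).1)) =
      Polynomial.C (∏ l, s l) *
        ∏ l, (Polynomial.C (A l).2 * Polynomial.X - Polynomial.C (A l).1) := by
    rw [map_prod, ← Finset.prod_mul_distrib]
    refine Finset.prod_congr rfl fun l _ => ?_
    simp only [Prod.smul_fst, Prod.smul_snd, smul_eq_mul, map_mul]
    ring
  rw [h, Finset.mul_sum]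
  refine Finset.sum_congr rfl fun i _ => ?_
  rw [Polynomial.coeff_C_mul]
  ring

theorem pr_perm {m : ℕ} (σ : Equiv.Perm (Fin m)) (A : Fin m → ℂ × ℂ) (M : Fin (m + 1) → ℂ) :
    pr (fun l => A (σ l)) M = pr A M := by
  unfold pr
  rw [Equiv.prod_comp σ (fun l => (Polynomial.C (A l).2 * Polynomial.X - Polynomial.C (A l).1))]

private lemma COE_norm_range {m : ℕ} (A : Fin m → ℂ × ℂ) :
    ∑ i ∈ Finset.range (m + 1), ‖(∏ l, COElin (A l)).coeff i‖ ≤ ∏ l, (‖(A l).2‖ + ‖(A l).1‖) := by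
  induction m with
  | zero => simp
  | succ m ih =>
    have ih' := ih (fun l => A l.succ)
    rw [Fin.prod_univ_succ, Fin.prod_univ_succ]
    set p := ∏ l : Fin m, COElin (A l.succ) with hp
    rw [Finset.sum_range_succ']
    simp only [COElin_coeff_mul_succ, COElin_coeff_mul_zero]
    have h4 : p.coeff (m + 1) = 0 := COElin_prod_coeff (fun l => A l.succ) (m + 1) (by omega)
    have h1 : ∑ i ∈ Finset.range (m + 1), ‖(A 0).2 * p.coeff i - (A 0).1 * p.coeff (i + 1)‖ ≤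
        ‖(A 0).2‖ * ∑ i ∈ Finset.range (m + 1), ‖p.coeff i‖ +
        ‖(A 0).1‖ * ∑ i ∈ Finset.range (m + 1), ‖p.coeff (i + 1)‖ := by
      rw [Finset.mul_sum, Finset.mul_sum, ← Finset.sum_add_distrib]
      refine Finset.sum_le_sum fun i _ => ?_
      calc ‖(A 0).2 * p.coeff i - (A 0).1 * p.coeff (i + 1)‖
          ≤ ‖(A 0).2 * p.coeff i‖ + ‖(A 0).1 * p.coeff (i + 1)‖ := norm_sub_le _ _
        _ = _ := by rw [norm_mul, norm_mul]
    have h2 : ∑ i ∈ Finset.range (m + 1), ‖p.coeff (i + 1)‖ + ‖p.coeff 0‖ =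
        ∑ i ∈ Finset.range (m + 1), ‖p.coeff i‖ := by
      rw [← Finset.sum_range_succ' (fun i => ‖p.coeff i‖), Finset.sum_range_succ, h4, norm_zero,
        add_zero]
    have h3 : ‖-(A 0).1 * p.coeff 0‖ = ‖(A 0).1‖ * ‖p.coeff 0‖ := by
      rw [norm_mul, norm_neg]
    rw [h3]
    have h5 : 0 ≤ ‖(A 0).2‖ + ‖(A 0).1‖ := by positivity
    have h6 := mul_le_mul_of_nonneg_left ih' h5
    have h7 : ‖(A 0).1‖ * ∑ i ∈ Finset.range (m + 1), ‖p.coeff (i + 1)‖ + ‖(A 0).1‖ * ‖p.coeff 0‖ =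
        ‖(A 0).1‖ * ∑ i ∈ Finset.range (m + 1), ‖p.coeff i‖ := by
      rw [← mul_add, h2]
    rw [add_mul] at h6
    linarith

theorem norm_pr_le {m : ℕ} (A : Fin m → ℂ × ℂ) (M : Fin (m + 1) → ℂ) :
    ‖pr A M‖ ≤ 2 ^ m * (∏ l, ‖A l‖) * ‖M‖ := by
  have h1 : ‖pr A M‖ ≤ ∑ i : Fin (m + 1), ‖(∏ l, COElin (A l)).coeff (i : ℕ)‖ * ‖M‖ := by
    unfold pr
    refine (norm_sum_le _ _).trans (Finset.sum_le_sum fun i _ => ?_)
    rw [norm_mul]
    exact mul_le_mul_of_nonneg_left (norm_le_pi_norm M i) (norm_nonneg _)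
  rw [← Finset.sum_mul, Fin.sum_univ_eq_sum_range
    (fun i => ‖(∏ l, COElin (A l)).coeff i‖) (m + 1)] at h1
  refine h1.trans (mul_le_mul_of_nonneg_right ((COE_norm_range A).trans ?_) (norm_nonneg _))
  calc ∏ l, (‖(A l).2‖ + ‖(A l).1‖) ≤ ∏ l, (2 * ‖A l‖) := by
        refine Finset.prod_le_prod (fun l _ => by positivity) fun l _ => ?_
        have h2 := norm_fst_le (A l)
        have h3 := norm_snd_le (A l)
        linarith
    _ = 2 ^ m * ∏ l, ‖A l‖ := by
        rw [Finset.prod_mul_distrib, Finset.prod_const, Finset.card_univ, Fintype.card_fin]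

private lemma COE_coeff_diff {m : ℕ} {U : Set ℂ} {A : Fin m → ℂ → ℂ × ℂ}
    (hA : ∀ l, DifferentiableOn ℂ (A l) U) (i : ℕ) :
    DifferentiableOn ℂ (fun ζ => (∏ l, COElin (A l ζ)).coeff i) U := by
  induction m generalizing i with
  | zero =>
    simp only [Finset.univ_eq_empty, Finset.prod_empty]
    exact differentiableOn_const _
  | succ m ih =>
    simp only [Fin.prod_univ_succ]
    have h1 : DifferentiableOn ℂ (fun ζ => (A 0 ζ).1) U := (hA 0).fst
    have h2 : DifferentiableOn ℂ (fun ζ => (A 0 ζ).2) U := (hA 0).snd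
    cases i with
    | zero =>
      simp only [COElin_coeff_mul_zero]
      exact h1.neg.mul (ih (fun l => hA l.succ) 0)
    | succ i =>
      simp only [COElin_coeff_mul_succ]
      exact (h2.mul (ih (fun l => hA l.succ) i)).sub (h1.mul (ih (fun l => hA l.succ) (i + 1)))

theorem pr_diff {m : ℕ} {U : Set ℂ} {A : Fin m → ℂ → ℂ × ℂ} {M : ℂ → Fin (m + 1) → ℂ}
    (hA : ∀ l, DifferentiableOn ℂ (A l) U) (hM : DifferentiableOn ℂ M U) :
    DifferentiableOn ℂ (fun ζ => pr (fun l => A l ζ) (M ζ)) U := by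
  have hM' := differentiableOn_pi.1 hM
  unfold pr
  exact DifferentiableOn.fun_sum fun i _ => (COE_coeff_diff hA (i : ℕ)).mul (hM' i)

theorem form_diff {n : ℕ} {U : Set ℂ} {c : ℂ → Fin (n + 1) → ℂ} {X : ℂ → ℂ × ℂ}
    (hc : DifferentiableOn ℂ c U) (hX : DifferentiableOn ℂ X U) :
    DifferentiableOn ℂ (fun ζ => form (c ζ) (X ζ)) U := by
  have hc' := differentiableOn_pi.1 hc
  unfold form
  exact DifferentiableOn.fun_sum fun i _ => (hc' i).mul ((hX.fst.pow _).mul (hX.snd.pow _))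

theorem ver_diff {m : ℕ} {U : Set ℂ} {X : ℂ → ℂ × ℂ} (hX : DifferentiableOn ℂ X U) :
    DifferentiableOn ℂ (fun ζ => ver m (X ζ)) U := by
  refine differentiableOn_pi.2 fun i => ?_
  unfold ver
  exact (hX.fst.pow _).mul (hX.snd.pow _)

theorem form_cont {n : ℕ} {α : Type*} [TopologicalSpace α] {c : α → Fin (n + 1) → ℂ}
    {X : α → ℂ × ℂ} (hc : Continuous c) (hX : Continuous X) :
    Continuous (fun a => form (c a) (X a)) := by
  unfold form
  exact continuous_finsetSum _ fun i _ =>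
    ((continuous_apply i).comp hc).mul ((hX.fst.pow _).mul (hX.snd.pow _))

end Pool.Agent.EPO
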