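import Pool.Agent.EPO.Defs2

open scoped Manifold Topology LinearAlgebra.Projectivization
open Filter Metric Set

namespace Pool.Agent.EPO

/-- Local coordinates in which a holomorphic function is a power. -/
theorem CRD {h : ℂ → ℂ} {t₀ : ℂ} {e : ℕ} (ha : AnalyticAt ℂ h t₀) (he : 0 < e)
    (ho : analyticOrderAt (fun t => h t - h t₀) t₀ = e) {W : Set ℂ} (hW : W ∈ 𝓝 t₀) :
    ∃ ε > 0, ∃ τ : ℂ → ℂ, DifferentiableOn ℂ τ (ball 0 ε) ∧ InjOn τ (ball 0 ε) ∧ τ 0 = t₀ ∧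
      (∀ u ∈ ball (0 : ℂ) ε, τ u ∈ W) ∧ (∀ V ⊆ ball (0 : ℂ) ε, IsOpen V → IsOpen (τ '' V)) ∧
      (∀ u ∈ ball (0 : ℂ) ε, deriv τ u ≠ 0) ∧
      ∀ u ∈ ball (0 : ℂ) ε, h (τ u) = h t₀ + u ^ e := by
  have hha : AnalyticAt ℂ (fun t => h t - h t₀) t₀ := ha.sub analyticAt_const
  obtain ⟨g, hga, hg0, hgeq⟩ := hha.analyticOrderAt_eq_natCast.1 ho
  obtain ⟨c, hc⟩ : ∃ c : ℂ, c ^ e = g t₀ := IsAlgClosed.exists_pow_nat_eq (g t₀) he
  have hc0 : c ≠ 0 := by
    rintro rfl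
    rw [zero_pow he.ne'] at hc
    exact hg0 hc.symm
  have hquot : AnalyticAt ℂ (fun t => g t / g t₀) t₀ := hga.div_const
  have hq1 : g t₀ / g t₀ = 1 := div_self hg0
  set r : ℂ → ℂ := fun t => c * (g t / g t₀) ^ ((1 : ℂ) / e) with hr
  have hra : AnalyticAt ℂ r t₀ := by
    refine analyticAt_const.mul (hquot.cpow analyticAt_const ?_)
    rw [hq1]
    exact Complex.one_mem_slitPlane
  have hr0 : r t₀ = c := by
    simp only [hr, hq1, Complex.one_cpow, mul_one]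
  have hrpow : ∀ t, (r t) ^ e = g t := by
    intro t
    have he' : (e : ℂ) ≠ 0 := Nat.cast_ne_zero.2 he.ne'
    simp only [hr]
    rw [mul_pow, hc, one_div, Complex.cpow_nat_inv_pow _ he.ne', mul_div_cancel₀ _ hg0]
  set f : ℂ → ℂ := fun t => (t - t₀) * r t with hf
  have hfa : AnalyticAt ℂ f t₀ := (analyticAt_id.sub analyticAt_const).mul hra
  have hf0 : f t₀ = 0 := by simp [hf]
  have hfd : HasDerivAt f c t₀ := by
    have h1 : HasDerivAt (fun t : ℂ => t - t₀) 1 t₀ := (hasDerivAt_id t₀).sub_const t₀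
    have h2 := h1.mul hra.differentiableAt.hasDerivAt
    rw [hr0, sub_self, zero_mul, add_zero, one_mul] at h2
    exact h2
  have hfd' : deriv f t₀ ≠ 0 := by rw [hfd.deriv]; exact hc0
  have hfpow : ∀ᶠ t in 𝓝 t₀, h t = h t₀ + f t ^ e := by
    filter_upwards [hgeq] with t ht
    simp only [hf]
    rw [mul_pow, hrpow, ← smul_eq_mul, ← ht]
    ring
  -- the inverse function
  let i : ℂ ≃L[ℂ] ℂ := .unitsEquivAut ℂ (.mk0 _ hfd')
  have hfs : HasStrictFDerivAt f i.toContinuousLinearMap t₀ := hfa.hasStrictDerivAt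
  let R : OpenPartialHomeomorph ℂ ℂ := hfs.toOpenPartialHomeomorph _
  have hRf : (R : ℂ → ℂ) = f := rfl
  have hx : t₀ ∈ R.source := HasStrictFDerivAt.mem_toOpenPartialHomeomorph_source _
  have hdne : ∀ᶠ t in 𝓝 t₀, deriv f t ≠ 0 :=
    hfa.deriv.continuousAt.eventually_ne hfd'
  have hdiff : ∀ᶠ t in 𝓝 t₀, AnalyticAt ℂ f t := hfa.eventually_analyticAt
  have hgood : ∀ᶠ t in 𝓝 t₀, t ∈ W ∧ deriv f t ≠ 0 ∧ AnalyticAt ℂ f t ∧ h t = h t₀ + f t ^ e := by
    filter_upwards [hW, hdne, hdiff, hfpow] with t a1 a2 a3 a4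
    exact ⟨a1, a2, a3, a4⟩
  have h0t : (0 : ℂ) ∈ R.target := by
    have := R.map_source hx
    rwa [hRf, hf0] at this
  have hsymm0 : R.symm 0 = t₀ := by
    have := R.left_inv hx
    rwa [hRf, hf0] at this
  have hcont : ContinuousAt R.symm 0 := R.symm.continuousAt h0t
  have hgood' : ∀ᶠ v in 𝓝 (0 : ℂ), v ∈ R.target ∧ (R.symm v ∈ W ∧ deriv f (R.symm v) ≠ 0 ∧
      AnalyticAt ℂ f (R.symm v) ∧ h (R.symm v) = h t₀ + f (R.symm v) ^ e) := by
    refine (R.open_target.eventually_mem h0t).and ?_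
    have := hcont.tendsto
    rw [hsymm0] at this
    exact this.eventually hgood
  obtain ⟨ε, hε, hball⟩ := Metric.eventually_nhds_iff_ball.1 hgood'
  have hbt : ball (0 : ℂ) ε ⊆ R.target := fun v hv => (hball v hv).1
  have hder : ∀ v ∈ ball (0 : ℂ) ε, HasDerivAt R.symm (deriv f (R.symm v))⁻¹ v := by
    intro v hv
    obtain ⟨a0, -, a2, a3, -⟩ := hball v hv
    exact R.hasDerivAt_symm a0 a2 a3.differentiableAt.hasDerivAt
  refine ⟨ε, hε, R.symm, ?_, ?_, hsymm0, ?_, ?_, ?_, ?_⟩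
  · intro v hv
    exact (hder v hv).differentiableAt.differentiableWithinAt
  · intro v hv w hw hvw
    exact R.symm.injOn (hbt hv) (hbt hw) hvw
  · exact fun v hv => (hball v hv).2.1
  · exact fun V hV hVo => R.isOpen_image_symm_of_subset_target hVo (hV.trans hbt)
  · intro v hv
    rw [(hder v hv).deriv]
    exact inv_ne_zero (hball v hv).2.2.1
  · intro v hv
    obtain ⟨a0, -, -, -, a4⟩ := hball v hv
    rw [a4]
    have := R.right_inv a0
    rw [hRf] at this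
    rw [this]

end Pool.Agent.EPO
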