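import Pool.Agent.EPO.RTA

open scoped Manifold Topology LinearAlgebra.Projectivization
open Filter Metric Set

namespace Pool.Agent.EPO

private lemma CRI_prod {n : ℕ} {c : Fin (n + 1) → ℂ} {B : Fin n → ℂ × ℂ} (hB : Roots c B)
    {X : ℂ × ℂ} (hX : form c X = 1) (i : Fin n) : wd X (B i) ≠ 0 := by
  intro h
  rw [hB.1 X, Finset.prod_eq_zero (Finset.mem_univ i) h] at hX
  exact zero_ne_one hX

private lemma CRI_pr {n : ℕ} {c : Fin (n + 1) → ℂ} {B : Fin n → ℂ × ℂ} (hB : Roots c B)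
    {X : ℂ × ℂ} (hX : form c X = 1) (i j : Fin n) :
    pr (Function.update B j (B i)) (ver n X) = wd X (B i) / wd X (B j) := by
  have hj := CRI_prod hB hX j
  rw [pr_ver]
  have h1 : ∏ l, wd X (Function.update B j (B i) l) =
      wd X (B i) * ∏ l ∈ Finset.univ.erase j, wd X (B l) := by
    rw [← Finset.mul_prod_erase Finset.univ _ (Finset.mem_univ j)]
    rw [Function.update_self]
    congr 1
    refine Finset.prod_congr rfl fun l hl => ?_
    rw [Function.update_of_ne (Finset.ne_of_mem_erase hl)]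
  have h2 : wd X (B j) * ∏ l ∈ Finset.univ.erase j, wd X (B l) = 1 := by
    rw [Finset.mul_prod_erase Finset.univ (fun l => wd X (B l)) (Finset.mem_univ j), ← hB.1 X, hX]
  rw [h1, eq_div_iff hj]
  linear_combination wd X (B i) * h2

theorem cr_val {n : ℕ} {c : Fin (n + 1) → ℂ} {B : Fin n → ℂ × ℂ} (hB : Roots c B) {X : ℂ × ℂ}
    (hX : form c X = 1) {i j k : Fin n} (hij : i ≠ j) (hik : i ≠ k) (hjk : j ≠ k) :
    cr B (ver n X) i j k = wd X (B i) * wd (B k) (B j) / (wd X (B j) * wd (B k) (B i)) := by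
  unfold cr
  rw [CRI_pr hB hX]
  have hj := CRI_prod hB hX j
  have hki := hB.2 k i hik.symm
  field_simp

theorem cr_sub_one {n : ℕ} {c : Fin (n + 1) → ℂ} {B : Fin n → ℂ × ℂ} (hB : Roots c B)
    {X : ℂ × ℂ} (hX : form c X = 1) {i j k : Fin n} (hij : i ≠ j) (hik : i ≠ k) (hjk : j ≠ k) :
    cr B (ver n X) i j k - 1 =
      wd X (B k) * wd (B i) (B j) / (wd X (B j) * wd (B k) (B i)) := by
  rw [cr_val hB hX hij hik hjk]
  have hj := CRI_prod hB hX j
  have hki := hB.2 k i hik.symm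
  rw [div_sub_one (mul_ne_zero hj hki)]
  congr 1
  unfold wd
  ring

theorem cr_ne {n : ℕ} {c : Fin (n + 1) → ℂ} {B : Fin n → ℂ × ℂ} (hB : Roots c B)
    {M : Fin (n + 1) → ℂ} (hM : IsM c M) {i j k : Fin n} (hij : i ≠ j) (hik : i ≠ k)
    (hjk : j ≠ k) : cr B M i j k ≠ 0 ∧ cr B M i j k ≠ 1 := by
  obtain ⟨X, hX, rfl⟩ := hM
  have hi := CRI_prod hB hX i
  have hj := CRI_prod hB hX j
  have hk := CRI_prod hB hX k
  have hki := hB.2 k i hik.symm
  have hkj := hB.2 k j hjk.symm
  have hij' := hB.2 i j hij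
  constructor
  · rw [cr_val hB hX hij hik hjk]
    exact div_ne_zero (mul_ne_zero hi hkj) (mul_ne_zero hj hki)
  · rw [← sub_ne_zero, cr_sub_one hB hX hij hik hjk]
    exact div_ne_zero (mul_ne_zero hk hij') (mul_ne_zero hj hki)

theorem crf_diff {n : ℕ} {f : ℂ → Fin (n + 1) → ℂ} {U : Set ℂ} {B : Fin n → ℂ → ℂ × ℂ}
    {M : ℂ → Fin (n + 1) → ℂ} (hB : RootSys f U B) (hM : ASec f U M) {i j k : Fin n}
    (hij : i ≠ j) (hik : i ≠ k) (hjk : j ≠ k) :
    DifferentiableOn ℂ (crf B M i j k) U ∧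
      ∀ ζ ∈ U, crf B M i j k ζ ≠ 0 ∧ crf B M i j k ζ ≠ 1 := by
  constructor
  · have hwd : ∀ a b : Fin n, DifferentiableOn ℂ (fun ζ => wd (B a ζ) (B b ζ)) U := by
      intro a b
      unfold wd
      exact ((hB.1 a).fst.mul (hB.1 b).snd).sub ((hB.1 a).snd.mul (hB.1 b).fst)
    have h1 : DifferentiableOn ℂ (fun ζ => pr (Function.update (fun l => B l ζ) j (B i ζ)) (M ζ)) U := by
      have h2 := pr_diff (A := Function.update B j (B i)) (M := M) (U := U) (by
        intro l
        by_cases hl : l = j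
        · subst hl
          rw [Function.update_self]
          exact hB.1 i
        · rw [Function.update_of_ne hl]
          exact hB.1 l) hM.1
      refine h2.congr fun ζ _ => ?_
      congr 1
      funext l
      by_cases hl : l = j
      · subst hl
        rw [Function.update_self, Function.update_self]
      · rw [Function.update_of_ne hl, Function.update_of_ne hl]
    unfold crf cr
    exact (h1.mul (hwd k j)).div (hwd k i) fun ζ hζ => (hB.2 ζ hζ).2 k i hik.symm
  · intro ζ hζ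
    exact cr_ne (hB.2 ζ hζ) (hM.2 ζ hζ) hij hik hjk

end Pool.Agent.EPO
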