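import Pool.Agent.EPO.Defs

/-!
# Holomorphic maps from a Riemann surface to `(ℂ / Λ) × ℙ¹`
-/

open scoped Manifold Topology LinearAlgebra.Projectivization
open Filter

namespace Pool.Agent.EPO

/-- The point `(a, y)` of `(ℂ / Λ) × ℙ¹` lies on the curve defined by `f`. -/
def OnCurve (Λ : Submodule ℤ ℂ) {n : ℕ} (f : ℂ → Fin (n + 1) → ℂ) (a : ℂ ⧸ Λ)
    (y : ℙ ℂ (ℂ × ℂ)) : Prop :=
  ∃ ζ : ℂ, ∃ X : ℂ × ℂ, ∃ hX : X ≠ 0, a = Λ.mkQ ζ ∧ y = Projectivization.mk ℂ X hX ∧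
    form (f ζ) X = 0

/-- The map `(z, x)` from the Riemann surface `C` to `(ℂ / Λ) × ℙ¹` is holomorphic. -/
def HolMap {C : Type*} [TopologicalSpace C] [ChartedSpace ℂ C] (Λ : Submodule ℤ ℂ)
    (z : C → ℂ ⧸ Λ) (x : C → ℙ ℂ (ℂ × ℂ)) : Prop :=
  ∀ p : C, ∃ h X, IsLift Λ z x p h X

end Pool.Agent.EPO
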