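import Pool.Agent.EPO.Defs2

open scoped Manifold Topology LinearAlgebra.Projectivization
open Filter Metric Set

namespace Pool.Agent.EPO

/-- Diagonal sequences. -/
theorem DIA (P : ℕ → (ℕ → ℕ) → Prop)
    (hs : ∀ (i : ℕ) (φ θ ψ : ℕ → ℕ), P i φ → Tendsto ψ atTop atTop →
      (∀ᶠ k in atTop, θ k = φ (ψ k)) → P i θ)
    (he : ∀ (i : ℕ) (φ : ℕ → ℕ), StrictMono φ → ∃ ψ, StrictMono ψ ∧ P i (φ ∘ ψ)) :
    ∃ θ, StrictMono θ ∧ ∀ i, P i θ := by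
  choose Ψ hΨ hP using he
  let Φ : ℕ → {φ : ℕ → ℕ // StrictMono φ} := fun n =>
    Nat.rec ⟨id, strictMono_id⟩ (fun i φ => ⟨φ.1 ∘ Ψ i φ.1 φ.2, φ.2.comp (hΨ i φ.1 φ.2)⟩) n
  have hΦ : ∀ i, (Φ (i + 1)).1 = (Φ i).1 ∘ Ψ i (Φ i).1 (Φ i).2 := fun i => rfl
  have hχ : ∀ i j, ∃ χ : ℕ → ℕ, StrictMono χ ∧ (Φ (i + j)).1 = (Φ i).1 ∘ χ := by
    intro i j
    induction j with
    | zero => exact ⟨id, strictMono_id, rfl⟩
    | succ j ih =>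
      obtain ⟨χ, h1, h2⟩ := ih
      refine ⟨χ ∘ Ψ (i + j) (Φ (i + j)).1 (Φ (i + j)).2, h1.comp (hΨ _ _ _), ?_⟩
      rw [← add_assoc, hΦ, ← Function.comp_assoc, ← h2]
  choose χ hχm hχe using hχ
  refine ⟨fun k => (Φ k).1 k, strictMono_nat_of_lt_succ fun k => ?_, fun i => ?_⟩
  · rw [hΦ]
    exact (Φ k).2 (lt_of_lt_of_le (Nat.lt_succ_self k) ((hΨ k (Φ k).1 (Φ k).2).le_apply))
  · refine hs i _ _ (fun k => χ (i + 1) (k - (i + 1)) k) (hP i (Φ i).1 (Φ i).2) ?_ ?_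
    · exact tendsto_atTop_mono (fun k => (hχm (i + 1) (k - (i + 1))).le_apply) tendsto_id
    · filter_upwards [eventually_ge_atTop (i + 1)] with k hk
      have h1 := hχe (i + 1) (k - (i + 1))
      rw [Nat.add_sub_cancel' hk] at h1
      rw [← hΦ i]
      exact congrFun h1 k

end Pool.Agent.EPO
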