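import Mathlib

/-!
# Curves in the product of an elliptic curve and the projective line: definitions

The elliptic curve is `ℂ / Λ`. A curve `D` in `(ℂ / Λ) × ℙ¹` without fibres `{pt} × ℙ¹` is given by
a binary form of degree `n` whose coefficients are theta functions `f i` for one common factor of
automorphy. Riemann surfaces are complex manifolds modelled on `ℂ`.
-/

open scoped Manifold Topology LinearAlgebra.Projectivization
open Filter

namespace Pool.Agent.EPO

/-- The determinant of two vectors of `ℂ²`; it vanishes iff they are linearly dependent. -/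
def wd (X Y : ℂ × ℂ) : ℂ := X.1 * Y.2 - X.2 * Y.1

/-- The binary form of degree `n` with the coefficients `c i`, `0 ≤ i ≤ n`. -/
def form {n : ℕ} (c : Fin (n + 1) → ℂ) (X : ℂ × ℂ) : ℂ :=
  ∑ i, c i * (X.1 ^ (i : ℕ) * X.2 ^ (n - (i : ℕ)))

/-- `f` defines a curve `D = {([ζ], [X]) : form (f ζ) X = 0}` in `(ℂ / Λ) × ℙ¹`, of degree `n`
over `ℂ / Λ`, without multiple components, without components `{pt} × ℙ¹`, and which is not a
union of curves `(ℂ / Λ) × {pt}`. -/
structure IsCurve (Λ : Submodule ℤ ℂ) {n : ℕ} (f : ℂ → Fin (n + 1) → ℂ) : Prop where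
  hol : Differentiable ℂ f
  aut : ∀ ω ∈ Λ, ∃ j : ℂ → ℂ, (∀ ζ, j ζ ≠ 0) ∧ ∀ ζ, f (ζ + ω) = j ζ • f ζ
  no_fibre : ∀ ζ, f ζ ≠ 0
  reduced : ∃ ζ, ∃ B : Fin n → ℂ × ℂ, (∀ i, form (f ζ) (B i) = 0) ∧
    ∀ i j, i ≠ j → wd (B i) (B j) ≠ 0
  moves : ∃ ζ ζ', LinearIndependent ℂ ![f ζ, f ζ']

section RS

variable {C : Type*} [TopologicalSpace C] [ChartedSpace ℂ C]

/-- `g` is holomorphic near the point `p` of the Riemann surface `C`. -/
def HolAt (g : C → ℂ) (p : C) : Prop :=
  AnalyticAt ℂ (g ∘ (chartAt ℂ p).symm) (chartAt ℂ p p)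

/-- The order of vanishing of `g` at `p` (`⊤` if `g` vanishes identically near `p`). -/
noncomputable def ordAt (g : C → ℂ) (p : C) : ℕ∞ :=
  analyticOrderAt (g ∘ (chartAt ℂ p).symm) (chartAt ℂ p p)

/-- Near `p` the map `z` is the class of the holomorphic function `h` and `x` is given by the
homogeneous coordinates `X`, which are holomorphic and have no common zero. -/
structure IsLift (Λ : Submodule ℤ ℂ) (z : C → ℂ ⧸ Λ) (x : C → ℙ ℂ (ℂ × ℂ)) (p : C) (h : C → ℂ)
    (X : C → ℂ × ℂ) : Prop where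
  hol : HolAt h p
  hol₁ : HolAt (fun q => (X q).1) p
  hol₂ : HolAt (fun q => (X q).2) p
  lift_z : ∀ᶠ q in 𝓝 p, z q = Λ.mkQ (h q)
  lift_x : ∀ᶠ q in 𝓝 p, ∃ hX : X q ≠ 0, x q = Projectivization.mk ℂ (X q) hX

/-- The map `(z, x) : C → (ℂ / Λ) × ℙ¹` is holomorphic near `p`, `z` has ramification index `e`
at `p` (so `z` is not constant near `p`), and the pull back of the curve `D` defined by `f` has
multiplicity `k` at `p` (so `D` does not contain the image of a neighbourhood of `p`). -/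
def Local (Λ : Submodule ℤ ℂ) {n : ℕ} (f : ℂ → Fin (n + 1) → ℂ) (z : C → ℂ ⧸ Λ)
    (x : C → ℙ ℂ (ℂ × ℂ)) (p : C) (e k : ℕ) : Prop :=
  ∃ h X, IsLift Λ z x p h X ∧ ordAt (fun q => h q - h p) p = e ∧
    ordAt (fun q => form (f (h q)) (X q)) p = k

end RS

end Pool.Agent.EPO
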