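import Pool.Agent.EPO.Defs

/-!
# Working definitions (none of them occurs in the final statement)
-/

open scoped Manifold Topology LinearAlgebra.Projectivization
open Filter Metric Set

namespace Pool.Agent.EPO

/-! ### Real functions: a lower bound for a quarter of the Laplacian -/

/-- The circle means of `ψ` around `ζ` satisfy `ψ ζ + c r² ≤ mean + o(r²)`: in a weak sense, a
quarter of the Laplacian of `ψ` at `ζ` is at least `c`. -/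
def LL (ψ : ℂ → ℝ) (ζ : ℂ) (c : ℝ) : Prop :=
  ∀ c' < c, ∀ᶠ r in 𝓝[>] (0 : ℝ), CircleIntegrable ψ ζ r ∧
    ψ ζ + c' * r ^ 2 ≤ Real.circleAverage ψ ζ r

/-- A negatively curved metric (squared) on `ℂ \ {0, 1}`. -/
noncomputable def met (w : ℂ) : ℝ :=
  (1 + ‖w‖ ^ (1 / 3 : ℝ)) * (1 + ‖w - 1‖ ^ (1 / 3 : ℝ)) /
    (‖w‖ ^ (5 / 3 : ℝ) * ‖w - 1‖ ^ (5 / 3 : ℝ))

/-- The basic function attached to a holomorphic function `w` without the values `0`, `1`. -/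
noncomputable def YY (w : ℂ → ℂ) (ζ : ℂ) : ℝ :=
  5760 * Real.posLog (met (w ζ) * ‖deriv w ζ‖ ^ 2) - Real.log (1 + ‖w ζ‖ ^ 2)

/-! ### Binary forms -/

/-- The vector of monomials of degree `m`. -/
def ver (m : ℕ) (X : ℂ × ℂ) : Fin (m + 1) → ℂ := fun i => X.1 ^ (i : ℕ) * X.2 ^ (m - (i : ℕ))

/-- Pairing with the product of the `m` linear forms `wd · (A l)`; see `pr_ver`. -/
noncomputable def pr {m : ℕ} (A : Fin m → ℂ × ℂ) (M : Fin (m + 1) → ℂ) : ℂ :=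
  ∑ i, (∏ l, (Polynomial.C (A l).2 * Polynomial.X - Polynomial.C (A l).1)).coeff (i : ℕ) * M i

/-- `B` is a full system of roots of the form with coefficients `c`, normalised. -/
def Roots {n : ℕ} (c : Fin (n + 1) → ℂ) (B : Fin n → ℂ × ℂ) : Prop :=
  (∀ X, form c X = ∏ i, wd X (B i)) ∧ ∀ i j, i ≠ j → wd (B i) (B j) ≠ 0

/-- The gradient of the form at `B` is `g • (B.2, - B.1)`. -/
def Grad {n : ℕ} (c : Fin (n + 1) → ℂ) (B : ℂ × ℂ) (g : ℂ) : Prop :=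
  ∀ γ : ℂ × ℂ, HasDerivAt (fun t : ℂ => form c (B + t • γ)) (g * wd γ B) 0

/-- `B` is a simple root of the form with coefficients `c`. -/
def SRoot {n : ℕ} (c : Fin (n + 1) → ℂ) (B : ℂ × ℂ) (g : ℂ) : Prop :=
  B ≠ 0 ∧ g ≠ 0 ∧ form c B = 0 ∧ Grad c B g

/-- `N` is the canonical vector of the simple root `B` (it depends only on the line of `B`). -/
def NofR {n : ℕ} (c : Fin (n + 1) → ℂ) (B : ℂ × ℂ) (N : Fin (n - 2 + 1) → ℂ) : Prop :=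
  ∃ g, SRoot c B g ∧ N = g⁻¹ • ver (n - 2) B

/-- `N` is the canonical vector of a simple root. -/
def IsN {n : ℕ} (c : Fin (n + 1) → ℂ) (N : Fin (n - 2 + 1) → ℂ) : Prop := ∃ B, NofR c B N

/-- `M` is the vector of monomials of a vector on which the form is `1`. -/
def IsM {n : ℕ} (c : Fin (n + 1) → ℂ) (M : Fin (n + 1) → ℂ) : Prop :=
  ∃ X, form c X = 1 ∧ M = ver n X

/-- The points over which the curve has fewer than `n` points. -/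
def Br {n : ℕ} (f : ℂ → Fin (n + 1) → ℂ) : Set ℂ := {ζ | ¬ ∃ B, Roots (f ζ) B}

/-- A holomorphic system of roots over `U`. -/
def RootSys {n : ℕ} (f : ℂ → Fin (n + 1) → ℂ) (U : Set ℂ) (B : Fin n → ℂ → ℂ × ℂ) : Prop :=
  (∀ i, DifferentiableOn ℂ (B i) U) ∧ ∀ ζ ∈ U, Roots (f ζ) (fun i => B i ζ)

/-- A holomorphic section over `U` which avoids the curve, in normalised form. -/
def ASec {n : ℕ} (f : ℂ → Fin (n + 1) → ℂ) (U : Set ℂ) (M : ℂ → Fin (n + 1) → ℂ) : Prop :=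
  DifferentiableOn ℂ M U ∧ ∀ ζ ∈ U, IsM (f ζ) (M ζ)

/-- The cross ratio of the section and three roots. -/
noncomputable def cr {n : ℕ} (B : Fin n → ℂ × ℂ) (M : Fin (n + 1) → ℂ) (i j k : Fin n) : ℂ :=
  pr (Function.update B j (B i)) M * wd (B k) (B j) / wd (B k) (B i)

/-- The cross ratio as a function. -/
noncomputable def crf {n : ℕ} (B : Fin n → ℂ → ℂ × ℂ) (M : ℂ → Fin (n + 1) → ℂ) (i j k : Fin n)
    (ζ : ℂ) : ℂ := cr (fun l => B l ζ) (M ζ) i j k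

open Classical in
/-- Ordered triples of distinct indices. -/
noncomputable def Tri (n : ℕ) : Finset (Fin n × Fin n × Fin n) :=
  Finset.univ.filter fun t => t.1 ≠ t.2.1 ∧ t.1 ≠ t.2.2 ∧ t.2.1 ≠ t.2.2

/-- The local potential of a section. -/
noncomputable def PhiLoc {n : ℕ} (B : Fin n → ℂ → ℂ × ℂ) (M : ℂ → Fin (n + 1) → ℂ) (ζ : ℂ) : ℝ :=
  ∑ t ∈ Tri n, YY (crf B M t.1 t.2.1 t.2.2) ζ

/-! ### Sequences of sections -/

/-- The sequence of sections converges uniformly on `U` to the section `L`. -/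
def ToSec {n : ℕ} (f : ℂ → Fin (n + 1) → ℂ) (M : ℕ → ℂ → Fin (n + 1) → ℂ)
    (L : ℂ → Fin (n + 1) → ℂ) (U : Set ℂ) : Prop :=
  ASec f U L ∧ TendstoUniformlyOn M L atTop U

/-- The sequence of sections converges uniformly on `U` to the simple root branch `N`. -/
def ToRoot {n : ℕ} (f : ℂ → Fin (n + 1) → ℂ) (M : ℕ → ℂ → Fin (n + 1) → ℂ)
    (N : ℂ → Fin (n - 2 + 1) → ℂ) (U : Set ℂ) : Prop :=
  DifferentiableOn ℂ N U ∧ (∀ ζ ∈ U, IsN (f ζ) (N ζ)) ∧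
    ∀ ε > 0, ∀ᶠ k in atTop, ∀ ζ ∈ U, ∀ X B, M k ζ = ver n X → NofR (f ζ) B (N ζ) →
      ‖wd X B‖ ≤ ε * ‖X‖ * ‖B‖

/-- The local dichotomy at `b`. -/
def LDi {n : ℕ} (f : ℂ → Fin (n + 1) → ℂ) (b : ℂ) : Prop :=
  ∀ r > 0, ∃ s > 0, ∀ M : ℕ → ℂ → Fin (n + 1) → ℂ, (∀ᶠ k in atTop, ASec f (ball b r) (M k)) →
    ∃ φ : ℕ → ℕ, StrictMono φ ∧ ((∃ L, ToSec f (fun k => M (φ k)) L (ball b s)) ∨
      ∃ N, ToRoot f (fun k => M (φ k)) N (ball b s))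

/-! ### The Riemann surface -/

/-- The normalised vector of the point `y` of `ℙ¹` with respect to the form `f ζ`. -/
noncomputable def Mc {n : ℕ} (f : ℂ → Fin (n + 1) → ℂ) (y : ℙ ℂ (ℂ × ℂ)) (ζ : ℂ) :
    Fin (n + 1) → ℂ :=
  (form (f ζ) y.rep)⁻¹ • ver n y.rep

section RS

variable {C : Type*} [TopologicalSpace C]

/-- `s` is a continuous section of `z` over `U` whose values avoid `P`. -/
def IsSec (Λ : Submodule ℤ ℂ) (z : C → ℂ ⧸ Λ) (P : Set C) (U : Set ℂ) (s : ℂ → C) : Prop :=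
  ContinuousOn s U ∧ ∀ ζ ∈ U, z (s ζ) = Λ.mkQ ζ ∧ s ζ ∉ P

/-- The points over `ζ`. -/
def Fib (Λ : Submodule ℤ ℂ) (z : C → ℂ ⧸ Λ) (ζ : ℂ) : Set C := {p | z p = Λ.mkQ ζ}

/-- The special points. -/
def Spec (e k : C → ℕ) : Set C := {p | e p ≠ 1 ∨ k p ≠ 0}

/-- Local normal form of the covering at `q` over `a`: the coordinate disc `σ` around `q` of radius
`ε`, in which `z` is `u ↦ a + u ^ e`. -/
structure NF (Λ : Submodule ℤ ℂ) {n : ℕ} (f : ℂ → Fin (n + 1) → ℂ) (z : C → ℂ ⧸ Λ)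
    (x : C → ℙ ℂ (ℂ × ℂ)) (P : Set C) (q : C) (e k : ℕ) (a : ℂ) (ε : ℝ) (σ : ℂ → C) : Prop where
  pos : 0 < ε
  epos : 0 < e
  cont : ContinuousOn σ (ball 0 ε)
  inj : InjOn σ (ball 0 ε)
  opn : ∀ V ⊆ ball (0 : ℂ) ε, IsOpen V → IsOpen (σ '' V)
  center : σ 0 = q
  zlift : ∀ u ∈ ball (0 : ℂ) ε, z (σ u) = Λ.mkQ (a + u ^ e)
  avoid : ∀ u ∈ ball (0 : ℂ) ε, u ≠ 0 → σ u ∉ P
  xlift : ∃ X : ℂ → ℂ × ℂ, DifferentiableOn ℂ X (ball 0 ε) ∧ (∀ u ∈ ball (0 : ℂ) ε,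
    ∃ hX : X u ≠ 0, x (σ u) = Projectivization.mk ℂ (X u) hX) ∧
      ∃ κ > 0, ∀ u ∈ ball (0 : ℂ) ε,
        κ * ‖u‖ ^ k ≤ ‖form (f (a + u ^ e)) (X u)‖ ∧
        ‖form (f (a + u ^ e)) (X u)‖ ≤ κ⁻¹ * ‖u‖ ^ k * ‖X u‖ ^ n

end RS

end Pool.Agent.EPO
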