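import Pool.Agent.EPO.Defs2

/-!
# Working definitions for the Riemann surface
-/

open scoped Manifold Topology LinearAlgebra.Projectivization
open Filter Metric Set

namespace Pool.Agent.EPO

section RS

variable {C : Type*} [TopologicalSpace C] {n : ℕ}

/-- Local normal forms exist at all points. -/
def AllNF (Λ : Submodule ℤ ℂ) (f : ℂ → Fin (n + 1) → ℂ) (z : C → ℂ ⧸ Λ)
    (x : C → ℙ ℂ (ℂ × ℂ)) (e k : C → ℕ) : Prop :=
  ∀ (q : C) (a : ℂ), z q = Λ.mkQ a → ∃ ε σ, NF Λ f z x (Spec e k) q (e q) (k q) a ε σ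

/-- `v` is the value at `ζ` of the potential of the section through `p`. -/
def IsPhi (Λ : Submodule ℤ ℂ) (f : ℂ → Fin (n + 1) → ℂ) (z : C → ℂ ⧸ Λ)
    (x : C → ℙ ℂ (ℂ × ℂ)) (P : Set C) (p : C) (ζ : ℂ) (v : ℝ) : Prop :=
  ∃ r > 0, ∃ s B, IsSec Λ z P (ball ζ r) s ∧ s ζ = p ∧ RootSys f (ball ζ r) B ∧
    v = PhiLoc B (fun η => Mc f (x (s η)) η) ζ

open Classical in
/-- The potential of the section through `p`. -/
noncomputable def Phi (Λ : Submodule ℤ ℂ) (f : ℂ → Fin (n + 1) → ℂ) (z : C → ℂ ⧸ Λ)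
    (x : C → ℙ ℂ (ℂ × ℂ)) (P : Set C) (p : C) (ζ : ℂ) : ℝ :=
  if h : ∃ v, IsPhi Λ f z x P p ζ v then h.choose else 0

/-- The sum of the potentials over the fibre. -/
noncomputable def Psi (Λ : Submodule ℤ ℂ) (f : ℂ → Fin (n + 1) → ℂ) (z : C → ℂ ⧸ Λ)
    (x : C → ℙ ℂ (ℂ × ℂ)) (P : Set C) (ζ : ℂ) : ℝ :=
  ∑ᶠ p ∈ Fib Λ z ζ, Phi Λ f z x P p ζ

end RS

end Pool.Agent.EPO
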