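import Pool.Agent.EPO.SRT

open scoped Manifold Topology LinearAlgebra.Projectivization
open Filter Metric Set

namespace Pool.Agent.EPO

private theorem ext_beta {α : ℂ × ℂ} (hα : α ≠ 0) : ∃ β : ℂ × ℂ, wd β α = 1 := by
  by_cases h2 : α.2 = 0
  · have h1 : α.1 ≠ 0 := by
      intro h1; exact hα (Prod.ext h1 h2)
    refine ⟨(0, -α.1⁻¹), ?_⟩
    simp [wd, h1]
  · refine ⟨(α.2⁻¹, 0), ?_⟩
    simp [wd, h2]

private theorem ext_form_zero {n : ℕ} (hn : 1 ≤ n) (c : Fin (n + 1) → ℂ) :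
    form c (0 : ℂ × ℂ) = 0 := by
  have h := form_smul_right (0 : ℂ) c (0 : ℂ × ℂ)
  rw [smul_zero] at h
  rw [h, zero_pow (by omega), zero_mul]

/-- pointwise description of the normalised root -/
private theorem ext_point {n : ℕ} (hn : 3 ≤ n) {c : Fin (n + 1) → ℂ} {α β : ℂ × ℂ}
    (hα : form c α ≠ 0) (hβ : wd β α = 1) {N : Fin (n - 2 + 1) → ℂ} (hN : IsN c N) :
    ∃ (t g : ℂ), g ≠ 0 ∧ form c (β + t • α) = 0 ∧ Grad c (β + t • α) g ∧
      N = g⁻¹ • ver (n - 2) (β + t • α) ∧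
      pr (fun _ : Fin (n - 2) => α) N = g⁻¹ ∧
      pr (Function.update (fun _ : Fin (n - 2) => α) ⟨0, by omega⟩ β) N = - t * g⁻¹ := by
  obtain ⟨B₀, g₀, ⟨hB0, hg0, hfB, hgr⟩, hNe⟩ := hN
  have hα0 : α ≠ 0 := by
    rintro rfl
    exact hα (ext_form_zero (by omega) c)
  have hw : wd B₀ α ≠ 0 := by
    intro hw
    obtain ⟨s, _, hs⟩ := exists_smul_of_wd hB0 hα0 hw
    apply hα
    rw [hs, form_smul_right, hfB, mul_zero]
  set s : ℂ := (wd B₀ α)⁻¹ with hs
  have hs0 : s ≠ 0 := inv_ne_zero hw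
  have hwB : wd (s • B₀) α = 1 := by
    have : wd (s • B₀) α = s * wd B₀ α := by simp [wd]; ring
    rw [this, hs, inv_mul_cancel₀ hw]
  have hdec := wd_decomp β α (s • B₀)
  rw [hβ, hwB, one_smul, one_smul] at hdec
  refine ⟨- wd (s • B₀) β, s ^ (n - 2) * g₀, mul_ne_zero (pow_ne_zero _ hs0) hg0, ?_, ?_, ?_, ?_, ?_⟩
  · rw [neg_smul, ← sub_eq_add_neg, ← hdec, form_smul_right, hfB, mul_zero]
  · rw [neg_smul, ← sub_eq_add_neg, ← hdec]
    exact grad_smul (by omega) hgr s hs0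
  · rw [neg_smul, ← sub_eq_add_neg, ← hdec, ver_smul, hNe, smul_smul, mul_inv]
    congr 1
    field_simp
  · have hN' : N = (s ^ (n - 2) * g₀)⁻¹ • ver (n - 2) (s • B₀) := by
      rw [ver_smul, hNe, smul_smul, mul_inv]
      congr 1
      field_simp
    rw [hN', pr_smul, pr_ver]
    simp [hwB]
  · have hN' : N = (s ^ (n - 2) * g₀)⁻¹ • ver (n - 2) (s • B₀) := by
      rw [ver_smul, hNe, smul_smul, mul_inv]
      congr 1
      field_simp
    rw [hN', pr_smul, pr_ver]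
    have : ∏ l, wd (s • B₀) (Function.update (fun _ : Fin (n - 2) => α) ⟨0, by omega⟩ β l) =
        wd (s • B₀) β := by
      rw [Finset.prod_eq_single (⟨0, by omega⟩ : Fin (n - 2))]
      · simp
      · intro l _ hl
        rw [Function.update_of_ne hl, hwB]
      · intro h; exact absurd (Finset.mem_univ _) h
    rw [this]; ring

/-- Extension of a simple root branch over a puncture (as a root branch). -/
theorem EXT {n : ℕ} (hn : 3 ≤ n) {f : ℂ → Fin (n + 1) → ℂ} (hf : Differentiable ℂ f)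
    {b : ℂ} {r : ℝ} (hr : 0 < r) {α : ℂ × ℂ} (hα : ∀ ζ ∈ ball b r, form (f ζ) α ≠ 0)
    {N : ℂ → Fin (n - 2 + 1) → ℂ} (hd : DifferentiableOn ℂ N (ball b r \ {b}))
    (hN : ∀ ζ ∈ ball b r \ {b}, IsN (f ζ) (N ζ)) :
    ∃ (B : ℂ → ℂ × ℂ) (g : ℂ → ℂ), DifferentiableOn ℂ B (ball b r) ∧
      DifferentiableOn ℂ g (ball b r) ∧
      (∀ ζ ∈ ball b r, wd (B ζ) α = 1 ∧ form (f ζ) (B ζ) = 0 ∧ Grad (f ζ) (B ζ) (g ζ)) ∧
      ∀ ζ ∈ ball b r, ζ ≠ b → g ζ ≠ 0 ∧ N ζ = (g ζ)⁻¹ • ver (n - 2) (B ζ) := by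
  have hbb : b ∈ ball b r := mem_ball_self hr
  have hα0 : α ≠ 0 := by
    rintro rfl
    exact hα b hbb (ext_form_zero (by omega) _)
  obtain ⟨β, hβ⟩ := ext_beta hα0
  -- the holomorphic functions
  set P1 : ℂ → ℂ := fun ζ => pr (fun _ : Fin (n - 2) => α) (N ζ) with hP1
  set P2 : ℂ → ℂ := fun ζ =>
    pr (Function.update (fun _ : Fin (n - 2) => α) ⟨0, by omega⟩ β) (N ζ) with hP2
  have dP1 : DifferentiableOn ℂ P1 (ball b r \ {b}) :=
    pr_diff (A := fun _ _ => α) (fun _ => differentiableOn_const _) hd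
  have dP2 : DifferentiableOn ℂ P2 (ball b r \ {b}) :=
    pr_diff (A := fun l _ => Function.update (fun _ : Fin (n - 2) => α) ⟨0, by omega⟩ β l)
      (fun _ => differentiableOn_const _) hd
  set t : ℂ → ℂ := fun ζ => - P2 ζ / P1 ζ with ht
  have key : ∀ ζ ∈ ball b r \ {b}, ∃ g : ℂ, g ≠ 0 ∧ form (f ζ) (β + t ζ • α) = 0 ∧
      Grad (f ζ) (β + t ζ • α) g ∧ N ζ = g⁻¹ • ver (n - 2) (β + t ζ • α) ∧ P1 ζ = g⁻¹ := by
    intro ζ hζ
    obtain ⟨t', g, hg, h1, h2, h3, h4, h5⟩ := ext_point hn (hα ζ hζ.1) hβ (hN ζ hζ)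
    have htt : t ζ = t' := by
      simp only [ht, hP1, hP2]
      rw [h4, h5]
      field_simp
    refine ⟨g, hg, ?_, ?_, ?_, h4⟩
    · rw [htt]; exact h1
    · rw [htt]; exact h2
    · rw [htt]; exact h3
  have dt : DifferentiableOn ℂ t (ball b r \ {b}) := by
    apply DifferentiableOn.div dP2.neg dP1
    intro ζ hζ
    obtain ⟨g, hg, _, _, _, h⟩ := key ζ hζ
    rw [h]; exact inv_ne_zero hg
  -- boundedness near b
  have hbd : ∃ C : ℝ, ∀ᶠ ζ in 𝓝[≠] b, ‖t ζ‖ ≤ C := by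
    have hcont : Continuous (fun p : ℂ × ℂ => form (f p.1) (α + p.2 • β)) := by
      apply form_cont
      · exact hf.continuous.comp continuous_fst
      · fun_prop
    have hne : ∀ᶠ p : ℂ × ℂ in 𝓝 (b, (0 : ℂ)), form (f p.1) (α + p.2 • β) ≠ 0 := by
      apply hcont.continuousAt.eventually_ne
      simpa using hα b hbb
    rw [nhds_prod_eq] at hne
    obtain ⟨U, hU, V, hV, hUV⟩ := Filter.mem_prod_iff.mp hne
    obtain ⟨ε, hε, hεV⟩ := Metric.mem_nhds_iff.mp hV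
    refine ⟨ε⁻¹, ?_⟩
    have h1 : ∀ᶠ ζ in 𝓝[≠] b, ζ ∈ U := mem_nhdsWithin_of_mem_nhds hU
    have h2 : ∀ᶠ ζ in 𝓝[≠] b, ζ ∈ ball b r \ {b} := by
      have : ∀ᶠ ζ in 𝓝[≠] b, ζ ∈ ball b r := mem_nhdsWithin_of_mem_nhds (ball_mem_nhds b hr)
      filter_upwards [this, self_mem_nhdsWithin] with ζ ha hb
      exact ⟨ha, hb⟩
    filter_upwards [h1, h2] with ζ hζU hζ
    by_contra hcon
    push Not at hcon
    obtain ⟨g, hg, hform, _⟩ := key ζ hζ
    have htpos : 0 < ‖t ζ‖ := lt_trans (inv_pos.mpr hε) hcon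
    have ht0 : t ζ ≠ 0 := norm_pos_iff.mp htpos
    have hsmall : (t ζ)⁻¹ ∈ V := by
      apply hεV
      rw [mem_ball_zero_iff, norm_inv]
      exact inv_lt_of_inv_lt₀ hε hcon
    have := hUV (Set.mk_mem_prod hζU hsmall)
    apply this
    show form (f ζ) (α + (t ζ)⁻¹ • β) = 0
    have hh : α + (t ζ)⁻¹ • β = (t ζ)⁻¹ • (β + t ζ • α) := by
      rw [smul_add, smul_smul, inv_mul_cancel₀ ht0, one_smul, add_comm]
    rw [hh, form_smul_right, hform, mul_zero]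
  obtain ⟨C, hC⟩ := hbd
  -- removable singularity
  have hlo : (fun z => t z - t b) =o[𝓝[≠] b] fun z => (z - b)⁻¹ := by
    have h1 : (fun z => t z - t b) =O[𝓝[≠] b] fun _ => (1 : ℝ) := by
      rw [Asymptotics.isBigO_iff]
      refine ⟨C + ‖t b‖, ?_⟩
      filter_upwards [hC] with z hz
      simp only [norm_one, mul_one]
      exact (norm_sub_le _ _).trans (by linarith)
    refine h1.trans_isLittleO ?_
    rw [Asymptotics.isLittleO_const_left]
    right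
    have : Tendsto (fun z : ℂ => z - b) (𝓝[≠] b) (𝓝[≠] 0) := by
      apply tendsto_nhdsWithin_of_tendsto_nhds_of_eventually_within
      · have : Tendsto (fun z : ℂ => z - b) (𝓝 b) (𝓝 (b - b)) := (continuous_id.sub continuous_const).tendsto b
        rw [sub_self] at this
        exact this.mono_left nhdsWithin_le_nhds
      · filter_upwards [self_mem_nhdsWithin] with z hz
        exact sub_ne_zero.mpr hz
    have h2 := (tendsto_norm_inv_nhdsNE_zero_atTop (α := ℂ)).comp this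
    exact h2
  have dT := Complex.differentiableOn_update_limUnder_of_isLittleO (ball_mem_nhds b hr) dt hlo
  set T : ℂ → ℂ := Function.update t b (limUnder (𝓝[≠] b) t) with hT
  have hTt : ∀ ζ, ζ ≠ b → T ζ = t ζ := fun ζ hζ => by rw [hT, Function.update_of_ne hζ]
  set B : ℂ → ℂ × ℂ := fun ζ => β + T ζ • α with hB
  have dB : DifferentiableOn ℂ B (ball b r) := by
    apply DifferentiableOn.add (differentiableOn_const _)
    exact dT.smul (differentiableOn_const _)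
  have hBα : ∀ ζ, wd (B ζ) α = 1 := by
    intro ζ
    have : wd (B ζ) α = wd β α := by simp [hB, wd]; ring
    rw [this, hβ]
  have hB0 : ∀ ζ, B ζ ≠ 0 := by
    intro ζ h0
    have := hBα ζ
    rw [h0] at this
    simp [wd] at this
  have hform : ∀ ζ ∈ ball b r, form (f ζ) (B ζ) = 0 := by
    have hne : ∀ ζ ∈ ball b r, ζ ≠ b → form (f ζ) (B ζ) = 0 := by
      intro ζ hζ hζb
      obtain ⟨g, hg, h1, _⟩ := key ζ ⟨hζ, hζb⟩
      simp only [hB, hTt ζ hζb]
      exact h1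
    intro ζ hζ
    by_cases hζb : ζ = b
    · subst hζb
      have hdf : DifferentiableOn ℂ (fun ζ => form (f ζ) (B ζ)) (ball ζ r) :=
        form_diff hf.differentiableOn dB
      have hca : ContinuousAt (fun ζ => form (f ζ) (B ζ)) ζ :=
        hdf.continuousOn.continuousAt (ball_mem_nhds ζ hr)
      have h1 : Tendsto (fun ζ => form (f ζ) (B ζ)) (𝓝[≠] ζ) (𝓝 (form (f ζ) (B ζ))) :=
        hca.tendsto.mono_left nhdsWithin_le_nhds
      have h2 : Tendsto (fun ζ => form (f ζ) (B ζ)) (𝓝[≠] ζ) (𝓝 0) := by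
        apply tendsto_const_nhds.congr'
        have : ∀ᶠ z in 𝓝[≠] ζ, z ∈ ball ζ r := mem_nhdsWithin_of_mem_nhds (ball_mem_nhds ζ hr)
        filter_upwards [this, self_mem_nhdsWithin] with z ha hb
        exact (hne z ha hb).symm
      exact tendsto_nhds_unique h1 h2
    · exact hne ζ hζ hζb
  have hgex : ∀ ζ, ∃ g, ζ ∈ ball b r → Grad (f ζ) (B ζ) g := by
    intro ζ
    by_cases hζ : ζ ∈ ball b r
    · obtain ⟨g, hg⟩ := grad_exists (hB0 ζ) (hform ζ hζ)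
      exact ⟨g, fun _ => hg⟩
    · exact ⟨0, fun h => absurd h hζ⟩
  choose g hg using hgex
  refine ⟨B, g, dB, grad_diff isOpen_ball hf.differentiableOn dB (fun ζ _ => hB0 ζ) hg, ?_, ?_⟩
  · intro ζ hζ
    exact ⟨hBα ζ, hform ζ hζ, hg ζ hζ⟩
  · intro ζ hζ hζb
    obtain ⟨g', hg', h1, h2, h3, _⟩ := key ζ ⟨hζ, hζb⟩
    have hBt : B ζ = β + t ζ • α := by simp only [hB, hTt ζ hζb]
    rw [← hBt] at h2 h3
    have : g ζ = g' := grad_unique (hB0 ζ) (hg ζ hζ) h2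
    rw [this]
    exact ⟨hg', h3⟩

end Pool.Agent.EPO
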