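import Pool.Agent.EPO.GTC

open scoped Manifold Topology LinearAlgebra.Projectivization
open Filter Metric Set

namespace Pool.Agent.EPO

open Classical in
/-- The function with logarithmic poles near an arbitrary point. -/
theorem FINP_near (Λ : Submodule ℤ ℂ) (g : ℂ → ℝ)
    (hper : ∀ ω ∈ Λ, ∀ ζ, g (ζ + ω) = g ζ) (hreg : ∀ ζ ∉ (Λ : Set ℂ), ContinuousAt g ζ)
    (δ : ℝ) (hδ : 0 < δ) (C : ℝ)
    (hC : ∀ ζ : ℂ, 0 < ‖ζ‖ → ‖ζ‖ < δ → |g ζ - Real.log (1 / ‖ζ‖)| ≤ C) (ζ₀ a : ℂ) :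
    ∃ Ca : ℝ, ∀ᶠ ζ in 𝓝[≠] ζ₀, |g (ζ + -a) - (if ζ₀ - a ∈ Λ then (1 : ℝ) else 0) *
      Real.log (1 / ‖ζ - ζ₀‖)| ≤ Ca := by
  by_cases h : ζ₀ - a ∈ Λ
  · refine ⟨C, ?_⟩
    have h1 : ∀ᶠ ζ in 𝓝[≠] ζ₀, ζ ∈ ball ζ₀ δ := nhdsWithin_le_nhds (ball_mem_nhds ζ₀ hδ)
    filter_upwards [h1, self_mem_nhdsWithin] with ζ hb hne
    rw [if_pos h, one_mul]
    have h2 : g (ζ + -a) = g (ζ - ζ₀) := by
      rw [← hper _ h (ζ - ζ₀)]
      congr 1
      ring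
    rw [h2]
    apply hC
    · exact norm_pos_iff.2 (sub_ne_zero.2 hne)
    · simpa [dist_eq_norm] using hb
  · have h1 : ContinuousAt (fun ζ => g (ζ + -a)) ζ₀ := by
      have h2 : ContinuousAt g (ζ₀ + -a) := hreg _ (by rwa [← sub_eq_add_neg])
      exact ContinuousAt.comp (g := g) (f := fun η : ℂ => η + -a) h2 (by fun_prop)
    obtain ⟨ε, hε, hε'⟩ := Metric.continuousAt_iff.1 h1 1 one_pos
    refine ⟨|g (ζ₀ + -a)| + 1, ?_⟩
    have h3 : ∀ᶠ ζ in 𝓝[≠] ζ₀, ζ ∈ ball ζ₀ ε := nhdsWithin_le_nhds (ball_mem_nhds ζ₀ hε)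
    filter_upwards [h3] with ζ hb
    rw [if_neg h, zero_mul, sub_zero]
    have h4 := hε' hb
    rw [Real.dist_eq] at h4
    have h5 := abs_sub_abs_le_abs_sub (g (ζ + -a)) (g (ζ₀ + -a))
    linarith

open Classical in
/-- The maximum principle on the torus. -/
theorem FINP.{u} (Λ : Submodule ℤ ℂ) [DiscreteTopology Λ] [IsZLattice ℝ Λ] (Brs : Finset ℂ)
    (C₁ K₂ : ℝ) (hC₁ : 0 ≤ C₁) (hK₂ : 0 ≤ K₂) :
    ∃ A : ℝ, 0 ≤ A ∧ ∀ (ι : Type u) [Fintype ι] (a : ι → ℂ) (e k : ι → ℕ) (D₀ : ℝ) (Ψ : ℂ → ℝ),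
      0 ≤ D₀ → (∀ i, 0 < e i) → (∀ ω ∈ Λ, ∀ ζ, Ψ (ζ + ω) = Ψ ζ) →
      (∀ ζ, (∀ i, ζ - a i ∉ Λ) → (∀ β ∈ Brs, ζ - β ∉ Λ) →
        ContinuousAt Ψ ζ ∧ LL Ψ ζ (-(C₁ * D₀))) →
      (∀ ζ₀, ((∃ i, ζ₀ - a i ∈ Λ) ∨ ∃ β ∈ Brs, ζ₀ - β ∈ Λ) → ∃ C' : ℝ, ∀ᶠ ζ in 𝓝[≠] ζ₀,
        Ψ ζ ≤ C' + ((∑ i with ζ₀ - a i ∈ Λ, (K₂ * (e i : ℝ) - 2 * (k i : ℝ))) +
          (if ∃ β ∈ Brs, ζ₀ - β ∈ Λ then K₂ * D₀ else 0)) * Real.log (1 / ‖ζ - ζ₀‖)) →
      ∑ i, (k i : ℝ) ≤ A * (D₀ + ∑ i, (e i : ℝ) + 1) := by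
  obtain ⟨g, c₁, c₂, hc₁, hc₂, hper, hreg, δ, hδ, C, hC⟩ := GTC Λ
  obtain ⟨R, hR1, hcov⟩ := GTC_cover Λ
  refine ⟨(C₁ + (K₂ + 1) * c₂ + (K₂ + 1) * c₂ * Brs.card) / (2 * c₁), by positivity, ?_⟩
  intro ι _ a e k D₀ Ψ hD₀ he hΨper hΨreg hΨsing
  set Sg : ℂ → Prop := fun ζ => (∃ i, ζ - a i ∈ Λ) ∨ ∃ β ∈ Brs, ζ - β ∈ Λ with hSg
  have hSgper : ∀ ω ∈ Λ, ∀ ζ, Sg (ζ + ω) ↔ Sg ζ := by
    intro ω hω ζ
    have h1 : ∀ b : ℂ, ζ + ω - b ∈ Λ ↔ ζ - b ∈ Λ := by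
      intro b
      rw [show ζ + ω - b = (ζ - b) + ω by ring]
      exact Λ.add_mem_iff_left hω
    simp only [hSg, h1]
  have hpunct : ∀ ζ₀, ∀ᶠ ζ in 𝓝[≠] ζ₀, ¬ Sg ζ := by
    intro ζ₀
    have h1 : ∀ᶠ ζ in 𝓝[≠] ζ₀, ∀ i, ζ - a i ∉ Λ := by
      rw [eventually_all]
      exact fun i => GTC_punct Λ ζ₀ (a i)
    have h2 : ∀ᶠ ζ in 𝓝[≠] ζ₀, ∀ β ∈ Brs, ζ - β ∉ Λ := by
      rw [Finset.eventually_all]
      exact fun β _ => GTC_punct Λ ζ₀ β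
    filter_upwards [h1, h2] with ζ h3 h4 h5
    rcases h5 with ⟨i, hi⟩ | ⟨β, hβ, hβ'⟩
    · exact h3 i hi
    · exact h4 β hβ hβ'
  have hnotS : ∀ ζ₀, ¬ Sg ζ₀ → ∀ᶠ ζ in 𝓝 ζ₀, ¬ Sg ζ := by
    intro ζ₀ h
    have := hpunct ζ₀
    rw [eventually_nhdsWithin_iff] at this
    filter_upwards [this] with ζ hζ
    by_cases h1 : ζ = ζ₀
    · rwa [h1]
    · exact hζ h1
  set H : ℂ → ℝ := fun ζ => Ψ ζ + ∑ i, (2 * (k i : ℝ)) * g (ζ + -a i) +
    ∑ i, ((K₂ + 1) * (e i : ℝ)) * (-g (ζ + -a i)) +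
    ∑ β ∈ Brs, (K₂ * D₀ + 1) * (-g (ζ + -β)) with hH
  have hHper : ∀ ω ∈ Λ, ∀ ζ, H (ζ + ω) = H ζ := by
    intro ω hω ζ
    have h1 : ∀ b : ℂ, g (ζ + ω + -b) = g (ζ + -b) := by
      intro b
      rw [show ζ + ω + -b = (ζ + -b) + ω by ring]
      exact hper ω hω _
    simp only [hH, h1, hΨper ω hω ζ]
  have hregS : ∀ ζ, ¬ Sg ζ → (∀ i, ζ - a i ∉ Λ) ∧ ∀ β ∈ Brs, ζ - β ∉ Λ := by
    intro ζ h
    simp only [hSg] at h
    push Not at h
    exact h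
  have hcontg : ∀ ζ b : ℂ, ζ - b ∉ Λ → ContinuousAt (fun ζ => g (ζ + -b)) ζ := by
    intro ζ b h
    have h2 : ContinuousAt g (ζ + -b) := (hreg _ (by rwa [← sub_eq_add_neg])).1
    exact ContinuousAt.comp (g := g) (f := fun η : ℂ => η + -b) h2 (by fun_prop)
  have hHcont : ∀ ζ, ¬ Sg ζ → ContinuousAt H ζ := by
    intro ζ h
    obtain ⟨h1, h2⟩ := hregS ζ h
    have e1 := (hΨreg ζ h1 h2).1
    have e2 : ContinuousAt (fun ζ => ∑ i, (2 * (k i : ℝ)) * g (ζ + -a i)) ζ :=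
      tendsto_finsetSum _ fun i _ => (hcontg ζ (a i) (h1 i)).const_mul _
    have e3 : ContinuousAt (fun ζ => ∑ i, ((K₂ + 1) * (e i : ℝ)) * (-g (ζ + -a i))) ζ :=
      tendsto_finsetSum _ fun i _ => ((hcontg ζ (a i) (h1 i)).neg).const_mul _
    have e4 : ContinuousAt (fun ζ => ∑ β ∈ Brs, (K₂ * D₀ + 1) * (-g (ζ + -β))) ζ :=
      tendsto_finsetSum _ fun β hβ => ((hcontg ζ β (h2 β hβ)).neg).const_mul _
    exact ((e1.add e2).add e3).add e4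
  -- behaviour at singular points
  have hHsing : ∀ ζ₀, Sg ζ₀ → Tendsto H (𝓝[≠] ζ₀) atBot := by
    intro ζ₀ h0
    obtain ⟨C', hC'⟩ := hΨsing ζ₀ h0
    choose Cf hCf using fun b : ℂ => FINP_near Λ g hper (fun ζ hζ => (hreg ζ hζ).1) δ hδ C hC ζ₀ b
    have hev1 : ∀ᶠ ζ in 𝓝[≠] ζ₀, ∀ i, |g (ζ + -a i) - (if ζ₀ - a i ∈ Λ then (1 : ℝ) else 0) *
        Real.log (1 / ‖ζ - ζ₀‖)| ≤ Cf (a i) := by
      rw [eventually_all]
      exact fun i => hCf (a i)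
    have hev2 : ∀ᶠ ζ in 𝓝[≠] ζ₀, ∀ β ∈ Brs, |g (ζ + -β) -
        (if ζ₀ - β ∈ Λ then (1 : ℝ) else 0) * Real.log (1 / ‖ζ - ζ₀‖)| ≤ Cf β := by
      rw [Finset.eventually_all]
      exact fun β _ => hCf β
    have hL : Tendsto (fun ζ : ℂ => Real.log (1 / ‖ζ - ζ₀‖)) (𝓝[≠] ζ₀) atTop := by
      have h1 : Tendsto (fun ζ : ℂ => ‖ζ - ζ₀‖) (𝓝[≠] ζ₀) (𝓝[>] 0) := by
        rw [tendsto_nhdsWithin_iff]
        constructor
        · have : Tendsto (fun ζ : ℂ => ‖ζ - ζ₀‖) (𝓝 ζ₀) (𝓝 ‖ζ₀ - ζ₀‖) := by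
            have : Continuous fun ζ : ℂ => ‖ζ - ζ₀‖ := by fun_prop
            exact this.tendsto ζ₀
          rw [sub_self, norm_zero] at this
          exact this.mono_left nhdsWithin_le_nhds
        · filter_upwards [self_mem_nhdsWithin] with ζ hne
          exact norm_pos_iff.2 (sub_ne_zero.2 hne)
      have h2 : Tendsto (fun t : ℝ => Real.log (1 / t)) (𝓝[>] 0) atTop := by
        simp only [one_div]
        exact Real.tendsto_log_atTop.comp tendsto_inv_nhdsGT_zero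
      exact h2.comp h1
    have hLpos : ∀ᶠ ζ in 𝓝[≠] ζ₀, 0 ≤ Real.log (1 / ‖ζ - ζ₀‖) := hL.eventually_ge_atTop 0
    set K : ℝ := C' + ∑ i, (2 * (k i : ℝ)) * Cf (a i) +
      ∑ i, ((K₂ + 1) * (e i : ℝ)) * Cf (a i) + ∑ β ∈ Brs, (K₂ * D₀ + 1) * Cf β with hK
    have hbound : ∀ᶠ ζ in 𝓝[≠] ζ₀, H ζ ≤ K - Real.log (1 / ‖ζ - ζ₀‖) := by
      filter_upwards [hC', hev1, hev2, hLpos] with ζ h1 h2 h3 hLp
      set L : ℝ := Real.log (1 / ‖ζ - ζ₀‖) with hLdef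
      set s : ℂ → ℝ := fun b => if ζ₀ - b ∈ Λ then (1 : ℝ) else 0 with hs
      have e2 : ∑ i, (2 * (k i : ℝ)) * g (ζ + -a i) ≤
          ∑ i, ((2 * (k i : ℝ)) * (s (a i) * L) + (2 * (k i : ℝ)) * Cf (a i)) := by
        refine Finset.sum_le_sum fun i _ => ?_
        rw [← mul_add]
        apply mul_le_mul_of_nonneg_left _ (by positivity)
        have := (abs_le.1 (h2 i)).2
        simp only [hs]
        linarith
      have e3 : ∑ i, ((K₂ + 1) * (e i : ℝ)) * (-g (ζ + -a i)) ≤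
          ∑ i, (-(((K₂ + 1) * (e i : ℝ)) * (s (a i) * L)) +
            ((K₂ + 1) * (e i : ℝ)) * Cf (a i)) := by
        refine Finset.sum_le_sum fun i _ => ?_
        rw [← mul_neg, ← mul_add]
        apply mul_le_mul_of_nonneg_left _ (by positivity)
        have := (abs_le.1 (h2 i)).1
        simp only [hs]
        linarith
      have e4 : ∑ β ∈ Brs, (K₂ * D₀ + 1) * (-g (ζ + -β)) ≤
          ∑ β ∈ Brs, (-((K₂ * D₀ + 1) * (s β * L)) + (K₂ * D₀ + 1) * Cf β) := by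
        refine Finset.sum_le_sum fun β hβ => ?_
        rw [← mul_neg, ← mul_add]
        apply mul_le_mul_of_nonneg_left _ (by positivity)
        have := (abs_le.1 (h3 β hβ)).1
        simp only [hs]
        linarith
      rw [Finset.sum_add_distrib] at e2 e3 e4
      have e5 : ∑ i with ζ₀ - a i ∈ Λ, (K₂ * (e i : ℝ) - 2 * (k i : ℝ)) =
          ∑ i, s (a i) * (K₂ * (e i : ℝ) - 2 * (k i : ℝ)) := by
        rw [Finset.sum_filter]
        refine Finset.sum_congr rfl fun i _ => ?_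
        simp only [hs]
        split_ifs <;> simp
      rw [e5] at h1
      set T : ℝ := if ∃ β ∈ Brs, ζ₀ - β ∈ Λ then K₂ * D₀ else 0 with hT
      -- the coefficient of `L`
      have hcoef : ∑ i, s (a i) * (K₂ * (e i : ℝ) - 2 * (k i : ℝ)) + T +
          ∑ i, (2 * (k i : ℝ)) * s (a i) - ∑ i, ((K₂ + 1) * (e i : ℝ)) * s (a i) -
          ∑ β ∈ Brs, (K₂ * D₀ + 1) * s β ≤ -1 := by
        have e6 : ∑ i, s (a i) * (K₂ * (e i : ℝ) - 2 * (k i : ℝ)) +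
            ∑ i, (2 * (k i : ℝ)) * s (a i) - ∑ i, ((K₂ + 1) * (e i : ℝ)) * s (a i) =
            -∑ i, s (a i) * (e i : ℝ) := by
          rw [← Finset.sum_add_distrib, ← Finset.sum_sub_distrib, ← Finset.sum_neg_distrib]
          exact Finset.sum_congr rfl fun i _ => by ring
        have hs0 : ∀ b, 0 ≤ s b := by
          intro b
          simp only [hs]
          split_ifs <;> norm_num
        have e7 : 0 ≤ ∑ i, s (a i) * (e i : ℝ) :=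
          Finset.sum_nonneg fun i _ => mul_nonneg (hs0 _) (by positivity)
        have e8 : 0 ≤ ∑ β ∈ Brs, (K₂ * D₀ + 1) * s β :=
          Finset.sum_nonneg fun β _ => mul_nonneg (by positivity) (hs0 _)
        by_cases hB : ∃ β ∈ Brs, ζ₀ - β ∈ Λ
        · obtain ⟨β, hβ, hβ'⟩ := hB
          have hTv : T = K₂ * D₀ := by rw [hT, if_pos ⟨β, hβ, hβ'⟩]
          have e9 : K₂ * D₀ + 1 ≤ ∑ β ∈ Brs, (K₂ * D₀ + 1) * s β := by
            have : (K₂ * D₀ + 1) * s β ≤ ∑ β ∈ Brs, (K₂ * D₀ + 1) * s β :=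
              Finset.single_le_sum (f := fun β => (K₂ * D₀ + 1) * s β)
                (fun β _ => mul_nonneg (by positivity) (hs0 _)) hβ
            have hs1 : s β = 1 := by simp only [hs]; rw [if_pos hβ']
            rw [hs1, mul_one] at this
            exact this
          linarith
        · have hTv : T = 0 := by rw [hT, if_neg hB]
          rcases h0 with ⟨i, hi⟩ | h0
          · have e9 : 1 ≤ ∑ i, s (a i) * (e i : ℝ) := by
              have h10 : s (a i) * (e i : ℝ) ≤ ∑ i, s (a i) * (e i : ℝ) :=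
                Finset.single_le_sum (f := fun i => s (a i) * (e i : ℝ))
                  (fun i _ => mul_nonneg (hs0 _) (by positivity)) (Finset.mem_univ i)
              have hs1 : s (a i) = 1 := by simp only [hs]; rw [if_pos hi]
              rw [hs1, one_mul] at h10
              have h11 : (1 : ℝ) ≤ (e i : ℝ) := by exact_mod_cast he i
              linarith
            linarith
          · exact absurd h0 hB
      have e10 : ∑ i, (2 * (k i : ℝ)) * (s (a i) * L) = (∑ i, (2 * (k i : ℝ)) * s (a i)) * L := by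
        rw [Finset.sum_mul]
        exact Finset.sum_congr rfl fun i _ => by ring
      have e11 : ∑ i, -(((K₂ + 1) * (e i : ℝ)) * (s (a i) * L)) =
          -((∑ i, ((K₂ + 1) * (e i : ℝ)) * s (a i)) * L) := by
        rw [Finset.sum_mul, ← Finset.sum_neg_distrib]
        exact Finset.sum_congr rfl fun i _ => by ring
      have e12 : ∑ β ∈ Brs, -((K₂ * D₀ + 1) * (s β * L)) =
          -((∑ β ∈ Brs, (K₂ * D₀ + 1) * s β) * L) := by
        rw [Finset.sum_mul, ← Finset.sum_neg_distrib]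
        exact Finset.sum_congr rfl fun i _ => by ring
      rw [e10] at e2
      rw [e11] at e3
      rw [e12] at e4
      have e13 := mul_le_mul_of_nonneg_right hcoef hLp
      have e14 : H ζ = Ψ ζ + ∑ i, (2 * (k i : ℝ)) * g (ζ + -a i) +
        ∑ i, ((K₂ + 1) * (e i : ℝ)) * (-g (ζ + -a i)) +
        ∑ β ∈ Brs, (K₂ * D₀ + 1) * (-g (ζ + -β)) := rfl
      rw [e14, hK]
      linarith [e13, h1, e2, e3, e4]
    refine tendsto_atBot_mono' _ hbound ?_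
    exact tendsto_atBot_add_const_left _ K (tendsto_neg_atTop_atBot.comp hL)
  -- the exponential
  set Θ : ℂ → ℝ := fun ζ => if Sg ζ then 0 else Real.exp (H ζ) with hΘ
  have hΘcont : Continuous Θ := by
    rw [continuous_iff_continuousAt]
    intro ζ₀
    by_cases h0 : Sg ζ₀
    · rw [continuousAt_iff_punctured_nhds]
      have h1 : Θ ζ₀ = 0 := by simp only [hΘ]; rw [if_pos h0]
      rw [h1]
      have h2 : Tendsto (fun ζ => Real.exp (H ζ)) (𝓝[≠] ζ₀) (𝓝 0) :=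
        Real.tendsto_exp_atBot.comp (hHsing ζ₀ h0)
      refine h2.congr' ?_
      filter_upwards [hpunct ζ₀] with ζ hζ
      simp only [hΘ]
      rw [if_neg hζ]
    · have h1 : ContinuousAt (fun ζ => Real.exp (H ζ)) ζ₀ :=
        Real.continuous_exp.continuousAt.comp (hHcont ζ₀ h0)
      refine h1.congr ?_
      filter_upwards [hnotS ζ₀ h0] with ζ hζ
      simp only [hΘ]
      rw [if_neg hζ]
  have hΘper : ∀ ω ∈ Λ, ∀ ζ, Θ (ζ + ω) = Θ ζ := by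
    intro ω hω ζ
    simp only [hΘ, hSgper ω hω ζ, hHper ω hω ζ]
  obtain ⟨ζm, -, hζm⟩ := (isCompact_closedBall (0 : ℂ) R).exists_isMaxOn
    (nonempty_closedBall.2 (by linarith)) hΘcont.continuousOn
  have hmax : ∀ ζ, Θ ζ ≤ Θ ζm := by
    intro ζ
    obtain ⟨ω, hω, hωR⟩ := hcov ζ
    rw [← hΘper ω hω ζ]
    exact hζm (by simpa using hωR.le)
  have hmS : ¬ Sg ζm := by
    intro h
    obtain ⟨ζr, hζr⟩ := (hpunct 0).exists
    have h1 := hmax ζr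
    simp only [hΘ] at h1
    rw [if_neg hζr, if_pos h] at h1
    exact absurd h1 (not_le.2 (Real.exp_pos _))
  have hloc : IsLocalMax H ζm := by
    filter_upwards [hnotS ζm hmS] with ζ hζ
    have h1 := hmax ζ
    simp only [hΘ] at h1
    rw [if_neg hζ, if_neg hmS] at h1
    exact Real.exp_le_exp.1 h1
  obtain ⟨hr1, hr2⟩ := hregS ζm hmS
  have hLLg : ∀ b : ℂ, ζm - b ∉ Λ → LL (fun ζ => g (ζ + -b)) ζm c₁ := by
    intro b hb
    exact LL.comp_add (ψ := g) (-b) (hreg _ (by rwa [← sub_eq_add_neg])).2.1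
  have hLLng : ∀ b : ℂ, ζm - b ∉ Λ → LL (fun ζ => -g (ζ + -b)) ζm (-c₂) := by
    intro b hb
    exact LL.comp_add (ψ := fun η => -g η) (-b) (hreg _ (by rwa [← sub_eq_add_neg])).2.2
  have f1 := (hΨreg ζm hr1 hr2).2
  have f2 := LL.sum Finset.univ (fun i ζ => (2 * (k i : ℝ)) * g (ζ + -a i))
    (fun i => (2 * (k i : ℝ)) * c₁) ζm
    (fun i _ => LL.const_mul (by positivity) (hLLg (a i) (hr1 i)))
  have f3 := LL.sum Finset.univ (fun i ζ => ((K₂ + 1) * (e i : ℝ)) * (-g (ζ + -a i)))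
    (fun i => ((K₂ + 1) * (e i : ℝ)) * (-c₂)) ζm
    (fun i _ => LL.const_mul (by positivity) (hLLng (a i) (hr1 i)))
  have f4 := LL.sum Brs (fun β ζ => (K₂ * D₀ + 1) * (-g (ζ + -β)))
    (fun _ => (K₂ * D₀ + 1) * (-c₂)) ζm
    (fun β hβ => LL.const_mul (by positivity) (hLLng β (hr2 β hβ)))
  have f5 := (((f1.add f2).add f3).add f4).nonpos_of_isLocalMax hloc
  have g2 : ∑ i, (2 * (k i : ℝ)) * c₁ = 2 * c₁ * ∑ i, (k i : ℝ) := by
    rw [Finset.mul_sum]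
    exact Finset.sum_congr rfl fun i _ => by ring
  have g3 : ∑ i, ((K₂ + 1) * (e i : ℝ)) * (-c₂) = -((K₂ + 1) * c₂ * ∑ i, (e i : ℝ)) := by
    rw [Finset.mul_sum, ← Finset.sum_neg_distrib]
    exact Finset.sum_congr rfl fun i _ => by ring
  rw [g2, g3, Finset.sum_const, nsmul_eq_mul] at f5
  have hE : 0 ≤ ∑ i, (e i : ℝ) := Finset.sum_nonneg fun i _ => by positivity
  have hb : (0 : ℝ) ≤ Brs.card := by positivity
  rw [div_mul_eq_mul_div, le_div_iff₀ (by positivity)]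
  have k1 : 0 ≤ C₁ * (∑ i, (e i : ℝ) + 1) := by positivity
  have k2 : 0 ≤ (K₂ + 1) * c₂ * (D₀ + 1) := by positivity
  have k3 : 0 ≤ (K₂ + 1) * c₂ * Brs.card * ∑ i, (e i : ℝ) := by positivity
  have k4 : 0 ≤ (K₂ + D₀) * c₂ * Brs.card := by positivity
  linarith [f5, k1, k2, k3, k4]

end Pool.Agent.EPO
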