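import Pool.Agent.EPO.DIA
import Pool.Agent.EPO.SRT

open scoped Manifold Topology LinearAlgebra.Projectivization
open Filter Metric Set

namespace Pool.Agent.EPO

private theorem GDI_ToSec_mono {n : ℕ} {f : ℂ → Fin (n + 1) → ℂ} {M : ℕ → ℂ → Fin (n + 1) → ℂ}
    {L : ℂ → Fin (n + 1) → ℂ} {U V : Set ℂ} (h : ToSec f M L U) (hV : V ⊆ U) : ToSec f M L V :=
  ⟨⟨h.1.1.mono hV, fun ζ hζ => h.1.2 ζ (hV hζ)⟩, h.2.mono hV⟩

private theorem GDI_ToRoot_mono {n : ℕ} {f : ℂ → Fin (n + 1) → ℂ}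
    {M : ℕ → ℂ → Fin (n + 1) → ℂ} {N : ℂ → Fin (n - 2 + 1) → ℂ} {U V : Set ℂ}
    (h : ToRoot f M N U) (hV : V ⊆ U) : ToRoot f M N V :=
  ⟨h.1.mono hV, fun ζ hζ => h.2.1 ζ (hV hζ), fun ε hε => (h.2.2 ε hε).mono
    fun _ hk ζ hζ => hk ζ (hV hζ)⟩

/-- Incompatibility of the two kinds of limits. -/
private theorem GDI_incomp {n : ℕ} (hn : 3 ≤ n) {f : ℂ → Fin (n + 1) → ℂ}
    {M : ℕ → ℂ → Fin (n + 1) → ℂ} {ζ : ℂ} (hM : ∀ᶠ k in atTop, IsM (f ζ) (M k ζ))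
    {L : ℂ → Fin (n + 1) → ℂ} {N : ℂ → Fin (n - 2 + 1) → ℂ} {U V : Set ℂ} (hU : ζ ∈ U)
    (hV : ζ ∈ V) (h1 : ToSec f M L U) (h2 : ToRoot f M N V) : False := by
  obtain ⟨B, hB⟩ := h2.2.1 ζ hV
  obtain ⟨g, ⟨hB0, hg, hBf, hgr⟩, hN⟩ := hB
  have hB' : NofR (f ζ) B (N ζ) := ⟨g, ⟨hB0, hg, hBf, hgr⟩, hN⟩
  have hlim : Tendsto (fun k => M k ζ) atTop (𝓝 (L ζ)) := h1.2.tendsto_at hU
  obtain ⟨k0, hk0⟩ := eventually_atTop.1 hM
  choose! X hX1 hX2 using hk0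
  -- boundedness
  have hbd : ∀ᶠ k in atTop, ‖M k ζ‖ < ‖L ζ‖ + 1 :=
    (hlim.norm).eventually (gt_mem_nhds (by linarith))
  obtain ⟨k1, hk1⟩ := eventually_atTop.1 hbd
  have hXn : ∀ k ≥ max k0 k1, X k ∈ closedBall (0 : ℂ × ℂ) (‖L ζ‖ + 1) := by
    intro k hk
    have e1 := hX2 k ((le_max_left _ _).trans hk)
    have e2 := hk1 k ((le_max_right _ _).trans hk)
    rw [e1, norm_ver] at e2
    rw [mem_closedBall_zero_iff]
    by_contra hcon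
    push Not at hcon
    have h3 : 1 ≤ ‖X k‖ := by
      have := norm_nonneg (L ζ)
      linarith
    have h4 : ‖X k‖ ≤ ‖X k‖ ^ n := le_self_pow₀ h3 (by omega)
    linarith
  obtain ⟨X0, _, ψ, hψ, hψl⟩ := (isCompact_closedBall (0 : ℂ × ℂ) (‖L ζ‖ + 1)).tendsto_subseq
    (x := fun k => X (max k0 k1 + k)) (fun k => hXn _ (Nat.le_add_right _ _))
  have hform : form (f ζ) X0 = 1 := by
    have h3 : Tendsto (fun k => form (f ζ) (X (max k0 k1 + ψ k))) atTop (𝓝 (form (f ζ) X0)) := by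
      have hcont : Continuous (fun a : ℂ × ℂ => form (f ζ) a) :=
        form_cont continuous_const continuous_id
      exact (hcont.tendsto X0).comp hψl
    have h4 : (fun k => form (f ζ) (X (max k0 k1 + ψ k))) = fun _ => (1 : ℂ) := by
      funext k
      exact hX1 _ ((le_max_left _ _).trans (Nat.le_add_right _ _))
    rw [h4] at h3
    exact tendsto_nhds_unique h3 tendsto_const_nhds
  have hwd : wd X0 B = 0 := by
    have h3 : Tendsto (fun k => wd (X (max k0 k1 + ψ k)) B) atTop (𝓝 (wd X0 B)) := by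
      have hcont : Continuous (fun a : ℂ × ℂ => wd a B) := by
        unfold wd
        fun_prop
      exact (hcont.tendsto X0).comp hψl
    have h5 : ‖wd X0 B‖ ≤ 0 := by
      apply le_of_forall_pos_le_add
      intro δ hδ
      have hpos : 0 < (‖L ζ‖ + 1) * ‖B‖ + 1 := by positivity
      have h6 := h2.2.2 (δ / ((‖L ζ‖ + 1) * ‖B‖ + 1)) (by positivity)
      have hshift : Tendsto (fun k => max k0 k1 + ψ k) atTop atTop :=
        tendsto_atTop_mono (fun k => Nat.le_add_left _ _) hψ.tendsto_atTop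
      have h7 := hshift.eventually h6
      refine le_of_tendsto h3.norm (h7.mono fun k hk => ?_)
      have h8 := hk ζ hV _ B (hX2 _ ((le_max_left _ _).trans (Nat.le_add_right _ _))) hB'
      have h9 := hXn (max k0 k1 + ψ k) (Nat.le_add_right _ _)
      rw [mem_closedBall_zero_iff] at h9
      refine h8.trans ?_
      rw [zero_add, mul_assoc, div_mul_eq_mul_div, div_le_iff₀ hpos]
      refine mul_le_mul_of_nonneg_left ?_ hδ.le
      have := mul_le_mul_of_nonneg_right h9 (norm_nonneg B)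
      linarith
    exact norm_le_zero_iff.1 h5
  have hX0 : X0 ≠ 0 := by
    rintro rfl
    have h3 := form_smul_right 0 (f ζ) (0 : ℂ × ℂ)
    rw [smul_zero, hform, zero_pow (by omega), zero_mul] at h3
    exact one_ne_zero h3
  obtain ⟨s, hs, hBs⟩ := exists_smul_of_wd hX0 hB0 hwd
  rw [hBs, form_smul_right, hform, mul_one] at hBf
  exact hs (pow_eq_zero_iff (by omega) |>.1 hBf)

/-- Uniqueness of the limit branch. -/
private theorem GDI_uniq {n : ℕ} (hn : 3 ≤ n) {f : ℂ → Fin (n + 1) → ℂ}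
    {M : ℕ → ℂ → Fin (n + 1) → ℂ} {ζ : ℂ} (hM : ∀ᶠ k in atTop, IsM (f ζ) (M k ζ))
    {N N' : ℂ → Fin (n - 2 + 1) → ℂ} {U V : Set ℂ} (hU : ζ ∈ U)
    (hV : ζ ∈ V) (h1 : ToRoot f M N U) (h2 : ToRoot f M N' V) : N ζ = N' ζ := by
  obtain ⟨B, hB⟩ := h1.2.1 ζ hU
  obtain ⟨B', hB'⟩ := h2.2.1 ζ hV
  refine NofR_eq hn hB hB' ?_
  have hpos : 0 < 2 * ‖B‖ * ‖B'‖ + 1 := by positivity
  have h5 : ‖wd B B'‖ ≤ 0 := by
    apply le_of_forall_pos_le_add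
    intro δ hδ
    have e1 := h1.2.2 (δ / (2 * ‖B‖ * ‖B'‖ + 1)) (by positivity)
    have e2 := h2.2.2 (δ / (2 * ‖B‖ * ‖B'‖ + 1)) (by positivity)
    obtain ⟨k, hk1, hk2, X, hX1, hX2⟩ := (e1.and (e2.and hM)).exists
    have f1 := hk1 ζ hU X B hX2 hB
    have f2 := hk2 ζ hV X B' hX2 hB'
    have hX0 : X ≠ 0 := by
      rintro rfl
      have h3 := form_smul_right 0 (f ζ) (0 : ℂ × ℂ)
      rw [smul_zero, hX1, zero_pow (by omega), zero_mul] at h3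
      exact one_ne_zero h3
    have hXp : 0 < ‖X‖ := norm_pos_iff.2 hX0
    have h3 := congrArg norm (wd_decomp B B' X)
    rw [norm_smul] at h3
    have h4 : ‖wd B B'‖ * ‖X‖ ≤ δ * ‖X‖ := by
      rw [h3]
      refine (norm_sub_le _ _).trans ?_
      rw [norm_smul, norm_smul]
      have g1 := mul_le_mul_of_nonneg_right f1 (norm_nonneg B')
      have g2 := mul_le_mul_of_nonneg_right f2 (norm_nonneg B)
      have g3 : δ / (2 * ‖B‖ * ‖B'‖ + 1) * (2 * ‖B‖ * ‖B'‖) ≤ δ := by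
        rw [div_mul_eq_mul_div, div_le_iff₀ hpos]
        nlinarith
      have g4 := mul_le_mul_of_nonneg_right g3 hXp.le
      nlinarith
    have := le_of_mul_le_mul_right h4 hXp
    linarith
  exact norm_le_zero_iff.1 h5

/-- The global dichotomy. -/
theorem GDI {n : ℕ} (hn : 3 ≤ n) {f : ℂ → Fin (n + 1) → ℂ} (hf : Continuous f)
    (h0 : ∀ ζ, f ζ ≠ 0) {U : Set ℂ} (hU : IsOpen U) (hc : IsPreconnected U)
    (hLD : ∀ b ∈ U, LDi f b) (M : ℕ → ℂ → Fin (n + 1) → ℂ)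
    (hM : ∀ b ∈ U, ∃ r > 0, ∀ᶠ k in atTop, ASec f (ball b r) (M k)) :
    ∃ φ : ℕ → ℕ, StrictMono φ ∧
      ((∃ L, ∀ b ∈ U, ∃ s > 0, ToSec f (fun k => M (φ k)) L (ball b s)) ∨
        ∃ N, ∀ b ∈ U, ∃ s > 0, ToRoot f (fun k => M (φ k)) N (ball b s)) := by
  rcases U.eq_empty_or_nonempty with hUe | hUn
  · refine ⟨id, strictMono_id, Or.inl ⟨0, fun b hb => ?_⟩⟩
    rw [hUe] at hb
    exact absurd hb (notMem_empty b)
  -- radii
  have hrad : ∀ b ∈ U, ∃ s > 0, ball b s ⊆ U ∧ ∀ φ : ℕ → ℕ, StrictMono φ →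
      ∃ ψ : ℕ → ℕ, StrictMono ψ ∧
        ((∃ L, ToSec f (fun k => M (φ (ψ k))) L (ball b s)) ∨
          ∃ N, ToRoot f (fun k => M (φ (ψ k))) N (ball b s)) := by
    intro b hb
    obtain ⟨r, hr, hMr⟩ := hM b hb
    obtain ⟨s, hs, hsM⟩ := hLD b hb r hr
    obtain ⟨ρ, hρ, hρU⟩ := Metric.isOpen_iff.1 hU b hb
    refine ⟨min s ρ, lt_min hs hρ, (ball_subset_ball (min_le_right _ _)).trans hρU,
      fun φ hφ => ?_⟩
    obtain ⟨ψ, hψ, h⟩ := hsM (fun k => M (φ k)) (hφ.tendsto_atTop.eventually hMr)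
    refine ⟨ψ, hψ, ?_⟩
    rcases h with ⟨L, hL⟩ | ⟨N, hN⟩
    · exact Or.inl ⟨L, GDI_ToSec_mono hL (ball_subset_ball (min_le_left _ _))⟩
    · exact Or.inr ⟨N, GDI_ToRoot_mono hN (ball_subset_ball (min_le_left _ _))⟩
  choose! s hs hsU hsM using hrad
  obtain ⟨t, htU, htc, htcov⟩ := TopologicalSpace.countable_cover_nhdsWithin
    (f := fun b => ball b (s b)) (s := U)
    (fun b hb => mem_nhdsWithin_of_mem_nhds (ball_mem_nhds b (hs b hb)))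
  have htn : t.Nonempty := by
    obtain ⟨u, hu⟩ := hUn
    obtain ⟨b, hb, _⟩ := mem_iUnion₂.1 (htcov hu)
    exact ⟨b, hb⟩
  obtain ⟨b, hb⟩ := htc.exists_eq_range htn
  have hbU : ∀ i, b i ∈ U := fun i => htU (hb ▸ mem_range_self i)
  obtain ⟨θ, hθ, hθP⟩ := DIA (fun i φ => (∃ L, ToSec f (fun k => M (φ k)) L (ball (b i) (s (b i)))) ∨
      ∃ N, ToRoot f (fun k => M (φ k)) N (ball (b i) (s (b i))))
    (by
      intro i φ θ ψ hP hψ hθ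
      rcases hP with ⟨L, hL1, hL2⟩ | ⟨N, hN1, hN2, hN3⟩
      · refine Or.inl ⟨L, hL1, ?_⟩
        intro u hu
        have h1 := hψ.eventually (hL2 u hu)
        filter_upwards [h1, hθ] with k hk1 hk2
        rw [hk2]
        exact hk1
      · refine Or.inr ⟨N, hN1, hN2, fun ε hε => ?_⟩
        have h1 := hψ.eventually (hN3 ε hε)
        filter_upwards [h1, hθ] with k hk1 hk2
        rw [hk2]
        exact hk1)
    (by
      intro i φ hφ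
      exact hsM (b i) (hbU i) φ hφ)
  have hMM : ∀ ζ ∈ U, ∀ᶠ k in atTop, IsM (f ζ) (M (θ k) ζ) := by
    intro ζ hζ
    obtain ⟨r, hr, hMr⟩ := hM ζ hζ
    exact (hθ.tendsto_atTop.eventually hMr).mono fun k hk => hk.2 ζ (mem_ball_self hr)
  -- local alternatives
  have hloc : ∀ ζ ∈ U, (∃ ρ > 0, ball ζ ρ ⊆ U ∧ ∃ L, ToSec f (fun k => M (θ k)) L (ball ζ ρ)) ∨
      ∃ ρ > 0, ball ζ ρ ⊆ U ∧ ∃ N, ToRoot f (fun k => M (θ k)) N (ball ζ ρ) := by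
    intro ζ hζ
    obtain ⟨c, hc, hζc⟩ := mem_iUnion₂.1 (htcov hζ)
    rw [hb] at hc
    obtain ⟨i, rfl⟩ := hc
    obtain ⟨ρ, hρ, hρb⟩ := Metric.isOpen_iff.1 isOpen_ball ζ hζc
    rcases hθP i with ⟨L, hL⟩ | ⟨N, hN⟩
    · exact Or.inl ⟨ρ, hρ, hρb.trans (hsU _ (hbU i)), L, GDI_ToSec_mono hL hρb⟩
    · exact Or.inr ⟨ρ, hρ, hρb.trans (hsU _ (hbU i)), N, GDI_ToRoot_mono hN hρb⟩
  let S : Set ℂ := {ζ | ∃ ρ > 0, ball ζ ρ ⊆ U ∧ ∃ L, ToSec f (fun k => M (θ k)) L (ball ζ ρ)}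
  let R : Set ℂ := {ζ | ∃ ρ > 0, ball ζ ρ ⊆ U ∧ ∃ N, ToRoot f (fun k => M (θ k)) N (ball ζ ρ)}
  have hSo : IsOpen S := by
    rw [Metric.isOpen_iff]
    rintro ζ ⟨ρ, hρ, hρU, L, hL⟩
    refine ⟨ρ, hρ, fun ζ' hζ' => ?_⟩
    obtain ⟨ρ', hρ', hρb⟩ := Metric.isOpen_iff.1 isOpen_ball ζ' hζ'
    exact ⟨ρ', hρ', hρb.trans hρU, L, GDI_ToSec_mono hL hρb⟩
  have hRo : IsOpen R := by
    rw [Metric.isOpen_iff]
    rintro ζ ⟨ρ, hρ, hρU, L, hL⟩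
    refine ⟨ρ, hρ, fun ζ' hζ' => ?_⟩
    obtain ⟨ρ', hρ', hρb⟩ := Metric.isOpen_iff.1 isOpen_ball ζ' hζ'
    exact ⟨ρ', hρ', hρb.trans hρU, L, GDI_ToRoot_mono hL hρb⟩
  have hSR : S ∩ R = ∅ := by
    rw [eq_empty_iff_forall_notMem]
    rintro ζ ⟨⟨ρ, hρ, hρU, L, hL⟩, ⟨ρ', hρ', hρU', N, hN⟩⟩
    exact GDI_incomp hn (hMM ζ (hρU (mem_ball_self hρ))) (mem_ball_self hρ) (mem_ball_self hρ')
      hL hN
  have hcase : U ⊆ S ∨ U ⊆ R := by
    by_contra hcon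
    push Not at hcon
    obtain ⟨h1, h2⟩ := hcon
    obtain ⟨u, huU, huS⟩ := not_subset.1 h1
    obtain ⟨v, hvU, hvR⟩ := not_subset.1 h2
    have huR : u ∈ R := (hloc u huU).resolve_left huS
    have hvS : v ∈ S := (hloc v hvU).resolve_right hvR
    obtain ⟨w, hw⟩ := hc S R hSo hRo (fun ζ hζ => hloc ζ hζ) ⟨v, hvU, hvS⟩ ⟨u, huU, huR⟩
    have : w ∈ S ∩ R := hw.2
    rw [hSR] at this
    exact this
  refine ⟨θ, hθ, ?_⟩
  rcases hcase with hS | hR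
  · left
    refine ⟨fun ζ => limUnder atTop (fun k => M (θ k) ζ), fun c hc => ?_⟩
    obtain ⟨ρ, hρ, hρU, L, hL⟩ := hS hc
    refine ⟨ρ, hρ, ?_⟩
    have heq : ∀ ζ ∈ ball c ρ, limUnder atTop (fun k => M (θ k) ζ) = L ζ := fun ζ hζ =>
      (hL.2.tendsto_at hζ).limUnder_eq
    refine ⟨⟨hL.1.1.congr heq, fun ζ hζ => ?_⟩, ?_⟩
    · change IsM (f ζ) (limUnder atTop (fun k => M (θ k) ζ))
      rw [heq ζ hζ]
      exact hL.1.2 ζ hζ
    · exact hL.2.congr_right fun ζ hζ => (heq ζ hζ).symm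
  · right
    have hch : ∀ ζ ∈ U, ∃ N : ℂ → Fin (n - 2 + 1) → ℂ, ∃ ρ > 0,
        ToRoot f (fun k => M (θ k)) N (ball ζ ρ) := by
      intro ζ hζ
      obtain ⟨ρ, hρ, _, N, hN⟩ := hR hζ
      exact ⟨N, ρ, hρ, hN⟩
    choose! N ρ hρ hN using hch
    refine ⟨fun ζ => N ζ ζ, fun c hc => ?_⟩
    obtain ⟨ρ', hρ', hρU, N', hN'⟩ := hR hc
    refine ⟨ρ', hρ', ?_⟩
    have heq : ∀ ζ ∈ ball c ρ', N ζ ζ = N' ζ := by
      intro ζ hζ
      exact GDI_uniq hn (hMM ζ (hρU hζ)) (mem_ball_self (hρ ζ (hρU hζ))) hζ (hN ζ (hρU hζ)) hN'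
    refine ⟨hN'.1.congr heq, fun ζ hζ => ?_, fun ε hε => ?_⟩
    · change IsN (f ζ) (N ζ ζ)
      rw [heq ζ hζ]
      exact hN'.2.1 ζ hζ
    · filter_upwards [hN'.2.2 ε hε] with k hk ζ hζ X B hX hB
      rw [heq ζ hζ] at hB
      exact hk ζ hζ X B hX hB

end Pool.Agent.EPO
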