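import Pool.Agent.EPO.LLH

open scoped Manifold Topology LinearAlgebra.Projectivization
open Filter Metric Set

namespace Pool.Agent.EPO

/-- A lattice has a finite covering radius. -/
theorem GTC_cover (Λ : Submodule ℤ ℂ) [DiscreteTopology Λ] [IsZLattice ℝ Λ] :
    ∃ R : ℝ, 1 ≤ R ∧ ∀ ζ : ℂ, ∃ ω ∈ Λ, ‖ζ + ω‖ < R := by
  have : Module.Finite ℤ Λ := ZLattice.module_finite ℝ Λ
  have : Module.Free ℤ Λ := ZLattice.module_free ℝ Λ
  set b := (Module.Free.chooseBasis ℤ Λ).ofZLatticeBasis ℝ with hb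
  have hspan : Submodule.span ℤ (Set.range b) = Λ :=
    (Module.Free.chooseBasis ℤ Λ).ofZLatticeBasis_span ℝ
  refine ⟨(∑ i, ‖b i‖) + 1, ?_, fun ζ => ?_⟩
  · have : 0 ≤ ∑ i, ‖b i‖ := Finset.sum_nonneg fun i _ => norm_nonneg _
    linarith
  · have h1 := ZSpan.norm_fract_le b ζ
    refine ⟨-(ZSpan.floor b ζ : ℂ), ?_, ?_⟩
    · apply Λ.neg_mem
      exact hspan.le (ZSpan.floor b ζ).2
    · rw [← sub_eq_add_neg]
      change ‖ZSpan.fract b ζ‖ < _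
      linarith

theorem GTC_isClosed (Λ : Submodule ℤ ℂ) [DiscreteTopology Λ] : IsClosed (Λ : Set ℂ) := by
  have : DiscreteTopology Λ.toAddSubgroup := (inferInstance : DiscreteTopology Λ)
  exact (AddSubgroup.isClosed_of_discrete : IsClosed (Λ.toAddSubgroup : Set ℂ))

/-- Bounded parts of a lattice are finite. -/
theorem GTC_finite (Λ : Submodule ℤ ℂ) [DiscreteTopology Λ] (r : ℝ) :
    {ω : ℂ | ω ∈ Λ ∧ ‖ω‖ ≤ r}.Finite := by
  have h := Metric.finite_isBounded_inter_isClosed (K := closedBall (0 : ℂ) r) (s := (Λ : Set ℂ))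
    DiscreteTopology.isDiscrete isBounded_closedBall (GTC_isClosed Λ)
  refine h.subset ?_
  rintro ω ⟨h1, h2⟩
  exact ⟨by simpa using h2, h1⟩

/-- Near every point there is no other lattice point. -/
theorem GTC_punct (Λ : Submodule ℤ ℂ) [DiscreteTopology Λ] (ζ₀ a : ℂ) :
    ∀ᶠ ζ in 𝓝[≠] ζ₀, ζ - a ∉ Λ := by
  have hfin := GTC_finite Λ (‖ζ₀ - a‖ + 1)
  have h1 : ∀ᶠ ζ in 𝓝[≠] ζ₀, ζ ∉ ((fun ω => ω + a) '' {ω : ℂ | ω ∈ Λ ∧ ‖ω‖ ≤ ‖ζ₀ - a‖ + 1}) := by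
    have hc : IsClosed (((fun ω => ω + a) '' {ω : ℂ | ω ∈ Λ ∧ ‖ω‖ ≤ ‖ζ₀ - a‖ + 1}) \ {ζ₀}) :=
      ((hfin.image _).sdiff).isClosed
    have := hc.isOpen_compl.mem_nhds (x := ζ₀) (by simp)
    filter_upwards [nhdsWithin_le_nhds this, self_mem_nhdsWithin] with ζ hζ hne hmem
    exact hζ ⟨hmem, hne⟩
  have h2 : ∀ᶠ ζ in 𝓝[≠] ζ₀, ζ ∈ ball ζ₀ 1 :=
    nhdsWithin_le_nhds (ball_mem_nhds ζ₀ one_pos)
  filter_upwards [h1, h2] with ζ hζ hb hmem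
  apply hζ
  refine ⟨ζ - a, ⟨hmem, ?_⟩, by simp⟩
  have : ‖ζ - ζ₀‖ < 1 := by simpa [dist_eq_norm] using hb
  calc ‖ζ - a‖ = ‖(ζ₀ - a) + (ζ - ζ₀)‖ := by ring_nf
    _ ≤ ‖ζ₀ - a‖ + ‖ζ - ζ₀‖ := norm_add_le _ _
    _ ≤ _ := by linarith

/-- The profile of a logarithmic pole, cut off at `R`. -/
noncomputable def gtcF (R t : ℝ) : ℝ := Real.log R - Real.log t - 1 / 2 + 1 / (2 * R ^ 2) * t ^ 2

/-- A logarithmic pole, cut off at `R`. -/
noncomputable def gtcG (R : ℝ) (η : ℂ) : ℝ := gtcF R (min ‖η‖ R)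

theorem gtcF_R {R : ℝ} (hR : 0 < R) : gtcF R R = 0 := by
  unfold gtcF
  field_simp
  ring

theorem gtcF_nonneg {R t : ℝ} (hR : 0 < R) (ht : 0 < t) : 0 ≤ gtcF R t := by
  have h := Real.log_le_sub_one_of_pos (x := t ^ 2 / R ^ 2) (by positivity)
  rw [Real.log_div (by positivity) (by positivity), Real.log_pow, Real.log_pow] at h
  unfold gtcF
  have : 1 / (2 * R ^ 2) * t ^ 2 = (t ^ 2 / R ^ 2) / 2 := by field_simp
  rw [this]
  push_cast at h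
  linarith

theorem gtcG_of_le {R : ℝ} {η : ℂ} (h : ‖η‖ ≤ R) : gtcG R η = gtcF R ‖η‖ := by
  unfold gtcG
  rw [min_eq_left h]

theorem gtcG_of_ge {R : ℝ} (hR : 0 < R) {η : ℂ} (h : R ≤ ‖η‖) : gtcG R η = 0 := by
  unfold gtcG
  rw [min_eq_right h, gtcF_R hR]

theorem gtcG_nonneg {R : ℝ} (hR : 0 < R) {η : ℂ} (h : η ≠ 0) : 0 ≤ gtcG R η := by
  unfold gtcG
  exact gtcF_nonneg hR (lt_min (norm_pos_iff.2 h) hR)

theorem gtcG_le {R : ℝ} (hR : 0 < R) {η : ℂ} (h : η ≠ 0) : gtcG R η ≤ gtcF R ‖η‖ := by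
  rcases le_total ‖η‖ R with h1 | h1
  · rw [gtcG_of_le h1]
  · rw [gtcG_of_ge hR h1]
    exact gtcF_nonneg hR (norm_pos_iff.2 h)

theorem gtcF_cont {R : ℝ} {t : ℝ} (ht : 0 < t) : ContinuousAt (gtcF R) t := by
  unfold gtcF
  have : ContinuousAt Real.log t := Real.continuousAt_log ht.ne'
  fun_prop

theorem gtcG_cont {R : ℝ} (hR : 0 < R) {η : ℂ} (h : η ≠ 0) : ContinuousAt (gtcG R) η := by
  unfold gtcG
  have h1 : ContinuousAt (fun η : ℂ => min ‖η‖ R) η := by fun_prop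
  exact ContinuousAt.comp (g := gtcF R) (f := fun η : ℂ => min ‖η‖ R)
    (gtcF_cont (lt_min (norm_pos_iff.2 h) hR)) h1

theorem gtcG_cont_ev {R : ℝ} (hR : 0 < R) {η : ℂ} (h : η ≠ 0) :
    ∀ᶠ ξ in 𝓝 η, ContinuousAt (gtcG R) ξ := by
  filter_upwards [isOpen_ne.mem_nhds h] with ξ hξ
  exact gtcG_cont hR hξ

theorem gtc_LL_F {R : ℝ} (hR : 0 < R) {ζ : ℂ} (h : ζ ≠ 0) :
    LL (fun η => gtcF R ‖η‖) ζ (1 / (2 * R ^ 2)) := by
  have h1 := LL_neg_log_norm (h := fun η : ℂ => η) (ζ := ζ) analyticAt_id h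
  have h2 := LL.const_mul (a := 1 / (2 * R ^ 2)) (by positivity) (LL_sq 0 ζ)
  have h3 := LL.const (Real.log R - 1 / 2) ζ
  have h4 := (h1.add h2).add h3
  refine (h4.congr ?_).mono (by simp)
  refine Eventually.of_forall fun η => ?_
  simp only [gtcF, sub_zero]
  ring

theorem gtc_LL_negF {R : ℝ} (hR : 0 < R) {ζ : ℂ} (h : ζ ≠ 0) :
    LL (fun η => -gtcF R ‖η‖) ζ (-(1 / (2 * R ^ 2))) := by
  have h1 := LL_log_norm (h := fun η : ℂ => η) (ζ := ζ) analyticAt_id h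
  have h2 := LL.const_mul (a := 1 / (2 * R ^ 2)) (by positivity) (LL_neg_sq 0 ζ)
  have h3 := LL.const (-(Real.log R - 1 / 2)) ζ
  have h4 := (h1.add h2).add h3
  refine (h4.congr ?_).mono (by simp)
  refine Eventually.of_forall fun η => ?_
  simp only [gtcF, sub_zero]
  ring

theorem gtc_LL_G_lt {R : ℝ} (hR : 0 < R) {ζ : ℂ} (h : ζ ≠ 0) (hlt : ‖ζ‖ < R) :
    LL (gtcG R) ζ (1 / (2 * R ^ 2)) := by
  refine (gtc_LL_F hR h).congr ?_
  have : ∀ᶠ η : ℂ in 𝓝 ζ, ‖η‖ < R := continuous_norm.continuousAt.eventually (gt_mem_nhds hlt)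
  filter_upwards [this] with η hη
  exact gtcG_of_le hη.le

theorem gtc_LL_G {R : ℝ} (hR : 0 < R) {ζ : ℂ} (h : ζ ≠ 0) : LL (gtcG R) ζ 0 := by
  rcases lt_or_ge ‖ζ‖ R with h1 | h1
  · exact (gtc_LL_G_lt hR h h1).mono (by positivity)
  · refine (LL.const 0 ζ).touch ?_ (gtcG_of_ge hR h1) (gtcG_cont_ev hR h)
    filter_upwards [isOpen_ne.mem_nhds h] with ξ hξ
    exact gtcG_nonneg hR hξ

theorem gtc_LL_negG {R : ℝ} (hR : 0 < R) {ζ : ℂ} (h : ζ ≠ 0) :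
    LL (fun η => -gtcG R η) ζ (-(1 / (2 * R ^ 2))) := by
  rcases le_or_gt ‖ζ‖ R with h1 | h1
  · refine (gtc_LL_negF hR h).touch ?_ ?_ ?_
    · filter_upwards [isOpen_ne.mem_nhds h] with ξ hξ
      exact neg_le_neg (gtcG_le hR hξ)
    · rw [gtcG_of_le h1]
    · filter_upwards [gtcG_cont_ev hR h] with ξ hξ
      exact hξ.neg
  · refine ((LL.const 0 ζ).congr ?_).mono (by
      have : 0 < 1 / (2 * R ^ 2) := by positivity
      linarith)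
    have : ∀ᶠ η : ℂ in 𝓝 ζ, R < ‖η‖ := continuous_norm.continuousAt.eventually (lt_mem_nhds h1)
    filter_upwards [this] with η hη
    rw [gtcG_of_ge hR hη.le, neg_zero]

/-- A periodic function with logarithmic poles on the lattice. -/
theorem GTC (Λ : Submodule ℤ ℂ) [DiscreteTopology Λ] [IsZLattice ℝ Λ] :
    ∃ (g : ℂ → ℝ) (c₁ c₂ : ℝ), 0 < c₁ ∧ 0 < c₂ ∧ (∀ ω ∈ Λ, ∀ ζ, g (ζ + ω) = g ζ) ∧
      (∀ ζ ∉ (Λ : Set ℂ), ContinuousAt g ζ ∧ LL g ζ c₁ ∧ LL (fun η => -g η) ζ (-c₂)) ∧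
      ∃ δ > 0, ∃ C : ℝ, ∀ ζ : ℂ, 0 < ‖ζ‖ → ‖ζ‖ < δ → |g ζ - Real.log (1 / ‖ζ‖)| ≤ C := by
  classical
  obtain ⟨R, hR1, hcov⟩ := GTC_cover Λ
  have hR : 0 < R := by linarith
  set g : ℂ → ℝ := fun ζ => ∑ᶠ ω : Λ, gtcG R (ζ + ω) with hg
  have hper : ∀ ω ∈ Λ, ∀ ζ, g (ζ + ω) = g ζ := by
    intro ω hω ζ
    simp only [hg]
    rw [← finsum_comp_equiv (Equiv.addLeft (⟨ω, hω⟩ : Λ)) (f := fun ω' : Λ => gtcG R (ζ + ω'))]
    refine finsum_congr fun ω' => ?_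
    congr 1
    simp only [Equiv.coe_addLeft, Submodule.coe_add]
    ring
  set S : Finset ℂ := (GTC_finite Λ (2 * R + 1)).toFinset with hS
  have hSmem : ∀ ω, ω ∈ S ↔ ω ∈ Λ ∧ ‖ω‖ ≤ 2 * R + 1 := by
    intro ω
    simp [hS]
  -- the local formula
  have hloc : ∀ η : ℂ, ‖η‖ < R + 1 → g η = ∑ ω ∈ S, gtcG R (η + ω) := by
    intro η hη
    simp only [hg]
    have h1 : ∑ᶠ ω : Λ, gtcG R (η + ω) = ∑ᶠ (ω : ℂ) (_ : ω ∈ (Λ : Set ℂ)), gtcG R (η + ω) :=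
      finsum_set_coe_eq_finsum_mem (f := fun ω : ℂ => gtcG R (η + ω)) (Λ : Set ℂ)
    rw [h1]
    rw [finsum_mem_eq_sum_of_inter_support_eq (s := (Λ : Set ℂ)) (t := S)
      (f := fun ω : ℂ => gtcG R (η + ω))]
    ext ω
    simp only [Set.mem_inter_iff, Function.mem_support, hSmem, SetLike.mem_coe]
    constructor
    · rintro ⟨h2, h3⟩
      refine ⟨⟨h2, ?_⟩, h3⟩
      by_contra hcon
      push Not at hcon
      apply h3
      apply gtcG_of_ge hR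
      have : ‖ω‖ ≤ ‖η + ω‖ + ‖η‖ := by
        calc ‖ω‖ = ‖(η + ω) - η‖ := by ring_nf
          _ ≤ _ := norm_sub_le _ _
      linarith
    · rintro ⟨⟨h2, _⟩, h3⟩
      exact ⟨h2, h3⟩
  have hloc_ev : ∀ ζ : ℂ, ‖ζ‖ < R → g =ᶠ[𝓝 ζ] fun η => ∑ ω ∈ S, gtcG R (η + ω) := by
    intro ζ hζ
    have : ∀ᶠ η : ℂ in 𝓝 ζ, ‖η‖ < R + 1 :=
      continuous_norm.continuousAt.eventually (gt_mem_nhds (by linarith))
    filter_upwards [this] with η hη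
    exact hloc η hη
  have hne : ∀ ζ ∉ (Λ : Set ℂ), ∀ ω ∈ Λ, ζ + ω ≠ 0 := by
    intro ζ hζ ω hω h
    apply hζ
    rw [eq_neg_of_add_eq_zero_left h]
    exact Λ.neg_mem hω
  have hcontterm : ∀ ζ ω : ℂ, ζ + ω ≠ 0 → ContinuousAt (fun η => gtcG R (η + ω)) ζ := by
    intro ζ ω h
    exact ContinuousAt.comp (g := gtcG R) (f := fun η : ℂ => η + ω) (gtcG_cont hR h)
      (by fun_prop)
  have hcont0 : ∀ ζ ∉ (Λ : Set ℂ), ‖ζ‖ < R → ContinuousAt g ζ := by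
    intro ζ hζ hR'
    rw [continuousAt_congr (hloc_ev ζ hR')]
    refine tendsto_finsetSum S fun ω hω => ?_
    exact hcontterm ζ ω (hne ζ hζ ω ((hSmem ω).1 hω).1)
  set c₁ : ℝ := 1 / (2 * R ^ 2) with hc₁
  have hc₁pos : 0 < c₁ := by positivity
  set c₂ : ℝ := S.card * c₁ + 1 with hc₂
  have hLL0 : ∀ ζ ∉ (Λ : Set ℂ), ‖ζ‖ < R → LL g ζ c₁ := by
    intro ζ hζ hR'
    obtain ⟨ω₁, hω₁, hω₁R⟩ := hcov ζ
    have hω₁S : ω₁ ∈ S := by
      rw [hSmem]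
      refine ⟨hω₁, ?_⟩
      have : ‖ω₁‖ ≤ ‖ζ + ω₁‖ + ‖ζ‖ := by
        calc ‖ω₁‖ = ‖(ζ + ω₁) - ζ‖ := by ring_nf
          _ ≤ _ := norm_sub_le _ _
      linarith
    have h1 := LL.sum S (fun ω η => gtcG R (η + ω)) (fun ω => if ω = ω₁ then c₁ else 0) ζ (by
      intro ω hω
      have h0 := hne ζ hζ ω ((hSmem ω).1 hω).1
      by_cases h : ω = ω₁
      · simp only [h, if_true]
        rw [h] at h0
        exact LL.comp_add (ψ := gtcG R) ω₁ (gtc_LL_G_lt hR h0 hω₁R)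
      · simp only [h, if_false]
        exact LL.comp_add (ψ := gtcG R) ω (gtc_LL_G hR h0))
    rw [Finset.sum_ite_eq' S ω₁, if_pos hω₁S] at h1
    exact h1.congr (hloc_ev ζ hR')
  have hLLneg0 : ∀ ζ ∉ (Λ : Set ℂ), ‖ζ‖ < R → LL (fun η => -g η) ζ (-c₂) := by
    intro ζ hζ hR'
    have h1 := LL.sum S (fun ω η => -gtcG R (η + ω)) (fun _ => -c₁) ζ (by
      intro ω hω
      have h0 := hne ζ hζ ω ((hSmem ω).1 hω).1
      exact LL.comp_add (ψ := fun η => -gtcG R η) ω (gtc_LL_negG hR h0))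
    refine (h1.congr ?_).mono ?_
    · filter_upwards [hloc_ev ζ hR'] with η hη
      rw [hη, Finset.sum_neg_distrib]
    · rw [Finset.sum_const, nsmul_eq_mul, hc₂]
      linarith
  refine ⟨g, c₁, c₂, hc₁pos, by positivity, hper, ?_, ?_⟩
  · intro ζ hζ
    obtain ⟨ω, hω, hωR⟩ := hcov ζ
    have hζω : ζ + ω ∉ (Λ : Set ℂ) := by
      intro h
      apply hζ
      have := Λ.sub_mem h hω
      simpa using this
    have hgeq : (fun η => g (η + ω)) = g := funext fun η => hper ω hω η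
    refine ⟨?_, ?_, ?_⟩
    · have h1 := hcont0 _ hζω hωR
      rw [← hgeq]
      exact ContinuousAt.comp (g := g) (f := fun η : ℂ => η + ω) h1 (by fun_prop)
    · have h1 := LL.comp_add (ψ := g) ω (hLL0 _ hζω hωR)
      rwa [hgeq] at h1
    · have h1 := LL.comp_add (ψ := fun η => -g η) ω (hLLneg0 _ hζω hωR)
      have h2 : (fun η => -g (η + ω)) = fun η => -g η := funext fun η => by rw [hper ω hω η]
      rwa [h2] at h1
  · -- near the origin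
    have h0S : (0 : ℂ) ∈ S := by
      rw [hSmem]
      refine ⟨Λ.zero_mem, ?_⟩
      rw [norm_zero]
      linarith
    have hcontH : ContinuousAt (fun ζ => ∑ ω ∈ S.erase 0, gtcG R (ζ + ω)) 0 := by
      refine tendsto_finsetSum _ fun ω hω => ?_
      apply hcontterm 0 ω
      rw [zero_add]
      exact (Finset.mem_erase.1 hω).1
    obtain ⟨δ, hδ, hδ'⟩ := Metric.continuousAt_iff.1 hcontH 1 one_pos
    refine ⟨min δ 1, lt_min hδ one_pos,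
      |Real.log R| + 2 + |∑ ω ∈ S.erase 0, gtcG R (0 + ω)|, fun ζ hζ0 hζ => ?_⟩
    have hζδ : ‖ζ‖ < δ := lt_of_lt_of_le hζ (min_le_left _ _)
    have hζ1 : ‖ζ‖ < 1 := lt_of_lt_of_le hζ (min_le_right _ _)
    rw [hloc ζ (by linarith), ← Finset.add_sum_erase S _ h0S]
    have h1 := hδ' (x := ζ) (by simpa [dist_eq_norm] using hζδ)
    rw [Real.dist_eq] at h1
    set H : ℝ := ∑ ω ∈ S.erase 0, gtcG R (ζ + ω) with hH
    set H0 : ℝ := ∑ ω ∈ S.erase 0, gtcG R (0 + ω) with hH0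
    rw [add_zero, gtcG_of_le (by linarith : ‖ζ‖ ≤ R)]
    unfold gtcF
    rw [one_div ‖ζ‖, Real.log_inv]
    have h2 : 0 ≤ 1 / (2 * R ^ 2) * ‖ζ‖ ^ 2 := by positivity
    have h3 : 1 / (2 * R ^ 2) * ‖ζ‖ ^ 2 ≤ 1 / 2 := by
      have h4 : ‖ζ‖ ^ 2 ≤ 1 := by nlinarith [norm_nonneg ζ]
      have h5 : 1 / (2 * R ^ 2) ≤ 1 / 2 := by
        apply one_div_le_one_div_of_le (by norm_num)
        nlinarith
      calc 1 / (2 * R ^ 2) * ‖ζ‖ ^ 2 ≤ 1 / 2 * 1 := by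
            apply mul_le_mul h5 h4 (by positivity) (by norm_num)
        _ = 1 / 2 := by norm_num
    have h6 := abs_lt.1 h1
    have h7 := le_abs_self (Real.log R)
    have h8 := neg_abs_le (Real.log R)
    have h9 := le_abs_self H0
    have h10 := neg_abs_le H0
    rw [abs_le]
    constructor <;> linarith [h6.1, h6.2]

end Pool.Agent.EPO
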