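import Pool.Agent.EPO.CRI

open scoped Manifold Topology LinearAlgebra.Projectivization
open Filter Metric Set

namespace Pool.Agent.EPO

variable {n : ℕ} {f : ℂ → Fin (n + 1) → ℂ}

private theorem INV_wd_smul (a b : ℂ) (X Y : ℂ × ℂ) : wd (a • X) (b • Y) = a * b * wd X Y := by
  simp only [wd, Prod.smul_fst, Prod.smul_snd, smul_eq_mul]
  ring

private theorem INV_YY_congr {w w' : ℂ → ℂ} {ζ : ℂ} (h : w =ᶠ[𝓝 ζ] w') : YY w ζ = YY w' ζ := by
  unfold YY
  rw [h.deriv_eq, h.eq_of_nhds]

theorem PhiLoc_congr {B B' : Fin n → ℂ → ℂ × ℂ} {M M' : ℂ → Fin (n + 1) → ℂ} {ζ : ℂ}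
    (hM : M =ᶠ[𝓝 ζ] M') (hB : ∀ i, B i =ᶠ[𝓝 ζ] B' i) : PhiLoc B M ζ = PhiLoc B' M' ζ := by
  unfold PhiLoc
  refine Finset.sum_congr rfl fun t _ => INV_YY_congr ?_
  have hall : ∀ᶠ η in 𝓝 ζ, ∀ i, B i η = B' i η := eventually_all.2 hB
  filter_upwards [hM, hall] with η h1 h2
  unfold crf
  rw [h1, funext (fun l => h2 l)]

/-- The cross ratio under a change of the root system. -/
private theorem INV_cr (B : Fin n → ℂ × ℂ) (M : Fin (n + 1) → ℂ) (s : Fin n → ℂ)
    (hs : ∀ l, s l ≠ 0) (σ : Equiv.Perm (Fin n)) {i j k : Fin n} (hij : i ≠ j) :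
    cr (fun l => s l • B (σ l)) M i j k = (∏ l, s l) * cr B M (σ i) (σ j) (σ k) := by
  unfold cr
  have h1 : (Function.update (fun l => s l • B (σ l)) j (s i • B (σ i))) =
      fun l => (Function.update s j (s i)) l •
        (Function.update B (σ j) (B (σ i))) (σ l) := by
    funext l
    by_cases hl : l = j
    · subst hl
      simp
    · rw [Function.update_of_ne hl, Function.update_of_ne hl,
        Function.update_of_ne (fun h => hl (σ.injective h))]
  have h2 : pr (Function.update (fun l => s l • B (σ l)) j (s i • B (σ i))) M =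
      (∏ l, (Function.update s j (s i)) l) * pr (Function.update B (σ j) (B (σ i))) M := by
    rw [h1, pr_smul_left (Function.update s j (s i))
      (fun l => (Function.update B (σ j) (B (σ i))) (σ l)) M, pr_perm]
  have h3 : (∏ l, (Function.update s j (s i)) l) * s j = (∏ l, s l) * s i := by
    rw [Finset.prod_update_of_mem (Finset.mem_univ j)]
    rw [← Finset.mul_prod_erase Finset.univ s (Finset.mem_univ j)]
    rw [Finset.sdiff_singleton_eq_erase]
    ring
  rw [h2]
  rw [INV_wd_smul, INV_wd_smul]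
  have hi := hs i
  have hj := hs j
  have hk := hs k
  by_cases hw : wd (B (σ k)) (B (σ i)) = 0
  · simp [hw]
  · have h4 : (∏ l, (Function.update s j (s i)) l) = (∏ l, s l) * s i / s j := by
      field_simp
      exact h3
    rw [h4]
    field_simp

private theorem INV_exists_ne {c : Fin (n + 1) → ℂ} {B : Fin n → ℂ × ℂ}
    (hB0 : ∀ i, B i ≠ 0) (hB : Roots c B) : ∃ X, form c X ≠ 0 := by
  by_contra hcon
  push Not at hcon
  have hP : (∏ i, (Polynomial.C (B i).2 - Polynomial.X * Polynomial.C (B i).1) :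
      Polynomial ℂ) = 0 := by
    refine Polynomial.funext fun t => ?_
    rw [Polynomial.eval_prod, Polynomial.eval_zero]
    have h1 := hcon (1, t)
    rw [hB.1] at h1
    rw [← h1]
    refine Finset.prod_congr rfl fun i _ => ?_
    simp only [wd, Polynomial.eval_sub, Polynomial.eval_C, Polynomial.eval_mul,
      Polynomial.eval_X, one_mul]
  rw [Finset.prod_eq_zero_iff] at hP
  obtain ⟨i, -, hi⟩ := hP
  apply hB0 i
  have e0 := congrArg (fun P : Polynomial ℂ => P.eval 0) hi
  have e1 := congrArg (fun P : Polynomial ℂ => P.eval 1) hi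
  simp only [Polynomial.eval_sub, Polynomial.eval_C, Polynomial.eval_mul,
      Polynomial.eval_X, zero_mul, sub_zero, Polynomial.eval_zero, one_mul] at e0 e1
  rw [e0] at e1
  have e2 : (B i).1 = 0 := by
    have := e1
    rw [zero_sub, neg_eq_zero] at this
    exact this
  exact Prod.ext e2 e0

private theorem INV_prod_one (hn : 2 ≤ n) {c : Fin (n + 1) → ℂ} {B : Fin n → ℂ × ℂ}
    {s : Fin n → ℂ} {σ : Equiv.Perm (Fin n)} (hB : Roots c B)
    (hB' : Roots c (fun i => s i • B (σ i))) : ∏ l, s l = 1 := by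
  obtain ⟨X, hX⟩ := INV_exists_ne (fun i => roots_ne_zero hn hB i) hB
  have h1 := hB'.1 X
  have h2 : ∏ i, wd X (s i • B (σ i)) = (∏ l, s l) * form c X := by
    rw [hB.1, ← Equiv.prod_comp σ (fun i => wd X (B i)), ← Finset.prod_mul_distrib]
    refine Finset.prod_congr rfl fun i _ => ?_
    have := INV_wd_smul 1 (s i) X (B (σ i))
    rw [one_smul, one_mul] at this
    exact this
  rw [h2] at h1
  have h3 : (∏ l, s l) * form c X = 1 * form c X := by rw [one_mul]; exact h1.symm
  exact mul_right_cancel₀ hX h3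

/-- The local potential does not depend on the root system. -/
theorem PhiLoc_indep (hn : 3 ≤ n) {B B' : Fin n → ℂ → ℂ × ℂ} {M : ℂ → Fin (n + 1) → ℂ} {ζ : ℂ}
    {r r' : ℝ} (hr : 0 < r) (hr' : 0 < r') (hB : RootSys f (ball ζ r) B)
    (hB' : RootSys f (ball ζ r') B') : PhiLoc B M ζ = PhiLoc B' M ζ := by
  have hn2 : 2 ≤ n := by omega
  have hζ : ζ ∈ ball ζ r := mem_ball_self hr
  have hζ' : ζ ∈ ball ζ r' := mem_ball_self hr'
  obtain ⟨σ, s, hσ⟩ := roots_perm hn2 (hB.2 ζ hζ) (hB'.2 ζ hζ')
  have hs : ∀ i, s i ≠ 0 := by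
    intro i h0
    have h1 := roots_ne_zero hn2 (hB'.2 ζ hζ') i
    apply h1
    rw [hσ i, h0, zero_smul]
  have hcB : ∀ i, ContinuousAt (B i) ζ := fun i =>
    (hB.1 i).continuousOn.continuousAt (isOpen_ball.mem_nhds hζ)
  have hcB' : ∀ i, ContinuousAt (B' i) ζ := fun i =>
    (hB'.1 i).continuousOn.continuousAt (isOpen_ball.mem_nhds hζ')
  have hev : ∀ᶠ η in 𝓝 ζ, ∀ i l, l ≠ σ i → wd (B' i η) (B l η) ≠ 0 := by
    refine eventually_all.2 fun i => eventually_all.2 fun l => ?_
    by_cases hl : l = σ i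
    · exact Eventually.of_forall fun η h => absurd hl h
    · have hc : ContinuousAt (fun η => wd (B' i η) (B l η)) ζ := by
        unfold wd
        have a1 := (hcB' i).fst
        have a2 := (hcB' i).snd
        have b1 := (hcB l).fst
        have b2 := (hcB l).snd
        exact (a1.mul b2).sub (a2.mul b1)
      have h0 : wd (B' i ζ) (B l ζ) ≠ 0 := by
        have e : B' i ζ = s i • B (σ i) ζ := hσ i
        rw [e]
        have := INV_wd_smul (s i) 1 (B (σ i) ζ) (B l ζ)
        rw [one_smul, mul_one] at this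
        rw [this]
        exact mul_ne_zero (hs i) ((hB.2 ζ hζ).2 (σ i) l (fun h => hl h.symm))
      filter_upwards [hc.eventually_ne h0] with η hη _ using hη
  have hkey : ∀ᶠ η in 𝓝 ζ, ∃ s' : Fin n → ℂ, (∀ i, s' i ≠ 0) ∧ (∏ l, s' l = 1) ∧
      (fun l => B' l η) = fun l => s' l • (fun m => B m η) (σ l) := by
    filter_upwards [hev, isOpen_ball.mem_nhds hζ, isOpen_ball.mem_nhds hζ'] with η h1 h2 h3
    obtain ⟨τ, s', hτ⟩ := roots_perm hn2 (hB.2 η h2) (hB'.2 η h3)
    have hτσ : ∀ i, τ i = σ i := by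
      intro i
      by_contra hne
      apply h1 i (τ i) hne
      have e : B' i η = s' i • B (τ i) η := hτ i
      rw [e]
      have := INV_wd_smul (s' i) 1 (B (τ i) η) (B (τ i) η)
      rw [one_smul] at this
      rw [this]
      have h0 : wd (B (τ i) η) (B (τ i) η) = 0 := by
        unfold wd; ring
      rw [h0, mul_zero]
    have hfun : (fun l => B' l η) = fun l => s' l • (fun m => B m η) (σ l) := by
      funext l
      have := hτ l
      rw [hτσ l] at this
      exact this
    refine ⟨s', ?_, ?_, hfun⟩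
    · intro i h0
      have h4 := roots_ne_zero hn2 (hB'.2 η h3) i
      apply h4
      have := hτ i
      rw [h0, zero_smul] at this
      exact this
    · have h5 := hB'.2 η h3
      rw [hfun] at h5
      exact INV_prod_one hn2 (hB.2 η h2) h5
  unfold PhiLoc
  symm
  refine Finset.sum_equiv (Equiv.prodCongr σ (Equiv.prodCongr σ σ)) ?_ ?_
  · intro t
    simp only [Tri, Finset.mem_filter, Finset.mem_univ, true_and, Equiv.prodCongr_apply,
      Prod.map_fst, Prod.map_snd, ne_eq, EmbeddingLike.apply_eq_iff_eq]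
  · intro t ht
    have ht1 : t.1 ≠ t.2.1 := by
      simp only [Tri, Finset.mem_filter, Finset.mem_univ, true_and] at ht
      exact ht.1
    apply INV_YY_congr
    filter_upwards [hkey] with η hη
    obtain ⟨s', h1, h2, h3⟩ := hη
    unfold crf
    rw [h3, INV_cr (fun m => B m η) (M η) s' h1 σ ht1, h2, one_mul]
    rfl

/-- The factor of automorphy is holomorphic. -/
theorem j_diff (hf : Differentiable ℂ f) (h0 : ∀ ζ, f ζ ≠ 0) {ω : ℂ} {j : ℂ → ℂ}
    (hfj : ∀ ζ, f (ζ + ω) = j ζ • f ζ) : Differentiable ℂ j := by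
  intro ζ
  obtain ⟨m, hm⟩ := Function.ne_iff.1 (h0 ζ)
  have hfm : ∀ m, Differentiable ℂ (fun η => f η m) := fun m => differentiable_pi.1 hf m
  have hev : ∀ᶠ η in 𝓝 ζ, f η m ≠ 0 := (hfm m).continuous.continuousAt.eventually_ne hm
  have heq : j =ᶠ[𝓝 ζ] fun η => f (η + ω) m / f η m := by
    filter_upwards [hev] with η hη
    rw [hfj η, Pi.smul_apply, smul_eq_mul]
    field_simp
  refine DifferentiableAt.congr_of_eventuallyEq ?_ heq
  refine DifferentiableAt.div ?_ (hfm m ζ) hm
  exact ((hfm m).comp (differentiable_id.add_const ω)) ζ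

/-- Translation by a period. -/
theorem PhiLoc_translate (hn : 3 ≤ n) (hf : Differentiable ℂ f) (h0 : ∀ ζ, f ζ ≠ 0) {ω : ℂ}
    {j : ℂ → ℂ} (hj : ∀ ζ, j ζ ≠ 0) (hfj : ∀ ζ, f (ζ + ω) = j ζ • f ζ) {ζ : ℂ} {r : ℝ}
    {B : Fin n → ℂ → ℂ × ℂ} (hr : 0 < r) (hB : RootSys f (ball (ζ + ω) r) B)
    (M : ℂ → Fin (n + 1) → ℂ) :
    ∃ B', RootSys f (ball ζ r) B' ∧
      PhiLoc B' (fun η => j η • M (η + ω)) ζ = PhiLoc B M (ζ + ω) := by
  have hn0 : 0 < n := by omega
  set i0 : Fin n := ⟨0, hn0⟩ with hi0
  have hjd : Differentiable ℂ j := j_diff hf h0 hfj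
  set s : ℂ → Fin n → ℂ := fun η => Function.update (fun _ => 1) i0 (j η)⁻¹ with hsdef
  have hs : ∀ η l, s η l ≠ 0 := by
    intro η l
    simp only [hsdef]
    by_cases hl : l = i0
    · subst hl
      simp only [Function.update_self]
      exact inv_ne_zero (hj η)
    · rw [Function.update_of_ne hl]
      exact one_ne_zero
  have hprod : ∀ η, ∏ l, s η l = (j η)⁻¹ := by
    intro η
    simp only [hsdef]
    rw [Finset.prod_update_of_mem (Finset.mem_univ i0)]
    simp
  have hsd : ∀ l, Differentiable ℂ (fun η => s η l) := by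
    intro l
    by_cases hl : l = i0
    · subst hl
      have : (fun η => s η i0) = fun η => (j η)⁻¹ := by
        funext η
        simp [hsdef]
      rw [this]
      exact fun η => (hjd η).inv (hj η)
    · have : (fun η => s η l) = fun _ => 1 := by
        funext η
        simp only [hsdef]
        rw [Function.update_of_ne hl]
      rw [this]
      exact differentiable_const _
  have hmem : ∀ η ∈ ball ζ r, η + ω ∈ ball (ζ + ω) r := by
    intro η hη
    rw [mem_ball, dist_add_right]
    exact hη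
  refine ⟨fun l η => s η l • B l (η + ω), ⟨?_, ?_⟩, ?_⟩
  · intro l
    have h1 : DifferentiableOn ℂ (fun η => B l (η + ω)) (ball ζ r) :=
      (hB.1 l).comp (differentiable_id.add_const ω).differentiableOn (fun η hη => hmem η hη)
    exact (hsd l).differentiableOn.smul h1
  · intro η hη
    have hR := hB.2 (η + ω) (hmem η hη)
    constructor
    · intro X
      have h1 := hR.1 X
      rw [hfj η, form_smul_left] at h1
      have h2 : ∏ i, wd X (s η i • B i (η + ω)) = (∏ i, s η i) * ∏ i, wd X (B i (η + ω)) := by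
        rw [← Finset.prod_mul_distrib]
        refine Finset.prod_congr rfl fun i _ => ?_
        have := INV_wd_smul 1 (s η i) X (B i (η + ω))
        rw [one_smul, one_mul] at this
        exact this
      rw [h2, hprod η, ← h1]
      rw [← mul_assoc, inv_mul_cancel₀ (hj η), one_mul]
    · intro i l hil
      rw [INV_wd_smul]
      exact mul_ne_zero (mul_ne_zero (hs η i) (hs η l)) (hR.2 i l hil)
  · unfold PhiLoc
    refine Finset.sum_congr rfl fun t ht => ?_
    have ht1 : t.1 ≠ t.2.1 := by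
      simp only [Tri, Finset.mem_filter, Finset.mem_univ, true_and] at ht
      exact ht.1
    have hcrf : crf (fun l η => s η l • B l (η + ω)) (fun η => j η • M (η + ω)) t.1 t.2.1 t.2.2 =
        fun η => crf B M t.1 t.2.1 t.2.2 (η + ω) := by
      funext η
      unfold crf
      have h1 := INV_cr (fun l => B l (η + ω)) (j η • M (η + ω)) (s η) (hs η)
        (Equiv.refl (Fin n)) (i := t.1) (j := t.2.1) (k := t.2.2) ht1
      simp only [Equiv.refl_apply] at h1
      rw [h1, hprod η]
      unfold cr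
      rw [pr_smul]
      have := hj η
      field_simp
    rw [hcrf]
    unfold YY
    rw [deriv_comp_add_const]

end Pool.Agent.EPO
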