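import Pool.Agent.EPO.Defs2

open scoped Manifold Topology LinearAlgebra.Projectivization
open Filter Metric Set

namespace Pool.Agent.EPO

/-- The Arzela-Ascoli theorem for sequences of uniformly Lipschitz functions on a compact set. -/
theorem MBD_ascoli {β : Type*} [MetricSpace β] {K : Set ℂ} (hK : IsCompact K) {s : Set β}
    (hs : IsCompact s) (F : ℕ → ℂ → β) (C : ℝ) (hC : 0 ≤ C) (hF : ∀ k, ∀ x ∈ K, F k x ∈ s)
    (hL : ∀ k, ∀ x ∈ K, ∀ y ∈ K, dist (F k x) (F k y) ≤ C * dist x y) :
    ∃ φ : ℕ → ℕ, StrictMono φ ∧ ∃ L : ℂ → β, ContinuousOn L K ∧ (∀ x ∈ K, L x ∈ s) ∧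
      TendstoUniformlyOn (fun k => F (φ k)) L atTop K := by
  classical
  rcases K.eq_empty_or_nonempty with hKe | ⟨x₀, hx₀⟩
  · subst hKe
    exact ⟨id, strictMono_id, F 0, continuousOn_empty _, fun x hx => absurd hx (by simp),
      tendstoUniformlyOn_empty⟩
  have : CompactSpace K := isCompact_iff_compactSpace.1 hK
  have hlip : ∀ k, LipschitzWith (Real.toNNReal C) (fun x : K => F k x) := by
    intro k
    apply LipschitzWith.of_dist_le_mul
    intro x y
    rw [Real.coe_toNNReal C hC]
    exact hL k x x.2 y y.2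
  let f : ℕ → BoundedContinuousFunction K β := fun k =>
    BoundedContinuousFunction.mkOfCompact ⟨fun x : K => F k x, (hlip k).continuous⟩
  have hf : ∀ k (x : K), f k x = F k x := fun k x => rfl
  have hcomp : IsCompact (closure (Set.range f)) := by
    apply BoundedContinuousFunction.arzela_ascoli s hs
    · rintro g x ⟨k, rfl⟩
      exact hF k x x.2
    · intro x₁
      rw [Metric.equicontinuousAt_iff_pair]
      intro ε hε
      refine ⟨ball x₁ (ε / (2 * (C + 1))), ball_mem_nhds _ (by positivity), ?_⟩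
      rintro x hx y hy ⟨g, k, rfl⟩
      have h1 : dist x y < 2 * (ε / (2 * (C + 1))) := by
        have h2 := dist_triangle_right x y x₁
        rw [mem_ball] at hx hy
        linarith
      have h2 : dist (F k x) (F k y) ≤ C * dist (x : ℂ) y := hL k x x.2 y y.2
      change dist (F k x) (F k y) < ε
      have h3 : dist (x : ℂ) y = dist x y := rfl
      rw [h3] at h2
      have h4 : C * dist x y ≤ C * (2 * (ε / (2 * (C + 1)))) :=
        mul_le_mul_of_nonneg_left h1.le hC
      have h5 : C * (2 * (ε / (2 * (C + 1)))) < ε := by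
        have : C * (2 * (ε / (2 * (C + 1)))) = ε * (C / (C + 1)) := by
          field_simp
        rw [this]
        have h6 : C / (C + 1) < 1 := by
          rw [div_lt_one (by linarith)]
          linarith
        nlinarith
      linarith
  obtain ⟨g, _, φ, hφ, hlim⟩ := hcomp.tendsto_subseq (x := f)
    (fun n => subset_closure ⟨n, rfl⟩)
  have hgs : ∀ x : K, g x ∈ s := by
    intro x
    have h1 : Tendsto (fun k => (f (φ k)) x) atTop (𝓝 (g x)) := by
      have h2 := (BoundedContinuousFunction.tendsto_iff_tendstoUniformly.1 hlim).tendsto_at x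
      exact h2
    refine hs.isClosed.mem_of_tendsto h1 (Eventually.of_forall fun k => ?_)
    exact hF (φ k) x x.2
  refine ⟨φ, hφ, fun x => if h : x ∈ K then g ⟨x, h⟩ else F 0 x, ?_, ?_, ?_⟩
  · rw [continuousOn_iff_continuous_domRestrict]
    have : (K.domRestrict fun x => if h : x ∈ K then g ⟨x, h⟩ else F 0 x) = g := by
      ext x
      simp [Set.domRestrict, x.2]
    rw [this]
    exact g.continuous
  · intro x hx
    simp only [hx, dif_pos]
    exact hgs ⟨x, hx⟩
  · rw [Metric.tendstoUniformlyOn_iff]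
    intro ε hε
    have h1 := Metric.tendstoUniformly_iff.1
      (BoundedContinuousFunction.tendsto_iff_tendstoUniformly.1 hlim) ε hε
    filter_upwards [h1] with k hk x hx
    simp only [hx, dif_pos]
    exact hk ⟨x, hx⟩

/-- Montel's theorem for uniformly bounded functions. -/
theorem MBD {m : ℕ} {b : ℂ} {r C : ℝ} (hr : 0 < r) (M : ℕ → ℂ → Fin m → ℂ)
    (h : ∀ᶠ k in atTop, DifferentiableOn ℂ (M k) (ball b r) ∧ ∀ ζ ∈ ball b r, ‖M k ζ‖ ≤ C) :
    ∃ φ : ℕ → ℕ, StrictMono φ ∧ ∃ L, DifferentiableOn ℂ L (ball b (r / 2)) ∧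
      TendstoUniformlyOn (fun k => M (φ k)) L atTop (ball b (r / 2)) := by
  obtain ⟨N, hN⟩ := eventually_atTop.1 h
  have hC0 : 0 ≤ C := le_trans (norm_nonneg _) ((hN N le_rfl).2 b (mem_ball_self hr))
  have hsub : closedBall b (r / 2) ⊆ ball b r := closedBall_subset_ball (by linarith)
  have hd : ∀ k, ∀ ζ ∈ closedBall b (r / 2), ‖deriv (M (k + N)) ζ‖ ≤ C / (r / 4) := by
    intro k ζ hζ
    have hb : closedBall ζ (r / 4) ⊆ ball b r := by
      intro z hz
      rw [mem_closedBall] at hz hζ
      rw [mem_ball]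
      have := dist_triangle z ζ b
      linarith
    have h1 : DifferentiableOn ℂ (M (k + N)) (ball b r) := (hN (k + N) (by omega)).1
    apply Complex.norm_deriv_le_of_forall_mem_sphere_norm_le (by positivity)
    · refine ⟨h1.mono (ball_subset_closedBall.trans hb), ?_⟩
      rw [closure_ball ζ (by positivity)]
      exact h1.continuousOn.mono hb
    · intro z hz
      exact (hN (k + N) (by omega)).2 z (hb (sphere_subset_closedBall hz))
  have hlip : ∀ k, ∀ x ∈ closedBall b (r / 2), ∀ y ∈ closedBall b (r / 2),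
      dist (M (k + N) x) (M (k + N) y) ≤ C / (r / 4) * dist x y := by
    intro k x hx y hy
    rw [dist_eq_norm, dist_eq_norm]
    refine (convex_closedBall b (r / 2)).norm_image_sub_le_of_norm_deriv_le (f := M (k + N))
      (fun z hz => ?_) (hd k) hy hx
    exact ((hN (k + N) (by omega)).1 z (hsub hz)).differentiableAt
      (isOpen_ball.mem_nhds (hsub hz))
  obtain ⟨φ, hφ, L, hLc, _, hL⟩ := MBD_ascoli (isCompact_closedBall b (r / 2))
    (isCompact_closedBall (0 : Fin m → ℂ) C) (fun k => M (k + N)) (C / (r / 4)) (by positivity)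
    (fun k x hx => by
      rw [mem_closedBall, dist_zero_right]
      exact (hN (k + N) (by omega)).2 x (hsub hx)) hlip
  refine ⟨fun k => φ k + N, fun a c hac => Nat.add_lt_add_right (hφ hac) N, L, ?_, ?_⟩
  · have h1 : TendstoLocallyUniformlyOn (fun k => M (φ k + N)) L atTop (ball b (r / 2)) :=
      (hL.mono ball_subset_closedBall).tendstoLocallyUniformlyOn
    refine h1.differentiableOn (Eventually.of_forall fun k => ?_) isOpen_ball
    exact (hN (φ k + N) (by omega)).1.mono (ball_subset_ball (by linarith))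
  · exact hL.mono ball_subset_closedBall

end Pool.Agent.EPO
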