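import Pool.Agent.EPO.AHL
import Pool.Agent.EPO.MTI
import Pool.Agent.EPO.MBD
import Pool.Agent.ELL.Hur

open scoped Manifold Topology LinearAlgebra.Projectivization
open Filter Metric Set

namespace Pool.Agent.EPO

/-- A model of the stereographic lift. -/
noncomputable def MON_S (w : ℂ) : ℂ × ℝ := (((1 + ‖w‖ ^ 2)⁻¹ : ℝ) • w, (1 + ‖w‖ ^ 2)⁻¹)

theorem MON_cont : Continuous MON_S := by
  unfold MON_S
  have h : Continuous fun w : ℂ => (1 + ‖w‖ ^ 2)⁻¹ :=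
    (by fun_prop : Continuous fun w : ℂ => (1 + ‖w‖ ^ 2)).inv₀ (fun w => by positivity)
  exact (h.smul continuous_id).prodMk h

theorem MON_deriv {u : ℝ → ℂ} {u' : ℂ} {t C : ℝ} (h : HasDerivAt u u' t)
    (hb : ‖u'‖ ≤ C * (1 + ‖u t‖ ^ 2)) :
    ∃ D : ℂ × ℝ, HasDerivAt (fun t => MON_S (u t)) D t ∧ ‖D‖ ≤ 3 * C := by
  have hn : HasDerivAt (fun t => ‖u t‖ ^ 2) (2 * inner ℝ (u t) u') t := h.norm_sq
  have hpos : 0 < 1 + ‖u t‖ ^ 2 := by positivity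
  have hc : HasDerivAt (fun t => (1 + ‖u t‖ ^ 2)⁻¹)
      (-(2 * inner ℝ (u t) u') / (1 + ‖u t‖ ^ 2) ^ 2) t := (hn.const_add 1).fun_inv hpos.ne'
  have hs := hc.smul h
  have hD := hs.prodMk hc
  refine ⟨_, hD, ?_⟩
  have hC : 0 ≤ C := by
    by_contra hneg
    push Not at hneg
    have h1 : C * (1 + ‖u t‖ ^ 2) < 0 := mul_neg_of_neg_of_pos hneg hpos
    have h2 := norm_nonneg u'
    linarith
  have hi : |inner ℝ (u t) u'| ≤ ‖u t‖ * ‖u'‖ := abs_real_inner_le_norm _ _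
  have hc' : |-(2 * inner ℝ (u t) u') / (1 + ‖u t‖ ^ 2) ^ 2| ≤ 2 * ‖u t‖ * C / (1 + ‖u t‖ ^ 2) := by
    rw [abs_div, abs_neg, abs_mul, abs_of_pos (by norm_num : (0 : ℝ) < 2),
      abs_of_pos (by positivity : 0 < (1 + ‖u t‖ ^ 2) ^ 2), div_le_div_iff₀ (by positivity) hpos]
    have h3 : ‖u t‖ * ‖u'‖ ≤ ‖u t‖ * (C * (1 + ‖u t‖ ^ 2)) :=
      mul_le_mul_of_nonneg_left hb (norm_nonneg _)
    have h4 : 2 * |inner ℝ (u t) u'| ≤ 2 * (‖u t‖ * (C * (1 + ‖u t‖ ^ 2))) := by linarith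
    calc 2 * |inner ℝ (u t) u'| * (1 + ‖u t‖ ^ 2)
        ≤ 2 * (‖u t‖ * (C * (1 + ‖u t‖ ^ 2))) * (1 + ‖u t‖ ^ 2) :=
          mul_le_mul_of_nonneg_right h4 hpos.le
      _ = 2 * ‖u t‖ * C * (1 + ‖u t‖ ^ 2) ^ 2 := by ring
  rw [Prod.norm_def, max_le_iff]
  constructor
  · refine le_trans (norm_add_le _ _) ?_
    rw [norm_smul, norm_smul, Real.norm_eq_abs, Real.norm_eq_abs, abs_of_pos (by positivity)]
    have h5 : (1 + ‖u t‖ ^ 2)⁻¹ * ‖u'‖ ≤ C := by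
      rw [inv_mul_le_iff₀ hpos]
      linarith
    have h6 : |-(2 * inner ℝ (u t) u') / (1 + ‖u t‖ ^ 2) ^ 2| * ‖u t‖ ≤ 2 * C := by
      refine le_trans (mul_le_mul_of_nonneg_right hc' (norm_nonneg _)) ?_
      rw [div_mul_eq_mul_div, div_le_iff₀ hpos]
      nlinarith [sq_nonneg ‖u t‖]
    linarith
  · rw [Real.norm_eq_abs]
    refine le_trans hc' ?_
    rw [div_le_iff₀ hpos]
    nlinarith [sq_nonneg (‖u t‖ - 1), mul_nonneg hC (sq_nonneg (‖u t‖ - 1)),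
      mul_nonneg hC (sq_nonneg ‖u t‖)]

/-- The lift of a function with bounded spherical derivative is Lipschitz. -/
theorem MON_lip {w : ℂ → ℂ} {K : Set ℂ} (hK : Convex ℝ K) {C : ℝ}
    (hw : ∀ z ∈ K, DifferentiableAt ℂ w z)
    (hb : ∀ z ∈ K, ‖deriv w z‖ ≤ C * (1 + ‖w z‖ ^ 2)) :
    ∀ x ∈ K, ∀ y ∈ K, dist (MON_S (w x)) (MON_S (w y)) ≤ 3 * C * dist x y := by
  intro x hx y hy
  have hmem : ∀ t ∈ Icc (0 : ℝ) 1, x + (t : ℂ) * (y - x) ∈ K := by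
    intro t ht
    have := hK.add_smul_sub_mem hx hy ht
    simpa [Complex.real_smul] using this
  have hu : ∀ t ∈ Icc (0 : ℝ) 1, HasDerivAt (fun s : ℝ => w (x + (s : ℂ) * (y - x)))
      (deriv w (x + (t : ℂ) * (y - x)) * (y - x)) t := by
    intro t ht
    have h1 : HasDerivAt (fun s : ℝ => x + (s : ℂ) * (y - x)) (y - x) t := by
      have h2 : HasDerivAt (fun s : ℝ => (s : ℂ)) 1 t := Complex.ofRealCLM.hasDerivAt
      simpa using (h2.mul_const (y - x)).const_add x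
    exact (hw _ (hmem t ht)).hasDerivAt.comp t h1
  have hbd : ∀ t ∈ Icc (0 : ℝ) 1, ‖deriv w (x + (t : ℂ) * (y - x)) * (y - x)‖ ≤
      (C * dist x y) * (1 + ‖w (x + (t : ℂ) * (y - x))‖ ^ 2) := by
    intro t ht
    rw [norm_mul, dist_comm, dist_eq_norm]
    have h1 := mul_le_mul_of_nonneg_right (hb _ (hmem t ht)) (norm_nonneg (y - x))
    calc _ ≤ _ := h1
      _ = _ := by ring
  choose! D hD hD' using fun t (ht : t ∈ Icc (0 : ℝ) 1) => MON_deriv (hu t ht) (hbd t ht)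
  have h3 := norm_image_sub_le_of_norm_deriv_le_segment_01'
    (f := fun t : ℝ => MON_S (w (x + (t : ℂ) * (y - x)))) (f' := D) (C := 3 * (C * dist x y))
    (fun t ht => (hD t ht).hasDerivWithinAt) (fun t ht => hD' t (Ico_subset_Icc_self ht))
  rw [dist_comm, dist_eq_norm]
  simp only [Complex.ofReal_one, one_mul, Complex.ofReal_zero, zero_mul, add_zero] at h3
  rw [add_sub_cancel] at h3
  calc _ ≤ _ := h3
    _ = _ := by ring

theorem MON_fst (w : ℂ) : w = (((MON_S w).2)⁻¹ : ℝ) • (MON_S w).1 := by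
  unfold MON_S
  simp only
  rw [smul_smul, inv_inv, mul_inv_cancel₀ (by positivity), one_smul]

theorem MON_inv {w : ℂ} (hw : w ≠ 0) :
    w⁻¹ = ((1 - (MON_S w).2)⁻¹ : ℝ) • (starRingEnd ℂ) (MON_S w).1 := by
  unfold MON_S
  simp only
  have h0 : 0 < ‖w‖ := norm_pos_iff.2 hw
  have h1 : (1 : ℝ) - (1 + ‖w‖ ^ 2)⁻¹ = ‖w‖ ^ 2 * (1 + ‖w‖ ^ 2)⁻¹ := by
    field_simp
    ring
  rw [h1, Complex.real_smul, Complex.real_smul, map_mul, Complex.conj_ofReal, ← mul_assoc,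
    ← Complex.ofReal_mul, Complex.inv_def, Complex.normSq_eq_norm_sq, mul_comm]
  congr 2
  field_simp

/-- The model of the sphere. -/
def MON_T : Set (ℂ × ℝ) := {q | ‖q.1‖ ^ 2 = q.2 - q.2 ^ 2}

theorem MON_T_bd {q : ℂ × ℝ} (hq : q ∈ MON_T) : q ∈ closedBall (0 : ℂ × ℝ) 1 := by
  have h : ‖q.1‖ ^ 2 = q.2 - q.2 ^ 2 := hq
  have h1 := sq_nonneg ‖q.1‖
  rw [mem_closedBall, dist_zero_right, Prod.norm_def, max_le_iff, Real.norm_eq_abs, abs_le]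
  have h2 : 0 ≤ q.2 := by nlinarith
  have h3 : q.2 ≤ 1 := by nlinarith
  refine ⟨?_, by linarith, h3⟩
  nlinarith [norm_nonneg q.1]

theorem MON_T_compact : IsCompact MON_T := by
  apply (isCompact_closedBall (0 : ℂ × ℝ) 1).of_isClosed_subset _ fun q hq => MON_T_bd hq
  exact isClosed_eq (by fun_prop) (by fun_prop)

theorem MON_S_mem (w : ℂ) : MON_S w ∈ MON_T := by
  change ‖((1 + ‖w‖ ^ 2)⁻¹ : ℝ) • w‖ ^ 2 = (1 + ‖w‖ ^ 2)⁻¹ - ((1 + ‖w‖ ^ 2)⁻¹) ^ 2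
  rw [norm_smul, Real.norm_eq_abs, abs_of_pos (by positivity)]
  field_simp
  ring

theorem MON_conv0 {D : Set ℂ} {v : ℕ → ℂ → ℂ} {L : ℂ → ℂ × ℝ}
    (hconv : TendstoUniformlyOn (fun k ζ => MON_S (v k ζ)) L atTop D)
    (hT : ∀ ζ ∈ D, L ζ ∈ MON_T) (h2 : ∀ ζ ∈ D, 1 / 3 ≤ (L ζ).2) :
    TendstoUniformlyOn v (fun ζ => (((L ζ).2)⁻¹ : ℝ) • (L ζ).1) atTop D := by
  have hcomp : IsCompact (MON_T ∩ {q | 1 / 4 ≤ q.2}) :=
    MON_T_compact.inter_right (isClosed_le continuous_const continuous_snd)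
  have hcont : ContinuousOn (fun q : ℂ × ℝ => ((q.2)⁻¹ : ℝ) • q.1) (MON_T ∩ {q | 1 / 4 ≤ q.2}) := by
    refine ContinuousOn.smul (ContinuousOn.inv₀ continuous_snd.continuousOn ?_)
      continuous_fst.continuousOn
    rintro q ⟨_, hq⟩
    have : (1 : ℝ) / 4 ≤ q.2 := hq
    intro h0
    rw [h0] at this
    norm_num at this
  have huc := hcomp.uniformContinuousOn_of_continuous hcont
  have h3 := huc.comp_tendstoUniformlyOn_eventually (p := atTop) (t := D)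
    (F := fun k ζ => MON_S (v k ζ)) (f := L) ?_ ?_ hconv
  · refine h3.congr (Eventually.of_forall fun k ζ _ => ?_)
    exact (MON_fst (v k ζ)).symm
  · filter_upwards [Metric.tendstoUniformlyOn_iff.1 hconv (1 / 12) (by norm_num)] with k hk ζ hζ
    refine ⟨MON_S_mem _, ?_⟩
    have h4 := hk ζ hζ
    rw [Prod.dist_eq, max_lt_iff] at h4
    have h5 := h4.2
    rw [Real.dist_eq, abs_lt] at h5
    have h6 := h2 ζ hζ
    change (1 : ℝ) / 4 ≤ (MON_S (v k ζ)).2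
    linarith [h5.2]
  · intro ζ hζ
    refine ⟨hT ζ hζ, ?_⟩
    change (1 : ℝ) / 4 ≤ (L ζ).2
    linarith [h2 ζ hζ]

theorem MON_conv1 {D : Set ℂ} {v : ℕ → ℂ → ℂ} {L : ℂ → ℂ × ℝ}
    (hconv : TendstoUniformlyOn (fun k ζ => MON_S (v k ζ)) L atTop D)
    (hT : ∀ ζ ∈ D, L ζ ∈ MON_T) (h2 : ∀ ζ ∈ D, (L ζ).2 ≤ 2 / 3)
    (hv : ∀ k, ∀ ζ ∈ D, v k ζ ≠ 0) :
    TendstoUniformlyOn (fun k ζ => (v k ζ)⁻¹)
      (fun ζ => ((1 - (L ζ).2)⁻¹ : ℝ) • (starRingEnd ℂ) (L ζ).1) atTop D := by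
  have hcomp : IsCompact (MON_T ∩ {q | q.2 ≤ 3 / 4}) :=
    MON_T_compact.inter_right (isClosed_le continuous_snd continuous_const)
  have hcont : ContinuousOn (fun q : ℂ × ℝ => ((1 - q.2)⁻¹ : ℝ) • (starRingEnd ℂ) q.1)
      (MON_T ∩ {q | q.2 ≤ 3 / 4}) := by
    refine ContinuousOn.smul (ContinuousOn.inv₀ (continuous_const.sub continuous_snd).continuousOn ?_)
      (Complex.continuous_conj.comp continuous_fst).continuousOn
    rintro q ⟨_, hq⟩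
    have : q.2 ≤ (3 : ℝ) / 4 := hq
    intro h0
    change 1 - q.2 = 0 at h0
    linarith
  have huc := hcomp.uniformContinuousOn_of_continuous hcont
  have h3 := huc.comp_tendstoUniformlyOn_eventually (p := atTop) (t := D)
    (F := fun k ζ => MON_S (v k ζ)) (f := L) ?_ ?_ hconv
  · refine h3.congr (Eventually.of_forall fun k ζ hζ => ?_)
    exact (MON_inv (hv k ζ hζ)).symm
  · filter_upwards [Metric.tendstoUniformlyOn_iff.1 hconv (1 / 12) (by norm_num)] with k hk ζ hζ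
    refine ⟨MON_S_mem _, ?_⟩
    have h4 := hk ζ hζ
    rw [Prod.dist_eq, max_lt_iff] at h4
    have h5 := h4.2
    rw [Real.dist_eq, abs_lt] at h5
    have h6 := h2 ζ hζ
    change (MON_S (v k ζ)).2 ≤ (3 : ℝ) / 4
    linarith [h5.1]
  · intro ζ hζ
    refine ⟨hT ζ hζ, ?_⟩
    change (L ζ).2 ≤ (3 : ℝ) / 4
    linarith [h2 ζ hζ]

/-- Hurwitz: a limit of functions without zeros with a zero vanishes nearby. -/
theorem MON_hur {G : ℕ → ℂ → ℂ} {g : ℂ → ℂ} {x : ℂ} {δ : ℝ} (hδ : 0 < δ)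
    (hG : ∀ k, DifferentiableOn ℂ (G k) (ball x δ) ∧ ∀ ζ ∈ ball x δ, G k ζ ≠ 0)
    (hconv : TendstoUniformlyOn G g atTop (ball x δ)) (h0 : g x = 0) :
    ∀ᶠ ζ in 𝓝 x, g ζ = 0 := by
  by_contra hne
  have hg : DifferentiableOn ℂ g (ball x δ) :=
    hconv.tendstoLocallyUniformlyOn.differentiableOn
      (Eventually.of_forall fun k => (hG k).1) isOpen_ball
  obtain ⟨k, ζ, hζ, hz⟩ := (Pool.Agent.ELL.hurwitz hδ (Eventually.of_forall fun k => (hG k).1)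
    hg hconv h0 hne δ hδ).exists
  exact (hG k).2 ζ hζ hz

/-- If the limit takes one of the values `S 0`, `S 1`, `S ∞` then it takes it nearby. -/
theorem MON_open {U : Set ℂ} (hU : IsOpen U) {v : ℕ → ℂ → ℂ} {L : ℂ → ℂ × ℝ}
    (hconv : TendstoUniformlyOn (fun k ζ => MON_S (v k ζ)) L atTop U)
    (hT : ∀ ζ ∈ U, L ζ ∈ MON_T) (hL : ContinuousOn L U)
    (hv : ∀ k, DifferentiableOn ℂ (v k) U ∧ ∀ ζ ∈ U, v k ζ ≠ 0 ∧ v k ζ ≠ 1)
    {a : ℂ × ℝ} (ha : a = (0, 1) ∨ a = (1 / 2, 1 / 2) ∨ a = (0, 0)) {x : ℂ} (hx : x ∈ U)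
    (hxa : L x = a) : ∀ᶠ ζ in 𝓝 x, L ζ = a := by
  have hLx : ContinuousAt L x := hL.continuousAt (hU.mem_nhds hx)
  have hL2 : ContinuousAt (fun ζ => (L ζ).2) x := continuous_snd.continuousAt.comp hLx
  have hnear : ∀ V : Set ℝ, IsOpen V → (L x).2 ∈ V → ∃ δ > 0, ball x δ ⊆ U ∧
      ∀ ζ ∈ ball x δ, (L ζ).2 ∈ V := by
    intro V hV hxV
    have h1 : ∀ᶠ ζ in 𝓝 x, (L ζ).2 ∈ V := hL2.eventually (hV.mem_nhds hxV)
    obtain ⟨δ, hδ, h2⟩ := Metric.eventually_nhds_iff_ball.1 (h1.and (hU.mem_nhds hx))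
    exact ⟨δ, hδ, fun ζ hζ => (h2 ζ hζ).2, fun ζ hζ => (h2 ζ hζ).1⟩
  rcases ha with rfl | rfl | rfl
  · obtain ⟨δ, hδ, hδU, hδ2⟩ := hnear (Ioi (1 / 3)) isOpen_Ioi (by rw [hxa]; norm_num)
    have h3 := MON_conv0 (hconv.mono hδU) (fun ζ hζ => hT ζ (hδU hζ))
      (fun ζ hζ => le_of_lt (hδ2 ζ hζ))
    have h4 := MON_hur hδ (fun k => ⟨(hv k).1.mono hδU, fun ζ hζ => ((hv k).2 ζ (hδU hζ)).1⟩) h3
      (by rw [hxa]; simp)
    filter_upwards [h4, ball_mem_nhds x hδ] with ζ hζ hζb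
    have h5 : (1 : ℝ) / 3 < (L ζ).2 := hδ2 ζ hζb
    have h6 : (L ζ).1 = 0 := by
      rcases smul_eq_zero.1 hζ with h | h
      · rw [inv_eq_zero] at h
        rw [h] at h5
        norm_num at h5
      · exact h
    have h7 : ‖(L ζ).1‖ ^ 2 = (L ζ).2 - (L ζ).2 ^ 2 := hT ζ (hδU hζb)
    rw [h6, norm_zero] at h7
    have h8 : (L ζ).2 * (1 - (L ζ).2) = 0 := by linarith
    rcases mul_eq_zero.1 h8 with h9 | h9
    · rw [h9] at h5
      norm_num at h5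
    · exact Prod.ext h6 (by simp only; linarith)
  · obtain ⟨δ, hδ, hδU, hδ2⟩ := hnear (Ioi (1 / 3)) isOpen_Ioi (by rw [hxa]; norm_num)
    have h3 := MON_conv0 (hconv.mono hδU) (fun ζ hζ => hT ζ (hδU hζ))
      (fun ζ hζ => le_of_lt (hδ2 ζ hζ))
    have h3' : TendstoUniformlyOn (fun k ζ => v k ζ - 1)
        (fun ζ => (((L ζ).2)⁻¹ : ℝ) • (L ζ).1 - 1) atTop (ball x δ) := by
      rw [Metric.tendstoUniformlyOn_iff] at h3 ⊢
      intro ε hε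
      filter_upwards [h3 ε hε] with k hk ζ hζ
      have := hk ζ hζ
      rw [dist_eq_norm] at this ⊢
      rwa [sub_sub_sub_cancel_right]
    have h4 := MON_hur hδ (fun k => ⟨((hv k).1.mono hδU).sub_const 1,
      fun ζ hζ => sub_ne_zero.2 ((hv k).2 ζ (hδU hζ)).2⟩) h3'
      (by rw [hxa]; norm_num)
    filter_upwards [h4, ball_mem_nhds x hδ] with ζ hζ hζb
    have h5 : (1 : ℝ) / 3 < (L ζ).2 := hδ2 ζ hζb
    have h50 : (L ζ).2 ≠ 0 := by linarith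
    have h6 : (L ζ).1 = ((L ζ).2 : ℂ) := by
      have h61 := sub_eq_zero.1 hζ
      rw [Complex.real_smul, Complex.ofReal_inv] at h61
      have h62 : ((L ζ).2 : ℂ) ≠ 0 := by exact_mod_cast h50
      field_simp at h61
      exact h61
    have h7 : ‖(L ζ).1‖ ^ 2 = (L ζ).2 - (L ζ).2 ^ 2 := hT ζ (hδU hζb)
    rw [h6, Complex.norm_real, Real.norm_eq_abs, sq_abs] at h7
    have h8 : (L ζ).2 * (1 - 2 * (L ζ).2) = 0 := by linarith
    rcases mul_eq_zero.1 h8 with h9 | h9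
    · exact absurd h9 h50
    · have h10 : (L ζ).2 = 1 / 2 := by linarith
      refine Prod.ext ?_ h10
      rw [h6, h10]
      norm_num
  · obtain ⟨δ, hδ, hδU, hδ2⟩ := hnear (Iio (2 / 3)) isOpen_Iio (by rw [hxa]; norm_num)
    have h3 := MON_conv1 (hconv.mono hδU) (fun ζ hζ => hT ζ (hδU hζ))
      (fun ζ hζ => le_of_lt (hδ2 ζ hζ)) (fun k ζ hζ => ((hv k).2 ζ (hδU hζ)).1)
    have h4 := MON_hur hδ (fun k => ⟨((hv k).1.mono hδU).inv
      fun ζ hζ => ((hv k).2 ζ (hδU hζ)).1,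
      fun ζ hζ => inv_ne_zero ((hv k).2 ζ (hδU hζ)).1⟩) h3
      (by rw [hxa]; simp)
    filter_upwards [h4, ball_mem_nhds x hδ] with ζ hζ hζb
    have h5 : (L ζ).2 < (2 : ℝ) / 3 := hδ2 ζ hζb
    have h6 : (L ζ).1 = 0 := by
      rcases smul_eq_zero.1 hζ with h | h
      · rw [inv_eq_zero] at h
        linarith
      · simpa using h
    have h7 : ‖(L ζ).1‖ ^ 2 = (L ζ).2 - (L ζ).2 ^ 2 := hT ζ (hδU hζb)
    rw [h6, norm_zero] at h7
    have h8 : (L ζ).2 * (1 - (L ζ).2) = 0 := by linarith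
    rcases mul_eq_zero.1 h8 with h9 | h9
    · exact Prod.ext h6 h9
    · linarith

theorem MON_global {U : Set ℂ} (hU : IsOpen U) (hUc : IsPreconnected U) {L : ℂ → ℂ × ℝ}
    (hL : ContinuousOn L U) {a : ℂ × ℝ} (ho : ∀ x ∈ U, L x = a → ∀ᶠ ζ in 𝓝 x, L ζ = a)
    {x : ℂ} (hx : x ∈ U) (hxa : L x = a) : ∀ ζ ∈ U, L ζ = a := by
  have hsub : U ⊆ {ζ | ζ ∈ U ∧ L ζ = a} := by
    apply hUc.subset_of_closure_inter_subset
    · rw [isOpen_iff_mem_nhds]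
      rintro y ⟨hy, hya⟩
      filter_upwards [ho y hy hya, hU.mem_nhds hy] with ζ h1 h2
      exact ⟨h2, h1⟩
    · exact ⟨x, hx, hx, hxa⟩
    · rintro y ⟨hy, hyU⟩
      refine ⟨hyU, ?_⟩
      by_contra hne
      have hLy : ContinuousAt L y := hL.continuousAt (hU.mem_nhds hyU)
      have h1 : ∀ᶠ ζ in 𝓝 y, L ζ ≠ a := hLy.eventually_ne hne
      obtain ⟨ζ, h2, h3⟩ := mem_closure_iff_nhds.1 hy _ h1
      exact h2 h3.2
  exact fun ζ hζ => (hsub hζ).2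

/-- Montel's theorem for functions without the values `0` and `1`. -/
theorem MON {b : ℂ} {r : ℝ} (hr : 0 < r) (w : ℕ → ℂ → ℂ)
    (hw : ∀ᶠ k in atTop, DifferentiableOn ℂ (w k) (ball b r) ∧
      ∀ ζ ∈ ball b r, w k ζ ≠ 0 ∧ w k ζ ≠ 1) :
    ∃ φ : ℕ → ℕ, StrictMono φ ∧
      ((∃ c > 0, ∀ᶠ k in atTop, ∀ ζ ∈ ball b (r / 2),
          c ≤ ‖w (φ k) ζ‖ ∧ c ≤ ‖w (φ k) ζ - 1‖ ∧ ‖w (φ k) ζ‖ ≤ c⁻¹) ∨
        (∀ ε > 0, ∀ᶠ k in atTop, ∀ ζ ∈ ball b (r / 2), ‖w (φ k) ζ‖ ≤ ε) ∨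
        (∀ ε > 0, ∀ᶠ k in atTop, ∀ ζ ∈ ball b (r / 2), ‖w (φ k) ζ - 1‖ ≤ ε) ∨
        (∀ ε > 0, ∀ᶠ k in atTop, ∀ ζ ∈ ball b (r / 2), ‖(w (φ k) ζ)⁻¹‖ ≤ ε)) := by
  obtain ⟨N, hN⟩ := eventually_atTop.1 hw
  have hKsub : closedBall b (3 * r / 4) ⊆ ball b r := closedBall_subset_ball (by linarith)
  have hdiff : ∀ k, ∀ z ∈ closedBall b (3 * r / 4), DifferentiableAt ℂ (w (k + N)) z :=
    fun k z hz => ((hN (k + N) (by omega)).1 z (hKsub hz)).differentiableAt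
      (isOpen_ball.mem_nhds (hKsub hz))
  have hder : ∀ k, ∀ z ∈ closedBall b (3 * r / 4),
      ‖deriv (w (k + N)) z‖ ≤ 430 / r * (1 + ‖w (k + N) z‖ ^ 2) := by
    intro k z hz
    have hb : ball z (r / 4) ⊆ ball b r := by
      intro y hy
      rw [mem_ball] at hy ⊢
      rw [mem_closedBall] at hz
      have := dist_triangle y z b
      linarith
    obtain ⟨h1, h2⟩ := hN (k + N) (by omega)
    have h3 := ahlfors (w := w (k + N)) (c := z) (r := r / 4) (by positivity) (h1.mono hb)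
      (fun ζ hζ => h2 ζ (hb hζ))
    have h4 := h2 z (hKsub hz)
    have h5 := met_ge h4.1 h4.2
    have h6 : 1 / (4 * (1 + ‖w (k + N) z‖ ^ 2) ^ 2) * ‖deriv (w (k + N)) z‖ ^ 2
        ≤ 2880 / (r / 4) ^ 2 :=
      le_trans (mul_le_mul_of_nonneg_right h5 (sq_nonneg _)) h3
    rw [one_div, inv_mul_le_iff₀ (by positivity)] at h6
    have h7 : ‖deriv (w (k + N)) z‖ ^ 2 ≤ (430 / r * (1 + ‖w (k + N) z‖ ^ 2)) ^ 2 := by
      refine le_trans h6 ?_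
      have h8 : 4 * (1 + ‖w (k + N) z‖ ^ 2) ^ 2 * (2880 / (r / 4) ^ 2)
          = 184320 / r ^ 2 * (1 + ‖w (k + N) z‖ ^ 2) ^ 2 := by
        field_simp
        ring
      rw [h8, mul_pow, div_pow]
      apply mul_le_mul_of_nonneg_right _ (sq_nonneg _)
      apply div_le_div_of_nonneg_right _ (sq_nonneg _)
      norm_num
    exact (pow_le_pow_iff_left₀ (norm_nonneg _) (by positivity) two_ne_zero).1 h7
  have hlip := fun k => MON_lip (convex_closedBall b (3 * r / 4)) (hdiff k) (hder k)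
  obtain ⟨φ, hφ, L, hLc, hLT, hL⟩ := MBD_ascoli (isCompact_closedBall b (3 * r / 4))
    MON_T_compact (fun k ζ => MON_S (w (k + N) ζ)) (3 * (430 / r)) (by positivity)
    (fun k x _ => MON_S_mem _) hlip
  set v : ℕ → ℂ → ℂ := fun k => w (φ k + N) with hv
  have hUK : ball b (3 * r / 4) ⊆ closedBall b (3 * r / 4) := ball_subset_closedBall
  have hvU : ∀ k, DifferentiableOn ℂ (v k) (ball b (3 * r / 4)) ∧
      ∀ ζ ∈ ball b (3 * r / 4), v k ζ ≠ 0 ∧ v k ζ ≠ 1 := by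
    intro k
    obtain ⟨h1, h2⟩ := hN (φ k + N) (by omega)
    exact ⟨h1.mono (hUK.trans hKsub), fun ζ hζ => h2 ζ (hKsub (hUK hζ))⟩
  have hconv : TendstoUniformlyOn (fun k ζ => MON_S (v k ζ)) L atTop (ball b (3 * r / 4)) :=
    hL.mono hUK
  have hLU : ContinuousOn L (ball b (3 * r / 4)) := hLc.mono hUK
  have hTU : ∀ ζ ∈ ball b (3 * r / 4), L ζ ∈ MON_T := fun ζ hζ => hLT ζ (hUK hζ)
  have hUconn : IsPreconnected (ball b (3 * r / 4)) := (convex_ball b (3 * r / 4)).isPreconnected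
  have hglob : ∀ a : ℂ × ℝ, (a = (0, 1) ∨ a = (1 / 2, 1 / 2) ∨ a = (0, 0)) →
      ∀ x ∈ ball b (3 * r / 4), L x = a → ∀ ζ ∈ ball b (3 * r / 4), L ζ = a := by
    intro a ha x hx hxa
    exact MON_global isOpen_ball hUconn hLU
      (fun y hy hya => MON_open isOpen_ball hconv hTU hLU hvU ha hy hya) hx hxa
  have hhalf : ball b (r / 2) ⊆ ball b (3 * r / 4) := ball_subset_ball (by linarith)
  have hmono : StrictMono fun k => φ k + N := fun a c hac => Nat.add_lt_add_right (hφ hac) N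
  refine ⟨fun k => φ k + N, hmono, ?_⟩
  by_cases h0 : ∃ x ∈ ball b (3 * r / 4), L x = (0, 1)
  · obtain ⟨x, hx, hxa⟩ := h0
    have hall := hglob (0, 1) (Or.inl rfl) x hx hxa
    right; left
    intro ε hε
    have h1 := MON_conv0 hconv hTU (fun ζ hζ => by rw [hall ζ hζ]; norm_num)
    filter_upwards [Metric.tendstoUniformlyOn_iff.1 h1 ε hε] with k hk ζ hζ
    have h2 := hk ζ (hhalf hζ)
    rw [hall ζ (hhalf hζ)] at h2
    simp only [smul_zero, dist_zero_left] at h2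
    exact h2.le
  by_cases h1 : ∃ x ∈ ball b (3 * r / 4), L x = (1 / 2, 1 / 2)
  · obtain ⟨x, hx, hxa⟩ := h1
    have hall := hglob (1 / 2, 1 / 2) (Or.inr (Or.inl rfl)) x hx hxa
    right; right; left
    intro ε hε
    have h1 := MON_conv0 hconv hTU (fun ζ hζ => by rw [hall ζ hζ]; norm_num)
    filter_upwards [Metric.tendstoUniformlyOn_iff.1 h1 ε hε] with k hk ζ hζ
    have h2 := hk ζ (hhalf hζ)
    rw [hall ζ (hhalf hζ), dist_comm, dist_eq_norm] at h2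
    have h3 : (((1 / 2 : ℝ))⁻¹ : ℝ) • ((1 / 2 : ℂ)) = 1 := by norm_num
    simp only at h2
    rw [h3] at h2
    exact h2.le
  by_cases h2 : ∃ x ∈ ball b (3 * r / 4), L x = (0, 0)
  · obtain ⟨x, hx, hxa⟩ := h2
    have hall := hglob (0, 0) (Or.inr (Or.inr rfl)) x hx hxa
    right; right; right
    intro ε hε
    have h1 := MON_conv1 hconv hTU (fun ζ hζ => by rw [hall ζ hζ]; norm_num)
      (fun k ζ hζ => ((hvU k).2 ζ hζ).1)
    filter_upwards [Metric.tendstoUniformlyOn_iff.1 h1 ε hε] with k hk ζ hζ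
    have h2 := hk ζ (hhalf hζ)
    rw [hall ζ (hhalf hζ)] at h2
    simp only [map_zero, smul_zero, dist_zero_left] at h2
    exact h2.le
  left
  have hK2 : closedBall b (r / 2) ⊆ ball b (3 * r / 4) := closedBall_subset_ball (by linarith)
  have hdist : ∀ a : ℂ × ℝ, (¬ ∃ x ∈ ball b (3 * r / 4), L x = a) →
      ∃ η > 0, ∀ ζ ∈ closedBall b (r / 2), η ≤ dist (L ζ) a := by
    intro a ha
    have hc : ContinuousOn (fun ζ => dist (L ζ) a) (closedBall b (r / 2)) :=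
      continuous_dist.comp_continuousOn ((hLU.mono hK2).prodMk continuousOn_const)
    obtain ⟨z, hz, hmin⟩ := (isCompact_closedBall b (r / 2)).exists_isMinOn
      ⟨b, mem_closedBall_self (by linarith)⟩ hc
    refine ⟨dist (L z) a, dist_pos.2 fun h => ha ⟨z, hK2 hz, h⟩, fun ζ hζ => hmin hζ⟩
  obtain ⟨η₀, hη₀, hd₀⟩ := hdist _ h0
  obtain ⟨η₁, hη₁, hd₁⟩ := hdist _ h1
  obtain ⟨η₂, hη₂, hd₂⟩ := hdist _ h2
  set η := min η₀ (min η₁ η₂) with hη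
  have hηpos : 0 < η := lt_min hη₀ (lt_min hη₁ hη₂)
  have hS : ∀ x y : ℂ, dist (MON_S x) (MON_S y) ≤ 3 * dist x y := by
    intro x y
    have := MON_lip (w := fun z => z) (K := univ) (C := 1) convex_univ
      (fun z _ => differentiableAt_id) (fun z _ => by
        rw [deriv_id'']
        simp) x (mem_univ x) y (mem_univ y)
    simpa using this
  have hS0 : MON_S 0 = (0, 1) := by
    unfold MON_S
    simp
  have hS1 : MON_S 1 = (1 / 2, 1 / 2) := by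
    unfold MON_S
    norm_num
  refine ⟨η / 6, by positivity, ?_⟩
  filter_upwards [Metric.tendstoUniformlyOn_iff.1 hconv (η / 2) (by positivity)] with k hk ζ hζ
  have hζ' : ζ ∈ closedBall b (r / 2) := ball_subset_closedBall hζ
  have hk1 := hk ζ (hhalf hζ)
  have hg0 : η / 2 ≤ dist (MON_S (v k ζ)) (0, 1) := by
    have h3 := hd₀ ζ hζ'
    have h4 := dist_triangle (L ζ) (MON_S (v k ζ)) (0, 1)
    have h5 : η ≤ η₀ := min_le_left _ _
    linarith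
  have hg1 : η / 2 ≤ dist (MON_S (v k ζ)) (1 / 2, 1 / 2) := by
    have h3 := hd₁ ζ hζ'
    have h4 := dist_triangle (L ζ) (MON_S (v k ζ)) (1 / 2, 1 / 2)
    have h5 : η ≤ η₁ := (min_le_right _ _).trans (min_le_left _ _)
    linarith
  have hg2 : η / 2 ≤ dist (MON_S (v k ζ)) (0, 0) := by
    have h3 := hd₂ ζ hζ'
    have h4 := dist_triangle (L ζ) (MON_S (v k ζ)) (0, 0)
    have h5 : η ≤ η₂ := (min_le_right _ _).trans (min_le_right _ _)
    linarith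
  change η / 6 ≤ ‖v k ζ‖ ∧ η / 6 ≤ ‖v k ζ - 1‖ ∧ ‖v k ζ‖ ≤ (η / 6)⁻¹
  refine ⟨?_, ?_, ?_⟩
  · rw [← hS0] at hg0
    have := hS (v k ζ) 0
    rw [dist_zero_right] at this
    linarith
  · rw [← hS1] at hg1
    have := hS (v k ζ) 1
    rw [dist_eq_norm (v k ζ) 1] at this
    linarith
  · have hv0 : v k ζ ≠ 0 := ((hvU k).2 ζ (hhalf hζ)).1
    have hn : 0 < ‖v k ζ‖ := norm_pos_iff.2 hv0
    have h6 : dist (MON_S (v k ζ)) (0, 0) ≤ ‖v k ζ‖⁻¹ := by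
      rw [Prod.dist_eq, max_le_iff]
      have hpos : 0 < 1 + ‖v k ζ‖ ^ 2 := by positivity
      unfold MON_S
      constructor
      · rw [dist_zero_right, norm_smul, Real.norm_eq_abs, abs_of_pos (by positivity),
          inv_mul_le_iff₀ hpos]
        field_simp
        nlinarith
      · rw [dist_zero_right, Real.norm_eq_abs, abs_of_pos (by positivity)]
        apply inv_anti₀ hn
        nlinarith [sq_nonneg (‖v k ζ‖ - 1)]
    have h7 : η / 2 ≤ ‖v k ζ‖⁻¹ := hg2.trans h6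
    have h8 : η / 6 ≤ ‖v k ζ‖⁻¹ := by linarith
    have h9 := inv_anti₀ (by positivity) h8
    rwa [inv_inv] at h9

end Pool.Agent.EPO
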