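import Pool.Agent.EPO.Defs2

open scoped Manifold Topology LinearAlgebra.Projectivization
open Filter Metric Set

namespace Pool.Agent.EPO

private theorem RTB_prod {n : ℕ} (a : Fin n → ℂ) {t : Fin n → ℂ} (ht : Function.Injective t)
    (h : ∀ i, t i ^ n + ∑ j, a j * t i ^ (j : ℕ) = 0) (x : ℂ) :
    x ^ n + ∑ j, a j * x ^ (j : ℕ) = ∏ i, (x - t i) := by
  classical
  set q : Polynomial ℂ := ∑ j : Fin n, Polynomial.C (a j) * Polynomial.X ^ (j : ℕ) with hqdef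
  set p : Polynomial ℂ := Polynomial.X ^ n + q with hp
  have hlt : q.degree < n := Polynomial.degree_sum_fin_lt a
  have hpm : p.Monic := Polynomial.monic_X_pow_add hlt
  have hpd : p.degree = n := by
    rw [hp, Polynomial.degree_add_eq_left_of_degree_lt (by rwa [Polynomial.degree_X_pow]),
      Polynomial.degree_X_pow]
  set r : Polynomial ℂ := ∏ i, (Polynomial.X - Polynomial.C (t i)) with hr
  have hrm : r.Monic := Polynomial.monic_prod_of_monic _ _ fun i _ => Polynomial.monic_X_sub_C _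
  have hrd : r.degree = n := by
    rw [Polynomial.degree_eq_natDegree hrm.ne_zero, hr,
      Polynomial.natDegree_prod_of_monic _ _ fun i _ => Polynomial.monic_X_sub_C _]
    simp
  have hev : ∀ y, p.eval y = y ^ n + ∑ j, a j * y ^ (j : ℕ) := by
    intro y
    simp [hp, hqdef, Polynomial.eval_finsetSum]
  have heq : p = r := by
    refine Polynomial.eq_of_degree_le_of_eval_index_eq (s := Finset.univ) (v := t) ht.injOn ?_ ?_ ?_
      ?_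
    · rw [hpd]; simp
    · rw [hpd, hrd]
    · rw [hpm.leadingCoeff, hrm.leadingCoeff]
    · intro i _
      rw [hev, h i, hr, Polynomial.eval_prod]
      exact (Finset.prod_eq_zero (Finset.mem_univ i) (by simp)).symm
  rw [← hev, heq, hr, Polynomial.eval_prod]
  simp

private theorem RTB_sepε {n : ℕ} {τ : Fin n → ℂ} (hτ : Function.Injective τ) :
    ∃ ε > 0, ∀ i j, i ≠ j → 2 * ε ≤ ‖τ i - τ j‖ := by
  have h1 : ∀ i j : Fin n, ∀ᶠ ε in 𝓝[>] (0 : ℝ), i ≠ j → 2 * ε ≤ ‖τ i - τ j‖ := by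
    intro i j
    by_cases hij : i = j
    · exact Filter.Eventually.of_forall fun ε h => absurd hij h
    · have hpos : 0 < ‖τ i - τ j‖ := norm_pos_iff.2 (sub_ne_zero.2 (hτ.ne hij))
      have hlim : Tendsto (fun ε : ℝ => 2 * ε) (𝓝[>] 0) (𝓝 (2 * 0)) :=
        ((continuous_const.mul continuous_id).tendsto 0).mono_left nhdsWithin_le_nhds
      rw [mul_zero] at hlim
      exact (hlim.eventually (gt_mem_nhds hpos)).mono fun ε h _ => le_of_lt h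
  obtain ⟨ε, h2, h3⟩ := ((eventually_all.2 fun i => eventually_all.2 fun j => h1 i j).and
    self_mem_nhdsWithin).exists
  exact ⟨ε, h3, h2⟩

private theorem RTB_loc {n : ℕ} {c₀ : ℂ} {ρ : ℝ} (a : Fin n → ℂ → ℂ)
    (ha : ∀ i, DifferentiableOn ℂ (a i) (ball c₀ ρ))
    (hsep : ∀ ζ ∈ ball c₀ ρ, ∃ t : Fin n → ℂ, Function.Injective t ∧
      ∀ i, t i ^ n + ∑ j, a j ζ * t i ^ (j : ℕ) = 0)
    {ζ₀ : ℂ} (hζ₀ : ζ₀ ∈ ball c₀ ρ) {τ : Fin n → ℂ}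
    (hτ0 : ∀ i, τ i ^ n + ∑ j, a j ζ₀ * τ i ^ (j : ℕ) = 0) {ε : ℝ} (hε : 0 < ε)
    (hdisj : ∀ i j, i ≠ j → 2 * ε ≤ ‖τ i - τ j‖) :
    ∃ δ > 0, ball ζ₀ δ ⊆ ball c₀ ρ ∧ ∀ ζ ∈ ball ζ₀ δ,
      ∃ s : Fin n → ℂ, Function.Injective s ∧ (∀ i, s i ∈ ball (τ i) ε) ∧
        (∀ i, s i ^ n + ∑ j, a j ζ * s i ^ (j : ℕ) = 0) ∧
        ∀ x, x ^ n + ∑ j, a j ζ * x ^ (j : ℕ) = 0 → ∃ i, x = s i := by
  have hcont : ∀ i, ∀ᶠ ζ in 𝓝 ζ₀, ‖τ i ^ n + ∑ j, a j ζ * τ i ^ (j : ℕ)‖ < ε ^ n := by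
    intro i
    have hc : ContinuousAt (fun ζ => ‖τ i ^ n + ∑ j, a j ζ * τ i ^ (j : ℕ)‖) ζ₀ := by
      refine ContinuousAt.norm (continuousAt_const.add ?_)
      refine tendsto_finsetSum _ fun j _ => ?_
      exact ((ha j).differentiableAt (isOpen_ball.mem_nhds hζ₀)).continuousAt.mul
        continuousAt_const
    refine hc.eventually (gt_mem_nhds ?_)
    show ‖τ i ^ n + ∑ j, a j ζ₀ * τ i ^ (j : ℕ)‖ < ε ^ n
    rw [hτ0 i, norm_zero]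
    positivity
  obtain ⟨δ, hδ, hball⟩ := Metric.eventually_nhds_iff_ball.1
    ((eventually_all.2 hcont).and (isOpen_ball.mem_nhds hζ₀))
  refine ⟨δ, hδ, fun ζ hζ => (hball ζ hζ).2, fun ζ hζ => ?_⟩
  obtain ⟨t, ht, ht0⟩ := hsep ζ (hball ζ hζ).2
  have hex : ∀ i, ∃ j, ‖τ i - t j‖ < ε := by
    intro i
    by_contra hcon
    push Not at hcon
    have h1 := (hball ζ hζ).1 i
    rw [RTB_prod _ ht ht0, norm_prod] at h1
    have h2 : ε ^ n ≤ ∏ j, ‖τ i - t j‖ := by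
      calc ε ^ n = ∏ _j : Fin n, ε := by simp
        _ ≤ _ := Finset.prod_le_prod (fun _ _ => hε.le) fun j _ => hcon j
    exact absurd h1 (not_lt.2 h2)
  choose g hg using hex
  have hginj : Function.Injective g := by
    intro i i' hii
    by_contra hne
    have h1 := hdisj i i' hne
    have h2 := hg i
    have h3 := hg i'
    rw [hii] at h2
    have h4 : ‖τ i - τ i'‖ ≤ ‖τ i - t (g i')‖ + ‖τ i' - t (g i')‖ := by
      have : τ i - τ i' = (τ i - t (g i')) - (τ i' - t (g i')) := by ring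
      rw [this]; exact norm_sub_le _ _
    linarith
  have hgsurj : Function.Surjective g := Finite.injective_iff_surjective.1 hginj
  refine ⟨fun i => t (g i), ht.comp hginj, fun i => ?_, fun i => ht0 _, fun x hx => ?_⟩
  · rw [mem_ball, dist_eq_norm, norm_sub_rev]; exact hg i
  · rw [RTB_prod _ ht ht0] at hx
    obtain ⟨j, -, hj⟩ := Finset.prod_eq_zero_iff.1 hx
    obtain ⟨i, rfl⟩ := hgsurj j
    exact ⟨i, sub_eq_zero.1 hj⟩

/-- A continuous simple root is holomorphic. -/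
private theorem RTB_diff {n : ℕ} {c₀ : ℂ} {ρ : ℝ} (a : Fin n → ℂ → ℂ)
    (ha : ∀ i, DifferentiableOn ℂ (a i) (ball c₀ ρ))
    (hsep : ∀ ζ ∈ ball c₀ ρ, ∃ t : Fin n → ℂ, Function.Injective t ∧
      ∀ i, t i ^ n + ∑ j, a j ζ * t i ^ (j : ℕ) = 0) {u : ℂ → ℂ}
    (hu : ContinuousOn u (ball c₀ ρ))
    (hu0 : ∀ ζ ∈ ball c₀ ρ, u ζ ^ n + ∑ j, a j ζ * u ζ ^ (j : ℕ) = 0) :
    DifferentiableOn ℂ u (ball c₀ ρ) := by
  classical
  intro ζ₀ hζ₀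
  have hnhds : ball c₀ ρ ∈ 𝓝 ζ₀ := isOpen_ball.mem_nhds hζ₀
  obtain ⟨t, ht, ht0⟩ := hsep ζ₀ hζ₀
  have huc : ContinuousAt u ζ₀ := hu.continuousAt hnhds
  have h0 : ∏ i, (u ζ₀ - t i) = 0 := by rw [← RTB_prod _ ht ht0]; exact hu0 ζ₀ hζ₀
  obtain ⟨i, -, hi⟩ := Finset.prod_eq_zero_iff.1 h0
  have hi' : u ζ₀ = t i := sub_eq_zero.1 hi
  set G : ℂ → ℂ := fun ζ => ∏ j ∈ Finset.univ.erase i, (u ζ - t j) with hG
  have hGc : ContinuousAt G ζ₀ := by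
    refine tendsto_finsetProd _ fun j _ => ?_
    exact huc.sub continuousAt_const
  have hG0 : G ζ₀ ≠ 0 := by
    refine Finset.prod_ne_zero_iff.2 fun j hj => ?_
    rw [hi']
    exact sub_ne_zero.2 (ht.ne (Finset.ne_of_mem_erase hj).symm)
  have hkey : ∀ ζ ∈ ball c₀ ρ, (u ζ - u ζ₀) * G ζ = -∑ j, (a j ζ - a j ζ₀) * u ζ ^ (j : ℕ) := by
    intro ζ hζ
    have h1 := RTB_prod (fun j => a j ζ₀) ht ht0 (u ζ)
    rw [← Finset.mul_prod_erase Finset.univ _ (Finset.mem_univ i)] at h1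
    have h2 := hu0 ζ hζ
    rw [hi', hG]
    rw [← h1]
    simp only [sub_mul, Finset.sum_sub_distrib]
    linear_combination h2
  have hslope : Tendsto (slope u ζ₀) (𝓝[≠] ζ₀)
      (𝓝 (-(∑ j, deriv (a j) ζ₀ * u ζ₀ ^ (j : ℕ)) / G ζ₀)) := by
    have h1 : Tendsto (fun ζ => -(∑ j, slope (a j) ζ₀ ζ * u ζ ^ (j : ℕ)) / G ζ) (𝓝[≠] ζ₀)
        (𝓝 (-(∑ j, deriv (a j) ζ₀ * u ζ₀ ^ (j : ℕ)) / G ζ₀)) := by
      refine Tendsto.div (Tendsto.neg ?_) (hGc.tendsto.mono_left nhdsWithin_le_nhds) hG0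
      refine tendsto_finsetSum _ fun j _ => ?_
      refine Tendsto.mul ?_ ((huc.pow _).tendsto.mono_left nhdsWithin_le_nhds)
      exact hasDerivAt_iff_tendsto_slope.1 ((ha j).differentiableAt hnhds).hasDerivAt
    refine h1.congr' ?_
    have h2 : ∀ᶠ ζ in 𝓝[≠] ζ₀, G ζ ≠ 0 :=
      (hGc.eventually_ne hG0).filter_mono nhdsWithin_le_nhds
    filter_upwards [h2, mem_nhdsWithin_of_mem_nhds hnhds, self_mem_nhdsWithin] with ζ hζ1 hζ2 hζ3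
    have hne : ζ - ζ₀ ≠ 0 := sub_ne_zero.2 hζ3
    have h3 := hkey ζ hζ2
    simp only [slope_def_field]
    rw [div_eq_div_iff hζ1 hne, h3, neg_mul, Finset.sum_mul]
    congr 1
    refine Finset.sum_congr rfl fun j _ => ?_
    field_simp
  exact (hasDerivAt_iff_tendsto_slope.2 hslope).differentiableAt.differentiableWithinAt

private theorem RTB_cov {n : ℕ} (hn : 0 < n) {c₀ : ℂ} {ρ : ℝ} (a : Fin n → ℂ → ℂ)
    (ha : ∀ i, DifferentiableOn ℂ (a i) (ball c₀ ρ))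
    (hsep : ∀ ζ ∈ ball c₀ ρ, ∃ t : Fin n → ℂ, Function.Injective t ∧
      ∀ i, t i ^ n + ∑ j, a j ζ * t i ^ (j : ℕ) = 0) :
    IsCoveringMap (fun e : {e : ball c₀ ρ × ℂ //
      e.2 ^ n + ∑ j, a j (e.1 : ℂ) * e.2 ^ (j : ℕ) = 0} => e.1.1) := by
  classical
  intro ζ₀
  obtain ⟨τ, hτ, hτ0⟩ := hsep ζ₀ ζ₀.2
  obtain ⟨ε, hε, hdisj⟩ := RTB_sepε hτ
  obtain ⟨δ, hδ, hsub, hloc⟩ := RTB_loc a ha hsep ζ₀.2 hτ0 hε hdisj
  set p : {e : ball c₀ ρ × ℂ // e.2 ^ n + ∑ j, a j (e.1 : ℂ) * e.2 ^ (j : ℕ) = 0} → ball c₀ ρ :=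
    fun e => e.1.1 with hp
  have hpc : Continuous p := continuous_fst.comp continuous_subtype_val
  set V : Set (ball c₀ ρ) := Subtype.val ⁻¹' ball (ζ₀ : ℂ) δ with hVdef
  set U : Fin n → Set {e : ball c₀ ρ × ℂ // e.2 ^ n + ∑ j, a j (e.1 : ℂ) * e.2 ^ (j : ℕ) = 0} :=
    fun i => {e | p e ∈ V ∧ e.1.2 ∈ ball (τ i) ε} with hUdef
  have hV : IsOpen V := isOpen_ball.preimage continuous_subtype_val
  have hUo : ∀ i, IsOpen (U i) := fun i =>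
    (hV.preimage hpc).inter (isOpen_ball.preimage (continuous_snd.comp continuous_subtype_val))
  have : Nonempty (Fin n) := ⟨⟨0, hn⟩⟩
  have : Nonempty (ball c₀ ρ →
      {e : ball c₀ ρ × ℂ // e.2 ^ n + ∑ j, a j (e.1 : ℂ) * e.2 ^ (j : ℕ) = 0}) :=
    ⟨fun _ => ⟨(ζ₀, τ ⟨0, hn⟩), hτ0 _⟩⟩
  -- uniqueness of the root in each disc
  have huniq : ∀ i, ∀ ζ ∈ ball (ζ₀ : ℂ) δ, ∀ x y : ℂ, x ∈ ball (τ i) ε → y ∈ ball (τ i) ε →
      x ^ n + ∑ j, a j ζ * x ^ (j : ℕ) = 0 → y ^ n + ∑ j, a j ζ * y ^ (j : ℕ) = 0 → x = y := by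
    intro i ζ hζ x y hx hy hx0 hy0
    obtain ⟨s, hs, hsb, hs0, hall⟩ := hloc ζ hζ
    have hcl : ∀ z : ℂ, z ∈ ball (τ i) ε → z ^ n + ∑ j, a j ζ * z ^ (j : ℕ) = 0 → z = s i := by
      intro z hz hz0
      obtain ⟨k, hk⟩ := hall z hz0
      by_contra hne
      have hki : i ≠ k := by
        rintro rfl; exact hne hk
      have h1 := hdisj i k hki
      have h2 := hsb k
      rw [← hk, mem_ball, dist_eq_norm] at h2
      rw [mem_ball, dist_eq_norm] at hz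
      have h4 : ‖τ i - τ k‖ ≤ ‖z - τ k‖ + ‖z - τ i‖ := by
        have : τ i - τ k = (z - τ k) - (z - τ i) := by ring
        rw [this]; exact norm_sub_le _ _
      linarith
    rw [hcl x hx hx0, hcl y hy hy0]
  have hiff : ∀ i {W : Set (ball c₀ ρ)}, W ⊆ V → (IsOpen W ↔ IsOpen (p ⁻¹' W ∩ U i)) := by
    intro i W hWV
    refine ⟨fun h => (h.preimage hpc).inter (hUo i), fun h => ?_⟩
    rw [isOpen_iff_mem_nhds]
    intro ζ₁ hζ₁
    obtain ⟨s, hs, hsb, hs0, -⟩ := hloc ζ₁ (hWV hζ₁)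
    set e₁ : {e : ball c₀ ρ × ℂ // e.2 ^ n + ∑ j, a j (e.1 : ℂ) * e.2 ^ (j : ℕ) = 0} :=
      ⟨(ζ₁, s i), hs0 i⟩ with he₁
    have hmem : p ⁻¹' W ∩ U i ∈ 𝓝 e₁ := h.mem_nhds ⟨hζ₁, hWV hζ₁, hsb i⟩
    rw [nhds_subtype, mem_comap] at hmem
    obtain ⟨T, hT, hTsub⟩ := hmem
    rw [nhds_prod_eq, Filter.mem_prod_iff] at hT
    obtain ⟨A, hA, B, hB, hAB⟩ := hT
    obtain ⟨ε₁, hε₁, hB1⟩ := Metric.mem_nhds_iff.1 hB
    obtain ⟨ε₂, hε₂, hs2⟩ := RTB_sepε hs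
    obtain ⟨δ₁, hδ₁, -, hloc₁⟩ := RTB_loc a ha hsep ζ₁.2 hs0 (lt_min hε₁ hε₂)
      (fun k l hkl => le_trans (mul_le_mul_of_nonneg_left (min_le_right _ _) zero_le_two)
        (hs2 k l hkl))
    have hb1 : (Subtype.val ⁻¹' ball (ζ₁ : ℂ) δ₁ : Set (ball c₀ ρ)) ∈ 𝓝 ζ₁ :=
      (isOpen_ball.preimage continuous_subtype_val).mem_nhds (mem_ball_self hδ₁)
    filter_upwards [hA, hb1] with ζ hζA hζb
    obtain ⟨s', -, hsb', hs0', -⟩ := hloc₁ ζ hζb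
    have h3 : s' i ∈ B := hB1 (ball_subset_ball (min_le_left _ _) (hsb' i))
    have h4 : (⟨(ζ, s' i), hs0' i⟩ : {e : ball c₀ ρ × ℂ //
        e.2 ^ n + ∑ j, a j (e.1 : ℂ) * e.2 ^ (j : ℕ) = 0}) ∈ p ⁻¹' W ∩ U i :=
      hTsub (hAB ⟨hζA, h3⟩)
    exact h4.1
  have key : IsEvenlyCovered p ζ₀ (Fin n) := by
    refine IsEvenlyCovered.of_trivialization (t := hV.trivializationDiscrete (f := p) U V hiff
      ?_ ?_ ?_ ?_) ?_
    · intro i e he e' he' hee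
      have h5 := huniq i e.1.1 he.1 e.1.2 e'.1.2 he.2 he'.2 e.2 (by
        have := e'.2
        rw [show e'.1.1 = e.1.1 from hee.symm] at this
        exact this)
      exact Subtype.ext (Prod.ext hee h5)
    · intro i ζ hζ
      obtain ⟨s, hs, hsb, hs0, -⟩ := hloc ζ hζ
      exact ⟨⟨(ζ, s i), hs0 i⟩, ⟨hζ, hsb i⟩, rfl⟩
    · intro i j hij
      refine Set.disjoint_left.2 fun e he he' => ?_
      have h1 := hdisj i j hij
      have h2 := he.2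
      have h3 := he'.2
      rw [mem_ball, dist_eq_norm] at h2 h3
      have h4 : ‖τ i - τ j‖ ≤ ‖e.1.2 - τ j‖ + ‖e.1.2 - τ i‖ := by
        have : τ i - τ j = (e.1.2 - τ j) - (e.1.2 - τ i) := by ring
        rw [this]; exact norm_sub_le _ _
      linarith
    · intro e he
      obtain ⟨s, hs, hsb, hs0, hall⟩ := hloc e.1.1 he
      obtain ⟨i, hi⟩ := hall e.1.2 e.2
      exact Set.mem_iUnion.2 ⟨i, he, by rw [hi]; exact hsb i⟩
    · exact mem_ball_self hδ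
  exact key.to_isEvenlyCovered_preimage

/-- Monic polynomials with holomorphic coefficients on a disc and distinct roots have holomorphic
roots on the disc. -/
theorem RTB {n : ℕ} {c₀ : ℂ} {ρ : ℝ} (a : Fin n → ℂ → ℂ)
    (ha : ∀ i, DifferentiableOn ℂ (a i) (ball c₀ ρ))
    (hsep : ∀ ζ ∈ ball c₀ ρ, ∃ t : Fin n → ℂ, Function.Injective t ∧
      ∀ i, t i ^ n + ∑ j, a j ζ * t i ^ (j : ℕ) = 0) :
    ∃ t : Fin n → ℂ → ℂ, (∀ i, DifferentiableOn ℂ (t i) (ball c₀ ρ)) ∧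
      ∀ ζ ∈ ball c₀ ρ, Function.Injective (fun i => t i ζ) ∧
        ∀ i, t i ζ ^ n + ∑ j, a j ζ * t i ζ ^ (j : ℕ) = 0 := by
  classical
  rcases Nat.eq_zero_or_pos n with rfl | hn
  · refine ⟨fun i => i.elim0, fun i => i.elim0, fun ζ hζ => ⟨fun i => i.elim0, fun i => i.elim0⟩⟩
  by_cases hρ : 0 < ρ
  swap
  · refine ⟨fun _ _ => 0, fun i => differentiableOn_const _, fun ζ hζ => ?_⟩
    rw [ball_eq_empty.2 (not_lt.1 hρ)] at hζ
    exact absurd hζ (Set.notMem_empty _)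
  have cov := RTB_cov hn a ha hsep
  set E := {e : ball c₀ ρ × ℂ // e.2 ^ n + ∑ j, a j (e.1 : ℂ) * e.2 ^ (j : ℕ) = 0} with hE
  have hc₀ : c₀ ∈ ball c₀ ρ := mem_ball_self hρ
  have : ContractibleSpace (ball c₀ ρ) := (convex_ball c₀ ρ).contractibleSpace ⟨c₀, hc₀⟩
  have : LocallyPathConnectedSpace (ball c₀ ρ) := isOpen_ball.locallyPathConnectedSpace
  obtain ⟨τ, hτ, hτ0⟩ := hsep c₀ hc₀
  have hlift : ∀ i, ∃ F : C(ball c₀ ρ, E), F ⟨c₀, hc₀⟩ = ⟨(⟨c₀, hc₀⟩, τ i), hτ0 i⟩ ∧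
      ∀ ζ, (F ζ).1.1 = ζ := by
    intro i
    obtain ⟨F, ⟨hF1, hF2⟩, -⟩ := cov.existsUnique_continuousMap_lifts (ContinuousMap.id _)
      ⟨c₀, hc₀⟩ ⟨(⟨c₀, hc₀⟩, τ i), hτ0 i⟩ rfl
    exact ⟨F, hF1, fun ζ => congrFun hF2 ζ⟩
  choose F hF1 hF2 using hlift
  set t : Fin n → ℂ → ℂ := fun i ζ => if h : ζ ∈ ball c₀ ρ then (F i ⟨ζ, h⟩).1.2 else 0 with ht
  have htv : ∀ i ζ (h : ζ ∈ ball c₀ ρ), t i ζ = (F i ⟨ζ, h⟩).1.2 := fun i ζ h => by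
    simp only [ht, dif_pos h]
  have ht0 : ∀ i, ∀ ζ ∈ ball c₀ ρ, t i ζ ^ n + ∑ j, a j ζ * t i ζ ^ (j : ℕ) = 0 := by
    intro i ζ h
    have h1 := (F i ⟨ζ, h⟩).2
    rw [hF2 i ⟨ζ, h⟩] at h1
    rw [htv i ζ h]
    exact h1
  refine ⟨t, fun i => ?_, fun ζ hζ => ⟨?_, fun i => ht0 i ζ hζ⟩⟩
  · refine RTB_diff a ha hsep ?_ (ht0 i)
    rw [continuousOn_iff_continuous_domRestrict]
    have h1 : Continuous fun ζ : ball c₀ ρ => (F i ζ).1.2 :=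
      continuous_snd.comp (continuous_subtype_val.comp (F i).continuous)
    refine h1.congr fun ζ => ?_
    simp only [Set.domRestrict_apply]
    rw [htv i ζ ζ.2]
  · intro i j hij
    simp only at hij
    rw [htv i ζ hζ, htv j ζ hζ] at hij
    have h1 : F i ⟨ζ, hζ⟩ = F j ⟨ζ, hζ⟩ :=
      Subtype.ext (Prod.ext ((hF2 i _).trans (hF2 j _).symm) hij)
    have h2 : (F i : ball c₀ ρ → E) = F j :=
      cov.eq_of_comp_eq (F i).continuous (F j).continuous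
        (funext fun z => (hF2 i z).trans (hF2 j z).symm) ⟨ζ, hζ⟩ h1
    have h3 := congrFun h2 ⟨c₀, hc₀⟩
    rw [hF1, hF1] at h3
    have h4 : τ i = τ j := congrArg (fun e : E => e.1.2) h3
    exact hτ h4

end Pool.Agent.EPO
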