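import Pool.Agent.EPO.RTA
import Pool.Agent.EPO.RTB

open scoped Manifold Topology LinearAlgebra.Projectivization
open Filter Metric Set

namespace Pool.Agent.EPO

private theorem RTS_exists_form_ne {n : ℕ} {c : Fin (n + 1) → ℂ} (hc : c ≠ 0) :
    ∃ α, form c α ≠ 0 := by
  by_contra hcon
  push Not at hcon
  have hP : (∑ i : Fin (n + 1), Polynomial.monomial (i : ℕ) (c i) : Polynomial ℂ) = 0 := by
    refine Polynomial.funext fun t => ?_
    rw [Polynomial.eval_finsetSum, Polynomial.eval_zero, ← hcon (t, 1)]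
    unfold form
    refine Finset.sum_congr rfl fun i _ => ?_
    simp only [Polynomial.eval_monomial, one_pow, mul_one]
  apply hc
  funext m
  have h1 := congrArg (fun P : Polynomial ℂ => P.coeff (m : ℕ)) hP
  simp only [Polynomial.finsetSum_coeff, Polynomial.coeff_monomial, Polynomial.coeff_zero] at h1
  rw [Finset.sum_eq_single m] at h1
  · simpa using h1
  · intro b _ hb
    rw [if_neg]
    intro h
    exact hb (Fin.ext h)
  · intro h
    exact absurd (Finset.mem_univ m) h

private theorem RTS_exists_beta {α : ℂ × ℂ} (hα : α ≠ 0) : ∃ β, wd β α = 1 := by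
  by_cases h2 : α.2 = 0
  · have h1 : α.1 ≠ 0 := fun h => hα (Prod.ext h h2)
    refine ⟨(0, -α.1⁻¹), ?_⟩
    simp only [wd]
    field_simp
    ring
  · refine ⟨(α.2⁻¹, 0), ?_⟩
    simp only [wd]
    field_simp
    ring

/-- The polynomial `t ↦ form c (β + t α)`. -/
private noncomputable def RTS_pol {n : ℕ} (α β : ℂ × ℂ) (c : Fin (n + 1) → ℂ) : Polynomial ℂ :=
  ∑ i : Fin (n + 1), Polynomial.C (c i) *
    ((Polynomial.C β.1 + Polynomial.C α.1 * Polynomial.X) ^ (i : ℕ) *
      (Polynomial.C β.2 + Polynomial.C α.2 * Polynomial.X) ^ (n - (i : ℕ)))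

private theorem RTS_eval {n : ℕ} (α β : ℂ × ℂ) (c : Fin (n + 1) → ℂ) (t : ℂ) :
    (RTS_pol α β c).eval t = form c (β + t • α) := by
  unfold RTS_pol form
  rw [Polynomial.eval_finsetSum]
  refine Finset.sum_congr rfl fun i _ => ?_
  simp only [Polynomial.eval_mul, Polynomial.eval_C, Polynomial.eval_pow, Polynomial.eval_add,
    Polynomial.eval_X, Prod.fst_add, Prod.snd_add, Prod.smul_fst, Prod.smul_snd, smul_eq_mul]
  rw [mul_comm α.1 t, mul_comm α.2 t]

private theorem RTS_lin (a b : ℂ) :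
    (Polynomial.C a + Polynomial.C b * Polynomial.X : Polynomial ℂ).natDegree ≤ 1 := by
  rw [add_comm]
  exact Polynomial.natDegree_linear_le

private theorem RTS_term_deg {n : ℕ} (α β : ℂ × ℂ) (i : Fin (n + 1)) :
    ((Polynomial.C β.1 + Polynomial.C α.1 * Polynomial.X) ^ (i : ℕ) *
      (Polynomial.C β.2 + Polynomial.C α.2 * Polynomial.X) ^ (n - (i : ℕ)) :
        Polynomial ℂ).natDegree ≤ n := by
  have h1 := Polynomial.natDegree_pow_le_of_le (i : ℕ) (RTS_lin β.1 α.1)
  have h2 := Polynomial.natDegree_pow_le_of_le (n - (i : ℕ)) (RTS_lin β.2 α.2)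
  have h3 := Polynomial.natDegree_mul_le_of_le h1 h2
  have h4 : (i : ℕ) ≤ n := Nat.lt_succ_iff.1 i.2
  omega

private theorem RTS_deg {n : ℕ} (α β : ℂ × ℂ) (c : Fin (n + 1) → ℂ) :
    (RTS_pol α β c).natDegree ≤ n := by
  unfold RTS_pol
  refine Polynomial.natDegree_sum_le_of_forall_le _ _ fun i _ => ?_
  exact (Polynomial.natDegree_C_mul_le _ _).trans (RTS_term_deg α β i)

private theorem RTS_term_coeff {n : ℕ} (α β : ℂ × ℂ) (i : Fin (n + 1)) :
    ((Polynomial.C β.1 + Polynomial.C α.1 * Polynomial.X) ^ (i : ℕ) *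
      (Polynomial.C β.2 + Polynomial.C α.2 * Polynomial.X) ^ (n - (i : ℕ)) :
        Polynomial ℂ).coeff n = α.1 ^ (i : ℕ) * α.2 ^ (n - (i : ℕ)) := by
  have h1 := Polynomial.natDegree_pow_le_of_le (i : ℕ) (RTS_lin β.1 α.1)
  have h2 := Polynomial.natDegree_pow_le_of_le (n - (i : ℕ)) (RTS_lin β.2 α.2)
  rw [mul_one] at h1 h2
  have h4 : (i : ℕ) ≤ n := Nat.lt_succ_iff.1 i.2
  have h3 := Polynomial.coeff_mul_add_eq_of_natDegree_le h1 h2
  rw [Nat.add_sub_cancel' h4] at h3
  rw [h3]
  have h5 := Polynomial.coeff_pow_of_natDegree_le (m := (i : ℕ)) (RTS_lin β.1 α.1)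
  have h6 := Polynomial.coeff_pow_of_natDegree_le (m := (n - (i : ℕ))) (RTS_lin β.2 α.2)
  rw [mul_one] at h5 h6
  rw [h5, h6]
  simp

private theorem RTS_coeff {n : ℕ} (α β : ℂ × ℂ) (c : Fin (n + 1) → ℂ) :
    (RTS_pol α β c).coeff n = form c α := by
  unfold RTS_pol form
  rw [Polynomial.finsetSum_coeff]
  refine Finset.sum_congr rfl fun i _ => ?_
  rw [Polynomial.coeff_C_mul, RTS_term_coeff]

private theorem RTS_coeff_diff {n : ℕ} (α β : ℂ × ℂ) {f : ℂ → Fin (n + 1) → ℂ}
    (hf : Differentiable ℂ f) (m : ℕ) :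
    Differentiable ℂ (fun ζ => (RTS_pol α β (f ζ)).coeff m) := by
  unfold RTS_pol
  simp only [Polynomial.finsetSum_coeff, Polynomial.coeff_C_mul]
  refine Differentiable.fun_sum fun i _ => ?_
  exact (differentiable_pi.1 hf i).mul_const _

private theorem RTS_eval_sum {n : ℕ} (α β : ℂ × ℂ) (c : Fin (n + 1) → ℂ) (hα : form c α ≠ 0)
    (t : ℂ) : t ^ n + ∑ j : Fin n, (RTS_pol α β c).coeff (j : ℕ) / form c α * t ^ (j : ℕ) =
      form c (β + t • α) / form c α := by
  rw [← RTS_eval, Polynomial.eval_eq_sum_range' (Nat.lt_succ_iff.2 (RTS_deg α β c)) t,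
    Finset.sum_range_succ, RTS_coeff, ← Fin.sum_univ_eq_sum_range
      (fun i => (RTS_pol α β c).coeff i * t ^ i) n, add_div, Finset.sum_div]
  rw [add_comm]
  congr 1
  · refine Finset.sum_congr rfl fun j _ => ?_
    ring
  · field_simp

/-- Holomorphic root systems on all small discs which avoid `Br`. -/
theorem RTS {n : ℕ} (hn : 3 ≤ n) {f : ℂ → Fin (n + 1) → ℂ} (hf : Differentiable ℂ f)
    (h0 : ∀ ζ, f ζ ≠ 0) (b : ℂ) :
    ∃ δ > 0, ∀ (c₀ : ℂ) (ρ : ℝ), ball c₀ ρ ⊆ ball b δ → (∀ ζ ∈ ball c₀ ρ, ζ ∉ Br f) →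
      ∃ B, RootSys f (ball c₀ ρ) B := by
  have hn0 : 0 < n := by omega
  obtain ⟨α, hα⟩ := RTS_exists_form_ne (h0 b)
  have hα0 : α ≠ 0 := by
    intro h
    apply hα
    rw [h]
    have h1 := form_smul_right 0 (f b) (0 : ℂ × ℂ)
    rw [zero_smul, zero_pow (by omega), zero_mul] at h1
    exact h1
  obtain ⟨β, hβ⟩ := RTS_exists_beta hα0
  have hfα : Differentiable ℂ (fun ζ => form (f ζ) α) := by
    have := RTS_coeff_diff α β hf n
    simp only [RTS_coeff] at this
    exact this
  have hev : ∀ᶠ ζ in 𝓝 b, form (f ζ) α ≠ 0 :=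
    hfα.continuous.continuousAt.eventually_ne hα
  obtain ⟨δ, hδ, hball⟩ := Metric.eventually_nhds_iff_ball.1 hev
  refine ⟨δ, hδ, fun c₀ ρ hsub hBr => ?_⟩
  have hwdt : ∀ t t' : ℂ, wd (β + t • α) (β + t' • α) = t' - t := by
    intro t t'
    have h1 : wd (β + t • α) (β + t' • α) = (t' - t) * wd β α := by
      simp only [wd, Prod.fst_add, Prod.snd_add, Prod.smul_fst, Prod.smul_snd, smul_eq_mul]
      ring
    rw [h1, hβ, mul_one]
  have hwdα : ∀ t : ℂ, wd α (β + t • α) = -1 := by
    intro t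
    have h1 : wd α (β + t • α) = - wd β α := by
      simp only [wd, Prod.fst_add, Prod.snd_add, Prod.smul_fst, Prod.smul_snd, smul_eq_mul]
      ring
    rw [h1, hβ]
  obtain ⟨t, ht, ht2⟩ := RTB (fun (j : Fin n) ζ => (RTS_pol α β (f ζ)).coeff (j : ℕ) /
      form (f ζ) α) (c₀ := c₀) (ρ := ρ)
    (fun j => by
      intro ζ hζ
      exact (((RTS_coeff_diff α β hf j) ζ).div (hfα ζ) (hball ζ (hsub hζ))).differentiableWithinAt)
    (fun ζ hζ => by
      have hαζ := hball ζ (hsub hζ)
      have hB := hBr ζ hζ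
      rw [Br, mem_ofPred_eq, not_not] at hB
      obtain ⟨B, hB⟩ := hB
      have hBα : ∀ i, wd (B i) α ≠ 0 := by
        intro i h
        apply hαζ
        rw [hB.1]
        refine Finset.prod_eq_zero (Finset.mem_univ i) ?_
        have h1 : wd α (B i) = - wd (B i) α := by
          simp only [wd]
          ring
        rw [h1, h, neg_zero]
      have hdec : ∀ i, B i = wd (B i) α • (β + (-(wd (B i) β / wd (B i) α)) • α) := by
        intro i
        have h1 := wd_decomp β α (B i)
        rw [hβ, one_smul] at h1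
        rw [smul_add, smul_smul]
        have h2 : wd (B i) α * (-(wd (B i) β / wd (B i) α)) = - wd (B i) β := by
          have := hBα i
          field_simp
        rw [h2, neg_smul, ← sub_eq_add_neg]
        exact h1
      refine ⟨fun i => -(wd (B i) β / wd (B i) α), ?_, ?_⟩
      · intro i j hij
        by_contra hne
        apply hB.2 i j hne
        have h1 : wd (B i) (B j) = wd (B i) α * wd (B j) α *
            wd (β + (-(wd (B i) β / wd (B i) α)) • α)
              (β + (-(wd (B j) β / wd (B j) α)) • α) := by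
          conv_lhs => rw [hdec i, hdec j]
          simp only [wd, Prod.smul_fst, Prod.smul_snd, smul_eq_mul]
          ring
        have hij' : -(wd (B i) β / wd (B i) α) = -(wd (B j) β / wd (B j) α) := hij
        rw [h1, hwdt, hij', sub_self, mul_zero]
      · intro i
        rw [RTS_eval_sum α β (f ζ) hαζ]
        have h1 : form (f ζ) (B i) = 0 := by
          rw [hB.1]
          refine Finset.prod_eq_zero (Finset.mem_univ i) ?_
          simp only [wd]
          ring
        rw [hdec i, form_smul_right] at h1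
        rcases mul_eq_zero.1 h1 with h2 | h2
        · exact absurd (pow_eq_zero_iff (by omega) |>.1 h2) (hBα i)
        · rw [h2, zero_div])
  -- the root system
  set i0 : Fin n := ⟨0, hn0⟩ with hi0
  set u : ℂ → ℂ := fun ζ => (-1) ^ n * form (f ζ) α with hu
  have hud : Differentiable ℂ u := hfα.const_mul _
  refine ⟨fun i ζ => (Function.update (fun _ => (1 : ℂ)) i0 (u ζ)) i • (β + t i ζ • α),
    ?_, ?_⟩
  · intro i
    have h1 : DifferentiableOn ℂ (fun ζ => β + t i ζ • α) (ball c₀ ρ) :=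
      ((ht i).smul_const α).const_add β
    have h2 : Differentiable ℂ (fun ζ => (Function.update (fun _ => (1 : ℂ)) i0 (u ζ)) i) := by
      by_cases hi : i = i0
      · subst hi
        simp only [Function.update_self]
        exact hud
      · simp only [Function.update_of_ne hi]
        exact differentiable_const _
    exact h2.differentiableOn.smul h1
  · intro ζ hζ
    have hαζ := hball ζ (hsub hζ)
    obtain ⟨hinj, hroot⟩ := ht2 ζ hζ
    have hne : ∀ i j, i ≠ j → wd (β + t i ζ • α) (β + t j ζ • α) ≠ 0 := by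
      intro i j hij
      rw [hwdt]
      exact sub_ne_zero.2 (fun h => hij (hinj h).symm)
    have hz : ∀ i, form (f ζ) (β + t i ζ • α) = 0 := by
      intro i
      have h1 := hroot i
      rw [RTS_eval_sum α β (f ζ) hαζ] at h1
      rcases div_eq_zero_iff.1 h1 with h2 | h2
      · exact h2
      · exact absurd h2 hαζ
    have hB0 : ∀ i, (β + t i ζ • α) ≠ 0 := by
      intro i h
      have h1 := hwdα (t i ζ)
      rw [h] at h1
      simp [wd] at h1
    obtain ⟨s, hs⟩ := roots_of_zeros hn0 (h0 ζ) hz hne hB0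
    have hprod : ∀ X, form (f ζ) X = (∏ i, s i) * ∏ i, wd X (β + t i ζ • α) := by
      intro X
      rw [hs.1 X, ← Finset.prod_mul_distrib]
      refine Finset.prod_congr rfl fun i _ => ?_
      simp only [wd, Prod.smul_fst, Prod.smul_snd, smul_eq_mul]
      ring
    have hsu : ∏ i, s i = u ζ := by
      have h1 := hprod α
      simp only [hwdα, Finset.prod_const, Finset.card_univ, Fintype.card_fin] at h1
      simp only [hu]
      rw [h1]
      have h2 : ((-1 : ℂ) ^ n) * (-1) ^ n = 1 := by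
        rw [← mul_pow]; simp
      calc ∏ i, s i = (∏ i, s i) * 1 := (mul_one _).symm
        _ = (∏ i, s i) * (((-1 : ℂ) ^ n) * (-1) ^ n) := by rw [h2]
        _ = (-1) ^ n * ((∏ i, s i) * (-1) ^ n) := by ring
    have hu0 : u ζ ≠ 0 := mul_ne_zero (pow_ne_zero _ (by norm_num)) hαζ
    have hup : ∀ i, (Function.update (fun _ : Fin n => (1 : ℂ)) i0 (u ζ)) i ≠ 0 := by
      intro i
      by_cases hi : i = i0
      · subst hi
        simpa using hu0
      · rw [Function.update_of_ne hi]
        exact one_ne_zero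
    constructor
    · intro X
      rw [hprod X, hsu]
      have h1 : ∀ i, wd X ((Function.update (fun _ : Fin n => (1 : ℂ)) i0 (u ζ)) i •
          (β + t i ζ • α)) = (Function.update (fun _ : Fin n => (1 : ℂ)) i0 (u ζ)) i *
            wd X (β + t i ζ • α) := by
        intro i
        simp only [wd, Prod.smul_fst, Prod.smul_snd, smul_eq_mul]
        ring
      simp only [h1]
      rw [Finset.prod_mul_distrib, Finset.prod_update_of_mem (Finset.mem_univ i0)]
      simp
    · intro i j hij
      have h1 : wd ((Function.update (fun _ : Fin n => (1 : ℂ)) i0 (u ζ)) i •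
          (β + t i ζ • α)) ((Function.update (fun _ : Fin n => (1 : ℂ)) i0 (u ζ)) j •
          (β + t j ζ • α)) = (Function.update (fun _ : Fin n => (1 : ℂ)) i0 (u ζ)) i *
            (Function.update (fun _ : Fin n => (1 : ℂ)) i0 (u ζ)) j *
            wd (β + t i ζ • α) (β + t j ζ • α) := by
        simp only [wd, Prod.smul_fst, Prod.smul_snd, smul_eq_mul]
        ring
      show wd _ _ ≠ 0
      rw [h1]
      exact mul_ne_zero (mul_ne_zero (hup i) (hup j)) (hne i j hij)

end Pool.Agent.EPO
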