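import Pool.Agent.EPO.CRI

open scoped Manifold Topology LinearAlgebra.Projectivization
open Filter Metric Set

namespace Pool.Agent.EPO

private theorem TLB_triple {n : ℕ} (hn : 3 ≤ n) (j : Fin n) :
    ∃ i k : Fin n, i ≠ j ∧ i ≠ k ∧ j ≠ k := by
  have h1 : 1 < ((Finset.univ : Finset (Fin n)).erase j).card := by
    rw [Finset.card_erase_of_mem (Finset.mem_univ j), Finset.card_univ, Fintype.card_fin]
    omega
  obtain ⟨i, hi, k, hk, hik⟩ := Finset.one_lt_card.1 h1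
  exact ⟨i, k, (Finset.mem_erase.1 hi).1, hik, (Finset.mem_erase.1 hk).1.symm⟩

private theorem TLB_main {n : ℕ} (hn : 3 ≤ n) {c : Fin (n + 1) → ℂ} {B : Fin n → ℂ × ℂ}
    (hB : Roots c B) {M : Fin (n + 1) → ℂ} (hM : IsM c M) {σ : ℝ} (hσ : 0 < σ)
    (hs : ∀ i j, i ≠ j → σ * ‖B i‖ * ‖B j‖ ≤ ‖wd (B i) (B j)‖) :
    ∃ i j k : Fin n, i ≠ j ∧ i ≠ k ∧ j ≠ k ∧ 0 < ‖M‖ ∧ 0 < ‖c‖ ∧
      (σ / 2) ^ (n + 1) * (‖M‖ * (‖c‖ / 2 ^ n)) ≤ ‖cr B M i j k‖ := by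
  obtain ⟨X, hX, rfl⟩ := hM
  have hprod : ∏ l, wd X (B l) = 1 := by rw [← hB.1 X, hX]
  have hd : ∀ l, 0 < ‖wd X (B l)‖ := by
    intro l
    rw [norm_pos_iff]
    intro h0
    rw [Finset.prod_eq_zero (Finset.mem_univ l) h0] at hprod
    exact zero_ne_one hprod
  have hb : ∀ l, 0 < ‖B l‖ := fun l => norm_pos_iff.2 (roots_ne_zero (by omega) hB l)
  have hX0 : X ≠ 0 := by
    rintro rfl
    have h3 := hd ⟨0, by omega⟩
    simp [wd] at h3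
  have ha : 0 < ‖X‖ := norm_pos_iff.2 hX0
  have hc : 0 < ‖c‖ := by
    rw [norm_pos_iff]
    rintro rfl
    simp [form] at hX
  have hM0 : 0 < ‖ver n X‖ := by rw [norm_ver]; exact pow_pos ha n
  set δ : Fin n → ℝ := fun l => ‖wd X (B l)‖ / (‖X‖ * ‖B l‖) with hδ
  have hδpos : ∀ l, 0 < δ l := fun l => div_pos (hd l) (mul_pos ha (hb l))
  have hdδ : ∀ l, ‖wd X (B l)‖ = ‖X‖ * ‖B l‖ * δ l := fun l => by
    have h1 := (mul_pos ha (hb l)).ne'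
    rw [hδ]
    exact (mul_div_cancel₀ _ h1).symm
  have hsum : ∀ i j, i ≠ j → σ ≤ δ i + δ j := by
    intro i j hij
    have h1 : ‖wd (B i) (B j)‖ * ‖X‖ ≤ ‖wd X (B j)‖ * ‖B i‖ + ‖wd X (B i)‖ * ‖B j‖ := by
      rw [← norm_smul, wd_decomp, ← norm_smul, ← norm_smul]
      exact norm_sub_le _ _
    have h2 := mul_le_mul_of_nonneg_right (hs i j hij) ha.le
    have h3 := h2.trans h1
    rw [hdδ i, hdδ j] at h3
    have h4 : 0 < ‖X‖ * ‖B i‖ * ‖B j‖ := mul_pos (mul_pos ha (hb i)) (hb j)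
    have h5 : σ * (‖X‖ * ‖B i‖ * ‖B j‖) ≤ (δ i + δ j) * (‖X‖ * ‖B i‖ * ‖B j‖) := by
      nlinarith [h3]
    exact le_of_mul_le_mul_right h5 h4
  have hne : (Finset.univ : Finset (Fin n)).Nonempty := ⟨⟨0, by omega⟩, Finset.mem_univ _⟩
  obtain ⟨j, -, hj⟩ := Finset.exists_min_image Finset.univ δ hne
  have hge : ∀ i, i ≠ j → σ / 2 ≤ δ i := by
    intro i hij
    have h1 := hsum i j hij
    have h2 := hj i (Finset.mem_univ i)
    linarith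
  obtain ⟨i, k, hij, hik, hjk⟩ := TLB_triple hn j
  refine ⟨i, j, k, hij, hik, hjk, hM0, hc, ?_⟩
  have hallprod : (‖X‖ ^ n * ∏ l, ‖B l‖) * ∏ l, δ l = 1 := by
    have h1 : ∏ l, ‖wd X (B l)‖ = 1 := by rw [← norm_prod, hprod, norm_one]
    have h2 : ∏ l, ‖wd X (B l)‖ = ∏ l, (‖X‖ * ‖B l‖ * δ l) := Finset.prod_congr rfl fun l _ => hdδ l
    rw [h2, Finset.prod_mul_distrib, Finset.prod_mul_distrib, Finset.prod_const, Finset.card_univ,
      Fintype.card_fin] at h1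
    exact h1
  have herase : (σ / 2) ^ (n - 1) ≤ ∏ l ∈ Finset.univ.erase j, δ l := by
    have hcard : (Finset.univ.erase j).card = n - 1 := by
      rw [Finset.card_erase_of_mem (Finset.mem_univ j), Finset.card_univ, Fintype.card_fin]
    rw [← hcard, ← Finset.prod_const]
    exact Finset.prod_le_prod (fun _ _ => by positivity)
      fun l hl => hge l (Finset.mem_erase.1 hl).1
  have hPpos : 0 < ‖X‖ ^ n * ∏ l, ‖B l‖ :=
    mul_pos (pow_pos ha n) (Finset.prod_pos fun l _ => hb l)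
  have hsmall : (‖X‖ ^ n * ∏ l, ‖B l‖) * ((σ / 2) ^ (n - 1) * δ j) ≤ 1 := by
    rw [← hallprod, ← Finset.mul_prod_erase Finset.univ δ (Finset.mem_univ j)]
    refine mul_le_mul_of_nonneg_left ?_ hPpos.le
    rw [mul_comm (δ j)]
    exact mul_le_mul_of_nonneg_right herase (hδpos j).le
  -- the value of the cross ratio
  have hW : ‖cr B (ver n X) i j k‖ * (δ j * ‖wd (B k) (B i)‖ * ‖B j‖) =
      δ i * ‖wd (B k) (B j)‖ * ‖B i‖ := by
    have hki : 0 < ‖wd (B k) (B i)‖ := norm_pos_iff.2 (hB.2 k i hik.symm)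
    rw [cr_val hB hX hij hik hjk, norm_div, norm_mul, norm_mul, hdδ i, hdδ j]
    have := hδpos j
    have := hb j
    field_simp
  have hki2 : ‖wd (B k) (B i)‖ ≤ 2 * ‖B k‖ * ‖B i‖ := norm_wd_le _ _
  have hkj : σ * ‖B k‖ * ‖B j‖ ≤ ‖wd (B k) (B j)‖ := hs k j hjk.symm
  have hWge : (σ / 2) ^ 2 ≤ ‖cr B (ver n X) i j k‖ * δ j := by
    have h0 : 0 < ‖B k‖ * ‖B i‖ * ‖B j‖ := mul_pos (mul_pos (hb k) (hb i)) (hb j)
    have h1 : ‖cr B (ver n X) i j k‖ * (δ j * ‖wd (B k) (B i)‖ * ‖B j‖) ≤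
        ‖cr B (ver n X) i j k‖ * (δ j * (2 * ‖B k‖ * ‖B i‖) * ‖B j‖) := by
      refine mul_le_mul_of_nonneg_left ?_ (norm_nonneg _)
      refine mul_le_mul_of_nonneg_right ?_ (hb j).le
      exact mul_le_mul_of_nonneg_left hki2 (hδpos j).le
    have h2 : σ / 2 * (σ * ‖B k‖ * ‖B j‖) * ‖B i‖ ≤ δ i * ‖wd (B k) (B j)‖ * ‖B i‖ := by
      refine mul_le_mul_of_nonneg_right ?_ (hb i).le
      exact mul_le_mul (hge i hij) hkj (by have := hb k; have := hb j; positivity) (hδpos i).le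
    rw [hW] at h1
    have h3 := h2.trans h1
    have h4 : (σ / 2) ^ 2 * (2 * (‖B k‖ * ‖B i‖ * ‖B j‖)) ≤
        ‖cr B (ver n X) i j k‖ * δ j * (2 * (‖B k‖ * ‖B i‖ * ‖B j‖)) := by
      nlinarith [h3]
    exact le_of_mul_le_mul_right h4 (by positivity)
  have hnorm := roots_norm hB
  have hfin : (σ / 2) ^ (n + 1) * (‖X‖ ^ n * ∏ l, ‖B l‖) ≤ ‖cr B (ver n X) i j k‖ := by
    have e1 : (σ / 2) ^ (n + 1) = (σ / 2) ^ 2 * (σ / 2) ^ (n - 1) := by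
      rw [← pow_add]
      congr 1
      omega
    have h5 : (σ / 2) ^ 2 * ((σ / 2) ^ (n - 1) * (‖X‖ ^ n * ∏ l, ‖B l‖)) ≤
        ‖cr B (ver n X) i j k‖ * δ j * ((σ / 2) ^ (n - 1) * (‖X‖ ^ n * ∏ l, ‖B l‖)) :=
      mul_le_mul_of_nonneg_right hWge (by positivity)
    have h6 : ‖cr B (ver n X) i j k‖ * δ j * ((σ / 2) ^ (n - 1) * (‖X‖ ^ n * ∏ l, ‖B l‖)) ≤
        ‖cr B (ver n X) i j k‖ * 1 := by
      rw [mul_assoc]
      refine mul_le_mul_of_nonneg_left ?_ (norm_nonneg _)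
      calc δ j * ((σ / 2) ^ (n - 1) * (‖X‖ ^ n * ∏ l, ‖B l‖))
          = (‖X‖ ^ n * ∏ l, ‖B l‖) * ((σ / 2) ^ (n - 1) * δ j) := by ring
        _ ≤ 1 := hsmall
    rw [e1, mul_assoc]
    rw [mul_one] at h6
    exact h5.trans h6
  refine le_trans ?_ hfin
  rw [norm_ver]
  refine mul_le_mul_of_nonneg_left ?_ (by positivity)
  refine mul_le_mul_of_nonneg_left ?_ (by positivity)
  rw [div_le_iff₀ (by positivity)]
  linarith [hnorm]

theorem TLB {n : ℕ} (hn : 3 ≤ n) {c : Fin (n + 1) → ℂ} {B : Fin n → ℂ × ℂ} (hB : Roots c B)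
    {M : Fin (n + 1) → ℂ} (hM : IsM c M) {σ : ℝ} (hσ : 0 < σ)
    (hs : ∀ i j, i ≠ j → σ * ‖B i‖ * ‖B j‖ ≤ ‖wd (B i) (B j)‖) :
    2 * Real.log ‖M‖ - (2 * n + 2) * Real.log (2 / σ) - 2 * Real.log (2 ^ n / ‖c‖) ≤
      ∑ t ∈ Tri n, Real.log (1 + ‖cr B M t.1 t.2.1 t.2.2‖ ^ 2) := by
  obtain ⟨i, j, k, hij, hik, hjk, hM0, hc, hle⟩ := TLB_main hn hB hM hσ hs
  have hmem : ((i, j, k) : Fin n × Fin n × Fin n) ∈ Tri n := by
    classical
    unfold Tri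
    rw [Finset.mem_filter]
    exact ⟨Finset.mem_univ _, hij, hik, hjk⟩
  have hnn : ∀ t ∈ Tri n, 0 ≤ Real.log (1 + ‖cr B M t.1 t.2.1 t.2.2‖ ^ 2) := fun t _ =>
    Real.log_nonneg (by have := sq_nonneg ‖cr B M t.1 t.2.1 t.2.2‖; linarith)
  refine le_trans ?_ (Finset.single_le_sum hnn hmem)
  have hpos : 0 < (σ / 2) ^ (n + 1) * (‖M‖ * (‖c‖ / 2 ^ n)) := by positivity
  have hW : 0 < ‖cr B M i j k‖ := lt_of_lt_of_le hpos hle
  have h1 : Real.log ((σ / 2) ^ (n + 1) * (‖M‖ * (‖c‖ / 2 ^ n))) ≤ Real.log ‖cr B M i j k‖ :=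
    Real.log_le_log hpos hle
  have h2 : 2 * Real.log ‖cr B M i j k‖ ≤ Real.log (1 + ‖cr B M i j k‖ ^ 2) := by
    have h3 : Real.log (‖cr B M i j k‖ ^ 2) = 2 * Real.log ‖cr B M i j k‖ := by
      rw [Real.log_pow]
      push_cast
      ring
    rw [← h3]
    exact Real.log_le_log (by positivity) (by linarith)
  have e1 : Real.log ((σ / 2) ^ (n + 1) * (‖M‖ * (‖c‖ / 2 ^ n))) =
      Real.log ‖M‖ - (n + 1) * Real.log (2 / σ) - Real.log (2 ^ n / ‖c‖) := by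
    rw [Real.log_mul (by positivity) (by positivity), Real.log_pow,
      Real.log_mul (by positivity) (by positivity), ← inv_div σ 2, Real.log_inv,
      ← inv_div ‖c‖ (2 ^ n), Real.log_inv]
    push_cast
    ring
  rw [e1] at h1
  linarith

end Pool.Agent.EPO
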