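import Pool.Agent.EPO.MBD
import Pool.Agent.EPO.MON
import Pool.Agent.EPO.TLB
import Pool.Agent.EPO.BRL
import Pool.Agent.EPO.RTS
import Pool.Agent.EPO.DIA

open scoped Manifold Topology LinearAlgebra.Projectivization
open Filter Metric Set

namespace Pool.Agent.EPO

private theorem LDR_wd_smul (X B : ℂ × ℂ) (s : ℂ) : wd X (s • B) = s * wd X B := by
  simp only [wd, Prod.smul_fst, Prod.smul_snd, smul_eq_mul]
  ring

private theorem LDR_wd_self (X : ℂ × ℂ) : wd X X = 0 := by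
  simp only [wd]
  ring

private theorem LDR_wd_diff {U : Set ℂ} {A B : ℂ → ℂ × ℂ} (hA : DifferentiableOn ℂ A U)
    (hB : DifferentiableOn ℂ B U) : DifferentiableOn ℂ (fun ζ => wd (A ζ) (B ζ)) U := by
  unfold wd
  exact (hA.fst.mul hB.snd).sub (hA.snd.mul hB.fst)

/-- Convergence to the `i`-th root. -/
private theorem LDR_toRoot {n : ℕ} (hn : 3 ≤ n) {f : ℂ → Fin (n + 1) → ℂ} {U : Set ℂ}
    {B : Fin n → ℂ → ℂ × ℂ} (hB : RootSys f U B)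
    (M : ℕ → ℂ → Fin (n + 1) → ℂ) (hM : ∀ᶠ k in atTop, ∀ ζ ∈ U, IsM (f ζ) (M k ζ)) (i : Fin n)
    (h : ∀ ε > 0, ∀ᶠ k in atTop, ∀ ζ ∈ U, ∀ X, form (f ζ) X = 1 → M k ζ = ver n X →
      ‖wd X (B i ζ)‖ ≤ ε * ‖X‖ * ‖B i ζ‖) :
    ∃ N, ToRoot f M N U := by
  have hR : ∀ ζ ∈ U, NofR (f ζ) (B i ζ) ((∏ l ∈ Finset.univ.erase i, wd (B i ζ) (B l ζ))⁻¹ •
      ver (n - 2) (B i ζ)) := fun ζ hζ => roots_NofR (by omega) (hB.2 ζ hζ) i
  refine ⟨fun ζ => (∏ l ∈ Finset.univ.erase i, wd (B i ζ) (B l ζ))⁻¹ • ver (n - 2) (B i ζ),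
    ?_, fun ζ hζ => ⟨_, hR ζ hζ⟩, fun ε hε => ?_⟩
  · have hd : DifferentiableOn ℂ (fun ζ => ∏ l ∈ Finset.univ.erase i, wd (B i ζ) (B l ζ)) U :=
      DifferentiableOn.fun_finsetProd fun l _ => LDR_wd_diff (hB.1 i) (hB.1 l)
    refine (hd.inv ?_).smul (ver_diff (hB.1 i))
    intro ζ hζ
    rw [Finset.prod_ne_zero_iff]
    intro l hl
    exact (hB.2 ζ hζ).2 i l (Ne.symm (Finset.ne_of_mem_erase hl))
  · filter_upwards [h ε hε, hM] with k hk hkM ζ hζ X B' hX hB'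
    have h1 : form (f ζ) X = 1 := by
      obtain ⟨X', hX', hMX'⟩ := hkM ζ hζ
      rw [form_eq, ← hX, hMX', ← form_eq, hX']
    have h2 := hk ζ hζ X h1 hX
    have hw := NofR_wd hn (hR ζ hζ) hB'
    have hB0 : B i ζ ≠ 0 := roots_ne_zero (by omega) (hB.2 ζ hζ) i
    have hB0' : B' ≠ 0 := by
      obtain ⟨g, hg, _⟩ := hB'
      exact hg.1
    obtain ⟨s, hs, rfl⟩ := exists_smul_of_wd hB0 hB0' hw
    rw [LDR_wd_smul, norm_mul, norm_smul]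
    have h3 := mul_le_mul_of_nonneg_left h2 (norm_nonneg s)
    calc ‖s‖ * ‖wd X (B i ζ)‖ ≤ ‖s‖ * (ε * ‖X‖ * ‖B i ζ‖) := h3
      _ = ε * ‖X‖ * (‖s‖ * ‖B i ζ‖) := by ring

/-- Elementary estimate. -/
private theorem LDR_est {a p q u w : ℂ} {P Q σ K : ℝ} (hσ : 0 < σ) (hK : 0 < K)
    (hw : w * (p * q) = a * u) (hp : ‖p‖ ≤ 2 * P) (hq : ‖q‖ ≤ 2 * Q)
    (hP : 0 ≤ P) (hu : σ * K ≤ ‖u‖) : ‖a‖ ≤ 4 * P * Q / (σ * K) * ‖w‖ := by
  have h1 := congrArg norm hw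
  rw [norm_mul, norm_mul, norm_mul] at h1
  have h2 : ‖a‖ * (σ * K) ≤ ‖w‖ * (4 * P * Q) := by
    calc ‖a‖ * (σ * K) ≤ ‖a‖ * ‖u‖ := mul_le_mul_of_nonneg_left hu (norm_nonneg a)
      _ = ‖w‖ * (‖p‖ * ‖q‖) := h1.symm
      _ ≤ ‖w‖ * ((2 * P) * (2 * Q)) := by
          refine mul_le_mul_of_nonneg_left ?_ (norm_nonneg w)
          exact mul_le_mul hp hq (norm_nonneg q) (by positivity)
      _ = ‖w‖ * (4 * P * Q) := by ring
  have h3 : 0 < σ * K := by positivity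
  rw [div_mul_eq_mul_div, le_div_iff₀ h3]
  linarith

/-- The local dichotomy at a point outside `Br`. -/
theorem LDR {n : ℕ} (hn : 3 ≤ n) {f : ℂ → Fin (n + 1) → ℂ} (hf : Differentiable ℂ f)
    (h0 : ∀ ζ, f ζ ≠ 0) {b : ℂ} (hb : b ∉ Br f) : LDi f b := by
  intro r hr
  obtain ⟨δ, hδ, σ, hσ, hσB⟩ := BRR hn hf h0 hb
  obtain ⟨δ', hδ', hRTS⟩ := RTS hn hf h0 b
  set r' : ℝ := min r (min δ δ') with hr'
  have hr'0 : 0 < r' := lt_min hr (lt_min hδ hδ')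
  have s1 : ball b r' ⊆ ball b r := ball_subset_ball (min_le_left _ _)
  have s2 : ball b r' ⊆ ball b δ := ball_subset_ball ((min_le_right _ _).trans (min_le_left _ _))
  have s3 : ball b r' ⊆ ball b δ' := ball_subset_ball ((min_le_right _ _).trans (min_le_right _ _))
  obtain ⟨B, hB⟩ := hRTS b r' s3 (fun ζ hζ => (hσB ζ (s2 hζ)).1)
  -- separation
  have hzero : ∀ ζ ∈ ball b r', ∀ i, form (f ζ) (B i ζ) = 0 := by
    intro ζ hζ i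
    rw [(hB.2 ζ hζ).1]
    exact Finset.prod_eq_zero (Finset.mem_univ i) (LDR_wd_self _)
  have hsep : ∀ ζ ∈ ball b r', ∀ i j, i ≠ j → σ * ‖B i ζ‖ * ‖B j ζ‖ ≤ ‖wd (B i ζ) (B j ζ)‖ := by
    intro ζ hζ i j hij
    exact (hσB ζ (s2 hζ)).2 _ _ (hzero ζ hζ i) (hzero ζ hζ j) ((hB.2 ζ hζ).2 i j hij)
  have hB0 : ∀ ζ ∈ ball b r', ∀ i, B i ζ ≠ 0 := fun ζ hζ i =>
    roots_ne_zero (by omega) (hB.2 ζ hζ) i
  refine ⟨r' / 4, by positivity, fun M hM => ?_⟩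
  have hM' : ∀ᶠ k in atTop, ASec f (ball b r') (M k) :=
    hM.mono fun k hk => ⟨hk.1.mono s1, fun ζ hζ => hk.2 ζ (s1 hζ)⟩
  have h4 : ball b (r' / 4) ⊆ ball b r' := ball_subset_ball (by linarith)
  have h42 : ball b (r' / 4) ⊆ ball b (r' / 2) := ball_subset_ball (by linarith)
  have h2r : ball b (r' / 2) ⊆ ball b r' := ball_subset_ball (by linarith)
  have hB4 : RootSys f (ball b (r' / 4)) B :=
    ⟨fun i => (hB.1 i).mono h4, fun ζ hζ => hB.2 ζ (h4 hζ)⟩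
  -- the alternatives
  let A1 : Fin n × Fin n × Fin n → (ℕ → ℕ) → Prop := fun t φ =>
    ∃ c > 0, ∀ᶠ k in atTop, ∀ ζ ∈ ball b (r' / 2),
      c ≤ ‖crf B (M (φ k)) t.1 t.2.1 t.2.2 ζ‖ ∧ c ≤ ‖crf B (M (φ k)) t.1 t.2.1 t.2.2 ζ - 1‖ ∧
        ‖crf B (M (φ k)) t.1 t.2.1 t.2.2 ζ‖ ≤ c⁻¹
  let A2 : Fin n × Fin n × Fin n → (ℕ → ℕ) → Prop := fun t φ =>
    ∀ ε > 0, ∀ᶠ k in atTop, ∀ ζ ∈ ball b (r' / 2), ‖crf B (M (φ k)) t.1 t.2.1 t.2.2 ζ‖ ≤ ε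
  let A3 : Fin n × Fin n × Fin n → (ℕ → ℕ) → Prop := fun t φ =>
    ∀ ε > 0, ∀ᶠ k in atTop, ∀ ζ ∈ ball b (r' / 2), ‖crf B (M (φ k)) t.1 t.2.1 t.2.2 ζ - 1‖ ≤ ε
  let A4 : Fin n × Fin n × Fin n → (ℕ → ℕ) → Prop := fun t φ =>
    ∀ ε > 0, ∀ᶠ k in atTop, ∀ ζ ∈ ball b (r' / 2), ‖(crf B (M (φ k)) t.1 t.2.1 t.2.2 ζ)⁻¹‖ ≤ ε
  obtain ⟨φ, hφ, hAlt⟩ := DIA (fun m φ => ∀ t ∈ Tri n, Encodable.encode t = m →
      (A1 t φ ∨ A2 t φ ∨ A3 t φ ∨ A4 t φ))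
    (by
      intro m φ θ ψ hP hψ hθ t ht htm
      rcases hP t ht htm with ⟨c, hc, h⟩ | h | h | h
      · refine Or.inl ⟨c, hc, ?_⟩
        filter_upwards [hψ.eventually h, hθ] with k hk1 hk2
        rw [hk2]
        exact hk1
      · refine Or.inr (Or.inl fun ε hε => ?_)
        filter_upwards [hψ.eventually (h ε hε), hθ] with k hk1 hk2
        rw [hk2]
        exact hk1
      · refine Or.inr (Or.inr (Or.inl fun ε hε => ?_))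
        filter_upwards [hψ.eventually (h ε hε), hθ] with k hk1 hk2
        rw [hk2]
        exact hk1
      · refine Or.inr (Or.inr (Or.inr fun ε hε => ?_))
        filter_upwards [hψ.eventually (h ε hε), hθ] with k hk1 hk2
        rw [hk2]
        exact hk1)
    (by
      intro m φ hφ
      by_cases hex : ∃ t ∈ Tri n, Encodable.encode t = m
      · obtain ⟨t, ht, htm⟩ := hex
        have ht' : t.1 ≠ t.2.1 ∧ t.1 ≠ t.2.2 ∧ t.2.1 ≠ t.2.2 := by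
          simpa [Tri] using ht
        obtain ⟨ψ, hψ, h⟩ := MON hr'0 (fun k => crf B (M (φ k)) t.1 t.2.1 t.2.2)
          ((hφ.tendsto_atTop.eventually hM').mono fun k hk => crf_diff hB hk ht'.1 ht'.2.1 ht'.2.2)
        refine ⟨ψ, hψ, fun t' _ ht'm => ?_⟩
        have : t' = t := Encodable.encode_injective (ht'm.trans htm.symm)
        subst this
        exact h
      · refine ⟨id, strictMono_id, fun t ht htm => ?_⟩
        exact absurd ⟨t, ht, htm⟩ hex)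
  have hAlt' : ∀ t ∈ Tri n, A1 t φ ∨ A2 t φ ∨ A3 t φ ∨ A4 t φ := fun t ht => hAlt _ t ht rfl
  have hMφ : ∀ᶠ k in atTop, ASec f (ball b r') (M (φ k)) := hφ.tendsto_atTop.eventually hM'
  have hMφ4 : ∀ᶠ k in atTop, ∀ ζ ∈ ball b (r' / 4), IsM (f ζ) (M (φ k) ζ) :=
    hMφ.mono fun k hk ζ hζ => hk.2 ζ (h4 hζ)
  have hK : ∀ ζ ∈ ball b (r' / 4), ∀ i, 0 < ‖B i ζ‖ := fun ζ hζ i =>
    norm_pos_iff.2 (hB0 ζ (h4 hζ) i)
  by_cases hall : ∀ t ∈ Tri n, A1 t φ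
  · -- bounded case
    choose! c hc hcb using hall
    have hev : ∀ᶠ k in atTop, ∀ t ∈ Tri n, ∀ ζ ∈ ball b (r' / 2),
        ‖crf B (M (φ k)) t.1 t.2.1 t.2.2 ζ‖ ≤ (c t)⁻¹ := by
      rw [Finset.eventually_all]
      intro t ht
      exact (hcb t ht).mono fun k hk ζ hζ => (hk ζ hζ).2.2
    obtain ⟨ζ0, hζ0, hmin⟩ := (isCompact_closedBall b (r' / 2)).exists_isMinOn
      ⟨b, mem_closedBall_self (by positivity)⟩ (hf.continuous.norm.continuousOn)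
    have hm : 0 < ‖f ζ0‖ := norm_pos_iff.2 (h0 ζ0)
    set K : ℝ := (2 * n + 2) * Real.log (2 / σ) + 2 * Real.log (2 ^ n / ‖f ζ0‖) +
      ∑ t ∈ Tri n, Real.log (1 + (c t)⁻¹ ^ 2) with hKdef
    have hbound : ∀ᶠ k in atTop, DifferentiableOn ℂ (M (φ k)) (ball b (r' / 2)) ∧
        ∀ ζ ∈ ball b (r' / 2), ‖M (φ k) ζ‖ ≤ Real.exp (K / 2) := by
      filter_upwards [hev, hMφ] with k hk1 hk2
      refine ⟨hk2.1.mono h2r, fun ζ hζ => ?_⟩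
      have hIs := hk2.2 ζ (h2r hζ)
      have hMpos : 0 < ‖M (φ k) ζ‖ := norm_pos_iff.2 (IsM_ne hIs)
      have hT := TLB hn (hB.2 ζ (h2r hζ)) hIs hσ (hsep ζ (h2r hζ))
      have hf1 : ‖f ζ0‖ ≤ ‖f ζ‖ := hmin (ball_subset_closedBall hζ)
      have hf2 : Real.log (2 ^ n / ‖f ζ‖) ≤ Real.log (2 ^ n / ‖f ζ0‖) := by
        apply Real.log_le_log
        · exact div_pos (by positivity) (norm_pos_iff.2 (h0 ζ))
        · exact div_le_div_of_nonneg_left (by positivity) hm hf1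
      have hsum : ∑ t ∈ Tri n, Real.log (1 +
          ‖cr (fun l => B l ζ) (M (φ k) ζ) t.1 t.2.1 t.2.2‖ ^ 2) ≤
          ∑ t ∈ Tri n, Real.log (1 + (c t)⁻¹ ^ 2) := by
        refine Finset.sum_le_sum fun t ht => ?_
        apply Real.log_le_log (by positivity)
        have := hk1 t ht ζ hζ
        have h3 : ‖cr (fun l => B l ζ) (M (φ k) ζ) t.1 t.2.1 t.2.2‖ ^ 2 ≤ (c t)⁻¹ ^ 2 :=
          pow_le_pow_left₀ (norm_nonneg _) this 2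
        linarith
      have hlog : Real.log ‖M (φ k) ζ‖ ≤ K / 2 := by
        rw [hKdef]
        linarith
      exact (Real.log_le_iff_le_exp hMpos).1 hlog
    obtain ⟨ψ, hψ, L, hL1, hL2⟩ := MBD (by positivity) (fun k => M (φ k)) hbound
    have hr4 : r' / 2 / 2 = r' / 4 := by ring
    rw [hr4] at hL1 hL2
    refine ⟨φ ∘ ψ, hφ.comp hψ, Or.inl ⟨L, ⟨hL1, fun ζ hζ => ?_⟩, hL2⟩⟩
    exact IsM_closed (c := fun _ => f ζ) (M := fun k => M (φ (ψ k)) ζ) (by omega)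
      (hψ.tendsto_atTop.eventually (hMφ4.mono fun k hk => hk ζ hζ)) tendsto_const_nhds
      (hL2.tendsto_at hζ)
  · push Not at hall
    obtain ⟨t, ht, hnot⟩ := hall
    have ht' : t.1 ≠ t.2.1 ∧ t.1 ≠ t.2.2 ∧ t.2.1 ≠ t.2.2 := by
      simpa [Tri] using ht
    obtain ⟨hij, hik, hjk⟩ := ht'
    refine ⟨φ, hφ, Or.inr ?_⟩
    have hne1 : ∀ ζ ∈ ball b (r' / 4), ∀ X, form (f ζ) X = 1 → ∀ i, wd X (B i ζ) ≠ 0 := by
      intro ζ hζ X hX i h0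
      rw [(hB4.2 ζ hζ).1, Finset.prod_eq_zero (Finset.mem_univ i) h0] at hX
      exact zero_ne_one hX
    have hval : ∀ k, ∀ ζ ∈ ball b (r' / 4), ∀ X, form (f ζ) X = 1 → M (φ k) ζ = ver n X →
        crf B (M (φ k)) t.1 t.2.1 t.2.2 ζ = wd X (B t.1 ζ) * wd (B t.2.2 ζ) (B t.2.1 ζ) /
          (wd X (B t.2.1 ζ) * wd (B t.2.2 ζ) (B t.1 ζ)) := by
      intro k ζ hζ X hX hMX
      have := cr_val (hB4.2 ζ hζ) hX hij hik hjk
      rw [← hMX] at this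
      exact this
    have hval1 : ∀ k, ∀ ζ ∈ ball b (r' / 4), ∀ X, form (f ζ) X = 1 → M (φ k) ζ = ver n X →
        crf B (M (φ k)) t.1 t.2.1 t.2.2 ζ - 1 = wd X (B t.2.2 ζ) * wd (B t.1 ζ) (B t.2.1 ζ) /
          (wd X (B t.2.1 ζ) * wd (B t.2.2 ζ) (B t.1 ζ)) := by
      intro k ζ hζ X hX hMX
      have := cr_sub_one (hB4.2 ζ hζ) hX hij hik hjk
      rw [← hMX] at this
      exact this
    have key : ∀ ζ ∈ ball b (r' / 4), ∀ (i j k : Fin n), i ≠ j → i ≠ k → j ≠ k →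
        ∀ (X : ℂ × ℂ) (w : ℂ) (ε : ℝ), 0 < ε → ‖w‖ ≤ ε * σ / 4 →
        w * (wd X (B j ζ) * wd (B k ζ) (B i ζ)) = wd X (B i ζ) * wd (B k ζ) (B j ζ) →
        ‖wd X (B i ζ)‖ ≤ ε * ‖X‖ * ‖B i ζ‖ := by
      intro ζ hζ i j k hij hik hjk X w ε hε hw heq
      have h1 := LDR_est (P := ‖X‖ * ‖B j ζ‖) (Q := ‖B k ζ‖ * ‖B i ζ‖) (K := ‖B k ζ‖ * ‖B j ζ‖) hσ
        (mul_pos (hK ζ hζ k) (hK ζ hζ j)) heq
        (by rw [← mul_assoc]; exact norm_wd_le _ _) (by rw [← mul_assoc]; exact norm_wd_le _ _)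
        (by positivity) (by
          rw [← mul_assoc]
          exact hsep ζ (h4 hζ) k j (Ne.symm hjk))
      refine h1.trans ?_
      have hkp := hK ζ hζ k
      have hjp := hK ζ hζ j
      have h2 : 4 * (‖X‖ * ‖B j ζ‖) * (‖B k ζ‖ * ‖B i ζ‖) / (σ * (‖B k ζ‖ * ‖B j ζ‖)) =
          4 / σ * (‖X‖ * ‖B i ζ‖) := by
        field_simp
      rw [h2]
      calc 4 / σ * (‖X‖ * ‖B i ζ‖) * ‖w‖ ≤ 4 / σ * (‖X‖ * ‖B i ζ‖) * (ε * σ / 4) :=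
            mul_le_mul_of_nonneg_left hw (by positivity)
        _ = ε * ‖X‖ * ‖B i ζ‖ := by
            field_simp
    rcases (hAlt' t ht).resolve_left hnot with hA | hA | hA
    · -- w → 0
      refine LDR_toRoot hn hB4 (fun k => M (φ k)) hMφ4 t.1 fun ε hε => ?_
      filter_upwards [hA (ε * σ / 4) (by positivity)] with k hk ζ hζ X hX hMX
      refine key ζ hζ t.1 t.2.1 t.2.2 hij hik hjk X _ ε hε (hk ζ (h42 hζ)) ?_
      rw [hval k ζ hζ X hX hMX, div_mul_cancel₀]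
      exact mul_ne_zero (hne1 ζ hζ X hX _) ((hB4.2 ζ hζ).2 _ _ (Ne.symm hik))
    · -- w → 1
      refine LDR_toRoot hn hB4 (fun k => M (φ k)) hMφ4 t.2.2 fun ε hε => ?_
      filter_upwards [hA (ε * σ / 4) (by positivity)] with k hk ζ hζ X hX hMX
      have h5 : ‖-(crf B (M (φ k)) t.1 t.2.1 t.2.2 ζ - 1)‖ ≤ ε * σ / 4 := by
        rw [norm_neg]
        exact hk ζ (h42 hζ)
      refine key ζ hζ t.2.2 t.2.1 t.1 (Ne.symm hjk) (Ne.symm hik) (Ne.symm hij) X _ ε hε h5 ?_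
      have h6 : wd (B t.1 ζ) (B t.2.2 ζ) = - wd (B t.2.2 ζ) (B t.1 ζ) := by
        simp only [wd]
        ring
      rw [h6, hval1 k ζ hζ X hX hMX]
      have e1 := hne1 ζ hζ X hX t.2.1
      have e2 := (hB4.2 ζ hζ).2 _ _ (Ne.symm hik)
      field_simp
    · -- w → ∞
      refine LDR_toRoot hn hB4 (fun k => M (φ k)) hMφ4 t.2.1 fun ε hε => ?_
      filter_upwards [hA (ε * σ / 4) (by positivity)] with k hk ζ hζ X hX hMX
      refine key ζ hζ t.2.1 t.1 t.2.2 (Ne.symm hij) hjk hik X _ ε hε (hk ζ (h42 hζ)) ?_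
      rw [hval k ζ hζ X hX hMX]
      have e1 := hne1 ζ hζ X hX t.1
      have e2 := (hB4.2 ζ hζ).2 _ _ (Ne.symm hjk)
      field_simp

end Pool.Agent.EPO
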