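import Pool.Agent.EPO.LDP
import Pool.Agent.EPO.LDR
import Pool.Agent.EPO.BRD

open scoped Manifold Topology LinearAlgebra.Projectivization
open Filter Metric Set

namespace Pool.Agent.EPO

theorem LDA {Λ : Submodule ℤ ℂ} [DiscreteTopology Λ] [IsZLattice ℝ Λ] {n : ℕ} (hn : 3 ≤ n)
    {f : ℂ → Fin (n + 1) → ℂ} (hf : IsCurve Λ f) (b : ℂ) : LDi f b := by
  obtain ⟨m, hm⟩ := BRD hn hf
  obtain ⟨δ, hδ, c, hc, h⟩ := hm b
  exact LDP hn hf.hol hf.no_fibre hδ fun ζ hζ hne => LDR hn hf.hol hf.no_fibre (h ζ hζ hne).1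

end Pool.Agent.EPO
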