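import Pool.Agent.EPO.SRT

open scoped Manifold Topology LinearAlgebra.Projectivization
open Filter Metric Set

namespace Pool.Agent.EPO

private theorem TAY_nat (i : ℕ) (x : ℂ) : (i : ℂ) * x ^ (i - 1) * x = i * x ^ i := by
  rcases Nat.eq_zero_or_pos i with h | h
  · rw [h]; simp
  · rw [mul_assoc, ← pow_succ, Nat.sub_add_cancel h]

private theorem TAY_L {x y p q : ℂ} {s T : ℝ} (hs : 0 ≤ s) (hT : 0 ≤ T) (hx : ‖x‖ ≤ T)
    (hy : ‖y‖ ≤ T) (hp : ‖p‖ ≤ s) (hq : ‖q‖ ≤ s) (i m : ℕ) :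
    ‖((i : ℂ) * x ^ (i - 1) * p) * y ^ m + x ^ i * ((m : ℂ) * y ^ (m - 1) * q)‖ ≤
      ((i + m : ℕ) : ℝ) * s * T ^ (i + m - 1) := by
  have h1 : ‖((i : ℂ) * x ^ (i - 1) * p) * y ^ m‖ ≤ (i : ℝ) * s * T ^ (i + m - 1) := by
    rcases Nat.eq_zero_or_pos i with h | h
    · rw [h]; simp
    · rw [norm_mul, norm_mul, norm_mul, norm_pow, norm_pow, Complex.norm_natCast]
      have e : i + m - 1 = (i - 1) + m := by omega
      rw [e, pow_add]
      have : ‖x‖ ^ (i - 1) ≤ T ^ (i - 1) := pow_le_pow_left₀ (norm_nonneg _) hx _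
      have h3 : ‖y‖ ^ m ≤ T ^ m := pow_le_pow_left₀ (norm_nonneg _) hy _
      calc (i : ℝ) * ‖x‖ ^ (i - 1) * ‖p‖ * ‖y‖ ^ m ≤ (i : ℝ) * T ^ (i - 1) * s * T ^ m := by
            gcongr
        _ = (i : ℝ) * s * (T ^ (i - 1) * T ^ m) := by ring
  have h2 : ‖x ^ i * ((m : ℂ) * y ^ (m - 1) * q)‖ ≤ (m : ℝ) * s * T ^ (i + m - 1) := by
    rcases Nat.eq_zero_or_pos m with h | h
    · rw [h]; simp
    · rw [norm_mul, norm_mul, norm_mul, norm_pow, norm_pow, Complex.norm_natCast]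
      have e : i + m - 1 = i + (m - 1) := by omega
      rw [e, pow_add]
      have : ‖x‖ ^ i ≤ T ^ i := pow_le_pow_left₀ (norm_nonneg _) hx _
      have h3 : ‖y‖ ^ (m - 1) ≤ T ^ (m - 1) := pow_le_pow_left₀ (norm_nonneg _) hy _
      calc ‖x‖ ^ i * ((m : ℝ) * ‖y‖ ^ (m - 1) * ‖q‖) ≤ T ^ i * ((m : ℝ) * T ^ (m - 1) * s) := by
            gcongr
        _ = (m : ℝ) * s * (T ^ i * T ^ (m - 1)) := by ring
  refine (norm_add_le _ _).trans ((add_le_add h1 h2).trans (le_of_eq ?_))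
  push_cast
  ring

private theorem TAY_rec {s T : ℝ} (hs : 0 ≤ s) (hT : 0 ≤ T) {P Lv E : ℂ} {w : ℂ} (N : ℕ)
    (hP : ‖P‖ ≤ s) (hw : ‖w‖ ≤ T) (hL : ‖Lv‖ ≤ (N : ℝ) * s * T ^ (N - 1))
    (hE : ‖E‖ ≤ (N.choose 2 : ℝ) * s ^ 2 * T ^ (N - 2)) :
    ‖P * Lv + w * E‖ ≤ ((N + 1).choose 2 : ℝ) * s ^ 2 * T ^ (N + 1 - 2) := by
  have e : N + 1 - 2 = N - 1 := by omega
  have h1 : ‖P * Lv‖ ≤ s * ((N : ℝ) * s * T ^ (N - 1)) := by
    rw [norm_mul]
    exact mul_le_mul hP hL (norm_nonneg _) hs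
  have h2 : ‖w * E‖ ≤ (N.choose 2 : ℝ) * s ^ 2 * T ^ (N - 1) := by
    rw [norm_mul]
    rcases Nat.lt_or_ge N 2 with h | h
    · have h0 : N.choose 2 = 0 := Nat.choose_eq_zero_of_lt h
      rw [h0] at hE ⊢
      simp only [Nat.cast_zero, zero_mul] at hE ⊢
      have : ‖E‖ = 0 := le_antisymm hE (norm_nonneg _)
      rw [this, mul_zero]
    · have e3 : T ^ (N - 1) = T * T ^ (N - 2) := by
        rw [← pow_succ']
        congr 1
        omega
      rw [e3]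
      calc ‖w‖ * ‖E‖ ≤ T * ((N.choose 2 : ℝ) * s ^ 2 * T ^ (N - 2)) :=
            mul_le_mul hw hE (norm_nonneg _) hT
        _ = _ := by ring
  rw [e]
  refine (norm_add_le _ _).trans ((add_le_add h1 h2).trans (le_of_eq ?_))
  rw [Nat.choose_succ_succ' N 1, Nat.choose_one_right]
  push_cast
  ring

private theorem TAY_E {x y p q : ℂ} {s T : ℝ} (hs : 0 ≤ s) (hT : 0 ≤ T) (hx : ‖x‖ ≤ T)
    (hy : ‖y‖ ≤ T) (hp : ‖p‖ ≤ s) (hq : ‖q‖ ≤ s) (hxp : ‖x + p‖ ≤ T) (hyq : ‖y + q‖ ≤ T)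
    (i m : ℕ) :
    ‖(x + p) ^ i * (y + q) ^ m - x ^ i * y ^ m -
      (((i : ℂ) * x ^ (i - 1) * p) * y ^ m + x ^ i * ((m : ℂ) * y ^ (m - 1) * q))‖ ≤
      ((i + m).choose 2 : ℝ) * s ^ 2 * T ^ (i + m - 2) := by
  induction i with
  | zero =>
    induction m with
    | zero => simp
    | succ m ih =>
      have hL := TAY_L hs hT hx hy hp hq 0 m
      have := TAY_rec hs hT (0 + m) hq hyq hL ih
      rw [← Nat.add_assoc]
      refine le_of_eq_of_le (congrArg norm ?_) this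
      have h1 := TAY_nat m y
      simp only [Nat.cast_zero, zero_mul, pow_zero, one_mul, zero_add, Nat.add_sub_cancel,
        Nat.cast_add, Nat.cast_one]
      linear_combination q * h1
  | succ i ih =>
    have hL := TAY_L hs hT hx hy hp hq i m
    have := TAY_rec hs hT (i + m) hp hxp hL ih
    have e : i + 1 + m = i + m + 1 := by ring
    rw [e]
    refine le_of_eq_of_le (congrArg norm ?_) this
    have h1 := TAY_nat i x
    simp only [Nat.add_sub_cancel, Nat.cast_add, Nat.cast_one]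
    linear_combination (p * y ^ m) * h1

/-- Quantitative Taylor formula at a root. -/
theorem TAY (n : ℕ) (hn : 2 ≤ n) : ∃ K : ℝ, 0 < K ∧ ∀ (c : Fin (n + 1) → ℂ) (B α : ℂ × ℂ)
    (g u v : ℂ), form c B = 0 → Grad c B g →
      ‖form c (u • B + v • α) - u ^ (n - 1) * v * (g * wd α B)‖ ≤
        K * ‖c‖ * ‖v‖ ^ 2 * ‖α‖ ^ 2 * (‖u‖ * ‖B‖ + ‖v‖ * ‖α‖) ^ (n - 2) := by
  refine ⟨(n + 1) * (n.choose 2 : ℝ), ?_, ?_⟩
  · have : 0 < n.choose 2 := Nat.choose_pos hn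
    positivity
  intro c B α g u v hB hG
  set s : ℝ := ‖v‖ * ‖α‖ with hs
  set T : ℝ := ‖u‖ * ‖B‖ + s with hTdef
  have hs0 : 0 ≤ s := by positivity
  have hT0 : 0 ≤ T := by positivity
  have hx : ‖u * B.1‖ ≤ ‖u‖ * ‖B‖ := by
    rw [norm_mul]; exact mul_le_mul_of_nonneg_left (norm_fst_le B) (norm_nonneg _)
  have hy : ‖u * B.2‖ ≤ ‖u‖ * ‖B‖ := by
    rw [norm_mul]; exact mul_le_mul_of_nonneg_left (norm_snd_le B) (norm_nonneg _)
  have hp : ‖v * α.1‖ ≤ s := by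
    rw [norm_mul]; exact mul_le_mul_of_nonneg_left (norm_fst_le α) (norm_nonneg _)
  have hq : ‖v * α.2‖ ≤ s := by
    rw [norm_mul]; exact mul_le_mul_of_nonneg_left (norm_snd_le α) (norm_nonneg _)
  have hxT : ‖u * B.1‖ ≤ T := hx.trans (by linarith)
  have hyT : ‖u * B.2‖ ≤ T := hy.trans (by linarith)
  have hxp : ‖u * B.1 + v * α.1‖ ≤ T := (norm_add_le _ _).trans (add_le_add hx hp)
  have hyq : ‖u * B.2 + v * α.2‖ ≤ T := (norm_add_le _ _).trans (add_le_add hy hq)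
  have hlin : u ^ (n - 1) * v * (g * wd α B) = ∑ i : Fin (n + 1), c i *
      ((((i : ℕ) : ℂ) * (u * B.1) ^ ((i : ℕ) - 1) * (v * α.1)) * (u * B.2) ^ (n - (i : ℕ)) +
      (u * B.1) ^ (i : ℕ) *
        (((n - (i : ℕ) : ℕ) : ℂ) * (u * B.2) ^ (n - (i : ℕ) - 1) * (v * α.2))) := by
    rw [SRT_grad hG α]
    unfold SRT_L
    rw [Finset.mul_sum]
    refine Finset.sum_congr rfl fun i _ => ?_
    have hi : (i : ℕ) ≤ n := Nat.lt_succ_iff.mp i.2
    have e1 : ((i : ℕ) : ℂ) * u ^ (n - 1) =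
        ((i : ℕ) : ℂ) * (u ^ ((i : ℕ) - 1) * u ^ (n - (i : ℕ))) := by
      rcases Nat.eq_zero_or_pos (i : ℕ) with h | h
      · rw [h]; simp
      · rw [← pow_add]
        congr 2
        omega
    have e2 : ((n - (i : ℕ) : ℕ) : ℂ) * u ^ (n - 1) =
        ((n - (i : ℕ) : ℕ) : ℂ) * (u ^ (i : ℕ) * u ^ (n - (i : ℕ) - 1)) := by
      rcases Nat.eq_zero_or_pos (n - (i : ℕ)) with h | h
      · rw [h]; simp
      · rw [← pow_add]
        congr 2
        omega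
    simp only [mul_pow]
    linear_combination (c i * v * B.1 ^ ((i : ℕ) - 1) * α.1 * B.2 ^ (n - (i : ℕ))) * e1 +
      (c i * v * B.1 ^ (i : ℕ) * B.2 ^ (n - (i : ℕ) - 1) * α.2) * e2
  have hzero : ∑ i : Fin (n + 1), c i * ((u * B.1) ^ (i : ℕ) * (u * B.2) ^ (n - (i : ℕ))) = 0 := by
    have := form_smul_right u c B
    rw [hB, mul_zero] at this
    exact this
  have hmain : form c (u • B + v • α) - u ^ (n - 1) * v * (g * wd α B) =
      ∑ i : Fin (n + 1), c i * ((u * B.1 + v * α.1) ^ (i : ℕ) *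
          (u * B.2 + v * α.2) ^ (n - (i : ℕ)) -
        (u * B.1) ^ (i : ℕ) * (u * B.2) ^ (n - (i : ℕ)) -
        ((((i : ℕ) : ℂ) * (u * B.1) ^ ((i : ℕ) - 1) * (v * α.1)) * (u * B.2) ^ (n - (i : ℕ)) +
      (u * B.1) ^ (i : ℕ) *
        (((n - (i : ℕ) : ℕ) : ℂ) * (u * B.2) ^ (n - (i : ℕ) - 1) * (v * α.2)))) := by
    simp only [mul_sub, Finset.sum_sub_distrib]
    rw [hzero, ← hlin, sub_zero]
    rfl
  rw [hmain]
  calc ‖_‖ ≤ ∑ i : Fin (n + 1), ‖c‖ * ((n.choose 2 : ℝ) * s ^ 2 * T ^ (n - 2)) := by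
        refine norm_sum_le_of_le _ fun i _ => ?_
        rw [norm_mul]
        have hi : (i : ℕ) ≤ n := Nat.lt_succ_iff.mp i.2
        have := TAY_E hs0 hT0 hxT hyT hp hq hxp hyq (i : ℕ) (n - (i : ℕ))
        rw [Nat.add_sub_cancel' hi] at this
        exact mul_le_mul (norm_le_pi_norm c i) this (norm_nonneg _) (norm_nonneg _)
    _ = _ := by
        rw [Finset.sum_const, Finset.card_univ, Fintype.card_fin, nsmul_eq_mul]
        push_cast
        rw [hs]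
        ring

end Pool.Agent.EPO
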