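import Pool.Agent.EPO.EXT
import Pool.Agent.EPO.GDI
import Pool.Agent.EPO.TAY
import Pool.Agent.EPO.MBD

open scoped Manifold Topology LinearAlgebra.Projectivization
open Filter Metric Set

namespace Pool.Agent.EPO

private theorem ldp_form_zero {n : ℕ} (hn : 1 ≤ n) (c : Fin (n + 1) → ℂ) :
    form c (0 : ℂ × ℂ) = 0 := by
  have h := form_smul_right (0 : ℂ) c (0 : ℂ × ℂ)
  rw [smul_zero] at h
  rw [h, zero_pow (by omega), zero_mul]

/-- a nonzero form has a nonzero value -/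
private theorem ldp_exists_alpha {n : ℕ} {c : Fin (n + 1) → ℂ} (hc : c ≠ 0) :
    ∃ α : ℂ × ℂ, form c α ≠ 0 := by
  by_contra hcon
  push Not at hcon
  apply hc
  set P : Polynomial ℂ := ∑ i : Fin (n + 1), Polynomial.C (c i) * Polynomial.X ^ (i : ℕ) with hP
  have hP0 : P = 0 := by
    apply Polynomial.funext
    intro t
    have := hcon (t, 1)
    simp only [form, one_pow, mul_one] at this
    simp only [hP, Polynomial.eval_finset_sum, Polynomial.eval_mul, Polynomial.eval_C,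
      Polynomial.eval_pow, Polynomial.eval_X, Polynomial.eval_zero]
    exact this
  funext i
  have := congrArg (fun p => Polynomial.coeff p (i : ℕ)) hP0
  simp only [hP, Polynomial.finset_sum_coeff, Polynomial.coeff_C_mul, Polynomial.coeff_X_pow,
    Polynomial.coeff_zero] at this
  rw [Finset.sum_eq_single i] at this
  · simpa using this
  · intro j _ hj
    rw [if_neg, mul_zero]
    intro h; exact hj (Fin.ext h.symm)
  · intro h; exact absurd (Finset.mem_univ _) h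

private theorem ldp_preconn (b : ℂ) {r : ℝ} (hr : 0 < r) : IsPreconnected (ball b r \ {b}) := by
  have h : ball b r \ {b} = (fun p : ℝ × ℝ => circleMap b p.1 p.2) '' (Ioo 0 r ×ˢ univ) := by
    ext z
    constructor
    · rintro ⟨h1, h2⟩
      have h2' : z - b ≠ 0 := sub_ne_zero.mpr h2
      refine ⟨(‖z - b‖, Complex.arg (z - b)), ⟨⟨norm_pos_iff.mpr h2', ?_⟩, mem_univ _⟩, ?_⟩
      · simpa [dist_eq_norm] using h1
      · simp only [circleMap]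
        rw [Complex.norm_mul_exp_arg_mul_I]
        ring
    · rintro ⟨⟨ρ, θ⟩, ⟨⟨h1, h2⟩, _⟩, rfl⟩
      refine ⟨?_, ?_⟩
      · simp only [circleMap, mem_ball, dist_eq_norm, add_sub_cancel_left, norm_mul,
          Complex.norm_exp_ofReal_mul_I, mul_one, Complex.norm_real, Real.norm_eq_abs]
        rw [abs_of_pos h1]; exact h2
      · simp only [mem_singleton_iff]
        exact circleMap_ne_center h1.ne'
  rw [h]
  apply IsPreconnected.image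
  · exact isPreconnected_Ioo.prod isPreconnected_univ
  · apply Continuous.continuousOn
    unfold circleMap
    fun_prop

/-- the set of indices where an estimate holds on a compact set -/
private theorem ldp_compact {K : Set ℂ} (hK : IsCompact K) (p : ℕ → ℂ → Prop)
    (h : ∀ c ∈ K, ∃ t ∈ 𝓝 c, ∀ᶠ k in atTop, ∀ ζ ∈ t, p k ζ) :
    ∀ᶠ k in atTop, ∀ ζ ∈ K, p k ζ := by
  refine hK.induction_on (p := fun V => ∀ᶠ k in atTop, ∀ ζ ∈ V, p k ζ) ?_ ?_ ?_ ?_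
  · exact Eventually.of_forall fun k ζ h => absurd h (notMem_empty _)
  · intro s t hst ht
    filter_upwards [ht] with k hk ζ hζ using hk ζ (hst hζ)
  · intro s t hs ht
    filter_upwards [hs, ht] with k h1 h2 ζ hζ
    rcases hζ with hζ | hζ
    · exact h1 ζ hζ
    · exact h2 ζ hζ
  · intro c hc
    obtain ⟨t, ht, h'⟩ := h c hc
    exact ⟨t, mem_nhdsWithin_of_mem_nhds ht, h'⟩

private theorem ldp_asec_mono {n : ℕ} {f : ℂ → Fin (n + 1) → ℂ} {U V : Set ℂ} (h : V ⊆ U)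
    {M : ℂ → Fin (n + 1) → ℂ} (hM : ASec f U M) : ASec f V M :=
  ⟨hM.1.mono h, fun ζ hζ => hM.2 ζ (h hζ)⟩

/-- maximum principle on a disc -/
private theorem ldp_max {m : ℕ} {b : ℂ} {ρ r : ℝ} (hρ : 0 < ρ) (hr : ρ < r)
    {F : ℂ → Fin m → ℂ} (hF : DifferentiableOn ℂ F (ball b r)) {C : ℝ}
    (h : ∀ ζ ∈ sphere b ρ, ‖F ζ‖ ≤ C) : ∀ ζ ∈ closedBall b ρ, ‖F ζ‖ ≤ C := by
  intro ζ hζ
  have hsub : closure (ball b ρ) ⊆ ball b r := by
    rw [closure_ball b hρ.ne']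
    exact closedBall_subset_ball hr
  apply Complex.norm_le_of_forall_mem_frontier_norm_le isBounded_ball
    (hF.mono hsub).diffContOnCl
  · rw [frontier_ball b hρ.ne']
    exact h
  · rw [closure_ball b hρ.ne']
    exact hζ

private theorem ldp_max1 {b : ℂ} {ρ : ℝ} (hρ : 0 < ρ)
    {F : ℂ → ℂ} (hF : DifferentiableOn ℂ F (closedBall b ρ)) {C : ℝ}
    (h : ∀ ζ ∈ sphere b ρ, ‖F ζ‖ ≤ C) : ∀ ζ ∈ closedBall b ρ, ‖F ζ‖ ≤ C := by
  intro ζ hζ
  have hF' : DifferentiableOn ℂ F (closure (ball b ρ)) := by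
    rw [closure_ball b hρ.ne']; exact hF
  apply Complex.norm_le_of_forall_mem_frontier_norm_le isBounded_ball hF'.diffContOnCl
  · rw [frontier_ball b hρ.ne']
    exact h
  · rw [closure_ball b hρ.ne']
    exact hζ

/-- first case: convergence to a section -/
private theorem ldp_sec {n : ℕ} (hn : 3 ≤ n) {f : ℂ → Fin (n + 1) → ℂ} {b : ℂ} {r ρ : ℝ}
    (hρ : 0 < ρ) (hr : ρ < r) {M : ℕ → ℂ → Fin (n + 1) → ℂ}
    (hM : ∀ᶠ k in atTop, ASec f (ball b r) (M k)) {L : ℂ → Fin (n + 1) → ℂ}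
    (hL : ∀ c ∈ sphere b ρ, ∃ s > 0, ToSec f M L (ball c s)) :
    ∃ φ : ℕ → ℕ, StrictMono φ ∧ ∃ L', ToSec f (fun k => M (φ k)) L' (ball b (ρ / 2)) := by
  -- bound on the circle
  have hcomp : IsCompact (sphere b ρ) := isCompact_sphere b ρ
  have hcont : ∀ c ∈ sphere b ρ, ContinuousAt L c := by
    intro c hc
    obtain ⟨s, hs, hT⟩ := hL c hc
    exact hT.1.1.continuousOn.continuousAt (ball_mem_nhds c hs)
  obtain ⟨C, hC⟩ := hcomp.exists_bound_of_continuousOn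
    (f := L) (fun c hc => (hcont c hc).continuousWithinAt)
  have h1 : ∀ᶠ k in atTop, ∀ ζ ∈ sphere b ρ, ζ ∈ sphere b ρ → ‖M k ζ‖ ≤ C + 1 := by
    apply ldp_compact hcomp (fun k ζ => ζ ∈ sphere b ρ → ‖M k ζ‖ ≤ C + 1)
    intro c hc
    obtain ⟨s, hs, hT⟩ := hL c hc
    refine ⟨ball c s, ball_mem_nhds c hs, ?_⟩
    have := (Metric.tendstoUniformlyOn_iff.mp hT.2) 1 one_pos
    filter_upwards [this] with k hk ζ hζ hζ'
    have h2 := hk ζ hζ
    have h3 := hC ζ hζ'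
    rw [dist_eq_norm] at h2
    have h4 : ‖M k ζ‖ ≤ ‖L ζ‖ + ‖L ζ - M k ζ‖ := by
      calc ‖M k ζ‖ = ‖L ζ - (L ζ - M k ζ)‖ := by rw [sub_sub_cancel]
        _ ≤ _ := norm_sub_le _ _
    linarith
  have h2 : ∀ᶠ k in atTop, DifferentiableOn ℂ (M k) (ball b ρ) ∧
      ∀ ζ ∈ ball b ρ, ‖M k ζ‖ ≤ C + 1 := by
    filter_upwards [h1, hM] with k hk hMk
    refine ⟨hMk.1.mono (ball_subset_ball hr.le), fun ζ hζ => ?_⟩
    exact ldp_max hρ hr hMk.1 (fun ζ hζ => hk ζ hζ hζ) ζ (ball_subset_closedBall hζ)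
  obtain ⟨φ, hφ, L', hd, hU⟩ := MBD hρ M h2
  refine ⟨φ, hφ, L', ⟨hd, ?_⟩, hU⟩
  intro ζ hζ
  have hMφ : ∀ᶠ k in atTop, IsM (f ζ) (M (φ k) ζ) := by
    have := hφ.tendsto_atTop.eventually hM
    filter_upwards [this] with k hk
    exact hk.2 ζ (ball_subset_ball (by linarith) hζ)
  exact IsM_closed (by omega) hMφ tendsto_const_nhds (hU.tendsto_at hζ)

/-- the estimate at a point of the circle -/
private theorem ldp_circle {n : ℕ} (hn : 3 ≤ n) {K Cf CB : ℝ} (hK : 0 < K) {c₀ : ℝ}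
    (hCf : 0 ≤ Cf) (hCB : 0 < CB) (hc₀ : 0 < c₀) {α : ℂ × ℂ}
    (hTAY : ∀ (c : Fin (n + 1) → ℂ) (B α : ℂ × ℂ)
      (g u v : ℂ), form c B = 0 → Grad c B g →
      ‖form c (u • B + v • α) - u ^ (n - 1) * v * (g * wd α B)‖ ≤
        K * ‖c‖ * ‖v‖ ^ 2 * ‖α‖ ^ 2 * (‖u‖ * ‖B‖ + ‖v‖ * ‖α‖) ^ (n - 2)) :
    ∃ D : ℝ, 0 < D ∧ ∃ ε₀ > 0, ∀ ε ≤ ε₀, 0 < ε → ∀ (c : Fin (n + 1) → ℂ) (X B : ℂ × ℂ) (g : ℂ),
      ‖c‖ ≤ Cf → ‖B‖ ≤ CB → c₀ ≤ ‖g‖ → wd B α = 1 → form c B = 0 → Grad c B g →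
      form c X = 1 → ‖wd X B‖ ≤ ε * ‖X‖ * ‖B‖ →
      ‖wd X B‖ ≤ ε * D * ‖wd X α‖ ∧ wd X α ≠ 0 ∧
      ‖g * (wd X B * wd X α ^ (n - 1)) - 1‖ ≤ ε * D := by
  -- constants
  set A : ℝ := ‖α‖ with hA
  have hA0 : 0 ≤ A := norm_nonneg _
  set E : ℝ := K * Cf * (2 * CB ^ 2) * A ^ 2 * (CB + A) ^ (n - 2) with hE
  have hE0 : 0 ≤ E := by positivity
  set D : ℝ := 2 * CB ^ 2 + 2 * (E / c₀) + 1 with hD
  have hD0 : 0 < D := by positivity
  refine ⟨D, hD0, min 1 (min (1 / (2 * (CB * (A + 1)))) (min (1 / (2 * CB ^ 2)) (1 / (2 * (E / c₀ + 1))))),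
    by positivity, ?_⟩
  intro ε hε hε0 c X B g hc hB hg hBα hfB hgr hX hXB
  have he1 : ε ≤ 1 := hε.trans (min_le_left _ _)
  have he2 : ε ≤ 1 / (2 * (CB * (A + 1))) :=
    hε.trans ((min_le_right _ _).trans (min_le_left _ _))
  have he3 : ε ≤ 1 / (2 * CB ^ 2) :=
    hε.trans ((min_le_right _ _).trans ((min_le_right _ _).trans (min_le_left _ _)))
  have he4 : ε ≤ 1 / (2 * (E / c₀ + 1)) :=
    hε.trans ((min_le_right _ _).trans ((min_le_right _ _).trans (min_le_right _ _)))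
  have he2' : ε * (2 * (CB * (A + 1))) ≤ 1 := (le_div_iff₀ (by positivity)).mp he2
  have he3' : ε * (2 * CB ^ 2) ≤ 1 := (le_div_iff₀ (by positivity)).mp he3
  have he4' : ε * (2 * (E / c₀ + 1)) ≤ 1 := (le_div_iff₀ (by positivity)).mp he4
  set u : ℂ := wd X α with hu
  set v : ℂ := - wd X B with hv
  have hdec : X = u • B + v • α := by
    have := wd_decomp B α X
    rw [hBα, one_smul] at this
    rw [hu, hv, neg_smul, ← sub_eq_add_neg]
    exact this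
  have hX0 : X ≠ 0 := by
    rintro rfl
    rw [ldp_form_zero (by omega)] at hX
    exact zero_ne_one hX
  have hXpos : 0 < ‖X‖ := norm_pos_iff.mpr hX0
  have hvn : ‖v‖ = ‖wd X B‖ := by rw [hv, norm_neg]
  have hXle : ‖X‖ ≤ ‖u‖ * ‖B‖ + ‖v‖ * A := by
    calc ‖X‖ = ‖u • B + v • α‖ := by rw [← hdec]
      _ ≤ ‖u • B‖ + ‖v • α‖ := norm_add_le _ _
      _ = _ := by rw [norm_smul, norm_smul]
  have hv1 : ‖v‖ ≤ ε * ‖X‖ * CB := by
    rw [hvn]
    refine hXB.trans ?_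
    exact mul_le_mul_of_nonneg_left hB (by positivity)
  have hXle2 : ‖X‖ ≤ 2 * (‖u‖ * CB) := by
    have h1 : ‖v‖ * A ≤ ‖X‖ / 2 := by
      have : ‖v‖ * A ≤ ε * ‖X‖ * CB * A := mul_le_mul_of_nonneg_right hv1 hA0
      have h3 : ε * ‖X‖ * CB * A ≤ ‖X‖ / 2 * (ε * (2 * (CB * (A + 1)))) := by
        have : 0 ≤ ε * ‖X‖ * CB := by positivity
        nlinarith
      have h4 : ‖X‖ / 2 * (ε * (2 * (CB * (A + 1)))) ≤ ‖X‖ / 2 * 1 :=
        mul_le_mul_of_nonneg_left he2' (by positivity)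
      linarith
    have h2 : ‖u‖ * ‖B‖ ≤ ‖u‖ * CB := mul_le_mul_of_nonneg_left hB (norm_nonneg _)
    linarith
  have hupos : 0 < ‖u‖ := by
    by_contra hcon
    have : ‖u‖ = 0 := le_antisymm (not_lt.mp hcon) (norm_nonneg _)
    rw [this] at hXle2
    linarith
  have hu0 : u ≠ 0 := norm_pos_iff.mp hupos
  have hv2 : ‖v‖ ≤ ε * (2 * CB ^ 2) * ‖u‖ := by
    refine hv1.trans ?_
    have : ε * ‖X‖ * CB ≤ ε * (2 * (‖u‖ * CB)) * CB := by
      have : ε * ‖X‖ ≤ ε * (2 * (‖u‖ * CB)) := mul_le_mul_of_nonneg_left hXle2 hε0.le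
      exact mul_le_mul_of_nonneg_right this hCB.le
    calc ε * ‖X‖ * CB ≤ ε * (2 * (‖u‖ * CB)) * CB := this
      _ = _ := by ring
  have hvu : ‖v‖ ≤ ‖u‖ := by
    calc ‖v‖ ≤ ε * (2 * CB ^ 2) * ‖u‖ := hv2
      _ ≤ 1 * ‖u‖ := mul_le_mul_of_nonneg_right he3' hupos.le
      _ = ‖u‖ := one_mul _
  -- Taylor
  have hT := hTAY c B α g u v hfB hgr
  rw [← hdec, hX] at hT
  have hαB : wd α B = -1 := by
    have : wd α B = - wd B α := by simp [wd]; ring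
    rw [this, hBα]
  set Q : ℂ := g * (wd X B * wd X α ^ (n - 1)) with hQ
  have hQ' : u ^ (n - 1) * v * (g * wd α B) = Q := by
    rw [hαB, hQ, hv, hu]; ring
  rw [hQ'] at hT
  have hT2 : ‖1 - Q‖ ≤ ε * E * (‖u‖ ^ (n - 1) * ‖v‖) := by
    refine hT.trans ?_
    have hsum : ‖u‖ * ‖B‖ + ‖v‖ * ‖α‖ ≤ ‖u‖ * (CB + A) := by
      have h2 : ‖u‖ * ‖B‖ ≤ ‖u‖ * CB := mul_le_mul_of_nonneg_left hB (norm_nonneg _)
      have h3 : ‖v‖ * A ≤ ‖u‖ * A := mul_le_mul_of_nonneg_right hvu hA0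
      rw [mul_add]; exact add_le_add h2 h3
    have hpow : (‖u‖ * ‖B‖ + ‖v‖ * ‖α‖) ^ (n - 2) ≤ (‖u‖ * (CB + A)) ^ (n - 2) :=
      pow_le_pow_left₀ (by positivity) hsum _
    have hvv : ‖v‖ ^ 2 ≤ ε * (2 * CB ^ 2) * ‖u‖ * ‖v‖ := by
      rw [sq]; exact mul_le_mul_of_nonneg_right hv2 (norm_nonneg _)
    have e1 : K * ‖c‖ * ‖v‖ ^ 2 * ‖α‖ ^ 2 ≤ K * Cf * (ε * (2 * CB ^ 2) * ‖u‖ * ‖v‖) * A ^ 2 := by
      have : K * ‖c‖ * ‖v‖ ^ 2 ≤ K * Cf * (ε * (2 * CB ^ 2) * ‖u‖ * ‖v‖) :=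
        mul_le_mul (mul_le_mul_of_nonneg_left hc hK.le) hvv (by positivity) (by positivity)
      exact mul_le_mul_of_nonneg_right this (by positivity)
    calc K * ‖c‖ * ‖v‖ ^ 2 * ‖α‖ ^ 2 * (‖u‖ * ‖B‖ + ‖v‖ * ‖α‖) ^ (n - 2)
        ≤ K * Cf * (ε * (2 * CB ^ 2) * ‖u‖ * ‖v‖) * A ^ 2 * (‖u‖ * (CB + A)) ^ (n - 2) :=
          mul_le_mul e1 hpow (by positivity) (by positivity)
      _ = ε * E * (‖u‖ ^ (n - 2) * ‖u‖ * ‖v‖) := by rw [hE, mul_pow]; ring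
      _ = ε * E * (‖u‖ ^ (n - 1) * ‖v‖) := by
          rw [← pow_succ]
          congr 3
          omega
  have hQn : ‖Q‖ = ‖g‖ * (‖u‖ ^ (n - 1) * ‖v‖) := by
    rw [hQ, norm_mul, norm_mul, norm_pow, ← hvn]; ring
  have hT3 : ‖1 - Q‖ ≤ ε * (E / c₀) * ‖Q‖ := by
    refine hT2.trans ?_
    rw [hQn]
    have h0 : 0 ≤ ‖u‖ ^ (n - 1) * ‖v‖ := by positivity
    have h1 : c₀ * (‖u‖ ^ (n - 1) * ‖v‖) ≤ ‖g‖ * (‖u‖ ^ (n - 1) * ‖v‖) :=
      mul_le_mul_of_nonneg_right hg h0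
    calc ε * E * (‖u‖ ^ (n - 1) * ‖v‖) = ε * (E / c₀) * (c₀ * (‖u‖ ^ (n - 1) * ‖v‖)) := by
          field_simp
      _ ≤ _ := mul_le_mul_of_nonneg_left h1 (by positivity)
  have hQle : ‖Q‖ ≤ 1 + ‖1 - Q‖ := by
    calc ‖Q‖ = ‖1 - (1 - Q)‖ := by rw [sub_sub_cancel]
      _ ≤ ‖(1 : ℂ)‖ + ‖1 - Q‖ := norm_sub_le _ _
      _ = _ := by rw [norm_one]
  have hT4 : ‖1 - Q‖ ≤ ε * (2 * (E / c₀)) := by
    have h0 : 0 ≤ E / c₀ := by positivity
    have h1 : ε * (E / c₀) ≤ 1 / 2 := by nlinarith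
    have h2 : ε * (E / c₀) * ‖Q‖ ≤ ε * (E / c₀) * (1 + ‖1 - Q‖) :=
      mul_le_mul_of_nonneg_left hQle (by positivity)
    have h3 : ε * (E / c₀) * ‖1 - Q‖ ≤ 1 / 2 * ‖1 - Q‖ :=
      mul_le_mul_of_nonneg_right h1 (norm_nonneg _)
    linarith
  refine ⟨?_, hu0, ?_⟩
  · rw [← hvn]
    refine hv2.trans ?_
    apply mul_le_mul_of_nonneg_right _ hupos.le
    apply mul_le_mul_of_nonneg_left _ hε0.le
    rw [hD]
    have : 0 ≤ 2 * (E / c₀) := by positivity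
    linarith
  · rw [norm_sub_rev]
    refine hT4.trans ?_
    apply mul_le_mul_of_nonneg_left _ hε0.le
    rw [hD]
    have : 0 ≤ 2 * CB ^ 2 := by positivity
    linarith

/-- second case: convergence to a root branch -/
private theorem ldp_root {n : ℕ} (hn : 3 ≤ n) {f : ℂ → Fin (n + 1) → ℂ} (hf : Differentiable ℂ f)
    {b : ℂ} {r ρ : ℝ} (hρ : 0 < ρ) (hr : ρ < r) {α : ℂ × ℂ}
    (hα : ∀ ζ ∈ ball b r, form (f ζ) α ≠ 0) {M : ℕ → ℂ → Fin (n + 1) → ℂ}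
    (hM : ∀ᶠ k in atTop, ASec f (ball b r) (M k)) {N : ℂ → Fin (n - 2 + 1) → ℂ}
    (hN : ∀ c ∈ ball b r \ {b}, ∃ s > 0, ToRoot f M N (ball c s)) :
    ∃ N', ToRoot f M N' (ball b (ρ / 2)) := by
  have hr0 : 0 < r := hρ.trans hr
  have hsub : closedBall b ρ ⊆ ball b r := closedBall_subset_ball hr
  have hss : ∀ ζ ∈ sphere b ρ, ζ ∈ ball b r ∧ ζ ≠ b := by
    intro ζ hζ
    refine ⟨hsub (sphere_subset_closedBall hζ), ?_⟩
    rintro rfl
    rw [mem_sphere, dist_self] at hζ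
    exact hρ.ne hζ
  -- extension of the root branch
  have hd : DifferentiableOn ℂ N (ball b r \ {b}) := by
    intro ζ hζ
    obtain ⟨s, hs, hT⟩ := hN ζ hζ
    exact (hT.1.differentiableAt (ball_mem_nhds ζ hs)).differentiableWithinAt
  have hIsN : ∀ ζ ∈ ball b r \ {b}, IsN (f ζ) (N ζ) := by
    intro ζ hζ
    obtain ⟨s, hs, hT⟩ := hN ζ hζ
    exact hT.2.1 ζ (mem_ball_self hs)
  obtain ⟨B, g, dB, dg, hBg, hgN⟩ := EXT hn hf hr0 hα hd hIsN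
  have hα0 : α ≠ 0 := by
    rintro rfl
    exact hα b (mem_ball_self hr0) (ldp_form_zero (by omega) _)
  have hαpos : 0 < ‖α‖ := norm_pos_iff.mpr hα0
  have hB0 : ∀ ζ ∈ ball b r, B ζ ≠ 0 := by
    intro ζ hζ h0
    have := (hBg ζ hζ).1
    rw [h0] at this
    simp [wd] at this
  have hNof : ∀ ζ ∈ ball b r, ζ ≠ b → NofR (f ζ) (B ζ) (N ζ) := by
    intro ζ hζ hζb
    obtain ⟨h1, h2⟩ := hgN ζ hζ hζb
    exact ⟨g ζ, ⟨hB0 ζ hζ, h1, (hBg ζ hζ).2.1, (hBg ζ hζ).2.2⟩, h2⟩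
  -- constants
  have hScomp : IsCompact (sphere b ρ) := isCompact_sphere b ρ
  have hCcomp : IsCompact (closedBall b ρ) := isCompact_closedBall b ρ
  obtain ⟨Cf, hCf⟩ := hCcomp.exists_bound_of_continuousOn (f := f) hf.continuous.continuousOn
  obtain ⟨CB, hCB⟩ := hCcomp.exists_bound_of_continuousOn (f := B) (dB.continuousOn.mono hsub)
  obtain ⟨Cg, hCg⟩ := hScomp.exists_bound_of_continuousOn (f := fun ζ => (g ζ)⁻¹)
    (by
      apply ContinuousOn.inv₀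
      · exact dg.continuousOn.mono (sphere_subset_closedBall.trans hsub)
      · intro ζ hζ
        exact (hgN ζ (hss ζ hζ).1 (hss ζ hζ).2).1)
  have hbb : b ∈ closedBall b ρ := mem_closedBall_self hρ.le
  have hCf0 : 0 ≤ Cf := (norm_nonneg _).trans (hCf b hbb)
  have hCB0 : 0 < CB := (norm_pos_iff.mpr (hB0 b (hsub hbb))).trans_le (hCB b hbb)
  set c₀ : ℝ := (max Cg 1)⁻¹ with hc₀
  have hc₀0 : 0 < c₀ := inv_pos.mpr (lt_of_lt_of_le one_pos (le_max_right _ _))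
  have hgl : ∀ ζ ∈ sphere b ρ, c₀ ≤ ‖g ζ‖ := by
    intro ζ hζ
    have h1 := hCg ζ hζ
    have h2 : g ζ ≠ 0 := (hgN ζ (hss ζ hζ).1 (hss ζ hζ).2).1
    rw [norm_inv] at h1
    rw [hc₀]
    have h3 : 0 < ‖g ζ‖ := norm_pos_iff.mpr h2
    rw [inv_le_comm₀ (lt_of_lt_of_le one_pos (le_max_right _ _)) h3]
    exact h1.trans (le_max_left _ _)
  obtain ⟨K, hK, hTAY⟩ := TAY n (by omega)
  obtain ⟨D, hD, ε₀, hε₀, hcirc⟩ := ldp_circle hn hK hCf0 hCB0 hc₀0 (α := α) hTAY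
  -- the functions Q and A
  have hn0 : 0 < n := by omega
  set i₀ : Fin n := ⟨0, hn0⟩ with hi₀
  set Q : ℕ → ℂ → ℂ := fun k ζ =>
    g ζ * pr (Function.update (fun _ : Fin n => α) i₀ (B ζ)) (M k ζ) with hQ
  set A : ℕ → ℂ → ℂ := fun k ζ => pr (fun _ : Fin n => α) (M k ζ) with hA
  have hQX : ∀ k ζ X, M k ζ = ver n X → Q k ζ = g ζ * (wd X (B ζ) * wd X α ^ (n - 1)) := by
    intro k ζ X hX
    simp only [hQ]
    rw [hX, pr_ver]
    congr 1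
    rw [← Finset.mul_prod_erase Finset.univ _ (Finset.mem_univ i₀)]
    rw [Function.update_self]
    congr 1
    have : ∀ l ∈ Finset.univ.erase i₀, wd X (Function.update (fun _ : Fin n => α) i₀ (B ζ) l) =
        wd X α := by
      intro l hl
      rw [Function.update_of_ne (Finset.ne_of_mem_erase hl)]
    rw [Finset.prod_congr rfl this, Finset.prod_const, Finset.card_erase_of_mem (Finset.mem_univ _),
      Finset.card_univ, Fintype.card_fin]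
  have hAX : ∀ k ζ X, M k ζ = ver n X → A k ζ = wd X α ^ n := by
    intro k ζ X hX
    simp only [hA]
    rw [hX, pr_ver]
    simp
  have dQ : ∀ k, ASec f (ball b r) (M k) → DifferentiableOn ℂ (Q k) (ball b r) := by
    intro k hk
    apply DifferentiableOn.mul dg
    apply pr_diff (A := fun l ζ => Function.update (fun _ : Fin n => α) i₀ (B ζ) l) _ hk.1
    intro l
    by_cases hl : l = i₀
    · subst hl
      simpa using dB
    · have : (fun ζ => Function.update (fun _ : Fin n => α) i₀ (B ζ) l) = fun _ => α := by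
        funext ζ
        rw [Function.update_of_ne hl]
      rw [this]
      exact differentiableOn_const _
  have dA : ∀ k, ASec f (ball b r) (M k) → DifferentiableOn ℂ (A k) (ball b r) := by
    intro k hk
    exact pr_diff (A := fun _ _ => α) (fun _ => differentiableOn_const _) hk.1
  -- convergence on the circle
  have hS : ∀ ε > 0, ∀ᶠ k in atTop, ∀ ζ ∈ sphere b ρ, ∀ X, M k ζ = ver n X →
      ‖wd X (B ζ)‖ ≤ ε * ‖X‖ * ‖B ζ‖ := by
    intro ε hε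
    have := ldp_compact hScomp (fun k ζ => ζ ∈ sphere b ρ → ∀ X, M k ζ = ver n X →
      ‖wd X (B ζ)‖ ≤ ε * ‖X‖ * ‖B ζ‖) (by
        intro c hc
        obtain ⟨s, hs, hT⟩ := hN c ⟨(hss c hc).1, (hss c hc).2⟩
        refine ⟨ball c s, ball_mem_nhds c hs, ?_⟩
        filter_upwards [hT.2.2 ε hε] with k hk ζ hζ hζ' X hX
        exact hk ζ hζ X (B ζ) hX (hNof ζ (hss ζ hζ').1 (hss ζ hζ').2))
    filter_upwards [this] with k hk ζ hζ using hk ζ hζ hζ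
  -- main estimate on the closed ball
  have hmain : ∀ ε > 0, ε ≤ ε₀ → ε * D < 1 → ∀ᶠ k in atTop, g b ≠ 0 ∧ ∀ ζ ∈ closedBall b ρ,
      ∀ X, M k ζ = ver n X → ‖wd X (B ζ)‖ ≤ ε * D * ‖wd X α‖ := by
    intro ε hε hεε hεD
    filter_upwards [hS ε hε, hM] with k hk hMk
    have hex : ∀ ζ ∈ ball b r, ∃ X, form (f ζ) X = 1 ∧ M k ζ = ver n X := fun ζ hζ => hMk.2 ζ hζ
    -- on the circle
    have hc1 : ∀ ζ ∈ sphere b ρ, ∀ X, M k ζ = ver n X →
        ‖wd X (B ζ)‖ ≤ ε * D * ‖wd X α‖ ∧ wd X α ≠ 0 ∧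
          ‖g ζ * (wd X (B ζ) * wd X α ^ (n - 1)) - 1‖ ≤ ε * D := by
      intro ζ hζ X hX
      have hζr := (hss ζ hζ).1
      have hζc := sphere_subset_closedBall hζ
      obtain ⟨X', hX'1, hX'2⟩ := hex ζ hζr
      have hfX : form (f ζ) X = 1 := by
        rw [form_eq, ← hX, hX'2, ← form_eq]; exact hX'1
      exact hcirc ε hεε hε (f ζ) X (B ζ) (g ζ) (hCf ζ hζc) (hCB ζ hζc) (hgl ζ hζ)
        (hBg ζ hζr).1 (hBg ζ hζr).2.1 (hBg ζ hζr).2.2 hfX (hk ζ hζ X hX)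
    have hQ1 : ∀ ζ ∈ closedBall b ρ, ‖Q k ζ - 1‖ ≤ ε * D := by
      apply ldp_max1 hρ (F := fun ζ => Q k ζ - 1)
      · exact ((dQ k hMk).mono hsub).sub (differentiableOn_const _)
      · intro ζ hζ
        obtain ⟨X, _, hX⟩ := hex ζ (hss ζ hζ).1
        rw [hQX k ζ X hX]
        exact (hc1 ζ hζ X hX).2.2
    have hQ0 : ∀ ζ ∈ closedBall b ρ, Q k ζ ≠ 0 := by
      intro ζ hζ h0
      have := hQ1 ζ hζ
      rw [h0, zero_sub, norm_neg, norm_one] at this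
      linarith
    have hg0 : ∀ ζ ∈ closedBall b ρ, g ζ ≠ 0 := by
      intro ζ hζ h0
      apply hQ0 ζ hζ
      simp only [hQ]
      rw [h0, zero_mul]
    have hw0 : ∀ ζ ∈ closedBall b ρ, ∀ X, M k ζ = ver n X → wd X α ≠ 0 := by
      intro ζ hζ X hX h0
      apply hQ0 ζ hζ
      rw [hQX k ζ X hX, h0, zero_pow (by omega), mul_zero, mul_zero]
    have hA0 : ∀ ζ ∈ closedBall b ρ, A k ζ ≠ 0 := by
      intro ζ hζ
      obtain ⟨X, _, hX⟩ := hex ζ (hsub hζ)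
      rw [hAX k ζ X hX]
      exact pow_ne_zero _ (hw0 ζ hζ X hX)
    refine ⟨hg0 b hbb, ?_⟩
    -- the quotient
    have hy : ∀ ζ ∈ closedBall b ρ, ∀ X, M k ζ = ver n X →
        Q k ζ / (g ζ * A k ζ) = wd X (B ζ) / wd X α := by
      intro ζ hζ X hX
      have h1 := hw0 ζ hζ X hX
      have h2 := hg0 ζ hζ
      rw [hQX k ζ X hX, hAX k ζ X hX]
      have h3 : wd X α ^ n = wd X α ^ (n - 1) * wd X α := by
        rw [← pow_succ]; congr 1; omega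
      rw [h3]
      have h4 : wd X α ^ (n - 1) ≠ 0 := pow_ne_zero _ h1
      field_simp
    have hyle : ∀ ζ ∈ closedBall b ρ, ‖Q k ζ / (g ζ * A k ζ)‖ ≤ ε * D := by
      apply ldp_max1 hρ (F := fun ζ => Q k ζ / (g ζ * A k ζ))
      · apply DifferentiableOn.div ((dQ k hMk).mono hsub)
        · exact (dg.mono hsub).mul ((dA k hMk).mono hsub)
        · intro ζ hζ
          exact mul_ne_zero (hg0 ζ hζ) (hA0 ζ hζ)
      · intro ζ hζ
        obtain ⟨X, _, hX⟩ := hex ζ (hss ζ hζ).1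
        rw [hy ζ (sphere_subset_closedBall hζ) X hX, norm_div]
        have h1 := (hc1 ζ hζ X hX).2.1
        rw [div_le_iff₀ (norm_pos_iff.mpr h1)]
        exact (hc1 ζ hζ X hX).1
    intro ζ hζ X hX
    have h1 := hyle ζ hζ
    rw [hy ζ hζ X hX, norm_div, div_le_iff₀ (norm_pos_iff.mpr (hw0 ζ hζ X hX))] at h1
    exact h1
  -- g b ≠ 0
  have hgb : g b ≠ 0 := by
    have hε : 0 < min ε₀ (1 / (2 * D)) := by positivity
    have h1 : min ε₀ (1 / (2 * D)) * D < 1 := by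
      have : min ε₀ (1 / (2 * D)) * D ≤ 1 / (2 * D) * D :=
        mul_le_mul_of_nonneg_right (min_le_right _ _) hD.le
      have h2 : 1 / (2 * D) * D = 1 / 2 := by field_simp
      rw [h2] at this
      linarith
    obtain ⟨k, hk⟩ := (hmain _ hε (min_le_left _ _) h1).exists
    exact hk.1
  have hg0 : ∀ ζ ∈ ball b r, g ζ ≠ 0 := by
    intro ζ hζ
    by_cases hζb : ζ = b
    · rw [hζb]; exact hgb
    · exact (hgN ζ hζ hζb).1
  refine ⟨fun ζ => (g ζ)⁻¹ • ver (n - 2) (B ζ), ?_, ?_, ?_⟩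
  · have hs2 : ball b (ρ / 2) ⊆ ball b r := ball_subset_ball (by linarith)
    have e1 : DifferentiableOn ℂ (fun ζ => (g ζ)⁻¹) (ball b (ρ / 2)) :=
      (dg.mono hs2).inv (fun ζ hζ => hg0 ζ (hs2 hζ))
    exact e1.smul (ver_diff (m := n - 2) (dB.mono hs2))
  · intro ζ hζ
    have hζ' : ζ ∈ ball b r := ball_subset_ball (by linarith) hζ
    exact ⟨B ζ, g ζ, ⟨hB0 ζ hζ', hg0 ζ hζ', (hBg ζ hζ').2.1, (hBg ζ hζ').2.2⟩, rfl⟩
  · intro ε hε
    -- choose a smaller epsilon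
    set δ : ℝ := min ε₀ (min (1 / (2 * D)) (ε / (D * (4 * ‖α‖ ^ 2)))) with hδ
    have hδ0 : 0 < δ := by positivity
    have hδ1 : δ * D < 1 := by
      have h0 : δ ≤ 1 / (2 * D) := (min_le_right _ _).trans (min_le_left _ _)
      have : δ * D ≤ 1 / (2 * D) * D := mul_le_mul_of_nonneg_right h0 hD.le
      have h2 : 1 / (2 * D) * D = 1 / 2 := by field_simp
      rw [h2] at this
      linarith
    have hδ2 : δ * D * (4 * ‖α‖ ^ 2) ≤ ε := by
      have h0 : δ ≤ ε / (D * (4 * ‖α‖ ^ 2)) := (min_le_right _ _).trans (min_le_right _ _)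
      rw [le_div_iff₀ (by positivity)] at h0
      linarith
    filter_upwards [hmain δ hδ0 (min_le_left _ _) hδ1] with k hk ζ hζ X B' hX hB'
    have hζc : ζ ∈ closedBall b ρ := ball_subset_closedBall (ball_subset_ball (by linarith) hζ)
    have hζr : ζ ∈ ball b r := hsub hζc
    have h1 := hk.2 ζ hζc X hX
    have hwB := (hBg ζ hζr).1
    have h2 : ‖wd X (B ζ)‖ ≤ ε * ‖X‖ * ‖B ζ‖ := by
      have h3 : ‖wd X α‖ ≤ 2 * ‖X‖ * ‖α‖ := norm_wd_le X α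
      have h4 : 1 ≤ 2 * ‖B ζ‖ * ‖α‖ := by
        have := norm_wd_le (B ζ) α
        rw [hwB, norm_one] at this
        exact this
      calc ‖wd X (B ζ)‖ ≤ δ * D * ‖wd X α‖ := h1
        _ ≤ δ * D * (2 * ‖X‖ * ‖α‖) := mul_le_mul_of_nonneg_left h3 (by positivity)
        _ = δ * D * (2 * ‖X‖ * ‖α‖) * 1 := by ring
        _ ≤ δ * D * (2 * ‖X‖ * ‖α‖) * (2 * ‖B ζ‖ * ‖α‖) :=
            mul_le_mul_of_nonneg_left h4 (by positivity)
        _ = δ * D * (4 * ‖α‖ ^ 2) * (‖X‖ * ‖B ζ‖) := by ring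
        _ ≤ ε * (‖X‖ * ‖B ζ‖) := mul_le_mul_of_nonneg_right hδ2 (by positivity)
        _ = ε * ‖X‖ * ‖B ζ‖ := by ring
    have hNofB : NofR (f ζ) (B ζ) ((g ζ)⁻¹ • ver (n - 2) (B ζ)) :=
      ⟨g ζ, ⟨hB0 ζ hζr, hg0 ζ hζr, (hBg ζ hζr).2.1, (hBg ζ hζr).2.2⟩, rfl⟩
    have hww := NofR_wd hn hNofB hB'
    obtain ⟨g', ⟨hB'0, _⟩, _⟩ := hB'
    obtain ⟨s, hs, hs'⟩ := exists_smul_of_wd (hB0 ζ hζr) hB'0 hww
    have h5 : wd X B' = s * wd X (B ζ) := by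
      rw [hs']; simp [wd]; ring
    have h6 : ‖B'‖ = ‖s‖ * ‖B ζ‖ := by rw [hs', norm_smul]
    rw [h5, h6, norm_mul]
    calc ‖s‖ * ‖wd X (B ζ)‖ ≤ ‖s‖ * (ε * ‖X‖ * ‖B ζ‖) :=
          mul_le_mul_of_nonneg_left h2 (norm_nonneg _)
      _ = ε * ‖X‖ * (‖s‖ * ‖B ζ‖) := by ring

/-- The local dichotomy at a point follows from the one at the other points near it. -/
theorem LDP {n : ℕ} (hn : 3 ≤ n) {f : ℂ → Fin (n + 1) → ℂ} (hf : Differentiable ℂ f)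
    (h0 : ∀ ζ, f ζ ≠ 0) {b : ℂ} {r₀ : ℝ} (hr₀ : 0 < r₀)
    (h : ∀ ζ ∈ ball b r₀, ζ ≠ b → LDi f ζ) : LDi f b := by
  intro r hr
  obtain ⟨α, hα⟩ := ldp_exists_alpha (h0 b)
  have hcont : Continuous (fun ζ => form (f ζ) α) := form_cont hf.continuous continuous_const
  obtain ⟨r₁, hr₁, hr₁α⟩ : ∃ r₁ > 0, ∀ ζ ∈ ball b r₁, form (f ζ) α ≠ 0 := by
    have := hcont.continuousAt.eventually_ne hα
    obtain ⟨r₁, hr₁, h1⟩ := Metric.mem_nhds_iff.mp this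
    exact ⟨r₁, hr₁, fun ζ hζ => h1 hζ⟩
  set r' : ℝ := min r (min r₀ r₁) with hr'
  have hr'0 : 0 < r' := by positivity
  have hr'r : r' ≤ r := min_le_left _ _
  have hr'0' : r' ≤ r₀ := (min_le_right _ _).trans (min_le_left _ _)
  have hr'1 : r' ≤ r₁ := (min_le_right _ _).trans (min_le_right _ _)
  set ρ : ℝ := 2 * r' / 3 with hρ
  have hρ0 : 0 < ρ := by positivity
  have hρr' : ρ < r' := by rw [hρ]; linarith
  refine ⟨ρ / 2, by positivity, ?_⟩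
  intro M hM
  have hU : IsOpen (ball b r' \ {b}) := isOpen_ball.sdiff isClosed_singleton
  obtain ⟨φ, hφ, hφ'⟩ := GDI hn hf.continuous h0 hU (ldp_preconn b hr'0)
    (fun c hc => h c (ball_subset_ball hr'0' hc.1) hc.2) M (by
      intro c hc
      obtain ⟨s, hs, hsc⟩ := Metric.isOpen_iff.mp hU c hc
      refine ⟨s, hs, ?_⟩
      filter_upwards [hM] with k hk
      exact ldp_asec_mono (fun ζ hζ => ball_subset_ball hr'r (hsc hζ).1) hk)
  have hMφ : ∀ᶠ k in atTop, ASec f (ball b r') (M (φ k)) := by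
    have := hφ.tendsto_atTop.eventually hM
    filter_upwards [this] with k hk
    exact ldp_asec_mono (ball_subset_ball hr'r) hk
  rcases hφ' with ⟨L, hL⟩ | ⟨N, hN⟩
  · obtain ⟨ψ, hψ, L', hL'⟩ := ldp_sec hn hρ0 hρr' (M := fun k => M (φ k)) hMφ (L := L) (by
      intro c hc
      apply hL c
      refine ⟨closedBall_subset_ball hρr' (sphere_subset_closedBall hc), ?_⟩
      rintro rfl
      rw [mem_sphere, dist_self] at hc
      exact hρ0.ne hc)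
    exact ⟨fun k => φ (ψ k), hφ.comp hψ, Or.inl ⟨L', hL'⟩⟩
  · obtain ⟨N', hN'⟩ := ldp_root hn hf hρ0 hρr' (α := α)
      (fun ζ hζ => hr₁α ζ (ball_subset_ball hr'1 hζ)) (M := fun k => M (φ k)) hMφ (N := N) hN
    exact ⟨φ, hφ, Or.inr ⟨N', hN'⟩⟩

end Pool.Agent.EPO
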