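import Pool.Agent.EPO.INV

open scoped Manifold Topology LinearAlgebra.Projectivization
open Filter Metric Set

namespace Pool.Agent.EPO

variable {Λ : Submodule ℤ ℂ} [DiscreteTopology Λ] {n : ℕ}
  {f : ℂ → Fin (n + 1) → ℂ} {C : Type*} [TopologicalSpace C] [ChartedSpace ℂ C]
  [IsManifold 𝓘(ℂ, ℂ) 1 C] {z : C → ℂ ⧸ Λ} {x : C → ℙ ℂ (ℂ × ℂ)}

/-- transition maps are holomorphic -/
private theorem LIF_trans_analytic {p q r : C} (hp : r ∈ (chartAt ℂ p).source)
    (hq : r ∈ (chartAt ℂ q).source) :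
    AnalyticAt ℂ (chartAt ℂ p ∘ (chartAt ℂ q).symm) (chartAt ℂ q r) := by
  have h1 : chartAt ℂ q r ∈ ((extChartAt 𝓘(ℂ, ℂ) q).symm ≫ extChartAt 𝓘(ℂ, ℂ) p).source := by
    simp [hp, hq]
  have h2 := contDiffWithinAt_ext_coord_change (I := 𝓘(ℂ, ℂ)) (n := 1) p q h1
  simp only [mfld_simps] at h2
  rw [contDiffWithinAt_univ] at h2
  have h3 : ∀ᶠ y in 𝓝 (chartAt ℂ q r),
      DifferentiableAt ℂ (chartAt ℂ p ∘ (chartAt ℂ q).symm) y := by
    filter_upwards [h2.eventually (by simp)] with y hy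
    exact hy.differentiableAt (by simp)
  exact Complex.analyticAt_iff_eventually_differentiableAt.2 h3

private theorem LIF_left {p q r : C} (hp : r ∈ (chartAt ℂ p).source)
    (hq : r ∈ (chartAt ℂ q).source) :
    ∀ᶠ t in 𝓝 (chartAt ℂ q r), (chartAt ℂ q).symm t ∈ (chartAt ℂ p).source := by
  have h1 : ContinuousAt (chartAt ℂ q).symm (chartAt ℂ q r) :=
    (chartAt ℂ q).continuousAt_symm ((chartAt ℂ q).map_source hq)
  apply h1.eventually_mem
  rw [(chartAt ℂ q).left_inv hq]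
  exact (chartAt ℂ p).open_source.mem_nhds hp

private theorem LIF_trans_deriv {p q r : C} (hp : r ∈ (chartAt ℂ p).source)
    (hq : r ∈ (chartAt ℂ q).source) :
    deriv (chartAt ℂ p ∘ (chartAt ℂ q).symm) (chartAt ℂ q r) ≠ 0 := by
  have h1 := (LIF_trans_analytic hp hq).differentiableAt
  have h2 := (LIF_trans_analytic hq hp).differentiableAt
  have h3 : (chartAt ℂ p ∘ (chartAt ℂ q).symm) (chartAt ℂ q r) = chartAt ℂ p r := by
    simp [hq]
  rw [← h3] at h2
  have h4 := deriv_comp (chartAt ℂ q r) h2 h1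
  have h5 : (chartAt ℂ q ∘ (chartAt ℂ p).symm) ∘ (chartAt ℂ p ∘ (chartAt ℂ q).symm)
      =ᶠ[𝓝 (chartAt ℂ q r)] id := by
    have h6 : ∀ᶠ t in 𝓝 (chartAt ℂ q r), t ∈ (chartAt ℂ q).target :=
      (chartAt ℂ q).open_target.mem_nhds ((chartAt ℂ q).map_source hq)
    filter_upwards [LIF_left hp hq, h6] with t ht ht'
    simp [ht, ht']
  rw [h5.deriv_eq, deriv_id] at h4
  intro h7
  rw [h7, mul_zero] at h4
  exact one_ne_zero h4

private theorem LIF_congr {E : Type*} (g : C → E) {p q r : C} (hp : r ∈ (chartAt ℂ p).source)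
    (hq : r ∈ (chartAt ℂ q).source) :
    g ∘ (chartAt ℂ q).symm =ᶠ[𝓝 (chartAt ℂ q r)]
      (g ∘ (chartAt ℂ p).symm) ∘ (chartAt ℂ p ∘ (chartAt ℂ q).symm) := by
  filter_upwards [LIF_left hp hq] with t ht
  simp [ht]

/-- The order can be computed in any preferred chart. -/
private theorem LIF_ord (g : C → ℂ) {p q : C} (hq : q ∈ (chartAt ℂ p).source) :
    ordAt g q = analyticOrderAt (g ∘ (chartAt ℂ p).symm) (chartAt ℂ p q) := by
  have hq' : q ∈ (chartAt ℂ q).source := mem_chart_source ℂ q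
  unfold ordAt
  rw [analyticOrderAt_congr (LIF_congr g hq hq'),
    analyticOrderAt_comp_of_deriv_ne_zero (LIF_trans_analytic hq hq') (LIF_trans_deriv hq hq')]
  simp [hq']

private theorem LIF_hol {g : C → ℂ} {p q : C} (hq : q ∈ (chartAt ℂ p).source)
    (hg : AnalyticAt ℂ (g ∘ (chartAt ℂ p).symm) (chartAt ℂ p q)) : HolAt g q := by
  have hq' : q ∈ (chartAt ℂ q).source := mem_chart_source ℂ q
  unfold HolAt
  refine AnalyticAt.congr ?_ (LIF_congr g hq hq').symm
  refine AnalyticAt.comp ?_ (LIF_trans_analytic hq hq')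
  simpa [hq'] using hg

/-- Holomorphy and order at points near `p` can be computed in the chart at `p`. -/
theorem HolAt_near {g : C → ℂ} {p : C} (hg : HolAt g p) : ∀ᶠ q in 𝓝 p, HolAt g q ∧
    ordAt g q = analyticOrderAt (g ∘ (chartAt ℂ p).symm) (chartAt ℂ p q) ∧
    ordAt (fun q' => g q' - g q) q =
      analyticOrderAt (fun t => (g ∘ (chartAt ℂ p).symm) t - g q) (chartAt ℂ p q) := by
  have h1 : ∀ᶠ t in 𝓝 (chartAt ℂ p p), AnalyticAt ℂ (g ∘ (chartAt ℂ p).symm) t :=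
    hg.eventually_analyticAt
  have h2 : ∀ᶠ q in 𝓝 p, AnalyticAt ℂ (g ∘ (chartAt ℂ p).symm) (chartAt ℂ p q) :=
    ((chartAt ℂ p).continuousAt (mem_chart_source ℂ p)).eventually h1
  have h3 : ∀ᶠ q in 𝓝 p, q ∈ (chartAt ℂ p).source := chart_source_mem_nhds ℂ p
  filter_upwards [h2, h3] with q hq hq'
  exact ⟨LIF_hol hq' hq, LIF_ord g hq', LIF_ord _ hq'⟩

/-- a continuous function with values in the lattice is locally constant -/
private theorem LIF_const {g : ℂ → ℂ} {t₀ : ℂ} (hg : ContinuousAt g t₀)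
    (h : ∀ᶠ t in 𝓝 t₀, g t ∈ Λ) : ∀ᶠ t in 𝓝 t₀, g t = g t₀ := by
  obtain ⟨ρ, hρ, hρ'⟩ : ∃ ρ > 0, ∀ ω ∈ Λ, ‖ω‖ < ρ → ω = 0 := by
    have h1 : ({0} : Set Λ) ∈ 𝓝 (0 : Λ) := (isOpen_discrete _).mem_nhds rfl
    obtain ⟨ρ, hρ, h2⟩ := Metric.mem_nhds_iff.1 h1
    refine ⟨ρ, hρ, fun ω hω hn => ?_⟩
    have h3 : (⟨ω, hω⟩ : Λ) ∈ ball (0 : Λ) ρ := by
      rw [mem_ball_zero_iff]
      exact hn
    have h4 := h2 h3
    simpa using h4
  have h0 : g t₀ ∈ Λ := h.self_of_nhds
  have h1 : ∀ᶠ t in 𝓝 t₀, g t ∈ ball (g t₀) ρ := hg.eventually_mem (ball_mem_nhds _ hρ)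
  filter_upwards [h, h1] with t ht ht'
  have h2 : g t - g t₀ = 0 := by
    refine hρ' _ (Λ.sub_mem ht h0) ?_
    rwa [mem_ball, dist_eq_norm] at ht'
  exact sub_eq_zero.1 h2

private theorem LIF_form {F : ℂ → Fin (n + 1) → ℂ} {Y : ℂ → ℂ × ℂ} {t₀ : ℂ}
    (hF : ∀ i, AnalyticAt ℂ (fun t => F t i) t₀) (h1 : AnalyticAt ℂ (fun t => (Y t).1) t₀)
    (h2 : AnalyticAt ℂ (fun t => (Y t).2) t₀) : AnalyticAt ℂ (fun t => form (F t) (Y t)) t₀ := by
  unfold form
  refine Finset.analyticAt_fun_sum _ fun i _ => ?_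
  exact (hF i).mul ((h1.pow _).mul (h2.pow _))

/-- the form along a lift is analytic in the chart -/
private theorem LIF_an (hf : IsCurve Λ f) {p : C} {h : C → ℂ} {X : C → ℂ × ℂ}
    (hl : IsLift Λ z x p h X) :
    AnalyticAt ℂ ((fun q => form (f (h q)) (X q)) ∘ (chartAt ℂ p).symm) (chartAt ℂ p p) := by
  have h0 : AnalyticAt ℂ f (h ((chartAt ℂ p).symm (chartAt ℂ p p))) := hf.hol.analyticAt _
  have h1 : AnalyticAt ℂ (fun t => f ((h ∘ (chartAt ℂ p).symm) t)) (chartAt ℂ p p) :=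
    AnalyticAt.comp' h0 hl.hol
  refine LIF_form (F := fun t => f ((h ∘ (chartAt ℂ p).symm) t))
    (Y := fun t => X ((chartAt ℂ p).symm t)) (fun i => ?_) hl.hol₁ hl.hol₂
  exact (analyticAt_pi_iff.1 h1) i

/-- Independence of the lifts. -/
theorem LIF (hf : IsCurve Λ f) {p : C} {h h' : C → ℂ} {X X' : C → ℂ × ℂ}
    (hl : IsLift Λ z x p h X) (hl' : IsLift Λ z x p h' X') :
    ordAt (fun q => h q - h p) p = ordAt (fun q => h' q - h' p) p ∧
      ordAt (fun q => form (f (h q)) (X q)) p = ordAt (fun q => form (f (h' q)) (X' q)) p := by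
  set φ := (chartAt ℂ p).symm with hφ
  set t₀ := chartAt ℂ p p with ht₀
  have hφt : φ t₀ = p := by simp [hφ, ht₀]
  have hφc : Tendsto φ (𝓝 t₀) (𝓝 p) := by
    have h1 : ContinuousAt φ t₀ :=
      (chartAt ℂ p).continuousAt_symm ((chartAt ℂ p).map_source (mem_chart_source ℂ p))
    have h2 := h1.tendsto
    rwa [hφt] at h2
  have hH : AnalyticAt ℂ (fun t => h (φ t)) t₀ := hl.hol
  have hH' : AnalyticAt ℂ (fun t => h' (φ t)) t₀ := hl'.hol
  -- the lifts of `z` differ by a period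
  have e1 : ∀ᶠ t in 𝓝 t₀, h' (φ t) - h (φ t) ∈ Λ := by
    filter_upwards [hφc.eventually hl.lift_z, hφc.eventually hl'.lift_z] with t h1 h2
    rw [h1] at h2
    exact (Submodule.Quotient.eq Λ).1 h2.symm
  have e2 := LIF_const (g := fun t => h' (φ t) - h (φ t)) (hH'.sub hH).continuousAt e1
  set ω := h' (φ t₀) - h (φ t₀) with hω
  have hωΛ : ω ∈ Λ := e1.self_of_nhds
  have e3 : ∀ᶠ t in 𝓝 t₀, h' (φ t) = h (φ t) + ω := by
    filter_upwards [e2] with t ht
    have ht' : h' (φ t) - h (φ t) = ω := ht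
    linear_combination ht'
  refine ⟨?_, ?_⟩
  · unfold ordAt
    refine analyticOrderAt_congr ?_
    filter_upwards [e3] with t ht
    have h0 : h' p = h p + ω := by
      have := e3.self_of_nhds
      rwa [hφt] at this
    simp only [Function.comp_apply]
    rw [ht, h0]
    ring
  · obtain ⟨j, hj0, hj⟩ := hf.aut ω hωΛ
    have hjd : Differentiable ℂ j := j_diff hf.hol hf.no_fibre hj
    -- the quotient of the homogeneous coordinates
    have hX0 : X (φ t₀) ≠ 0 := by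
      obtain ⟨hX, -⟩ := (hφc.eventually hl.lift_x).self_of_nhds
      exact hX
    obtain ⟨c, hc⟩ : ∃ c : ℂ × ℂ, c.1 * (X (φ t₀)).1 + c.2 * (X (φ t₀)).2 ≠ 0 := by
      by_cases h1 : (X (φ t₀)).1 = 0
      · refine ⟨(0, 1), ?_⟩
        simp only [zero_mul, one_mul, zero_add]
        intro h2
        exact hX0 (Prod.ext h1 h2)
      · exact ⟨(1, 0), by simpa using h1⟩
    have hl1 : AnalyticAt ℂ (fun t => c.1 * (X (φ t)).1 + c.2 * (X (φ t)).2) t₀ :=
      (analyticAt_const.mul hl.hol₁).add (analyticAt_const.mul hl.hol₂)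
    have hl2 : AnalyticAt ℂ (fun t => c.1 * (X' (φ t)).1 + c.2 * (X' (φ t)).2) t₀ :=
      (analyticAt_const.mul hl'.hol₁).add (analyticAt_const.mul hl'.hol₂)
    set u : ℂ → ℂ := fun t => (c.1 * (X' (φ t)).1 + c.2 * (X' (φ t)).2) /
      (c.1 * (X (φ t)).1 + c.2 * (X (φ t)).2) with hu
    have hua : AnalyticAt ℂ u t₀ := hl2.div hl1 hc
    have e4 : ∀ᶠ t in 𝓝 t₀, c.1 * (X (φ t)).1 + c.2 * (X (φ t)).2 ≠ 0 :=
      hl1.continuousAt.eventually_ne hc
    have e5 : ∀ᶠ t in 𝓝 t₀, u t ≠ 0 ∧ X' (φ t) = u t • X (φ t) := by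
      filter_upwards [hφc.eventually hl.lift_x, hφc.eventually hl'.lift_x, e4] with t h1 h2 h3
      obtain ⟨a1, b1⟩ := h1
      obtain ⟨a2, b2⟩ := h2
      rw [b1, Projectivization.mk_eq_mk_iff] at b2
      obtain ⟨s, hs⟩ := b2
      have hs0 : (s : ℂ) ≠ 0 := s.ne_zero
      have hs1 : (s : ℂ) • X' (φ t) = X (φ t) := hs
      have hs2 : X' (φ t) = (s : ℂ)⁻¹ • X (φ t) := by
        rw [← hs1, smul_smul, inv_mul_cancel₀ hs0, one_smul]
      have hut : u t = (s : ℂ)⁻¹ := by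
        simp only [hu]
        rw [hs2]
        simp only [Prod.smul_fst, Prod.smul_snd, smul_eq_mul]
        rw [div_eq_iff h3]
        ring
      rw [hut]
      exact ⟨inv_ne_zero hs0, hs2⟩
    have hjH : AnalyticAt ℂ (fun t => j (h (φ t))) t₀ :=
      AnalyticAt.comp' (hjd.analyticAt _) hH
    have hfac : AnalyticAt ℂ (fun t => j (h (φ t)) * u t ^ n) t₀ := hjH.mul (hua.pow _)
    have hG := LIF_an hf hl
    have e6 : ((fun q => form (f (h' q)) (X' q)) ∘ φ) =ᶠ[𝓝 t₀]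
        ((fun t => j (h (φ t)) * u t ^ n) * ((fun q => form (f (h q)) (X q)) ∘ φ)) := by
      filter_upwards [e3, e5] with t h1 h2
      simp only [Function.comp_apply, Pi.mul_apply]
      rw [h1, h2.2, hj, form_smul_left, form_smul_right]
      ring
    have h7 : ordAt (fun q => form (f (h' q)) (X' q)) p =
        analyticOrderAt ((fun q => form (f (h' q)) (X' q)) ∘ φ) t₀ := rfl
    have h8 : ordAt (fun q => form (f (h q)) (X q)) p =
        analyticOrderAt ((fun q => form (f (h q)) (X q)) ∘ φ) t₀ := rfl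
    rw [h7, h8, analyticOrderAt_congr e6, analyticOrderAt_mul hfac hG]
    have h9 : analyticOrderAt (fun t => j (h (φ t)) * u t ^ n) t₀ = 0 := by
      rw [hfac.analyticOrderAt_eq_zero]
      exact mul_ne_zero (hj0 _) (pow_ne_zero _ e5.self_of_nhds.1)
    rw [h9, zero_add]

theorem IsLift_near {p : C} {h : C → ℂ} {X : C → ℂ × ℂ} (hl : IsLift Λ z x p h X) :
    ∀ᶠ q in 𝓝 p, IsLift Λ z x q h X := by
  filter_upwards [HolAt_near hl.hol, HolAt_near hl.hol₁, HolAt_near hl.hol₂,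
    eventually_eventually_nhds.2 hl.lift_z, eventually_eventually_nhds.2 hl.lift_x]
    with q h1 h2 h3 h4 h5
  exact ⟨h1.1, h2.1, h3.1, h4, h5⟩

/-- The special points are isolated. -/
theorem LIF_isolated (hf : IsCurve Λ f) {e k : C → ℕ}
    (H : ∀ p, Local Λ f z x p (e p) (k p)) (p : C) :
    ∀ᶠ q in 𝓝[≠] p, e q = 1 ∧ k q = 0 := by
  obtain ⟨h, X, hl, he, hk⟩ := H p
  set φ := (chartAt ℂ p).symm with hφ
  set t₀ := chartAt ℂ p p with ht₀
  have hφt : φ t₀ = p := by simp [hφ, ht₀]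
  have hH : AnalyticAt ℂ (fun t => h (φ t)) t₀ := hl.hol
  have hG : AnalyticAt ℂ (fun t => form (f (h (φ t))) (X (φ t))) t₀ := LIF_an hf hl
  -- the derivative does not vanish near `t₀`
  have d1 : ∀ᶠ t in 𝓝[≠] t₀, deriv (fun t => h (φ t)) t ≠ 0 := by
    rcases hH.deriv.eventually_eq_zero_or_eventually_ne_zero with h1 | h1
    · exfalso
      have h2 : ∀ᶠ t in 𝓝 t₀, h (φ t) - h p = 0 := by
        obtain ⟨r, hr, hr'⟩ := Metric.eventually_nhds_iff_ball.1
          (h1.and hH.eventually_analyticAt)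
        refine Metric.eventually_nhds_iff_ball.2 ⟨r, hr, fun t ht => ?_⟩
        have h3 := (convex_ball t₀ r).is_const_of_fderivWithin_eq_zero (𝕜 := ℂ)
          (f := fun t => h (φ t))
          (fun y hy => (hr' y hy).2.differentiableAt.differentiableWithinAt)
          (fun y hy => by
            rw [fderivWithin_of_isOpen isOpen_ball hy]
            ext
            simpa using (hr' y hy).1) ht (mem_ball_self hr)
        have h3' : h (φ t) = h (φ t₀) := h3
        rw [h3', hφt, sub_self]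
      have h4 : ordAt (fun q => h q - h p) p = ⊤ := analyticOrderAt_eq_top.2 h2
      rw [he] at h4
      exact ENat.natCast_ne_top _ h4
    · exact h1
  have d2 : ∀ᶠ t in 𝓝[≠] t₀, form (f (h (φ t))) (X (φ t)) ≠ 0 := by
    rcases hG.eventually_eq_zero_or_eventually_ne_zero with h1 | h1
    · exfalso
      have h4 : ordAt (fun q => form (f (h q)) (X q)) p = ⊤ := analyticOrderAt_eq_top.2 h1
      rw [hk] at h4
      exact ENat.natCast_ne_top _ h4
    · exact h1
  have hmap : Tendsto (chartAt ℂ p) (𝓝[≠] p) (𝓝[≠] t₀) := by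
    refine tendsto_nhdsWithin_of_tendsto_nhds_of_eventually_within _
      (((chartAt ℂ p).continuousAt (mem_chart_source ℂ p)).tendsto.mono_left
        nhdsWithin_le_nhds) ?_
    filter_upwards [mem_nhdsWithin_of_mem_nhds (chart_source_mem_nhds ℂ p),
      self_mem_nhdsWithin] with q hq hq' h1
    exact hq' ((chartAt ℂ p).injOn hq (mem_chart_source ℂ p) h1)
  have d3 := hH.eventually_analyticAt
  have d4 := hG.eventually_analyticAt
  filter_upwards [hmap.eventually d1, hmap.eventually d2,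
    hmap.eventually (d3.filter_mono nhdsWithin_le_nhds),
    hmap.eventually (d4.filter_mono nhdsWithin_le_nhds),
    (IsLift_near hl).filter_mono nhdsWithin_le_nhds,
    mem_nhdsWithin_of_mem_nhds (chart_source_mem_nhds ℂ p)] with q h1 h2 h3 h4 h5 h6
  obtain ⟨h', X', hl', he', hk'⟩ := H q
  obtain ⟨h7, h8⟩ := LIF hf h5 hl'
  rw [he'] at h7
  rw [hk'] at h8
  have hφq : φ (chartAt ℂ p q) = q := by simp [hφ, h6]
  have h9 : ordAt (fun q' => h q' - h q) q = 1 := by
    rw [LIF_ord _ h6]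
    have h10 := h3.analyticOrderAt_sub_eq_one_of_deriv_ne_zero h1
    rw [hφq] at h10
    exact h10
  have h11 : ordAt (fun q' => form (f (h q')) (X q')) q = 0 := by
    rw [LIF_ord _ h6]
    exact h4.analyticOrderAt_eq_zero.2 h2
  rw [h9] at h7
  rw [h11] at h8
  exact ⟨by exact_mod_cast h7.symm, by exact_mod_cast h8.symm⟩

end Pool.Agent.EPO
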