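import Pool.Agent.EPO.Defs2

open scoped Manifold Topology LinearAlgebra.Projectivization
open Filter Metric Set

namespace Pool.Agent.EPO

/-- Liouville: the bounded products are constant, which contradicts `moves`. -/
theorem LIO {Λ : Submodule ℤ ℂ} {n : ℕ} {f : ℂ → Fin (n + 1) → ℂ} (hf : IsCurve Λ f)
    {m : ℕ} {V : ℂ → Fin m → ℂ} (hV : Differentiable ℂ V) (hne : ∀ ζ, V ζ ≠ 0) {C : ℝ}
    (hb : ∀ ζ, ‖f ζ‖ * ‖V ζ‖ ≤ C) : False := by
  obtain ⟨ζ, ζ', hind⟩ := hf.moves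
  have hconst : ∀ (i : Fin (n + 1)) (k : Fin m), f ζ i * V ζ k = f ζ' i * V ζ' k := by
    intro i k
    have hd : Differentiable ℂ (fun z => f z i * V z k) :=
      (differentiable_pi.1 hf.hol i).mul (differentiable_pi.1 hV k)
    have hbd : Bornology.IsBounded (Set.range (fun z => f z i * V z k)) := by
      rw [isBounded_iff_forall_norm_le]
      refine ⟨C, ?_⟩
      rintro _ ⟨z, rfl⟩
      calc ‖f z i * V z k‖ = ‖f z i‖ * ‖V z k‖ := norm_mul _ _
        _ ≤ ‖f z‖ * ‖V z‖ := mul_le_mul (norm_le_pi_norm _ i) (norm_le_pi_norm _ k)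
            (norm_nonneg _) (norm_nonneg _)
        _ ≤ C := hb z
    exact hd.apply_eq_apply_of_bounded hbd ζ ζ'
  obtain ⟨k, hk⟩ : ∃ k, V ζ k ≠ 0 := Function.ne_iff.1 (hne ζ)
  have hrel : V ζ k • f ζ + (-V ζ' k) • f ζ' = 0 := by
    funext i
    have := hconst i k
    simp only [Pi.add_apply, Pi.smul_apply, smul_eq_mul, Pi.zero_apply]
    linear_combination this
  exact hk (LinearIndependent.pair_iff.1 hind _ _ hrel).1

end Pool.Agent.EPO
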