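import Pool.Agent.EPO.Defs2

open scoped Manifold Topology LinearAlgebra.Projectivization
open Filter Metric Set

namespace Pool.Agent.EPO

theorem LLB_small {P : ℂ → Prop} {ζ : ℂ} (h : ∀ᶠ η in 𝓝 ζ, P η) :
    ∀ᶠ r in 𝓝[>] (0 : ℝ), ∀ η ∈ closedBall ζ |r|, P η := by
  obtain ⟨ε, hε, hP⟩ := Metric.eventually_nhds_iff_ball.1 h
  filter_upwards [Ioo_mem_nhdsGT hε] with r hr η hη
  apply hP
  rw [mem_closedBall, abs_of_pos hr.1] at hη
  exact mem_ball.2 (hη.trans_lt hr.2)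

theorem LL.mono {ψ : ℂ → ℝ} {ζ : ℂ} {c c' : ℝ} (h : LL ψ ζ c) (hc : c' ≤ c) : LL ψ ζ c' := by
  intro c'' h'
  exact h c'' (h'.trans_le hc)

theorem LL.add {ψ₁ ψ₂ : ℂ → ℝ} {ζ : ℂ} {c₁ c₂ : ℝ} (h₁ : LL ψ₁ ζ c₁) (h₂ : LL ψ₂ ζ c₂) :
    LL (fun η => ψ₁ η + ψ₂ η) ζ (c₁ + c₂) := by
  intro c' hc'
  filter_upwards [h₁ (c₁ - (c₁ + c₂ - c') / 2) (by linarith),
    h₂ (c₂ - (c₁ + c₂ - c') / 2) (by linarith)] with r ha hb
  refine ⟨ha.1.add hb.1, ?_⟩
  rw [Real.circleAverage_fun_add ha.1 hb.1]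
  have e1 := ha.2
  have e2 := hb.2
  show ψ₁ ζ + ψ₂ ζ + c' * r ^ 2 ≤ _
  have e3 : (c₁ - (c₁ + c₂ - c') / 2) * r ^ 2 + (c₂ - (c₁ + c₂ - c') / 2) * r ^ 2 = c' * r ^ 2 := by
    ring
  linarith

theorem LL.const (a : ℝ) (ζ : ℂ) : LL (fun _ => a) ζ 0 := by
  intro c' hc'
  refine Eventually.of_forall fun r => ⟨circleIntegrable_const _ _ _, ?_⟩
  rw [Real.circleAverage_const]
  have : c' * r ^ 2 ≤ 0 := mul_nonpos_of_nonpos_of_nonneg hc'.le (sq_nonneg _)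
  linarith

theorem LL.sum {ι : Type*} (s : Finset ι) (ψ : ι → ℂ → ℝ) (c : ι → ℝ) (ζ : ℂ)
    (h : ∀ i ∈ s, LL (ψ i) ζ (c i)) : LL (fun η => ∑ i ∈ s, ψ i η) ζ (∑ i ∈ s, c i) := by
  classical
  induction s using Finset.induction_on with
  | empty =>
    simp only [Finset.sum_empty]
    exact LL.const 0 ζ
  | insert i s hi ih =>
    simp only [Finset.sum_insert hi]
    exact (h i (Finset.mem_insert_self _ _)).add
      (ih fun j hj => h j (Finset.mem_insert_of_mem hj))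

theorem LL.const_mul {ψ : ℂ → ℝ} {ζ : ℂ} {c a : ℝ} (ha : 0 ≤ a) (h : LL ψ ζ c) :
    LL (fun η => a * ψ η) ζ (a * c) := by
  rcases ha.eq_or_lt with ha | ha
  · subst ha
    have : (fun η : ℂ => 0 * ψ η) = fun _ => (0 : ℝ) := by
      funext η
      exact zero_mul _
    rw [this, zero_mul]
    exact LL.const 0 ζ
  · intro c' hc'
    have h1 : c' / a < c := by
      rw [div_lt_iff₀ ha, mul_comm]
      exact hc'
    filter_upwards [h _ h1] with r hr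
    have e1 : CircleIntegrable (fun η => a * ψ η) ζ r := hr.1.const_smul (a := a)
    refine ⟨e1, ?_⟩
    have e2 : Real.circleAverage (fun η => a * ψ η) ζ r = a * Real.circleAverage ψ ζ r :=
      Real.circleAverage_fun_smul (a := a) (f := ψ) (c := ζ) (R := r)
    rw [e2]
    have e3 := mul_le_mul_of_nonneg_left hr.2 ha.le
    have e4 : a * (ψ ζ + c' / a * r ^ 2) = a * ψ ζ + c' * r ^ 2 := by
      field_simp
    rw [e4] at e3
    exact e3

theorem LL.congr {ψ φ : ℂ → ℝ} {ζ : ℂ} {c : ℝ} (h : LL ψ ζ c) (e : φ =ᶠ[𝓝 ζ] ψ) :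
    LL φ ζ c := by
  intro c' hc'
  filter_upwards [h c' hc', LLB_small e] with r hr he
  have hs : Set.EqOn φ ψ (sphere ζ |r|) := fun x hx => he x (sphere_subset_closedBall hx)
  rw [circleIntegrable_congr hs, Real.circleAverage_congr_sphere hs,
    he ζ (mem_closedBall_self (abs_nonneg r))]
  exact hr

/-- touching from below -/
theorem LL.touch {ψ φ : ℂ → ℝ} {ζ : ℂ} {c : ℝ} (h : LL φ ζ c) (hle : ∀ᶠ η in 𝓝 ζ, φ η ≤ ψ η)
    (heq : ψ ζ = φ ζ) (hcont : ∀ᶠ η in 𝓝 ζ, ContinuousAt ψ η) : LL ψ ζ c := by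
  intro c' hc'
  filter_upwards [h c' hc', LLB_small hle, LLB_small hcont] with r hr h1 h2
  have hi : CircleIntegrable ψ ζ r := by
    apply ContinuousOn.circleIntegrable'
    intro x hx
    exact (h2 x (sphere_subset_closedBall hx)).continuousWithinAt
  refine ⟨hi, ?_⟩
  rw [heq]
  exact hr.2.trans (Real.circleAverage_mono hr.1 hi
    fun x hx => h1 x (sphere_subset_closedBall hx))

theorem LL.nonpos_of_isLocalMax {ψ : ℂ → ℝ} {ζ : ℂ} {c : ℝ} (h : LL ψ ζ c)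
    (hm : IsLocalMax ψ ζ) : c ≤ 0 := by
  by_contra hc
  rw [not_le] at hc
  have hm' : ∀ᶠ η in 𝓝 ζ, ψ η ≤ ψ ζ := hm
  obtain ⟨r, hr, h1, h2⟩ := ((h (c / 2) (by linarith)).and ((LLB_small hm').and
    self_mem_nhdsWithin)).exists
  have h3 : Real.circleAverage ψ ζ r ≤ ψ ζ :=
    Real.circleAverage_mono_on_of_le_circle hr.1 fun x hx => h1 x (sphere_subset_closedBall hx)
  have h4 : 0 < c / 2 * r ^ 2 := mul_pos (by linarith) (pow_pos h2 2)
  linarith [hr.2]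

theorem LL.comp_add {ψ : ℂ → ℝ} {ζ : ℂ} {c : ℝ} (a : ℂ) (h : LL ψ (ζ + a) c) :
    LL (fun η => ψ (η + a)) ζ c := by
  intro c' hc'
  filter_upwards [h c' hc'] with r hr
  have e : ∀ θ : ℝ, circleMap ζ r θ + a = circleMap (ζ + a) r θ := by
    intro θ
    simp only [circleMap]
    ring
  have e1 : (fun θ : ℝ => ψ (circleMap ζ r θ + a)) = fun θ : ℝ => ψ (circleMap (ζ + a) r θ) := by
    funext θ
    rw [e]
  constructor
  · have h1 := hr.1
    unfold CircleIntegrable at h1 ⊢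
    rw [e1]
    exact h1
  · have h2 := hr.2
    unfold Real.circleAverage at h2 ⊢
    rw [e1]
    exact h2

end Pool.Agent.EPO
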