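import Pool.Agent.EPO.LLH

open scoped Manifold Topology LinearAlgebra.Projectivization
open Filter Metric Set

namespace Pool.Agent.EPO

private theorem LLD_of_forall_lt {ψ : ℂ → ℝ} {ζ : ℂ} {c : ℝ} (h : ∀ c' < c, LL ψ ζ c') :
    LL ψ ζ c := by
  intro c' hc'
  obtain ⟨c'', h1, h2⟩ := exists_between hc'
  exact h c'' h2 c' h1

private theorem LLD_identity (r : ℝ) (a b : ℂ) :
    ‖(r : ℂ) ^ 2 - (starRingEnd ℂ) a * b‖ ^ 2 - r ^ 2 * ‖b - a‖ ^ 2 =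
      (r ^ 2 - ‖a‖ ^ 2) * (r ^ 2 - ‖b‖ ^ 2) := by
  simp only [← Complex.normSq_eq_norm_sq, Complex.normSq_apply, Complex.sub_re, Complex.sub_im,
    Complex.mul_re, Complex.mul_im, Complex.conj_re, Complex.conj_im]
  have h1 : ((r : ℂ) ^ 2).re = r ^ 2 := by
    rw [← Complex.ofReal_pow, Complex.ofReal_re]
  have h2 : ((r : ℂ) ^ 2).im = 0 := by
    rw [← Complex.ofReal_pow, Complex.ofReal_im]
  rw [h1, h2]
  ring

theorem LL_disc {c ζ : ℂ} {r : ℝ} (hr : 0 < r) (h : ‖ζ - c‖ < r) :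
    LL (fun η => 2 * Real.log (r ^ 2 - ‖η - c‖ ^ 2)) ζ
      (-(2 * r ^ 2 / (r ^ 2 - ‖ζ - c‖ ^ 2) ^ 2)) := by
  have hD : 0 < r ^ 2 - ‖ζ - c‖ ^ 2 := by
    have : ‖ζ - c‖ ^ 2 < r ^ 2 := by
      have := norm_nonneg (ζ - c)
      nlinarith
    linarith
  set D : ℝ := r ^ 2 - ‖ζ - c‖ ^ 2 with hDdef
  set g : ℂ → ℂ := fun η => (r : ℂ) ^ 2 - (starRingEnd ℂ) (ζ - c) * (η - c) with hg
  have hgζ : g ζ = (D : ℂ) := by
    have : (starRingEnd ℂ) (ζ - c) * (ζ - c) = ((‖ζ - c‖ ^ 2 : ℝ) : ℂ) := by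
      rw [mul_comm, Complex.mul_conj, Complex.normSq_eq_norm_sq]
    simp only [hg, this, hDdef]
    push_cast
    ring
  have hgn : ‖g ζ‖ = D := by
    rw [hgζ, Complex.norm_real, Real.norm_of_nonneg hD.le]
  have hgcont : Continuous g := by
    simp only [hg]
    fun_prop
  have hgan : AnalyticAt ℂ g ζ := by
    simp only [hg]
    fun_prop
  have hg0 : g ζ ≠ 0 := by
    rw [← norm_pos_iff, hgn]; exact hD
  -- basic identity
  have hid : ∀ η, ‖g η‖ ^ 2 - r ^ 2 * ‖η - ζ‖ ^ 2 = D * (r ^ 2 - ‖η - c‖ ^ 2) := by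
    intro η
    have := LLD_identity r (ζ - c) (η - c)
    have e : η - c - (ζ - c) = η - ζ := by ring
    rw [e] at this
    exact this
  -- the auxiliary function
  set A : ℂ → ℝ := fun η => r ^ 2 / ‖g η‖ ^ 2 with hA
  set G : ℂ → ℝ := fun η => A η / (1 - ‖η - ζ‖ ^ 2 * A η) with hG
  have hAcont : ContinuousAt A ζ := by
    simp only [hA]
    refine ContinuousAt.div continuousAt_const ((hgcont.norm.pow 2).continuousAt) ?_
    rw [hgn]; positivity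
  have hAζ : A ζ = r ^ 2 / D ^ 2 := by simp only [hA, hgn]
  have h1A : ContinuousAt (fun η => 1 - ‖η - ζ‖ ^ 2 * A η) ζ := by
    refine continuousAt_const.sub (ContinuousAt.mul ?_ hAcont)
    fun_prop
  have h1Aζ : (1 - ‖ζ - ζ‖ ^ 2 * A ζ) = 1 := by simp
  have hGcont : ContinuousAt G ζ := by
    simp only [hG]
    refine ContinuousAt.div hAcont h1A ?_
    rw [h1Aζ]; exact one_ne_zero
  have hGζ : G ζ = r ^ 2 / D ^ 2 := by
    simp only [hG]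
    rw [h1Aζ, hAζ, div_one]
  have hcont : ∀ᶠ η in 𝓝 ζ, ContinuousAt (fun η => 2 * Real.log (r ^ 2 - ‖η - c‖ ^ 2)) η := by
    have hc1 : Continuous (fun η : ℂ => r ^ 2 - ‖η - c‖ ^ 2) := by fun_prop
    have hpos : ∀ᶠ η in 𝓝 ζ, 0 < r ^ 2 - ‖η - c‖ ^ 2 :=
      hc1.continuousAt.eventually (lt_mem_nhds hD)
    filter_upwards [hpos] with η hη
    exact continuousAt_const.mul (hc1.continuousAt.log hη.ne')
  apply LLD_of_forall_lt
  intro c' hc'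
  set κ : ℝ := -c' / 2 with hκ
  have hκ1 : r ^ 2 / D ^ 2 < κ := by
    have : 2 * r ^ 2 / D ^ 2 = 2 * (r ^ 2 / D ^ 2) := by ring
    rw [this] at hc'
    rw [hκ]; linarith
  have hκ0 : 0 < κ := lt_of_le_of_lt (by positivity) hκ1
  -- comparison function
  have hφ : LL (fun η => 2 * (Real.log ‖g η‖) + (2 * (Real.log ‖g η‖) +
      (-(2 * Real.log D) + (2 * κ) * (-‖η - ζ‖ ^ 2)))) ζ (2 * 0 + (2 * 0 + (0 + (2 * κ) * (-1)))) := by
    refine LL.add (LL.const_mul (by norm_num) (LL_log_norm hgan hg0))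
      (LL.add (LL.const_mul (by norm_num) (LL_log_norm hgan hg0))
        (LL.add (LL.const _ _) (LL.const_mul (by positivity) (LL_neg_sq ζ ζ))))
  have hc'eq : (2 * 0 + (2 * 0 + (0 + (2 * κ) * (-1)))) = c' := by
    rw [hκ]; ring
  rw [hc'eq] at hφ
  refine LL.touch hφ ?_ ?_ hcont
  · have e1 : ∀ᶠ η in 𝓝 ζ, G η < κ := hGcont.eventually (gt_mem_nhds (by rw [hGζ]; exact hκ1))
    have e2 : ∀ᶠ η in 𝓝 ζ, 0 < 1 - ‖η - ζ‖ ^ 2 * A η :=
      h1A.eventually (lt_mem_nhds (by show 0 < 1 - ‖ζ - ζ‖ ^ 2 * A ζ; rw [h1Aζ]; exact one_pos))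
    have e3 : ∀ᶠ η in 𝓝 ζ, g η ≠ 0 := hgcont.continuousAt.eventually_ne hg0
    filter_upwards [e1, e2, e3] with η h1 h2 h3
    have hgp : 0 < ‖g η‖ := norm_pos_iff.mpr h3
    have hmain : r ^ 2 - ‖η - c‖ ^ 2 = ‖g η‖ ^ 2 / D * (1 - ‖η - ζ‖ ^ 2 * A η) := by
      have := hid η
      have h5 : ‖g η‖ ^ 2 * (1 - ‖η - ζ‖ ^ 2 * A η) = ‖g η‖ ^ 2 - r ^ 2 * ‖η - ζ‖ ^ 2 := by
        simp only [hA]
        field_simp
      rw [div_mul_eq_mul_div, h5, this]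
      field_simp
    have hlog : Real.log (r ^ 2 - ‖η - c‖ ^ 2) =
        2 * Real.log ‖g η‖ - Real.log D + Real.log (1 - ‖η - ζ‖ ^ 2 * A η) := by
      rw [hmain, Real.log_mul (by positivity) h2.ne', Real.log_div (by positivity) hD.ne',
        Real.log_pow]
      push_cast
      ring
    have hlb : -(κ * ‖η - ζ‖ ^ 2) ≤ Real.log (1 - ‖η - ζ‖ ^ 2 * A η) := by
      have h6 := Real.one_sub_inv_le_log_of_pos h2
      have h7 : 1 - (1 - ‖η - ζ‖ ^ 2 * A η)⁻¹ = -(‖η - ζ‖ ^ 2 * G η) := by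
        simp only [hG]
        field_simp
        ring
      rw [h7] at h6
      have h8 : ‖η - ζ‖ ^ 2 * G η ≤ ‖η - ζ‖ ^ 2 * κ :=
        mul_le_mul_of_nonneg_left h1.le (by positivity)
      linarith
    show _ ≤ 2 * Real.log (r ^ 2 - ‖η - c‖ ^ 2)
    rw [hlog]
    linarith
  · show 2 * Real.log (r ^ 2 - ‖ζ - c‖ ^ 2) = _
    rw [← hDdef, hgn]
    simp

end Pool.Agent.EPO
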