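import Pool.Agent.EPO.LLB

open scoped Manifold Topology LinearAlgebra.Projectivization
open Filter Metric Set

namespace Pool.Agent.EPO

private theorem LLH_harm {h : ℂ → ℂ} {ζ : ℂ} (ha : AnalyticAt ℂ h ζ) (h0 : h ζ ≠ 0) :
    ∀ᶠ r in 𝓝[>] (0 : ℝ), CircleIntegrable (fun η => Real.log ‖h η‖) ζ r ∧
      Real.circleAverage (fun η => Real.log ‖h η‖) ζ r = Real.log ‖h ζ‖ := by
  have h1 : ∀ᶠ η in 𝓝 ζ, InnerProductSpace.HarmonicAt (fun η => Real.log ‖h η‖) η := by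
    filter_upwards [ha.eventually_analyticAt, ha.continuousAt.eventually_ne h0] with η h2 h3
    exact h2.harmonicAt_log_norm h3
  filter_upwards [LLB_small h1] with r hr
  have h2 : InnerProductSpace.HarmonicOnNhd (fun η => Real.log ‖h η‖) (closedBall ζ |r|) := hr
  exact ⟨(h2.continuousOn.mono sphere_subset_closedBall).circleIntegrable', h2.circleAverage_eq⟩

theorem LL_log_norm {h : ℂ → ℂ} {ζ : ℂ} (ha : AnalyticAt ℂ h ζ) (h0 : h ζ ≠ 0) :
    LL (fun η => Real.log ‖h η‖) ζ 0 := by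
  intro c' hc'
  filter_upwards [LLH_harm ha h0] with r hr
  refine ⟨hr.1, ?_⟩
  rw [hr.2]
  have : c' * r ^ 2 ≤ 0 := mul_nonpos_of_nonpos_of_nonneg hc'.le (sq_nonneg _)
  linarith

theorem LL_neg_log_norm {h : ℂ → ℂ} {ζ : ℂ} (ha : AnalyticAt ℂ h ζ) (h0 : h ζ ≠ 0) :
    LL (fun η => -Real.log ‖h η‖) ζ 0 := by
  intro c' hc'
  filter_upwards [LLH_harm ha h0] with r hr
  have e1 : (fun η => -Real.log ‖h η‖) = (-1 : ℝ) • fun η => Real.log ‖h η‖ := by
    funext η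
    simp
  have e2 : CircleIntegrable (fun η => -Real.log ‖h η‖) ζ r := hr.1.neg
  refine ⟨e2, ?_⟩
  have e3 : Real.circleAverage (fun η => -Real.log ‖h η‖) ζ r = -Real.log ‖h ζ‖ := by
    rw [e1, Real.circleAverage_smul, hr.2]
    simp
  rw [e3]
  have : c' * r ^ 2 ≤ 0 := mul_nonpos_of_nonpos_of_nonneg hc'.le (sq_nonneg _)
  linarith

private theorem LLH_sq (a ζ : ℂ) (r : ℝ) : Real.circleAverage (fun η => ‖η - a‖ ^ 2) ζ r =
    ‖ζ - a‖ ^ 2 + r ^ 2 := by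
  have h0 : ∀ η : ℂ, ‖η - a‖ ^ 2 = ‖ζ - a‖ ^ 2 + ‖η - ζ‖ ^ 2 +
      (2 * (starRingEnd ℂ (ζ - a)) * (η - ζ)).re := by
    intro η
    have e : η - a = (ζ - a) + (η - ζ) := by ring
    rw [e, ← Complex.normSq_eq_norm_sq, Complex.normSq_add, Complex.normSq_eq_norm_sq,
      Complex.normSq_eq_norm_sq]
    congr 1
    have e2 : (ζ - a) * (starRingEnd ℂ) (η - ζ) =
        starRingEnd ℂ ((starRingEnd ℂ (ζ - a)) * (η - ζ)) := by
      rw [map_mul, Complex.conj_conj]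
    rw [e2, Complex.conj_re, mul_assoc, Complex.mul_re]
    simp
  have h1 : Set.EqOn (fun η => ‖η - a‖ ^ 2) (fun η => (‖ζ - a‖ ^ 2 + r ^ 2) +
      (2 * (starRingEnd ℂ (ζ - a)) * (η - ζ)).re) (sphere ζ |r|) := by
    intro η hη
    show ‖η - a‖ ^ 2 = _
    rw [h0 η]
    have : ‖η - ζ‖ ^ 2 = r ^ 2 := by
      rw [mem_sphere_iff_norm.1 hη, sq_abs]
    rw [this]
  have hd : Differentiable ℂ (fun η : ℂ => 2 * (starRingEnd ℂ (ζ - a)) * (η - ζ)) := by fun_prop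
  have hI : CircleIntegrable (fun η : ℂ => 2 * (starRingEnd ℂ (ζ - a)) * (η - ζ)) ζ r :=
    hd.continuous.continuousOn.circleIntegrable'
  have h2 : Real.circleAverage (fun η : ℂ => (2 * (starRingEnd ℂ (ζ - a)) * (η - ζ)).re) ζ r =
      0 := by
    have h3 := Complex.reCLM.circleAverage_comp_comm hI
    have h4 : Real.circleAverage (fun η : ℂ => 2 * (starRingEnd ℂ (ζ - a)) * (η - ζ)) ζ r =
        2 * (starRingEnd ℂ (ζ - a)) * (ζ - ζ) :=
      hd.diffContOnCl.circleAverage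
    rw [h4, sub_self, mul_zero, map_zero] at h3
    exact h3
  rw [Real.circleAverage_congr_sphere h1, Real.circleAverage_fun_add (circleIntegrable_const _ _ _),
    Real.circleAverage_const, h2, add_zero]
  have hc : Continuous (fun η : ℂ => (2 * (starRingEnd ℂ (ζ - a)) * (η - ζ)).re) :=
    Complex.continuous_re.comp hd.continuous
  exact hc.continuousOn.circleIntegrable'

theorem LL_sq (a ζ : ℂ) : LL (fun η => ‖η - a‖ ^ 2) ζ 1 := by
  intro c' hc'
  refine Eventually.of_forall fun r => ⟨?_, ?_⟩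
  · have hc : Continuous (fun η : ℂ => ‖η - a‖ ^ 2) := by fun_prop
    exact hc.continuousOn.circleIntegrable'
  · rw [LLH_sq]
    have : c' * r ^ 2 ≤ 1 * r ^ 2 := mul_le_mul_of_nonneg_right hc'.le (sq_nonneg _)
    show ‖ζ - a‖ ^ 2 + c' * r ^ 2 ≤ _
    linarith

theorem LL_neg_sq (a ζ : ℂ) : LL (fun η => -‖η - a‖ ^ 2) ζ (-1) := by
  intro c' hc'
  refine Eventually.of_forall fun r => ⟨?_, ?_⟩
  · have hc : Continuous (fun η : ℂ => -‖η - a‖ ^ 2) := by fun_prop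
    exact hc.continuousOn.circleIntegrable'
  · have e1 : (fun η : ℂ => -‖η - a‖ ^ 2) = (-1 : ℝ) • fun η : ℂ => ‖η - a‖ ^ 2 := by
      funext η
      simp
    rw [e1, Real.circleAverage_smul, LLH_sq]
    have : c' * r ^ 2 ≤ (-1) * r ^ 2 := mul_le_mul_of_nonneg_right hc'.le (sq_nonneg _)
    show (-1 : ℝ) • ‖ζ - a‖ ^ 2 + c' * r ^ 2 ≤ _
    simp only [smul_eq_mul]
    linarith

end Pool.Agent.EPO
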