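import Pool.Agent.EPO.LLH

open scoped Manifold Topology LinearAlgebra.Projectivization
open Filter Metric Set

namespace Pool.Agent.EPO

private theorem llq_of_lt {ψ : ℂ → ℝ} {ζ : ℂ} {c : ℝ} (h : ∀ c' < c, LL ψ ζ c') : LL ψ ζ c := by
  intro c' hc'
  obtain ⟨d, hd1, hd2⟩ := exists_between hc'
  exact h d hd2 c' hd1

private theorem llq_cont {q : ℂ → ℂ} {ζ : ℂ} (ha : AnalyticAt ℂ q ζ) :
    ∀ᶠ η in 𝓝 ζ, ContinuousAt (fun η => Real.log (1 + ‖q η‖ ^ 2)) η := by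
  filter_upwards [ha.eventually_analyticAt] with η hη
  refine ContinuousAt.log ?_ (by positivity)
  exact continuousAt_const.add (hη.continuousAt.norm.pow 2)

private theorem llq_dslope {q : ℂ → ℂ} {ζ : ℂ} (hq : q ζ = 0) (η : ℂ) :
    ‖q η‖ ^ 2 = ‖η - ζ‖ ^ 2 * ‖dslope q ζ η‖ ^ 2 := by
  have h := sub_smul_dslope q ζ η
  rw [hq, sub_zero, smul_eq_mul] at h
  rw [← h, norm_mul, mul_pow]

private theorem llq_pos {q : ℂ → ℂ} {ζ : ℂ} (ha : AnalyticAt ℂ q ζ) (hq : q ζ = 0) :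
    LL (fun η => Real.log (1 + ‖q η‖ ^ 2)) ζ (‖deriv q ζ‖ ^ 2) := by
  apply llq_of_lt
  intro c' hc'
  -- compare with the maximum of `c'` and `0`
  rcases lt_or_ge 0 (‖deriv q ζ‖ ^ 2) with hpos | hnon
  · obtain ⟨d, hd1, hd2⟩ := exists_between (max_lt hc' hpos)
    have hd0 : 0 ≤ d := (le_max_right c' 0).trans hd1.le
    have hd3 : c' ≤ d := (le_max_left c' 0).trans hd1.le
    have hF : ContinuousAt (fun η => ‖dslope q ζ η‖ ^ 2 / (1 + ‖q η‖ ^ 2)) ζ := by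
      have h1 : ContinuousAt (dslope q ζ) ζ := continuousAt_dslope_same.2 ha.differentiableAt
      refine ContinuousAt.div (h1.norm.pow 2)
        (continuousAt_const.add (ha.continuousAt.norm.pow 2)) ?_
      positivity
    have hF0 : d < ‖dslope q ζ ζ‖ ^ 2 / (1 + ‖q ζ‖ ^ 2) := by
      rw [dslope_same, hq]
      simpa using hd2
    have hev := hF.eventually_const_lt hF0
    have hLL : LL (fun η => d * ‖η - ζ‖ ^ 2) ζ d := by
      have := (LL_sq ζ ζ).const_mul hd0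
      rwa [mul_one] at this
    refine (LL.touch hLL ?_ ?_ (llq_cont ha)).mono hd3
    · filter_upwards [hev] with η hη
      have h2 : 1 - (1 + ‖q η‖ ^ 2)⁻¹ ≤ Real.log (1 + ‖q η‖ ^ 2) :=
        Real.one_sub_inv_le_log_of_pos (by positivity)
      refine le_trans ?_ h2
      have h3 : 1 - (1 + ‖q η‖ ^ 2)⁻¹ = ‖η - ζ‖ ^ 2 *
          (‖dslope q ζ η‖ ^ 2 / (1 + ‖q η‖ ^ 2)) := by
        rw [← mul_div_assoc, ← llq_dslope hq η]
        field_simp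
        ring
      rw [h3, mul_comm d]
      exact mul_le_mul_of_nonneg_left hη.le (by positivity)
    · simp [hq]
  · have h0 : ‖deriv q ζ‖ ^ 2 = 0 := le_antisymm hnon (by positivity)
    rw [h0] at hc'
    refine (LL.touch (LL.const 0 ζ) ?_ ?_ (llq_cont ha)).mono hc'.le
    · refine Eventually.of_forall fun η => Real.log_nonneg ?_
      have : 0 ≤ ‖q η‖ ^ 2 := by positivity
      linarith
    · simp [hq]

private theorem llq_neg {q : ℂ → ℂ} {ζ : ℂ} (ha : AnalyticAt ℂ q ζ) (hq : q ζ = 0) :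
    LL (fun η => -Real.log (1 + ‖q η‖ ^ 2)) ζ (-‖deriv q ζ‖ ^ 2) := by
  apply llq_of_lt
  intro c' hc'
  have hd : ‖deriv q ζ‖ ^ 2 < -c' := by linarith
  have hd0 : 0 ≤ -c' := le_trans (by positivity) hd.le
  have hF : ContinuousAt (fun η => ‖dslope q ζ η‖ ^ 2) ζ := by
    have h1 : ContinuousAt (dslope q ζ) ζ := continuousAt_dslope_same.2 ha.differentiableAt
    exact h1.norm.pow 2
  have hF0 : ‖dslope q ζ ζ‖ ^ 2 < -c' := by
    rw [dslope_same]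
    exact hd
  have hev := hF.eventually_lt_const hF0
  have hLL : LL (fun η => -c' * -‖η - ζ‖ ^ 2) ζ c' := by
    have := (LL_neg_sq ζ ζ).const_mul hd0
    rwa [mul_neg_one, neg_neg] at this
  refine LL.touch hLL ?_ ?_ ?_
  · filter_upwards [hev] with η hη
    have h2 : Real.log (1 + ‖q η‖ ^ 2) ≤ ‖q η‖ ^ 2 := by
      have := Real.log_le_sub_one_of_pos (x := 1 + ‖q η‖ ^ 2) (by positivity)
      linarith
    have h3 : ‖q η‖ ^ 2 ≤ ‖η - ζ‖ ^ 2 * -c' := by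
      rw [llq_dslope hq η]
      exact mul_le_mul_of_nonneg_left hη.le (by positivity)
    linarith
  · simp [hq]
  · filter_upwards [llq_cont ha] with η hη
    exact hη.neg

private theorem llq_id (a b : ℂ) (hb : 1 + (starRingEnd ℂ) a * b ≠ 0) :
    Real.log (1 + ‖b‖ ^ 2) = 2 * Real.log ‖1 + (starRingEnd ℂ) a * b‖ +
      -Real.log (1 + ‖a‖ ^ 2) +
      Real.log (1 + ‖(b - a) / (1 + (starRingEnd ℂ) a * b)‖ ^ 2) := by
  have hn : 0 < ‖1 + (starRingEnd ℂ) a * b‖ := norm_pos_iff.2 hb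
  have key : ‖1 + (starRingEnd ℂ) a * b‖ ^ 2 + ‖b - a‖ ^ 2 =
      (1 + ‖a‖ ^ 2) * (1 + ‖b‖ ^ 2) := by
    simp only [← Complex.normSq_eq_norm_sq, Complex.normSq_apply, Complex.add_re, Complex.add_im,
      Complex.mul_re, Complex.mul_im, Complex.one_re, Complex.one_im, Complex.conj_re,
      Complex.conj_im, Complex.sub_re, Complex.sub_im]
    ring
  have e1 : 1 + ‖(b - a) / (1 + (starRingEnd ℂ) a * b)‖ ^ 2 =
      (1 + ‖a‖ ^ 2) * (1 + ‖b‖ ^ 2) / ‖1 + (starRingEnd ℂ) a * b‖ ^ 2 := by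
    rw [← key, norm_div, div_pow, add_div, div_self (by positivity)]
  rw [e1, Real.log_div (by positivity) (by positivity), Real.log_mul (by positivity)
    (by positivity), Real.log_pow]
  push_cast
  ring

private theorem llq_setup {h : ℂ → ℂ} {ζ : ℂ} (ha : AnalyticAt ℂ h ζ) :
    ∃ u q : ℂ → ℂ, AnalyticAt ℂ u ζ ∧ u ζ ≠ 0 ∧ AnalyticAt ℂ q ζ ∧ q ζ = 0 ∧
      ‖deriv q ζ‖ ^ 2 = ‖deriv h ζ‖ ^ 2 / (1 + ‖h ζ‖ ^ 2) ^ 2 ∧
      ∀ᶠ η in 𝓝 ζ, Real.log (1 + ‖h η‖ ^ 2) = 2 * Real.log ‖u η‖ +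
        -Real.log (1 + ‖h ζ‖ ^ 2) + Real.log (1 + ‖q η‖ ^ 2) := by
  have hu : AnalyticAt ℂ (fun η => 1 + (starRingEnd ℂ) (h ζ) * h η) ζ :=
    analyticAt_const.add (analyticAt_const.mul ha)
  have hu1 : 1 + (starRingEnd ℂ) (h ζ) * h ζ = ((1 + ‖h ζ‖ ^ 2 : ℝ) : ℂ) := by
    rw [mul_comm, Complex.mul_conj, Complex.normSq_eq_norm_sq]
    push_cast
    ring
  have hpos : (0 : ℝ) < 1 + ‖h ζ‖ ^ 2 := by positivity
  have hu0 : 1 + (starRingEnd ℂ) (h ζ) * h ζ ≠ 0 := by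
    rw [hu1]
    exact_mod_cast hpos.ne'
  refine ⟨fun η => 1 + (starRingEnd ℂ) (h ζ) * h η,
    fun η => (h η - h ζ) / (1 + (starRingEnd ℂ) (h ζ) * h η), hu, hu0,
    (ha.sub analyticAt_const).div hu hu0, by simp, ?_, ?_⟩
  · have hd : HasDerivAt (fun η => (h η - h ζ) / (1 + (starRingEnd ℂ) (h ζ) * h η))
        ((deriv h ζ * (1 + (starRingEnd ℂ) (h ζ) * h ζ) -
          (h ζ - h ζ) * ((starRingEnd ℂ) (h ζ) * deriv h ζ)) /
          (1 + (starRingEnd ℂ) (h ζ) * h ζ) ^ 2) ζ := by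
      have h1 : HasDerivAt h (deriv h ζ) ζ := ha.differentiableAt.hasDerivAt
      have h2 : HasDerivAt (fun η => h η - h ζ) (deriv h ζ) ζ := h1.sub_const _
      have h3 : HasDerivAt (fun η => 1 + (starRingEnd ℂ) (h ζ) * h η)
          ((starRingEnd ℂ) (h ζ) * deriv h ζ) ζ := (h1.const_mul _).const_add _
      exact h2.div h3 hu0
    have hq2 : deriv h ζ * (1 + (starRingEnd ℂ) (h ζ) * h ζ) /
        (1 + (starRingEnd ℂ) (h ζ) * h ζ) ^ 2 =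
        deriv h ζ / (1 + (starRingEnd ℂ) (h ζ) * h ζ) := by
      rw [sq (1 + (starRingEnd ℂ) (h ζ) * h ζ), mul_div_mul_right _ _ hu0]
    rw [hd.deriv, sub_self, zero_mul, sub_zero, hq2, hu1,
      norm_div, Complex.norm_real, Real.norm_of_nonneg hpos.le, div_pow]
  · have hne : ∀ᶠ η in 𝓝 ζ, 1 + (starRingEnd ℂ) (h ζ) * h η ≠ 0 :=
      hu.continuousAt.eventually_ne hu0
    filter_upwards [hne] with η hη
    exact llq_id (h ζ) (h η) hη

theorem LL_log_one_add {h : ℂ → ℂ} {ζ : ℂ} (ha : AnalyticAt ℂ h ζ) :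
    LL (fun η => Real.log (1 + ‖h η‖ ^ 2)) ζ (‖deriv h ζ‖ ^ 2 / (1 + ‖h ζ‖ ^ 2) ^ 2) := by
  obtain ⟨u, q, hu, hu0, hq, hq0, hd, hev⟩ := llq_setup ha
  have h1 := (((LL_log_norm hu hu0).const_mul (by norm_num : (0 : ℝ) ≤ 2)).add
    (LL.const (-Real.log (1 + ‖h ζ‖ ^ 2)) ζ)).add (llq_pos hq hq0)
  rw [mul_zero, zero_add, zero_add, hd] at h1
  exact h1.congr hev

theorem LL_neg_log_one_add {h : ℂ → ℂ} {ζ : ℂ} (ha : AnalyticAt ℂ h ζ) :
    LL (fun η => -Real.log (1 + ‖h η‖ ^ 2)) ζ (-(‖deriv h ζ‖ ^ 2 / (1 + ‖h ζ‖ ^ 2) ^ 2)) := by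
  obtain ⟨u, q, hu, hu0, hq, hq0, hd, hev⟩ := llq_setup ha
  have h1 := (((LL_neg_log_norm hu hu0).const_mul (by norm_num : (0 : ℝ) ≤ 2)).add
    (LL.const (Real.log (1 + ‖h ζ‖ ^ 2)) ζ)).add (llq_neg hq hq0)
  rw [mul_zero, zero_add, zero_add, hd] at h1
  refine h1.congr ?_
  filter_upwards [hev] with η hη
  rw [hη]
  ring

end Pool.Agent.EPO
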