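import Pool.Agent.EPO.CRD
import Pool.Agent.EPO.LIF
import Pool.Agent.EPO.Defs3

open scoped Manifold Topology LinearAlgebra.Projectivization
open Filter Metric Set

namespace Pool.Agent.EPO

private theorem lnf_form_analytic {n : ℕ} {f : ℂ → Fin (n + 1) → ℂ} (hf : Differentiable ℂ f)
    {h X₁ X₂ : ℂ → ℂ} {t : ℂ} (hh : AnalyticAt ℂ h t) (h₁ : AnalyticAt ℂ X₁ t)
    (h₂ : AnalyticAt ℂ X₂ t) : AnalyticAt ℂ (fun s => form (f (h s)) (X₁ s, X₂ s)) t := by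
  unfold form
  refine Finset.analyticAt_fun_sum _ fun i _ => ?_
  have h3 : AnalyticAt ℂ (fun y => f y i) (h t) := (differentiable_pi.1 hf i).analyticAt _
  exact (h3.fun_comp hh).mul ((h₁.pow _).mul (h₂.pow _))

variable {Λ : Submodule ℤ ℂ} [DiscreteTopology Λ] {n : ℕ}
  {f : ℂ → Fin (n + 1) → ℂ} {C : Type*} [TopologicalSpace C] [ChartedSpace ℂ C]
  [IsManifold 𝓘(ℂ, ℂ) 1 C] {z : C → ℂ ⧸ Λ} {x : C → ℙ ℂ (ℂ × ℂ)}

theorem LNF [T2Space C] (hf : IsCurve Λ f) {e k : C → ℕ}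
    (H : ∀ p, Local Λ f z x p (e p) (k p)) : AllNF Λ f z x e k := by
  intro q a hqa
  obtain ⟨h0, X, hl0, he0, hk0⟩ := H q
  have hz0 : z q = Λ.mkQ (h0 q) := hl0.lift_z.self_of_nhds
  have hω : a - h0 q ∈ Λ := by
    rw [hqa] at hz0
    exact (Submodule.Quotient.eq Λ).1 hz0
  obtain ⟨h, hh⟩ : ∃ h : C → ℂ, h = fun p => h0 p + (a - h0 q) := ⟨_, rfl⟩
  have hhq : h q = a := by rw [hh]; ring
  have hl : IsLift Λ z x q h X := by
    refine ⟨?_, hl0.hol₁, hl0.hol₂, ?_, hl0.lift_x⟩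
    · rw [hh]
      exact AnalyticAt.add hl0.hol analyticAt_const
    · filter_upwards [hl0.lift_z] with p hp
      have h1 : Λ.mkQ (a - h0 q) = 0 := (Submodule.Quotient.mk_eq_zero Λ).2 hω
      rw [hp, hh, map_add, h1, add_zero]
  obtain ⟨ho1, ho2⟩ := LIF hf hl0 hl
  rw [he0] at ho1
  rw [hk0] at ho2
  obtain ⟨φ, hφ⟩ : ∃ φ, φ = chartAt ℂ q := ⟨_, rfl⟩
  have hqs : q ∈ φ.source := by rw [hφ]; exact mem_chart_source ℂ q
  obtain ⟨t₀, ht₀⟩ : ∃ t₀, t₀ = φ q := ⟨_, rfl⟩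
  have hst : φ.symm t₀ = q := by rw [ht₀]; exact φ.left_inv hqs
  have htt : Tendsto φ.symm (𝓝 t₀) (𝓝 q) := by rw [ht₀]; exact φ.tendsto_symm hqs
  have hAh : AnalyticAt ℂ (h ∘ φ.symm) t₀ := by rw [ht₀, hφ]; exact hl.hol
  have hA1 : AnalyticAt ℂ (fun t => (X (φ.symm t)).1) t₀ := by rw [ht₀, hφ]; exact hl.hol₁
  have hA2 : AnalyticAt ℂ (fun t => (X (φ.symm t)).2) t₀ := by rw [ht₀, hφ]; exact hl.hol₂
  have hht : (h ∘ φ.symm) t₀ = a := by rw [Function.comp_apply, hst, hhq]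
  have hoe : analyticOrderAt (fun t => (h ∘ φ.symm) t - (h ∘ φ.symm) t₀) t₀ = e q := by
    rw [ho1, ordAt, ← hφ, ← ht₀, hht, ← hhq]
    rfl
  have hepos : 0 < e q := by
    rcases Nat.eq_zero_or_pos (e q) with h0e | h0e
    · exfalso
      rw [h0e] at hoe
      have h3 : AnalyticAt ℂ (fun t => (h ∘ φ.symm) t - (h ∘ φ.symm) t₀) t₀ :=
        hAh.sub analyticAt_const
      have := h3.analyticOrderAt_eq_zero.1 (by exact_mod_cast hoe)
      exact this (sub_self _)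
    · exact h0e
  -- the form in the chart
  have hAF : AnalyticAt ℂ (fun t => form (f ((h ∘ φ.symm) t)) (X (φ.symm t))) t₀ :=
    lnf_form_analytic hf.hol hAh hA1 hA2
  have hok : analyticOrderAt (fun t => form (f ((h ∘ φ.symm) t)) (X (φ.symm t))) t₀ = k q := by
    rw [ho2, ordAt, ← hφ, ← ht₀]
    rfl
  obtain ⟨g, hg, hg0, hgev⟩ := hAF.analyticOrderAt_eq_natCast.1 hok
  -- the neighbourhood
  have hiso := LIF_isolated hf H q
  rw [eventually_nhdsWithin_iff] at hiso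
  have hW : ∀ᶠ t in 𝓝 t₀, t ∈ φ.target ∧
      (AnalyticAt ℂ (fun t => (X (φ.symm t)).1) t ∧ AnalyticAt ℂ (fun t => (X (φ.symm t)).2) t) ∧
      z (φ.symm t) = Λ.mkQ (h (φ.symm t)) ∧
      (∃ hX : X (φ.symm t) ≠ 0, x (φ.symm t) = Projectivization.mk ℂ (X (φ.symm t)) hX) ∧
      (φ.symm t ≠ q → e (φ.symm t) = 1 ∧ k (φ.symm t) = 0) ∧
      form (f ((h ∘ φ.symm) t)) (X (φ.symm t)) = (t - t₀) ^ (k q) • g t := by
    have h1 : ∀ᶠ t in 𝓝 t₀, t ∈ φ.target :=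
      φ.open_target.mem_nhds (by rw [ht₀]; exact φ.map_source hqs)
    filter_upwards [h1, hA1.eventually_analyticAt, hA2.eventually_analyticAt,
      htt.eventually hl.lift_z, htt.eventually hl.lift_x, htt.eventually hiso, hgev]
      with t a1 a2 a3 a4 a5 a6 a7
    exact ⟨a1, ⟨a2, a3⟩, a4, a5, a6, a7⟩
  obtain ⟨ε₀, hε₀, τ, hτd, hτi, hτ0, hτW, hτo, hτn, hτh⟩ := CRD hAh hepos hoe hW
  rw [hht] at hτh
  have h0ε : (0 : ℂ) ∈ ball (0 : ℂ) ε₀ := mem_ball_self hε₀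
  have hτc0 : ContinuousAt τ 0 :=
    (hτd.differentiableAt (isOpen_ball.mem_nhds h0ε)).continuousAt
  have hτd0 : DifferentiableAt ℂ τ 0 := hτd.differentiableAt (isOpen_ball.mem_nhds h0ε)
  -- the bounds
  have hG : ContinuousAt (fun u => ‖dslope τ 0 u‖ ^ (k q) * ‖g (τ u)‖) 0 := by
    have h1 : ContinuousAt (dslope τ 0) 0 := continuousAt_dslope_same.2 hτd0
    have h2 : ContinuousAt g (τ 0) := by rw [hτ0]; exact hg.continuousAt
    exact (h1.norm.pow _).mul (h2.comp hτc0).norm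
  have hXc : ContinuousAt (fun u => ‖X (φ.symm (τ u))‖) 0 := by
    have h1 : ContinuousAt (fun t => X (φ.symm t)) (τ 0) := by
      rw [hτ0]
      exact hA1.continuousAt.prodMk hA2.continuousAt
    exact (ContinuousAt.comp (f := τ) (g := fun t => X (φ.symm t)) h1 hτc0).norm
  have hX0 : 0 < ‖X (φ.symm (τ 0))‖ := by
    obtain ⟨hX, -⟩ := (hτW 0 h0ε).2.2.2.1
    exact norm_pos_iff.2 hX
  have hG0 : 0 < ‖dslope τ 0 0‖ ^ (k q) * ‖g (τ 0)‖ := by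
    rw [dslope_same, hτ0]
    have h1 : 0 < ‖deriv τ 0‖ := norm_pos_iff.2 (hτn 0 h0ε)
    have h2 : 0 < ‖g t₀‖ := norm_pos_iff.2 hg0
    positivity
  obtain ⟨G0, hG0'⟩ : ∃ G0, G0 = ‖dslope τ 0 0‖ ^ (k q) * ‖g (τ 0)‖ := ⟨_, rfl⟩
  obtain ⟨X0, hX0'⟩ : ∃ X0, X0 = ‖X (φ.symm (τ 0))‖ ^ n := ⟨_, rfl⟩
  have hX0pos : 0 < X0 := by rw [hX0']; positivity
  rw [← hG0'] at hG0
  obtain ⟨κ, hκ⟩ : ∃ κ, κ = min (G0 / 2) (X0 / (2 * G0)) := ⟨_, rfl⟩
  have hκpos : 0 < κ := by rw [hκ]; positivity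
  have hκ1 : κ < G0 := by
    have : κ ≤ G0 / 2 := by rw [hκ]; exact min_le_left _ _
    linarith
  have hκ2 : G0 < κ⁻¹ * X0 := by
    have h1 : κ ≤ X0 / (2 * G0) := by rw [hκ]; exact min_le_right _ _
    have h2 : κ * (2 * G0) ≤ X0 := by rwa [le_div_iff₀ (by positivity)] at h1
    rw [lt_inv_mul_iff₀ hκpos]
    nlinarith
  have hev1 : ∀ᶠ u in 𝓝 (0 : ℂ), κ < ‖dslope τ 0 u‖ ^ (k q) * ‖g (τ u)‖ :=
    hG.eventually_const_lt (by
      show κ < ‖dslope τ 0 0‖ ^ (k q) * ‖g (τ 0)‖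
      rw [← hG0']
      exact hκ1)
  have hev2 : ∀ᶠ u in 𝓝 (0 : ℂ), ‖dslope τ 0 u‖ ^ (k q) * ‖g (τ u)‖ <
      κ⁻¹ * ‖X (φ.symm (τ u))‖ ^ n := by
    refine hG.eventually_lt (continuousAt_const.mul (hXc.pow n)) ?_
    show ‖dslope τ 0 0‖ ^ (k q) * ‖g (τ 0)‖ < κ⁻¹ * ‖X (φ.symm (τ 0))‖ ^ n
    rw [← hG0', ← hX0']
    exact hκ2
  obtain ⟨ε₁, hε₁, hball⟩ := Metric.eventually_nhds_iff_ball.1 (hev1.and hev2)
  obtain ⟨ε, hε⟩ : ∃ ε, ε = min ε₀ ε₁ := ⟨_, rfl⟩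
  have hεpos : 0 < ε := by rw [hε]; exact lt_min hε₀ hε₁
  have hb0 : ball (0 : ℂ) ε ⊆ ball 0 ε₀ := ball_subset_ball (by rw [hε]; exact min_le_left _ _)
  have hb1 : ball (0 : ℂ) ε ⊆ ball 0 ε₁ := ball_subset_ball (by rw [hε]; exact min_le_right _ _)
  refine ⟨ε, fun u => φ.symm (τ u), ?_⟩
  refine ⟨hεpos, hepos, ?_, ?_, ?_, ?_, ?_, ?_, ?_⟩
  · -- continuity
    intro u hu
    have hd := hτd.differentiableAt (isOpen_ball.mem_nhds (hb0 hu))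
    have h2 : ContinuousAt φ.symm (τ u) := φ.continuousAt_symm (hτW u (hb0 hu)).1
    exact (ContinuousAt.comp (f := τ) (g := φ.symm) h2 hd.continuousAt).continuousWithinAt
  · intro u hu v hv huv
    have h1 : τ u = τ v := φ.symm.injOn (by simpa using (hτW u (hb0 hu)).1)
      (by simpa using (hτW v (hb0 hv)).1) huv
    exact hτi (hb0 hu) (hb0 hv) h1
  · intro V hV hVo
    have h1 : (fun u => φ.symm (τ u)) '' V = φ.symm '' (τ '' V) := by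
      rw [image_image]
    rw [h1]
    refine φ.isOpen_image_symm_of_subset_target (hτo V (hV.trans hb0) hVo) ?_
    rintro _ ⟨u, hu, rfl⟩
    exact (hτW u (hb0 (hV hu))).1
  · show φ.symm (τ 0) = q
    rw [hτ0, hst]
  · intro u hu
    rw [(hτW u (hb0 hu)).2.2.1]
    exact congrArg _ (hτh u (hb0 hu))
  · intro u hu hu0 hsp
    have h1 : τ u ≠ t₀ := by
      intro h2
      exact hu0 (hτi (hb0 hu) h0ε (by rw [h2, hτ0]))
    have h2 : φ.symm (τ u) ≠ q := by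
      intro h3
      apply h1
      rw [ht₀, ← h3, φ.right_inv (hτW u (hb0 hu)).1]
    obtain ⟨h3, h4⟩ := (hτW u (hb0 hu)).2.2.2.2.1 h2
    rcases hsp with h5 | h5
    · exact h5 h3
    · exact h5 h4
  · refine ⟨fun u => X (φ.symm (τ u)), ?_, ?_, κ, hκpos, ?_⟩
    · intro u hu
      have hd := hτd.differentiableAt (isOpen_ball.mem_nhds (hb0 hu))
      obtain ⟨a1, a2⟩ := (hτW u (hb0 hu)).2.1
      have h1 : DifferentiableAt ℂ (fun t => X (φ.symm t)) (τ u) :=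
        a1.differentiableAt.prodMk a2.differentiableAt
      exact (DifferentiableAt.comp u (f := τ) (g := fun t => X (φ.symm t)) h1
        hd).differentiableWithinAt
    · intro u hu
      exact (hτW u (hb0 hu)).2.2.2.1
    · intro u hu
      have h1 := (hτW u (hb0 hu)).2.2.2.2.2
      rw [hτh u (hb0 hu)] at h1
      have h2 : τ u - t₀ = u * dslope τ 0 u := by
        have := sub_smul_dslope τ 0 u
        rw [sub_zero, smul_eq_mul, hτ0] at this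
        exact this.symm
      have h3 : ‖form (f (a + u ^ e q)) (X (φ.symm (τ u)))‖ =
          ‖u‖ ^ (k q) * (‖dslope τ 0 u‖ ^ (k q) * ‖g (τ u)‖) := by
        rw [h1, h2, smul_eq_mul, norm_mul, norm_pow, norm_mul, mul_pow, mul_assoc]
      obtain ⟨b1, b2⟩ := hball u (hb1 hu)
      show κ * ‖u‖ ^ k q ≤ ‖form (f (a + u ^ e q)) (X (φ.symm (τ u)))‖ ∧
        ‖form (f (a + u ^ e q)) (X (φ.symm (τ u)))‖ ≤
          κ⁻¹ * ‖u‖ ^ k q * ‖X (φ.symm (τ u))‖ ^ n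
      rw [h3]
      constructor
      · rw [mul_comm κ]
        exact mul_le_mul_of_nonneg_left b1.le (by positivity)
      · calc ‖u‖ ^ (k q) * (‖dslope τ 0 u‖ ^ (k q) * ‖g (τ u)‖)
            ≤ ‖u‖ ^ (k q) * (κ⁻¹ * ‖X (φ.symm (τ u))‖ ^ n) :=
              mul_le_mul_of_nonneg_left b2.le (by positivity)
          _ = κ⁻¹ * ‖u‖ ^ k q * ‖X (φ.symm (τ u))‖ ^ n := by ring

end Pool.Agent.EPO
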