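import Pool.Agent.EPO.MET

open scoped Manifold Topology LinearAlgebra.Projectivization
open Filter Metric Set

namespace Pool.Agent.EPO

theorem YY_cont {w : ℂ → ℂ} {ζ : ℂ} (ha : AnalyticAt ℂ w ζ) (h0 : w ζ ≠ 0) (h1 : w ζ ≠ 1) :
    ContinuousAt (YY w) ζ := by
  have hm := met_cont ha h0 h1
  have hw := ha.continuousAt
  have e1 : ContinuousAt (fun η => Real.posLog (met (w η) * ‖deriv w η‖ ^ 2)) ζ :=
    Real.continuous_posLog.continuousAt.comp hm
  have e2 : ContinuousAt (fun η => Real.log (1 + ‖w η‖ ^ 2)) ζ := by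
    refine ContinuousAt.log ?_ (by positivity)
    exact continuousAt_const.add (hw.norm.pow 2)
  exact (continuousAt_const.mul e1).sub e2

private theorem YFN_bound {w : ℂ → ℂ} {ζ : ℂ} (h0 : w ζ ≠ 0) (h1 : w ζ ≠ 1) :
    ‖deriv w ζ‖ ^ 2 / (1 + ‖w ζ‖ ^ 2) ^ 2 ≤ 4 * (met (w ζ) * ‖deriv w ζ‖ ^ 2) := by
  have h := met_ge h0 h1
  have h2 : ‖deriv w ζ‖ ^ 2 / (1 + ‖w ζ‖ ^ 2) ^ 2 =
      4 * (1 / (4 * (1 + ‖w ζ‖ ^ 2) ^ 2) * ‖deriv w ζ‖ ^ 2) := by
    field_simp
  rw [h2]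
  have h3 := mul_le_mul_of_nonneg_right h (sq_nonneg ‖deriv w ζ‖)
  linarith

theorem YY_LL {w : ℂ → ℂ} {ζ : ℂ} (ha : AnalyticAt ℂ w ζ) (h0 : w ζ ≠ 0) (h1 : w ζ ≠ 1) :
    LL (YY w) ζ (-4) := by
  have hb := YFN_bound h0 h1
  have hm := met_cont ha h0 h1
  have hmp : 0 < met (w ζ) := met_pos h0 h1
  have hcont : ∀ᶠ η in 𝓝 ζ, ContinuousAt (YY w) η := by
    filter_upwards [ha.eventually_analyticAt, ha.continuousAt.eventually_ne h0,
      ha.continuousAt.eventually_ne h1] with η e1 e2 e3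
    exact YY_cont e1 e2 e3
  by_cases hc : 1 < met (w ζ) * ‖deriv w ζ‖ ^ 2
  · have hd : deriv w ζ ≠ 0 := by
      intro hd
      rw [hd] at hc
      norm_num at hc
    have hL := LL.add (LL.const_mul (a := 5760) (by norm_num) (LL_met ha h0 h1 hd))
      (LL_neg_log_one_add ha)
    refine LL.mono (LL.congr hL ?_) ?_
    · have e1 : ∀ᶠ η in 𝓝 ζ, 1 < met (w η) * ‖deriv w η‖ ^ 2 :=
        hm.eventually (lt_mem_nhds hc)
      filter_upwards [e1] with η hη
      have : Real.posLog (met (w η) * ‖deriv w η‖ ^ 2) =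
          Real.log (met (w η) * ‖deriv w η‖ ^ 2) :=
        Real.posLog_eq_log (by rw [abs_of_pos (by linarith)]; exact hη.le)
      simp only [YY, this]
      ring
    · have h5 : (5760 : ℝ) * (met (w ζ) * ‖deriv w ζ‖ ^ 2 / 1440) =
          4 * (met (w ζ) * ‖deriv w ζ‖ ^ 2) := by ring
      rw [h5]
      linarith
  · push Not at hc
    refine LL.touch (LL.mono (LL_neg_log_one_add ha) (by linarith)) ?_ ?_ hcont
    · filter_upwards with η
      have := Real.posLog_nonneg (x := met (w η) * ‖deriv w η‖ ^ 2)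
      simp only [YY]
      linarith
    · have : Real.posLog (met (w ζ) * ‖deriv w ζ‖ ^ 2) = 0 := by
        rw [Real.posLog_eq_zero_iff, abs_of_nonneg (by positivity)]
        exact hc
      simp only [YY, this]
      ring

end Pool.Agent.EPO
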