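import Pool.Agent.EPO.PSU
import Pool.Agent.EPO.YFN
import Pool.Agent.EPO.BRL
import Pool.Agent.EPO.RTS

open scoped Manifold Topology LinearAlgebra.Projectivization
open Filter Metric Set

namespace Pool.Agent.EPO

variable {Λ : Submodule ℤ ℂ} [DiscreteTopology Λ] [IsZLattice ℝ Λ] {n : ℕ}
  {f : ℂ → Fin (n + 1) → ℂ} {C : Type*} [TopologicalSpace C] [T2Space C] [CompactSpace C]
  {z : C → ℂ ⧸ Λ} {x : C → ℙ ℂ (ℂ × ℂ)} {e k : C → ℕ}

private theorem psr_card (n : ℕ) : ((Tri n).card : ℝ) ≤ (n : ℝ) ^ 3 := by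
  have h : (Tri n).card ≤ n ^ 3 := by
    refine (Finset.card_filter_le _ _).trans ?_
    simp only [Finset.card_univ, Fintype.card_prod, Fintype.card_fin]
    exact (by ring : n * (n * n) = n ^ 3).le
  exact_mod_cast h

/-- Local description of the potential near a regular point. -/
private theorem psr_loc (hn : 3 ≤ n) (hf : IsCurve Λ f) (H : AllNF Λ f z x e k) {ζ : ℂ}
    (hB : ζ ∉ Br f) (hP : ∀ p ∈ Fib Λ z ζ, p ∉ Spec e k) :
    ∃ r > 0, ∃ B : Fin n → ℂ → ℂ × ℂ, RootSys f (ball ζ r) B ∧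
      ∃ M : C → ℂ → Fin (n + 1) → ℂ,
        (∀ q ∈ Fib Λ z ζ, ASec f (ball ζ r) (M q)) ∧
        ∀ η ∈ ball ζ r, Psi Λ f z x (Spec e k) η =
          ∑ q ∈ (Fib_finite H ζ).toFinset, PhiLoc B (M q) η := by
  obtain ⟨δ, hδ, ε, σ, h1, h2, h3⟩ := FIB H ζ
  obtain ⟨δ₁, hδ₁, hR⟩ := RTS hn hf.hol hf.no_fibre ζ
  obtain ⟨δ₂, hδ₂, c, hc, hBR⟩ := BRR hn hf.hol hf.no_fibre hB
  set r : ℝ := min δ (min δ₁ δ₂) with hr
  have hr0 : 0 < r := lt_min hδ (lt_min hδ₁ hδ₂)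
  have hrδ : r ≤ δ := min_le_left _ _
  have hrδ₁ : r ≤ δ₁ := (min_le_right _ _).trans (min_le_left _ _)
  have hrδ₂ : r ≤ δ₂ := (min_le_right _ _).trans (min_le_right _ _)
  obtain ⟨B, hBs⟩ := hR ζ r (ball_subset_ball hrδ₁)
    (fun η hη => (hBR η (ball_subset_ball hrδ₂ hη)).1)
  have he : ∀ q ∈ Fib Λ z ζ, e q = 1 := by
    intro q hq
    by_contra hne
    exact hP q hq (Or.inl hne)
  have hε : ∀ q ∈ Fib Λ z ζ, r < ε q := by
    intro q hq
    have h := (h1 q hq).2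
    rw [he q hq, pow_one] at h
    linarith
  have hsec : ∀ q ∈ Fib Λ z ζ,
      IsSec Λ z (Spec e k) (ball ζ r) (fun η => σ q (η - ζ)) := by
    intro q hq
    have h := sec_reg (hP q hq) (h1 q hq).1
    have hsub : ball ζ r ⊆ ball ζ (ε q) := ball_subset_ball (hε q hq).le
    exact ⟨h.1.mono hsub, fun η hη => h.2 η (hsub hη)⟩
  refine ⟨r, hr0, B, hBs, fun q η => Mc f (x (σ q (η - ζ))) η, ?_, ?_⟩
  · intro q hq
    exact sec_asec hf.hol hn H isOpen_ball (hsec q hq)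
  · intro η hη
    have hηδ : η ∈ ball ζ δ := ball_subset_ball hrδ hη
    have hu : ∀ q ∈ Fib Λ z ζ, η - ζ ∈ ball (0 : ℂ) (ε q) := by
      intro q hq
      rw [mem_ball_zero_iff]
      have h := mem_ball.1 hη
      rw [dist_eq_norm] at h
      exact h.trans (hε q hq)
    have himg : Fib Λ z η = (fun q => σ q (η - ζ)) '' Fib Λ z ζ := by
      ext p
      rw [h3 η hηδ p]
      constructor
      · rintro ⟨q, hq, u, hu', hue, rfl⟩
        rw [he q hq, pow_one] at hue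
        exact ⟨q, hq, by rw [hue]⟩
      · rintro ⟨q, hq, rfl⟩
        exact ⟨q, hq, η - ζ, hu q hq, by rw [he q hq, pow_one], rfl⟩
    have hinj : InjOn (fun q => σ q (η - ζ)) (Fib Λ z ζ) := by
      intro q hq q' hq' hqq
      exact h2 q hq q' hq' _ (hu q hq) _ (hu q' hq') hqq
    unfold Psi
    rw [himg, finsum_mem_image hinj]
    rw [finsum_mem_eq_finite_toFinset_sum _ (Fib_finite H ζ)]
    refine Finset.sum_congr rfl fun q hq => ?_
    have hq' : q ∈ Fib Λ z ζ := by simpa using hq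
    apply Phi_eq hn H
    have hr' : 0 < r - dist η ζ := by
      have h := mem_ball.1 hη
      linarith
    have hsub : ball η (r - dist η ζ) ⊆ ball ζ r := by
      apply ball_subset_ball'
      linarith
    refine ⟨r - dist η ζ, hr', fun η => σ q (η - ζ), B, ?_, rfl, ?_, rfl⟩
    · exact ⟨(hsec q hq').1.mono hsub, fun y hy => (hsec q hq').2 y (hsub hy)⟩
    · exact ⟨fun i => (hBs.1 i).mono hsub, fun y hy => hBs.2 y (hsub hy)⟩

/-- The potential at regular points. -/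
theorem PSR (hn : 3 ≤ n) (hf : IsCurve Λ f) (H : AllNF Λ f z x e k) {ζ : ℂ}
    (hB : ζ ∉ Br f) (hP : ∀ p ∈ Fib Λ z ζ, p ∉ Spec e k) :
    ContinuousAt (Psi Λ f z x (Spec e k)) ζ ∧
      LL (Psi Λ f z x (Spec e k)) ζ (-(4 * (n : ℝ) ^ 3 * (Fib Λ z ζ).ncard)) := by
  obtain ⟨r, hr, B, hBs, M, hM, hPsi⟩ := psr_loc hn hf H hB hP
  have hev : Psi Λ f z x (Spec e k) =ᶠ[𝓝 ζ]
      fun η => ∑ q ∈ (Fib_finite H ζ).toFinset, PhiLoc B (M q) η := by
    filter_upwards [ball_mem_nhds ζ hr] with η hη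
    exact hPsi η hη
  have hkey : ∀ q ∈ (Fib_finite H ζ).toFinset, ∀ t ∈ Tri n,
      AnalyticAt ℂ (crf B (M q) t.1 t.2.1 t.2.2) ζ ∧
        crf B (M q) t.1 t.2.1 t.2.2 ζ ≠ 0 ∧ crf B (M q) t.1 t.2.1 t.2.2 ζ ≠ 1 := by
    intro q hq t ht
    have hq' : q ∈ Fib Λ z ζ := by simpa using hq
    have ht' : t.1 ≠ t.2.1 ∧ t.1 ≠ t.2.2 ∧ t.2.1 ≠ t.2.2 := by
      unfold Tri at ht
      exact (Finset.mem_filter.1 ht).2
    have h := crf_diff hBs (hM q hq') ht'.1 ht'.2.1 ht'.2.2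
    exact ⟨h.1.analyticAt (ball_mem_nhds ζ hr), h.2 ζ (mem_ball_self hr)⟩
  constructor
  · refine ContinuousAt.congr ?_ hev.symm
    unfold PhiLoc
    refine tendsto_finsetSum _ fun q hq => tendsto_finsetSum _ fun t ht => ?_
    obtain ⟨ha, h0, h1⟩ := hkey q hq t ht
    exact YY_cont ha h0 h1
  · refine LL.congr ?_ hev
    have hsum : LL (fun η => ∑ q ∈ (Fib_finite H ζ).toFinset, PhiLoc B (M q) η) ζ
        (∑ q ∈ (Fib_finite H ζ).toFinset, ∑ t ∈ Tri n, (-4 : ℝ)) := by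
      refine LL.sum _ _ _ ζ fun q hq => ?_
      exact LL.sum (Tri n) (fun t η => YY (crf B (M q) t.1 t.2.1 t.2.2) η) (fun _ => -4) ζ
        fun t ht => by
          obtain ⟨ha, h0, h1⟩ := hkey q hq t ht
          exact YY_LL ha h0 h1
    refine hsum.mono ?_
    have hcard : ((Fib_finite H ζ).toFinset.card : ℝ) = (Fib Λ z ζ).ncard := by
      rw [Set.ncard_eq_toFinset_card _ (Fib_finite H ζ)]
    rw [Finset.sum_const, Finset.sum_const, nsmul_eq_mul, nsmul_eq_mul, hcard]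
    have h1 := psr_card n
    have h2 : (0 : ℝ) ≤ (Fib Λ z ζ).ncard := Nat.cast_nonneg _
    nlinarith [mul_le_mul_of_nonneg_left h1 h2]

end Pool.Agent.EPO
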