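import Pool.Agent.EPO.AHL
import Pool.Agent.EPO.TLB
import Pool.Agent.EPO.BRD
import Pool.Agent.EPO.RTS
import Pool.Agent.EPO.INV

open scoped Manifold Topology LinearAlgebra.Projectivization
open Filter Metric Set

namespace Pool.Agent.EPO

section UPBcore

variable {n : ℕ} {f : ℂ → Fin (n + 1) → ℂ}

/-- The basic estimate. -/
theorem UPB_core (hn : 3 ≤ n) {ζ : ℂ} {ρ : ℝ} (hρ : 0 < ρ) {B : Fin n → ℂ → ℂ × ℂ}
    (hB : RootSys f (ball ζ ρ) B) {M : ℂ → Fin (n + 1) → ℂ} (hM : ASec f (ball ζ ρ) M) {σ : ℝ}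
    (hσ : 0 < σ) (hs : ∀ X Y, form (f ζ) X = 0 → form (f ζ) Y = 0 → wd X Y ≠ 0 →
      σ * ‖X‖ * ‖Y‖ ≤ ‖wd X Y‖) {r : ℝ} (hr : 0 < r) {B' : Fin n → ℂ → ℂ × ℂ}
    (hB' : RootSys f (ball ζ r) B') :
    PhiLoc B' M ζ ≤ 5760 * (Tri n).card * Real.posLog (2880 / ρ ^ 2) +
      (2 * n + 2) * Real.log (2 / σ) + 2 * Real.log (2 ^ n / ‖f ζ‖) - 2 * Real.log ‖M ζ‖ := by
  classical
  rw [PhiLoc_indep hn hr hρ hB' hB]
  have hmem : ζ ∈ ball ζ ρ := mem_ball_self hρ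
  have hR := hB.2 ζ hmem
  have hzero : ∀ i, form (f ζ) (B i ζ) = 0 := by
    intro i
    rw [hR.1]
    refine Finset.prod_eq_zero (Finset.mem_univ i) ?_
    rw [wd]
    ring
  have hT := TLB hn hR (hM.2 ζ hmem) hσ fun i j hij =>
    hs _ _ (hzero i) (hzero j) (hR.2 i j hij)
  have h1 : ∀ t ∈ Tri n, YY (crf B M t.1 t.2.1 t.2.2) ζ ≤ 5760 * Real.posLog (2880 / ρ ^ 2) -
      Real.log (1 + ‖cr (fun l => B l ζ) (M ζ) t.1 t.2.1 t.2.2‖ ^ 2) := by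
    intro t ht
    rw [Tri, Finset.mem_filter] at ht
    obtain ⟨hd, h01⟩ := crf_diff hB hM ht.2.1 ht.2.2.1 ht.2.2.2
    have h2 := ahlfors hρ hd h01
    have h3 : 0 ≤ met (crf B M t.1 t.2.1 t.2.2 ζ) * ‖deriv (crf B M t.1 t.2.1 t.2.2) ζ‖ ^ 2 :=
      mul_nonneg (met_pos (h01 ζ hmem).1 (h01 ζ hmem).2).le (sq_nonneg _)
    have h4 := Real.posLog_le_posLog h3 h2
    rw [YY]
    have h5 : crf B M t.1 t.2.1 t.2.2 ζ = cr (fun l => B l ζ) (M ζ) t.1 t.2.1 t.2.2 := rfl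
    rw [← h5]
    linarith
  have h2 : PhiLoc B M ζ ≤ ∑ t ∈ Tri n, (5760 * Real.posLog (2880 / ρ ^ 2) -
      Real.log (1 + ‖cr (fun l => B l ζ) (M ζ) t.1 t.2.1 t.2.2‖ ^ 2)) := Finset.sum_le_sum h1
  rw [Finset.sum_sub_distrib, Finset.sum_const, nsmul_eq_mul] at h2
  have h3 : ((Tri n).card : ℝ) * (5760 * Real.posLog (2880 / ρ ^ 2)) =
      5760 * (Tri n).card * Real.posLog (2880 / ρ ^ 2) := by ring
  rw [h3] at h2
  linarith

theorem UPB_fnorm (hf : Differentiable ℂ f) (h0 : ∀ ζ, f ζ ≠ 0) (ζ₀ : ℂ) :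
    ∃ δ > 0, ∀ ζ ∈ ball ζ₀ δ, ‖f ζ₀‖ / 2 < ‖f ζ‖ := by
  have h1 : ∀ᶠ ζ in 𝓝 ζ₀, ‖f ζ₀‖ / 2 < ‖f ζ‖ := by
    have hc : ContinuousAt (fun ζ => ‖f ζ‖) ζ₀ := hf.continuous.norm.continuousAt
    apply hc.eventually_const_lt
    have := norm_pos_iff.2 (h0 ζ₀)
    linarith
  obtain ⟨δ, hδ, h⟩ := Metric.eventually_nhds_iff_ball.1 h1
  exact ⟨δ, hδ, h⟩

end UPBcore

variable {Λ : Submodule ℤ ℂ} [DiscreteTopology Λ] [IsZLattice ℝ Λ] {n : ℕ}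
  {f : ℂ → Fin (n + 1) → ℂ}

/-- Upper bound for the local potential near any point, with a uniform coefficient `K₂`. -/
theorem UPB_sing (hn : 3 ≤ n) (hf : IsCurve Λ f) :
    ∃ K₂ : ℝ, 0 ≤ K₂ ∧ ∀ ζ₀ : ℂ, ∃ δ > 0, ∃ C : ℝ, ∀ ζ ∈ ball ζ₀ δ, ζ ≠ ζ₀ → ∀ M,
      ASec f (ball ζ ‖ζ - ζ₀‖) M → ∀ r > 0, ∀ B, RootSys f (ball ζ r) B →
        PhiLoc B M ζ ≤ C + K₂ * Real.log (1 / ‖ζ - ζ₀‖) - 2 * Real.log ‖M ζ‖ := by
  classical
  obtain ⟨m, hm⟩ := BRD hn hf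
  refine ⟨11520 * (Tri n).card + (2 * n + 2) * m, by positivity, fun ζ₀ => ?_⟩
  obtain ⟨δ₁, hδ₁, c, hc, hsep⟩ := hm ζ₀
  obtain ⟨δ₂, hδ₂, hRT⟩ := RTS hn hf.hol hf.no_fibre ζ₀
  obtain ⟨δ₃, hδ₃, hfn⟩ := UPB_fnorm hf.hol hf.no_fibre ζ₀
  have hf0 := norm_pos_iff.2 (hf.no_fibre ζ₀)
  refine ⟨min (min δ₁ δ₂) (min δ₃ 1) / 2, by positivity,
    5760 * (Tri n).card * Real.log 2880 + (2 * n + 2) * Real.log (2 / c) +
      2 * Real.log (2 ^ n / (‖f ζ₀‖ / 2)), fun ζ hζ hne M hM r hr B hB => ?_⟩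
  have hd1 : min (min δ₁ δ₂) (min δ₃ 1) ≤ δ₁ := (min_le_left _ _).trans (min_le_left _ _)
  have hd2 : min (min δ₁ δ₂) (min δ₃ 1) ≤ δ₂ := (min_le_left _ _).trans (min_le_right _ _)
  have hd3 : min (min δ₁ δ₂) (min δ₃ 1) ≤ δ₃ := (min_le_right _ _).trans (min_le_left _ _)
  have hd4 : min (min δ₁ δ₂) (min δ₃ 1) ≤ 1 := (min_le_right _ _).trans (min_le_right _ _)
  have hd0 : 0 < min (min δ₁ δ₂) (min δ₃ 1) := by positivity
  generalize min (min δ₁ δ₂) (min δ₃ 1) = d at *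
  rw [mem_ball, dist_eq_norm] at hζ
  have hρ : 0 < ‖ζ - ζ₀‖ := norm_pos_iff.2 (sub_ne_zero.2 hne)
  set ρ := ‖ζ - ζ₀‖ with hρdef
  have hball : ∀ η ∈ ball ζ ρ, ‖η - ζ₀‖ < d ∧ η ≠ ζ₀ := by
    intro η hη
    rw [mem_ball, dist_eq_norm] at hη
    constructor
    · have h1 : η - ζ₀ = (η - ζ) + (ζ - ζ₀) := by ring
      have h2 := norm_add_le (η - ζ) (ζ - ζ₀)
      rw [← h1] at h2
      linarith
    · intro h
      rw [h, norm_sub_rev] at hη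
      exact absurd hη (lt_irrefl _)
  have hsub : ball ζ ρ ⊆ ball ζ₀ δ₂ := by
    intro η hη
    rw [mem_ball, dist_eq_norm]
    exact (hball η hη).1.trans_le hd2
  obtain ⟨B₀, hB₀⟩ := hRT ζ ρ hsub (by
    intro η hη
    refine (hsep η ?_ (hball η hη).2).1
    rw [mem_ball, dist_eq_norm]
    exact (hball η hη).1.trans_le hd1)
  have hζ1 : ζ ∈ ball ζ₀ δ₁ := by
    rw [mem_ball, dist_eq_norm]
    linarith
  have hcore := UPB_core hn hρ hB₀ hM (σ := c * ρ ^ m) (by positivity)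
    (fun X Y hX hY hw => (hsep ζ hζ1 hne).2 X Y hX hY hw) hr hB
  have e1 : Real.posLog (2880 / ρ ^ 2) = Real.log 2880 + 2 * Real.log (1 / ρ) := by
    have hρ1 : ρ < 1 := by linarith
    have h1 : 1 ≤ 2880 / ρ ^ 2 := by
      rw [le_div_iff₀ (by positivity)]
      have : ρ ^ 2 ≤ 1 := pow_le_one₀ hρ.le hρ1.le
      linarith
    rw [Real.posLog_eq_log (by rw [abs_of_nonneg (by positivity)]; exact h1),
      Real.log_div (by norm_num) (by positivity), Real.log_pow, one_div, Real.log_inv]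
    push_cast
    ring
  have e2 : Real.log (2 / (c * ρ ^ m)) = Real.log (2 / c) + m * Real.log (1 / ρ) := by
    rw [Real.log_div (by norm_num) (by positivity), Real.log_mul (by positivity) (by positivity),
      Real.log_pow, Real.log_div (by norm_num) (by positivity), one_div, Real.log_inv]
    ring
  have e3 : Real.log (2 ^ n / ‖f ζ‖) ≤ Real.log (2 ^ n / (‖f ζ₀‖ / 2)) := by
    have h1 : ‖f ζ₀‖ / 2 < ‖f ζ‖ := hfn ζ (by
      rw [mem_ball, dist_eq_norm]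
      linarith)
    have h2 : 0 < ‖f ζ₀‖ / 2 := by positivity
    have h3 : 0 < ‖f ζ‖ := h2.trans h1
    apply Real.log_le_log (by positivity)
    exact div_le_div_of_nonneg_left (by positivity) h2 h1.le
  rw [e1, e2] at hcore
  have hfin : 5760 * ((Tri n).card : ℝ) * (Real.log 2880 + 2 * Real.log (1 / ρ)) +
      (2 * n + 2) * (Real.log (2 / c) + m * Real.log (1 / ρ)) =
      5760 * (Tri n).card * Real.log 2880 + (2 * n + 2) * Real.log (2 / c) +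
        (11520 * (Tri n).card + (2 * n + 2) * m) * Real.log (1 / ρ) := by ring
  rw [hfin] at hcore
  linarith

/-- Upper bound for the local potential of sections on a fixed disc around a regular point. -/
theorem UPB_reg (hn : 3 ≤ n) (hf : IsCurve Λ f) {ζ₀ : ℂ} (hζ₀ : ζ₀ ∉ Br f) {r : ℝ} (hr : 0 < r) :
    ∃ δ > 0, ∃ C : ℝ, ∀ ζ ∈ ball ζ₀ δ, ∀ M, ASec f (ball ζ₀ r) M → ∀ r' > 0, ∀ B,
      RootSys f (ball ζ r') B → PhiLoc B M ζ ≤ C := by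
  classical
  obtain ⟨δ₁, hδ₁, c, hc, hsep⟩ := BRR hn hf.hol hf.no_fibre hζ₀
  obtain ⟨δ₂, hδ₂, hRT⟩ := RTS hn hf.hol hf.no_fibre ζ₀
  obtain ⟨d, hd0, hdr, hd1, hd2⟩ : ∃ d > 0, d ≤ r ∧ d ≤ δ₁ ∧ d ≤ δ₂ :=
    ⟨min r (min δ₁ δ₂), by positivity, min_le_left _ _, (min_le_right _ _).trans (min_le_left _ _),
      (min_le_right _ _).trans (min_le_right _ _)⟩
  refine ⟨d / 2, by positivity, 5760 * (Tri n).card * Real.posLog (2880 / (d / 2) ^ 2) +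
      (2 * n + 2) * Real.log (2 / c) + (2 * Real.log (2 ^ n) + 2 * Real.log (n + 1)),
    fun ζ hζ M hM r' hr' B hB => ?_⟩
  rw [mem_ball, dist_eq_norm] at hζ
  have hball : ∀ η ∈ ball ζ (d / 2), ‖η - ζ₀‖ < d := by
    intro η hη
    rw [mem_ball, dist_eq_norm] at hη
    have h1 : η - ζ₀ = (η - ζ) + (ζ - ζ₀) := by ring
    have h2 := norm_add_le (η - ζ) (ζ - ζ₀)
    rw [← h1] at h2
    linarith
  have hsub : ∀ s : ℝ, d ≤ s → ball ζ (d / 2) ⊆ ball ζ₀ s := by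
    intro s hs η hη
    rw [mem_ball, dist_eq_norm]
    exact (hball η hη).trans_le hs
  obtain ⟨B₀, hB₀⟩ := hRT ζ (d / 2) (hsub _ hd2) fun η hη => (hsep η (hsub _ hd1 hη)).1
  have hM' : ASec f (ball ζ (d / 2)) M :=
    ⟨hM.1.mono (hsub _ hdr), fun η hη => hM.2 η (hsub _ hdr hη)⟩
  have hmem : ζ ∈ ball ζ (d / 2) := mem_ball_self (by positivity)
  have hcore := UPB_core hn (by positivity) hB₀ hM' hc
    (fun X Y hX hY hw => (hsep ζ (hsub _ hd1 hmem)).2 X Y hX hY hw) hr' hB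
  have hlow := IsM_lower (hM'.2 ζ hmem)
  have hMn := norm_pos_iff.2 (IsM_ne (hM'.2 ζ hmem))
  have hfn := norm_pos_iff.2 (hf.no_fibre ζ)
  have h1 : 0 ≤ Real.log (n + 1) + Real.log ‖f ζ‖ + Real.log ‖M ζ‖ := by
    have h2 := Real.log_nonneg hlow
    rwa [Real.log_mul (by positivity) hMn.ne', Real.log_mul (by positivity) hfn.ne'] at h2
  rw [Real.log_div (by positivity) hfn.ne'] at hcore
  linarith

end Pool.Agent.EPO
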