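import Pool.Agent.EPO.PSU
import Pool.Agent.EPO.UPB

open scoped Manifold Topology LinearAlgebra.Projectivization
open Filter Metric Set

namespace Pool.Agent.EPO

variable {Λ : Submodule ℤ ℂ} [DiscreteTopology Λ] [IsZLattice ℝ Λ] {n : ℕ}
  {f : ℂ → Fin (n + 1) → ℂ}

/-- The `e`-th roots of `w`. -/
private noncomputable def rts (e : ℕ) (w : ℂ) : Finset ℂ :=
  open Classical in (Polynomial.nthRoots e w).toFinset

private theorem mem_rts {e : ℕ} (he : 0 < e) {w u : ℂ} : u ∈ rts e w ↔ u ^ e = w := by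
  unfold rts
  rw [Multiset.mem_toFinset, Polynomial.mem_nthRoots he]

private theorem card_rts {e : ℕ} (he : 0 < e) {w : ℂ} (hw : w ≠ 0) : (rts e w).card = e := by
  classical
  have hprim := Complex.isPrimitiveRoot_exp e he.ne'
  unfold rts
  rw [Multiset.toFinset_card_of_nodup (hprim.nthRoots_nodup hw), hprim.card_nthRoots,
    if_pos]
  obtain ⟨α, hα⟩ := IsAlgClosed.exists_pow_nat_eq w he
  exact ⟨α, hα⟩

section one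

variable {C : Type*} [TopologicalSpace C] [T2Space C] [CompactSpace C]
  {z : C → ℂ ⧸ Λ} {x : C → ℙ ℂ (ℂ × ℂ)} {e k : C → ℕ}

/-- The general bound for the sum over the points near `q`. -/
private theorem near_gen (hn : 3 ≤ n) (hf : IsCurve Λ f) (H : AllNF Λ f z x e k) {K₂ : ℝ}
    {ζ₀ : ℂ} {δ₁ C₁ : ℝ} (hδ₁ : 0 < δ₁)
    (hU : ∀ ζ ∈ ball ζ₀ δ₁, ζ ≠ ζ₀ → ∀ M,
      ASec f (ball ζ ‖ζ - ζ₀‖) M → ∀ r > 0, ∀ B, RootSys f (ball ζ r) B →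
        PhiLoc B M ζ ≤ C₁ + K₂ * Real.log (1 / ‖ζ - ζ₀‖) - 2 * Real.log ‖M ζ‖)
    {q : C} {ε : ℝ} {σ : ℂ → C} (h : NF Λ f z x (Spec e k) q (e q) (k q) ζ₀ ε σ) :
    ∃ C₂ : ℝ, ∀ᶠ ζ in 𝓝[≠] ζ₀, ∑ u ∈ rts (e q) (ζ - ζ₀), Phi Λ f z x (Spec e k) (σ u) ζ ≤
      C₂ + (K₂ * (e q : ℝ) - 2 * (k q : ℝ)) * Real.log (1 / ‖ζ - ζ₀‖) := by
  obtain ⟨c, hc, hlow⟩ := Mc_lower h
  obtain ⟨m, hm⟩ := BRD hn hf
  obtain ⟨δ₂, hδ₂, _, _, hbr⟩ := hm ζ₀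
  obtain ⟨δ₃, hδ₃, hrt⟩ := RTS hn hf.hol hf.no_fibre ζ₀
  have hεe : 0 < ε ^ (e q) := pow_pos h.pos _
  refine ⟨(e q : ℝ) * (C₁ - 2 * Real.log c), ?_⟩
  have hev : ∀ᶠ ζ in 𝓝[≠] ζ₀, ζ ≠ ζ₀ ∧ dist ζ ζ₀ < δ₁ ∧ dist ζ ζ₀ < δ₂ / 2 ∧
      dist ζ ζ₀ < δ₃ / 2 ∧ dist ζ ζ₀ < ε ^ (e q) / 2 := by
    have hb : ∀ t : ℝ, 0 < t → ∀ᶠ ζ in 𝓝[≠] ζ₀, dist ζ ζ₀ < t := fun t ht =>
      nhdsWithin_le_nhds (ball_mem_nhds ζ₀ ht)
    have hne : ∀ᶠ ζ in 𝓝[≠] ζ₀, ζ ≠ ζ₀ := self_mem_nhdsWithin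
    filter_upwards [hne, hb δ₁ hδ₁, hb _ (half_pos hδ₂), hb _ (half_pos hδ₃),
      hb _ (half_pos hεe)] with ζ h1 h2 h3 h4 h5
    exact ⟨h1, h2, h3, h4, h5⟩
  filter_upwards [hev] with ζ hζ
  obtain ⟨hne, hd1, hd2, hd3, hd4⟩ := hζ
  have hw : ζ - ζ₀ ≠ 0 := sub_ne_zero.2 hne
  have hnp : 0 < ‖ζ - ζ₀‖ := norm_pos_iff.2 hw
  rw [dist_eq_norm] at hd1 hd2 hd3 hd4
  -- a root system on the disc
  have hball : ∀ η ∈ ball ζ ‖ζ - ζ₀‖, ‖η - ζ₀‖ < 2 * ‖ζ - ζ₀‖ ∧ η ≠ ζ₀ := by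
    intro η hη
    rw [mem_ball, dist_eq_norm] at hη
    constructor
    · calc ‖η - ζ₀‖ = ‖(η - ζ) + (ζ - ζ₀)‖ := by ring_nf
        _ ≤ ‖η - ζ‖ + ‖ζ - ζ₀‖ := norm_add_le _ _
        _ < 2 * ‖ζ - ζ₀‖ := by linarith
    · rintro rfl
      rw [norm_sub_rev] at hη
      exact lt_irrefl _ hη
  obtain ⟨B, hB⟩ := hrt ζ ‖ζ - ζ₀‖
    (fun η hη => by
      rw [mem_ball, dist_eq_norm]
      linarith [(hball η hη).1])
    (fun η hη => (hbr η (by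
      rw [mem_ball, dist_eq_norm]
      linarith [(hball η hη).1]) (hball η hη).2).1)
  have hterm : ∀ u ∈ rts (e q) (ζ - ζ₀), Phi Λ f z x (Spec e k) (σ u) ζ ≤
      (C₁ - 2 * Real.log c) + K₂ * Real.log (1 / ‖ζ - ζ₀‖)
        + 2 * (k q : ℝ) * (-(Real.log (1 / ‖ζ - ζ₀‖)) / (e q : ℝ)) := by
    intro u hu
    rw [mem_rts h.epos] at hu
    have hu0 : u ≠ 0 := by
      rintro rfl
      rw [zero_pow h.epos.ne'] at hu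
      exact hw hu.symm
    have hun : ‖u‖ ^ (e q) = ‖ζ - ζ₀‖ := by rw [← norm_pow, hu]
    have huε : u ∈ ball (0 : ℂ) ε := by
      rw [mem_ball_zero_iff]
      by_contra hcon
      push Not at hcon
      have : ε ^ (e q) ≤ ‖u‖ ^ (e q) := pow_le_pow_left₀ h.pos.le hcon _
      linarith
    obtain ⟨s, hs, hsp⟩ := sec_near h hne (by linarith) hu
    have hPhi : IsPhi Λ f z x (Spec e k) (σ u) ζ (PhiLoc B (fun η => Mc f (x (s η)) η) ζ) :=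
      ⟨‖ζ - ζ₀‖, hnp, s, B, hs, hsp, hB, rfl⟩
    rw [Phi_eq hn H hPhi]
    have h1 := hU ζ (by rw [mem_ball, dist_eq_norm]; exact hd1) hne _
      (sec_asec hf.hol hn H isOpen_ball hs) _ hnp B hB
    have h2 := hlow u huε hu0
    have h3 : ζ₀ + u ^ (e q) = ζ := by rw [hu]; ring
    rw [h3] at h2
    simp only [hsp] at h1
    have hup : 0 < ‖u‖ := norm_pos_iff.2 hu0
    have hMpos : 0 < ‖Mc f (x (σ u)) ζ‖ := by
      rcases (norm_nonneg (Mc f (x (σ u)) ζ)).lt_or_eq with h' | h'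
      · exact h'
      · rw [← h', mul_zero] at h2
        exact absurd h2 (not_le.2 hc)
    have h4 : Real.log c ≤ (k q : ℝ) * Real.log ‖u‖ + Real.log ‖Mc f (x (σ u)) ζ‖ := by
      have := Real.log_le_log hc h2
      rwa [Real.log_mul (pow_pos hup _).ne' hMpos.ne', Real.log_pow] at this
    have h5 : Real.log ‖u‖ = -(Real.log (1 / ‖ζ - ζ₀‖)) / (e q : ℝ) := by
      rw [one_div, Real.log_inv, neg_neg, ← hun, Real.log_pow]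
      have : (e q : ℝ) ≠ 0 := by exact_mod_cast h.epos.ne'
      field_simp
    rw [← h5]
    linarith
  calc ∑ u ∈ rts (e q) (ζ - ζ₀), Phi Λ f z x (Spec e k) (σ u) ζ
      ≤ ∑ u ∈ rts (e q) (ζ - ζ₀), ((C₁ - 2 * Real.log c) + K₂ * Real.log (1 / ‖ζ - ζ₀‖)
        + 2 * (k q : ℝ) * (-(Real.log (1 / ‖ζ - ζ₀‖)) / (e q : ℝ))) :=
        Finset.sum_le_sum hterm
    _ = (e q : ℝ) * (C₁ - 2 * Real.log c) +
        (K₂ * (e q : ℝ) - 2 * (k q : ℝ)) * Real.log (1 / ‖ζ - ζ₀‖) := by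
        rw [Finset.sum_const, card_rts h.epos hw, nsmul_eq_mul]
        have : (e q : ℝ) ≠ 0 := by exact_mod_cast h.epos.ne'
        field_simp
        ring

/-- The bound for the sum over the points near a nonspecial `q` if `ζ₀` is not in `Br`. -/
private theorem near_reg (hn : 3 ≤ n) (hf : IsCurve Λ f) (H : AllNF Λ f z x e k)
    {ζ₀ : ℂ} (hζ₀ : ζ₀ ∉ Br f) {q : C} (hq : q ∉ Spec e k) {ε : ℝ} {σ : ℂ → C}
    (h : NF Λ f z x (Spec e k) q (e q) (k q) ζ₀ ε σ) :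
    ∃ C₂ : ℝ, ∀ᶠ ζ in 𝓝[≠] ζ₀, ∑ u ∈ rts (e q) (ζ - ζ₀), Phi Λ f z x (Spec e k) (σ u) ζ ≤
      C₂ := by
  have he : e q = 1 := by
    by_contra hcon
    exact hq (Or.inl hcon)
  obtain ⟨m, hm⟩ := BRD hn hf
  obtain ⟨δ₂, hδ₂, _, _, hbr⟩ := hm ζ₀
  obtain ⟨δ₃, hδ₃, hrt⟩ := RTS hn hf.hol hf.no_fibre ζ₀
  obtain ⟨δ₁, hδ₁, C₁, hU⟩ := UPB_reg hn hf hζ₀ h.pos
  have hsr := sec_reg hq h
  have has := sec_asec hf.hol hn H isOpen_ball hsr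
  refine ⟨C₁, ?_⟩
  have hev : ∀ᶠ ζ in 𝓝[≠] ζ₀, ζ ≠ ζ₀ ∧ dist ζ ζ₀ < δ₁ ∧ dist ζ ζ₀ < δ₂ / 2 ∧
      dist ζ ζ₀ < δ₃ / 2 ∧ dist ζ ζ₀ < ε / 2 := by
    have hb : ∀ t : ℝ, 0 < t → ∀ᶠ ζ in 𝓝[≠] ζ₀, dist ζ ζ₀ < t := fun t ht =>
      nhdsWithin_le_nhds (ball_mem_nhds ζ₀ ht)
    have hne : ∀ᶠ ζ in 𝓝[≠] ζ₀, ζ ≠ ζ₀ := self_mem_nhdsWithin
    filter_upwards [hne, hb δ₁ hδ₁, hb _ (half_pos hδ₂), hb _ (half_pos hδ₃),
      hb _ (half_pos h.pos)] with ζ h1 h2 h3 h4 h5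
    exact ⟨h1, h2, h3, h4, h5⟩
  filter_upwards [hev] with ζ hζ
  obtain ⟨hne, hd1, hd2, hd3, hd4⟩ := hζ
  have hw : ζ - ζ₀ ≠ 0 := sub_ne_zero.2 hne
  have hnp : 0 < ‖ζ - ζ₀‖ := norm_pos_iff.2 hw
  rw [dist_eq_norm] at hd1 hd2 hd3 hd4
  have hball : ∀ η ∈ ball ζ ‖ζ - ζ₀‖, ‖η - ζ₀‖ < 2 * ‖ζ - ζ₀‖ ∧ η ≠ ζ₀ := by
    intro η hη
    rw [mem_ball, dist_eq_norm] at hη
    constructor
    · calc ‖η - ζ₀‖ = ‖(η - ζ) + (ζ - ζ₀)‖ := by ring_nf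
        _ ≤ ‖η - ζ‖ + ‖ζ - ζ₀‖ := norm_add_le _ _
        _ < 2 * ‖ζ - ζ₀‖ := by linarith
    · rintro rfl
      rw [norm_sub_rev] at hη
      exact lt_irrefl _ hη
  obtain ⟨B, hB⟩ := hrt ζ ‖ζ - ζ₀‖
    (fun η hη => by
      rw [mem_ball, dist_eq_norm]
      linarith [(hball η hη).1])
    (fun η hη => (hbr η (by
      rw [mem_ball, dist_eq_norm]
      linarith [(hball η hη).1]) (hball η hη).2).1)
  have hsub : ball ζ ‖ζ - ζ₀‖ ⊆ ball ζ₀ ε := fun η hη => by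
    rw [mem_ball, dist_eq_norm]
    linarith [(hball η hη).1]
  have hsec : IsSec Λ z (Spec e k) (ball ζ ‖ζ - ζ₀‖) (fun ζ => σ (ζ - ζ₀)) :=
    ⟨hsr.1.mono hsub, fun η hη => hsr.2 η (hsub hη)⟩
  have hPhi : IsPhi Λ f z x (Spec e k) (σ (ζ - ζ₀)) ζ
      (PhiLoc B (fun η => Mc f (x (σ (η - ζ₀))) η) ζ) :=
    ⟨‖ζ - ζ₀‖, hnp, _, B, hsec, rfl, hB, rfl⟩
  have hrts : rts (e q) (ζ - ζ₀) = {ζ - ζ₀} := by
    ext u
    rw [mem_rts h.epos, he, pow_one, Finset.mem_singleton]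
  rw [hrts, Finset.sum_singleton, Phi_eq hn H hPhi]
  exact hU ζ (by rw [mem_ball, dist_eq_norm]; exact hd1) _ has _ hnp B hB

end one

open Classical in
/-- The potential near singular points. -/
theorem PSS.{u} (hn : 3 ≤ n) (hf : IsCurve Λ f) :
    ∃ K₂ : ℝ, 0 ≤ K₂ ∧ ∀ (C : Type u) [TopologicalSpace C] [T2Space C] [CompactSpace C]
      (z : C → ℂ ⧸ Λ) (x : C → ℙ ℂ (ℂ × ℂ)) (e k : C → ℕ), AllNF Λ f z x e k →
      ∀ P : Finset C, (∀ p, p ∈ P ↔ p ∈ Spec e k) → ∀ ζ₀ : ℂ, ∃ C' : ℝ, ∀ᶠ ζ in 𝓝[≠] ζ₀,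
        Psi Λ f z x (Spec e k) ζ ≤ C' +
          ((∑ q ∈ P with z q = Λ.mkQ ζ₀, (K₂ * (e q : ℝ) - 2 * (k q : ℝ))) +
            (if ζ₀ ∈ Br f then K₂ * ((Fib Λ z ζ).ncard : ℝ) else 0)) *
              Real.log (1 / ‖ζ - ζ₀‖) := by
  obtain ⟨K₂, hK₂, hUPB⟩ := UPB_sing hn hf
  refine ⟨K₂, hK₂, ?_⟩
  intro C _ _ _ z x e k H P hP ζ₀
  obtain ⟨δ₁, hδ₁, C₁, hU⟩ := hUPB ζ₀
  obtain ⟨δ, hδ, ε, σ, hNF, hdisj, hfib⟩ := FIB H ζ₀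
  have hfin : (Fib Λ z ζ₀).Finite := Fib_finite H ζ₀
  set F : Finset C := hfin.toFinset with hF
  have hmemF : ∀ q, q ∈ F ↔ q ∈ Fib Λ z ζ₀ := fun q => by rw [hF, Set.Finite.mem_toFinset]
  -- the coefficient
  let α : C → ℝ := fun q => if q ∈ P ∨ ζ₀ ∈ Br f then K₂ * (e q : ℝ) - 2 * (k q : ℝ) else 0
  have hloc : ∀ q ∈ Fib Λ z ζ₀, ∃ C₂ : ℝ, ∀ᶠ ζ in 𝓝[≠] ζ₀,
      ∑ u ∈ rts (e q) (ζ - ζ₀), Phi Λ f z x (Spec e k) (σ q u) ζ ≤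
        C₂ + α q * Real.log (1 / ‖ζ - ζ₀‖) := by
    intro q hq
    by_cases hc : q ∈ P ∨ ζ₀ ∈ Br f
    · have : α q = K₂ * (e q : ℝ) - 2 * (k q : ℝ) := if_pos hc
      rw [this]
      exact near_gen hn hf H hδ₁ hU (hNF q hq).1
    · have : α q = 0 := if_neg hc
      rw [this]
      push Not at hc
      have hqs : q ∉ Spec e k := fun h => hc.1 ((hP q).2 h)
      obtain ⟨C₂, hC₂⟩ := near_reg hn hf H hc.2 hqs (hNF q hq).1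
      refine ⟨C₂, ?_⟩
      filter_upwards [hC₂] with ζ hζ
      linarith
  choose! C₂ hC₂ using hloc
  refine ⟨∑ q ∈ F, C₂ q, ?_⟩
  have hall : ∀ᶠ ζ in 𝓝[≠] ζ₀, ∀ q ∈ F,
      ∑ u ∈ rts (e q) (ζ - ζ₀), Phi Λ f z x (Spec e k) (σ q u) ζ ≤
        C₂ q + α q * Real.log (1 / ‖ζ - ζ₀‖) := by
    rw [Finset.eventually_all]
    intro q hq
    exact hC₂ q ((hmemF q).1 hq)
  have hev : ∀ᶠ ζ in 𝓝[≠] ζ₀, ζ ≠ ζ₀ ∧ dist ζ ζ₀ < δ ∧ dist ζ ζ₀ < 1 := by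
    have hb : ∀ t : ℝ, 0 < t → ∀ᶠ ζ in 𝓝[≠] ζ₀, dist ζ ζ₀ < t := fun t ht =>
      nhdsWithin_le_nhds (ball_mem_nhds ζ₀ ht)
    have hne : ∀ᶠ ζ in 𝓝[≠] ζ₀, ζ ≠ ζ₀ := self_mem_nhdsWithin
    filter_upwards [hne, hb δ hδ, hb 1 one_pos] with ζ h1 h2 h3
    exact ⟨h1, h2, h3⟩
  filter_upwards [hall, hev] with ζ hζ hζ'
  obtain ⟨hne, hd, hd1⟩ := hζ'
  have hw : ζ - ζ₀ ≠ 0 := sub_ne_zero.2 hne
  have hnp : 0 < ‖ζ - ζ₀‖ := norm_pos_iff.2 hw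
  have hL : 0 ≤ Real.log (1 / ‖ζ - ζ₀‖) := by
    apply Real.log_nonneg
    rw [one_le_div hnp]
    rw [dist_eq_norm] at hd1
    exact hd1.le
  -- the fibre as a finite set
  let T : Finset (Σ _ : C, ℂ) := F.sigma fun q => rts (e q) (ζ - ζ₀)
  let g : (Σ _ : C, ℂ) → C := fun t => σ t.1 t.2
  have huε : ∀ q ∈ Fib Λ z ζ₀, ∀ u, u ^ (e q) = ζ - ζ₀ → u ∈ ball (0 : ℂ) (ε q) := by
    intro q hq u hu
    rw [mem_ball_zero_iff]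
    by_contra hcon
    push Not at hcon
    have h1 : ε q ^ (e q) ≤ ‖u‖ ^ (e q) := pow_le_pow_left₀ (hNF q hq).1.pos.le hcon _
    rw [← norm_pow, hu, ← dist_eq_norm] at h1
    linarith [(hNF q hq).2]
  have hT : ∀ t, t ∈ T ↔ t.1 ∈ Fib Λ z ζ₀ ∧ t.2 ∈ rts (e t.1) (ζ - ζ₀) := by
    intro t
    rw [Finset.mem_sigma, hmemF]
  have hinj : Set.InjOn g (T : Set (Σ _ : C, ℂ)) := by
    rintro ⟨q, u⟩ ht ⟨q', u'⟩ ht' heq
    rw [Finset.mem_coe, hT] at ht ht'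
    have hq := ht.1
    have hq' := ht'.1
    have hu := (mem_rts (hNF q hq).1.epos).1 ht.2
    have hu' := (mem_rts (hNF q' hq').1.epos).1 ht'.2
    have h1 : q = q' := hdisj q hq q' hq' u (huε q hq u hu) u' (huε q' hq' u' hu') heq
    subst h1
    have h2 : u = u' := (hNF q hq).1.inj (huε q hq u hu) (huε q hq' u' hu') heq
    rw [h2]
  have hFT : Fib Λ z ζ = ((T.image g : Finset C) : Set C) := by
    ext p
    rw [hfib ζ (by rw [mem_ball]; exact hd) p, Finset.mem_coe, Finset.mem_image]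
    constructor
    · rintro ⟨q, hq, u, -, hu, rfl⟩
      exact ⟨⟨q, u⟩, (hT _).2 ⟨hq, (mem_rts (hNF q hq).1.epos).2 hu⟩, rfl⟩
    · rintro ⟨⟨q, u⟩, ht, rfl⟩
      rw [hT] at ht
      have hu := (mem_rts (hNF q ht.1).1.epos).1 ht.2
      exact ⟨q, ht.1, u, huε q ht.1 u hu, hu, rfl⟩
  have hPsi : Psi Λ f z x (Spec e k) ζ =
      ∑ q ∈ F, ∑ u ∈ rts (e q) (ζ - ζ₀), Phi Λ f z x (Spec e k) (σ q u) ζ := by
    unfold Psi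
    rw [hFT, finsum_mem_coe_finset, Finset.sum_image hinj, Finset.sum_sigma]
  have hcard : (Fib Λ z ζ).ncard = ∑ q ∈ F, e q := by
    rw [hFT, Set.ncard_coe_finset, Finset.card_image_of_injOn hinj, Finset.card_sigma]
    refine Finset.sum_congr rfl fun q hq => ?_
    exact card_rts (hNF q ((hmemF q).1 hq)).1.epos hw
  have hα : ∑ q ∈ F, α q ≤ (∑ q ∈ P with z q = Λ.mkQ ζ₀, (K₂ * (e q : ℝ) - 2 * (k q : ℝ))) +
            (if ζ₀ ∈ Br f then K₂ * ((Fib Λ z ζ).ncard : ℝ) else 0) := by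
    rw [← Finset.sum_filter_add_sum_filter_not F (fun q => q ∈ P) α]
    have h1 : F.filter (fun q => q ∈ P) = P.filter (fun q => z q = Λ.mkQ ζ₀) := by
      ext q
      rw [Finset.mem_filter, Finset.mem_filter, hmemF, and_comm]
      rfl
    have h2 : ∑ q ∈ F with q ∈ P, α q =
        ∑ q ∈ P with z q = Λ.mkQ ζ₀, (K₂ * (e q : ℝ) - 2 * (k q : ℝ)) := by
      rw [h1]
      refine Finset.sum_congr rfl fun q hq => ?_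
      exact if_pos (Or.inl (Finset.mem_filter.1 hq).1)
    rw [h2]
    refine add_le_add_right ?_ _
    by_cases hbr : ζ₀ ∈ Br f
    · rw [if_pos hbr, hcard]
      calc ∑ q ∈ F with ¬ q ∈ P, α q ≤ ∑ q ∈ F with ¬ q ∈ P, K₂ * (e q : ℝ) := by
            refine Finset.sum_le_sum fun q hq => ?_
            have : α q = K₂ * (e q : ℝ) - 2 * (k q : ℝ) := if_pos (Or.inr hbr)
            rw [this]
            have : (0 : ℝ) ≤ (k q : ℝ) := Nat.cast_nonneg _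
            linarith
        _ ≤ ∑ q ∈ F, K₂ * (e q : ℝ) := by
            refine Finset.sum_le_sum_of_subset_of_nonneg (Finset.filter_subset _ _) ?_
            intro q _ _
            positivity
        _ = K₂ * ((∑ q ∈ F, e q : ℕ) : ℝ) := by
            rw [← Finset.mul_sum]
            push_cast
            rfl
    · rw [if_neg hbr]
      refine (Finset.sum_eq_zero fun q hq => ?_).le
      refine if_neg ?_
      rintro (h | h)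
      · exact (Finset.mem_filter.1 hq).2 h
      · exact hbr h
  rw [hPsi]
  calc ∑ q ∈ F, ∑ u ∈ rts (e q) (ζ - ζ₀), Phi Λ f z x (Spec e k) (σ q u) ζ
      ≤ ∑ q ∈ F, (C₂ q + α q * Real.log (1 / ‖ζ - ζ₀‖)) := Finset.sum_le_sum hζ
    _ = ∑ q ∈ F, C₂ q + (∑ q ∈ F, α q) * Real.log (1 / ‖ζ - ζ₀‖) := by
        rw [Finset.sum_add_distrib, Finset.sum_mul]
    _ ≤ _ := add_le_add_right (mul_le_mul_of_nonneg_right hα hL) _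

end Pool.Agent.EPO
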