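import Pool.Agent.EPO.SEA

open scoped Manifold Topology LinearAlgebra.Projectivization
open Filter Metric Set

namespace Pool.Agent.EPO

/-- Every point of the plane is at bounded distance from the lattice. -/
private theorem ser_near (Λ : Submodule ℤ ℂ) [DiscreteTopology Λ] [IsZLattice ℝ Λ] :
    ∃ R : ℝ, ∀ c : ℂ, ∃ ω ∈ Λ, ‖c - ω‖ ≤ R := by
  classical
  have := ZLattice.module_finite ℝ Λ
  have := ZLattice.module_free ℝ Λ
  let b := (Module.Free.chooseBasis ℤ Λ).ofZLatticeBasis ℝ Λ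
  have hb : Submodule.span ℤ (Set.range b) = Λ :=
    (Module.Free.chooseBasis ℤ Λ).ofZLatticeBasis_span ℝ
  refine ⟨∑ i, ‖b i‖, fun c => ⟨(ZSpan.floor b c : ℂ), ?_, ?_⟩⟩
  · exact hb.le (ZSpan.floor b c).2
  · have h := ZSpan.norm_fract_le (K := ℝ) b c
    rw [ZSpan.fract_apply] at h
    exact h

/-- The factor of automorphy is holomorphic. -/
private theorem ser_j_diff {n : ℕ} {f : ℂ → Fin (n + 1) → ℂ} (hf : Differentiable ℂ f)
    (h0 : ∀ ζ, f ζ ≠ 0) {ω : ℂ} {j : ℂ → ℂ}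
    (hfj : ∀ ζ, f (ζ + ω) = j ζ • f ζ) : Differentiable ℂ j := by
  intro ζ₀
  obtain ⟨i, hi⟩ : ∃ i, f ζ₀ i ≠ 0 := by
    by_contra hcon
    push Not at hcon
    exact h0 ζ₀ (funext hcon)
  have hfi : Differentiable ℂ (fun ζ => f ζ i) := fun ζ => (differentiableAt_pi.1 (hf ζ)) i
  have hfi' : Differentiable ℂ (fun ζ => f (ζ + ω) i) := fun ζ =>
    (hfi (ζ + ω)).comp (f := fun ζ : ℂ => ζ + ω) ζ (by fun_prop)
  have hd : DifferentiableAt ℂ (fun ζ => f (ζ + ω) i / f ζ i) ζ₀ :=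
    (hfi' ζ₀).div (hfi ζ₀) hi
  refine hd.congr_of_eventuallyEq ?_
  have hne : ∀ᶠ ζ in 𝓝 ζ₀, f ζ i ≠ 0 := (hfi ζ₀).continuousAt.eventually_ne hi
  filter_upwards [hne] with ζ hζ
  have h := congrFun (hfj ζ) i
  simp only [Pi.smul_apply, smul_eq_mul] at h
  rw [h]
  field_simp

/-- Translation of a section. -/
private theorem ser_translate {Λ : Submodule ℤ ℂ} {n : ℕ} (hn : 3 ≤ n)
    {f : ℂ → Fin (n + 1) → ℂ} (hf : IsCurve Λ f) {ω : ℂ} (hω : ω ∈ Λ) {c : ℂ} {r : ℝ}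
    {M : ℂ → Fin (n + 1) → ℂ} (hM : ASec f (ball c r) M) :
    ∃ M', ASec f (ball (c - ω) r) M' := by
  obtain ⟨j, hj, hfj⟩ := hf.aut ω hω
  have hjd : Differentiable ℂ j := ser_j_diff hf.hol hf.no_fibre hfj
  have hmaps : MapsTo (fun ζ : ℂ => ζ + ω) (ball (c - ω) r) (ball c r) := by
    intro ζ hζ
    rw [mem_ball, dist_eq_norm] at hζ ⊢
    have : ζ + ω - c = ζ - (c - ω) := by ring
    rwa [this]
  refine ⟨fun ζ => j ζ • M (ζ + ω), ?_, ?_⟩
  · have h1 : DifferentiableOn ℂ (fun ζ => M (ζ + ω)) (ball (c - ω) r) :=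
      hM.1.comp (f := fun ζ : ℂ => ζ + ω) (by fun_prop) hmaps
    exact hjd.differentiableOn.smul h1
  · intro ζ hζ
    have h := hM.2 (ζ + ω) (hmaps hζ)
    rw [hfj ζ] at h
    exact IsM_mul (by omega) (hj ζ) h

/-- There are no sections avoiding the curve over large discs. -/
theorem SER {Λ : Submodule ℤ ℂ} [DiscreteTopology Λ] [IsZLattice ℝ Λ] {n : ℕ} (hn : 3 ≤ n)
    {f : ℂ → Fin (n + 1) → ℂ} (hf : IsCurve Λ f) :
    ∃ R > 0, ∀ c : ℂ, ¬ ∃ M, ASec f (ball c R) M := by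
  by_contra hcon
  push Not at hcon
  obtain ⟨R₁, hR₁⟩ := ser_near Λ
  have key : ∀ k : ℕ, ∃ c : ℂ, ‖c‖ ≤ R₁ ∧ ∃ M, ASec f (ball c ((k : ℝ) + 1)) M := by
    intro k
    obtain ⟨c, M, hM⟩ := hcon ((k : ℝ) + 1) (by positivity)
    obtain ⟨ω, hω, hle⟩ := hR₁ c
    obtain ⟨M', hM'⟩ := ser_translate hn hf hω hM
    exact ⟨c - ω, hle, M', hM'⟩
  choose c hc M hM using key
  have hb : ∀ b ∈ (univ : Set ℂ), ∃ r > 0, ∀ᶠ k in atTop, ASec f (ball b r) (M k) := by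
    intro b _
    refine ⟨1, one_pos, ?_⟩
    obtain ⟨K, hK⟩ := exists_nat_gt (‖b‖ + R₁)
    filter_upwards [eventually_ge_atTop K] with k hk
    have hsub : ball b 1 ⊆ ball (c k) ((k : ℝ) + 1) := by
      apply ball_subset_ball'
      have h1 : dist b (c k) ≤ ‖b‖ + ‖c k‖ := by
        rw [dist_eq_norm]
        exact norm_sub_le _ _
      have h2 : (K : ℝ) ≤ k := by exact_mod_cast hk
      have h3 := hc k
      linarith
    exact ⟨(hM k).1.mono hsub, fun ζ hζ => (hM k).2 ζ (hsub hζ)⟩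
  obtain ⟨φ, hφ, h | h⟩ := GDI hn hf.hol.continuous hf.no_fibre isOpen_univ isPreconnected_univ
    (fun b _ => LDA hn hf b) M hb
  · obtain ⟨L, hL⟩ := h
    refine SEA hn hf (M := L) ⟨?_, ?_⟩
    · intro ζ hζ
      obtain ⟨s, hs, hs'⟩ := hL ζ hζ
      exact ((hs'.1.1.differentiableAt (ball_mem_nhds ζ hs))).differentiableWithinAt
    · intro ζ hζ
      obtain ⟨s, hs, hs'⟩ := hL ζ hζ
      exact hs'.1.2 ζ (mem_ball_self hs)
  · obtain ⟨N, hN⟩ := h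
    refine SEB hn hf (N := N) ?_ ?_
    · intro ζ
      obtain ⟨s, hs, hs'⟩ := hN ζ (mem_univ ζ)
      exact hs'.1.differentiableAt (ball_mem_nhds ζ hs)
    · intro ζ
      obtain ⟨s, hs, hs'⟩ := hN ζ (mem_univ ζ)
      exact hs'.2.1 ζ (mem_ball_self hs)

end Pool.Agent.EPO
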