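import Pool.Agent.EPO.FINP
import Pool.Agent.EPO.SER
import Pool.Agent.EPO.LNF
import Pool.Agent.EPO.CNT
import Pool.Agent.EPO.PSR
import Pool.Agent.EPO.PSS

open scoped Manifold Topology LinearAlgebra.Projectivization
open Filter Metric Set

namespace Pool.Agent.EPO

theorem mkQ_eq_iff' (Λ : Submodule ℤ ℂ) (a b : ℂ) : Λ.mkQ a = Λ.mkQ b ↔ a - b ∈ Λ := by
  rw [← sub_eq_zero, ← map_sub]
  exact Submodule.Quotient.mk_eq_zero Λ

theorem MAIN.{u} (Λ : Submodule ℤ ℂ) [DiscreteTopology Λ] [IsZLattice ℝ Λ] {n : ℕ} (hn : 3 ≤ n)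
    (f : ℂ → Fin (n + 1) → ℂ) (hf : IsCurve Λ f) :
    ∃ A : ℝ, ∀ (C : Type u) [TopologicalSpace C] [T2Space C] [CompactSpace C]
      [ChartedSpace ℂ C] [IsManifold 𝓘(ℂ, ℂ) 1 C] (z : C → ℂ ⧸ Λ) (x : C → ℙ ℂ (ℂ × ℂ))
      (e k : C → ℕ), (∀ p, Local Λ f z x p (e p) (k p)) →
      ∃ P : Finset C, (∀ p, p ∉ P ↔ e p = 1 ∧ k p = 0) ∧
        ∑ p ∈ P, (k p : ℝ) ≤
          A * (∑ p ∈ P, ((e p : ℝ) - 1) + (P.filter fun p => 0 < k p).card) := by
  classical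
  obtain ⟨Brs, hBrs⟩ := Br_finite hn hf
  obtain ⟨K₂, hK₂, hPSS⟩ := PSS.{u} hn hf
  obtain ⟨R, hR, hSR⟩ := SER hn hf
  obtain ⟨K, hK⟩ := LCT Λ R
  obtain ⟨A₀, hA₀, hA⟩ := FINP.{u} Λ Brs (4 * (n : ℝ) ^ 3) K₂ (by positivity) hK₂
  refine ⟨A₀ * (K + 2) * 2, ?_⟩
  intro C _ _ _ _ _ z x e k H
  have HN : AllNF Λ f z x e k := LNF hf H
  have hfin : (Spec e k).Finite := Spec_finite HN
  set P : Finset C := hfin.toFinset with hPdef
  have hP : ∀ p, p ∈ P ↔ p ∈ Spec e k := fun p => by simp [hPdef]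
  have hPn : ∀ p, p ∉ P ↔ e p = 1 ∧ k p = 0 := by
    intro p
    rw [hP]
    simp only [Spec, Set.mem_ofPred_eq]
    tauto
  refine ⟨P, hPn, ?_⟩
  have hepos : ∀ p, 0 < e p := by
    intro p
    obtain ⟨a, ha⟩ := Submodule.mkQ_surjective Λ (z p)
    obtain ⟨ε, σ, h⟩ := HN p a ha.symm
    exact h.epos
  rcases P.eq_empty_or_nonempty with hPe | hPne
  · rw [hPe]
    simp
  choose lift hlift using fun q : C => Submodule.mkQ_surjective Λ (z q)
  set D₀ : ℝ := K * ∑ q ∈ P, (e q : ℝ) with hD₀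
  have hD₀nn : 0 ≤ D₀ := by positivity
  have hcnt : ∀ ζ : ℂ, (∀ p ∈ Fib Λ z ζ, p ∉ Spec e k) → ((Fib Λ z ζ).ncard : ℝ) ≤ D₀ := by
    intro ζ hζ
    have := CNT hf.hol hn HN hR hSR hK hζ P hP
    rw [hD₀]
    exact_mod_cast this
  have hreg : ∀ ζ : ℂ, (∀ i : P, ζ - lift i ∉ Λ) → ∀ p ∈ Fib Λ z ζ, p ∉ Spec e k := by
    intro ζ h p hp hps
    have h1 := h ⟨p, (hP p).2 hps⟩
    apply h1
    have h2 : z p = Λ.mkQ ζ := hp
    rw [← mkQ_eq_iff', ← h2]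
    exact (hlift p).symm
  have key := hA P (fun q => lift q) (fun q => e q) (fun q => k q) D₀ (Psi Λ f z x (Spec e k))
    hD₀nn (fun q => hepos q) (fun ω hω ζ => Psi_translate hn hf HN hω ζ) ?_ ?_
  · -- conclusion
    have e1 : ∑ i : P, ((k i : ℕ) : ℝ) = ∑ p ∈ P, (k p : ℝ) :=
      Finset.sum_coe_sort P (fun p => (k p : ℝ))
    have e2 : ∑ i : P, ((e i : ℕ) : ℝ) = ∑ p ∈ P, (e p : ℝ) :=
      Finset.sum_coe_sort P (fun p => (e p : ℝ))
    rw [e1, e2] at key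
    have h3 : (1 : ℝ) ≤ ∑ p ∈ P, (e p : ℝ) := by
      obtain ⟨p, hp⟩ := hPne
      have h4 : (e p : ℝ) ≤ ∑ p ∈ P, (e p : ℝ) :=
        Finset.single_le_sum (f := fun p => (e p : ℝ)) (fun i _ => by positivity) hp
      have h5 : (1 : ℝ) ≤ e p := by exact_mod_cast hepos p
      linarith
    have h6 : ∑ p ∈ P, (e p : ℝ) ≤
        2 * (∑ p ∈ P, ((e p : ℝ) - 1) + ((P.filter fun p => 0 < k p).card : ℝ)) := by
      have h7 : ((P.filter fun p => 0 < k p).card : ℝ) = ∑ p ∈ P, if 0 < k p then (1 : ℝ) else 0 := by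
        rw [Finset.card_filter]
        push_cast
        rfl
      rw [h7, ← Finset.sum_add_distrib, Finset.mul_sum]
      refine Finset.sum_le_sum fun p hp => ?_
      have h8 : ¬ (e p = 1 ∧ k p = 0) := fun h => ((hPn p).2 h) hp
      have h9 : (1 : ℝ) ≤ e p := by exact_mod_cast hepos p
      by_cases hk : 0 < k p
      · rw [if_pos hk]
        linarith
      · rw [if_neg hk]
        have h10 : e p ≠ 1 := fun h => h8 ⟨h, by omega⟩
        have h11 : 2 ≤ e p := by have := hepos p; omega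
        have h12 : (2 : ℝ) ≤ e p := by exact_mod_cast h11
        linarith
    calc ∑ p ∈ P, (k p : ℝ) ≤ A₀ * (D₀ + ∑ p ∈ P, (e p : ℝ) + 1) := key
      _ ≤ A₀ * ((K + 2) * ∑ p ∈ P, (e p : ℝ)) := by
          apply mul_le_mul_of_nonneg_left _ hA₀
          rw [hD₀]
          linarith
      _ ≤ A₀ * ((K + 2) *
          (2 * (∑ p ∈ P, ((e p : ℝ) - 1) + ((P.filter fun p => 0 < k p).card : ℝ)))) := by
          apply mul_le_mul_of_nonneg_left _ hA₀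
          apply mul_le_mul_of_nonneg_left h6 (by positivity)
      _ = _ := by ring
  · -- regular points
    intro ζ h1 h2
    have hr := hreg ζ h1
    have hb : ζ ∉ Br f := by
      rw [hBrs]
      rintro ⟨β, hβ, h⟩
      exact h2 β hβ h
    obtain ⟨hc, hl⟩ := PSR hn hf HN hb hr
    refine ⟨hc, hl.mono ?_⟩
    have := hcnt ζ hr
    have h4 : (0 : ℝ) ≤ 4 * (n : ℝ) ^ 3 := by positivity
    nlinarith
  · -- singular points
    intro ζ₀ _
    obtain ⟨C', hC'⟩ := hPSS C z x e k HN P hP ζ₀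
    refine ⟨C', ?_⟩
    obtain ⟨δ, hδ, ε, σ, hNF, _, hfib⟩ := FIB HN ζ₀
    have hnear : ∀ᶠ ζ in 𝓝[≠] ζ₀, ζ ∈ ball ζ₀ (min δ 1) ∧ ζ ≠ ζ₀ := by
      have h1 : ∀ᶠ ζ in 𝓝[≠] ζ₀, ζ ∈ ball ζ₀ (min δ 1) :=
        mem_nhdsWithin_of_mem_nhds (ball_mem_nhds _ (by positivity))
      have h2 : ∀ᶠ ζ in 𝓝[≠] ζ₀, ζ ≠ ζ₀ := by
        filter_upwards [self_mem_nhdsWithin] with ζ hζ
        exact hζ
      exact h1.and h2
    filter_upwards [hC', hnear] with ζ hζ hζn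
    obtain ⟨hball, hne⟩ := hζn
    rw [mem_ball, dist_eq_norm] at hball
    have hpos : 0 < ‖ζ - ζ₀‖ := norm_pos_iff.2 (sub_ne_zero.2 hne)
    have hlog : 0 ≤ Real.log (1 / ‖ζ - ζ₀‖) := by
      apply Real.log_nonneg
      rw [le_div_iff₀ hpos]
      have := lt_of_lt_of_le hball (min_le_right _ _)
      linarith
    have hregζ : ∀ p ∈ Fib Λ z ζ, p ∉ Spec e k := by
      intro p hp
      obtain ⟨q, hq, u, hu, hue, rfl⟩ := (hfib ζ (by
        rw [mem_ball, dist_eq_norm]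
        exact lt_of_lt_of_le hball (min_le_left _ _)) p).1 hp
      refine (hNF q hq).1.avoid u hu ?_
      rintro rfl
      rw [zero_pow (hepos q).ne'] at hue
      exact hne (sub_eq_zero.1 hue.symm)
    have hc := hcnt ζ hregζ
    have e3 : Finset.sum (Finset.filter (fun i : P => ζ₀ - lift i ∈ Λ) Finset.univ)
          (fun i : P => (K₂ * (e i : ℝ) - 2 * (k i : ℝ))) =
        ∑ q ∈ P with z q = Λ.mkQ ζ₀, (K₂ * (e q : ℝ) - 2 * (k q : ℝ)) := by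
      rw [Finset.sum_filter, Finset.sum_filter]
      rw [← Finset.sum_coe_sort P]
      refine Finset.sum_congr rfl fun i _ => ?_
      have : (ζ₀ - lift i ∈ Λ) ↔ z i = Λ.mkQ ζ₀ := by
        rw [← mkQ_eq_iff', hlift]
        exact eq_comm
      simp only [this]
    have e4 : (∃ β ∈ Brs, ζ₀ - β ∈ Λ) ↔ ζ₀ ∈ Br f := (hBrs ζ₀).symm
    rw [e3]
    refine hζ.trans ?_
    have h13 : (if ζ₀ ∈ Br f then K₂ * ((Fib Λ z ζ).ncard : ℝ) else 0) ≤
        (if ∃ β ∈ Brs, ζ₀ - β ∈ Λ then K₂ * D₀ else 0) := by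
      by_cases hb : ζ₀ ∈ Br f
      · rw [if_pos hb, if_pos (e4.2 hb)]
        exact mul_le_mul_of_nonneg_left hc hK₂
      · rw [if_neg hb, if_neg (fun h => hb (e4.1 h))]
    have h14 := mul_le_mul_of_nonneg_right h13 hlog
    rw [add_mul, add_mul]
    linarith

end Pool.Agent.EPO
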