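import Pool.Agent.EPO.SCA
import Pool.Agent.EPO.INV

open scoped Manifold Topology LinearAlgebra.Projectivization
open Filter Metric Set

namespace Pool.Agent.EPO

variable {Λ : Submodule ℤ ℂ} [DiscreteTopology Λ] [IsZLattice ℝ Λ] {n : ℕ}
  {f : ℂ → Fin (n + 1) → ℂ} {C : Type*} [TopologicalSpace C] [T2Space C]
  {z : C → ℂ ⧸ Λ} {x : C → ℙ ℂ (ℂ × ℂ)} {e k : C → ℕ}

private theorem isPhi_unique (hn : 3 ≤ n) (H : AllNF Λ f z x e k) {p : C} {ζ : ℂ} {v v' : ℝ}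
    (h : IsPhi Λ f z x (Spec e k) p ζ v) (h' : IsPhi Λ f z x (Spec e k) p ζ v') : v = v' := by
  obtain ⟨r, hr, s, B, hs, hsp, hB, hv⟩ := h
  obtain ⟨r', hr', s', B', hs', hsp', hB', hv'⟩ := h'
  have hm : 0 < min r r' := lt_min hr hr'
  have h1 : IsSec Λ z (Spec e k) (ball ζ (min r r')) s :=
    ⟨hs.1.mono (ball_subset_ball (min_le_left _ _)),
      fun η hη => hs.2 η (ball_subset_ball (min_le_left _ _) hη)⟩
  have h2 : IsSec Λ z (Spec e k) (ball ζ (min r r')) s' :=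
    ⟨hs'.1.mono (ball_subset_ball (min_le_right _ _)),
      fun η hη => hs'.2 η (ball_subset_ball (min_le_right _ _) hη)⟩
  have h3 : EqOn s s' (ball ζ (min r r')) :=
    sec_unique H (convex_ball ζ _).isPreconnected h1 h2 (mem_ball_self hm) (hsp.trans hsp'.symm)
  have h4 : (fun η => Mc f (x (s η)) η) =ᶠ[𝓝 ζ] (fun η => Mc f (x (s' η)) η) := by
    filter_upwards [ball_mem_nhds ζ hm] with η hη
    rw [h3 hη]
  rw [hv, hv', PhiLoc_congr h4 (fun i => EventuallyEq.rfl)]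
  exact PhiLoc_indep hn hr hr' hB hB'

theorem Phi_eq (hn : 3 ≤ n) (H : AllNF Λ f z x e k) {p : C} {ζ : ℂ} {v : ℝ}
    (h : IsPhi Λ f z x (Spec e k) p ζ v) : Phi Λ f z x (Spec e k) p ζ = v := by
  have hex : ∃ v, IsPhi Λ f z x (Spec e k) p ζ v := ⟨v, h⟩
  unfold Phi
  rw [dif_pos hex]
  exact isPhi_unique hn H hex.choose_spec h

omit [DiscreteTopology Λ] [IsZLattice ℝ Λ] [T2Space C] in
private theorem mkQ_add {ω : ℂ} (hω : ω ∈ Λ) (ζ : ℂ) : Λ.mkQ (ζ + ω) = Λ.mkQ ζ := by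
  rw [map_add]
  have : Λ.mkQ ω = 0 := by simpa using hω
  rw [this, add_zero]

private theorem isPhi_translate (hn : 3 ≤ n) (hf : IsCurve Λ f) {ω : ℂ}
    (hω : ω ∈ Λ) {ζ : ℂ} {p : C} {v : ℝ} (h : IsPhi Λ f z x (Spec e k) p (ζ + ω) v) :
    IsPhi Λ f z x (Spec e k) p ζ v := by
  obtain ⟨r, hr, s, B, hs, hsp, hB, hv⟩ := h
  obtain ⟨j, hj, hfj⟩ := hf.aut ω hω
  obtain ⟨B', hB', hP⟩ := PhiLoc_translate hn hf.hol hf.no_fibre hj hfj hr hB
    (fun η => Mc f (x (s η)) η)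
  have hsub : ∀ η ∈ ball ζ r, η + ω ∈ ball (ζ + ω) r := by
    intro η hη
    rw [mem_ball, dist_eq_norm] at hη ⊢
    simpa using hη
  refine ⟨r, hr, fun η => s (η + ω), B', ⟨?_, ?_⟩, hsp, hB', ?_⟩
  · exact hs.1.comp (by fun_prop) hsub
  · intro η hη
    obtain ⟨h1, h2⟩ := hs.2 (η + ω) (hsub η hη)
    exact ⟨h1.trans (mkQ_add hω η), h2⟩
  · rw [hv, ← hP]
    congr 1
    funext η
    exact Mc_translate (x (s (η + ω))) (hj η) (hfj η)

theorem Psi_translate (hn : 3 ≤ n) (hf : IsCurve Λ f) (H : AllNF Λ f z x e k) {ω : ℂ}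
    (hω : ω ∈ Λ) (ζ : ℂ) : Psi Λ f z x (Spec e k) (ζ + ω) = Psi Λ f z x (Spec e k) ζ := by
  have hF : Fib Λ z (ζ + ω) = Fib Λ z ζ := by
    ext p
    change z p = _ ↔ z p = _
    rw [mkQ_add hω ζ]
  have key : ∀ p, Phi Λ f z x (Spec e k) p (ζ + ω) = Phi Λ f z x (Spec e k) p ζ := by
    intro p
    by_cases hex : ∃ v, IsPhi Λ f z x (Spec e k) p (ζ + ω) v
    · obtain ⟨v, hv⟩ := hex
      rw [Phi_eq hn H hv, Phi_eq hn H (isPhi_translate hn hf hω hv)]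
    · have hex' : ¬ ∃ v, IsPhi Λ f z x (Spec e k) p ζ v := by
        rintro ⟨v, hv⟩
        refine hex ⟨v, isPhi_translate hn hf (neg_mem hω) ?_⟩
        rwa [add_neg_cancel_right]
      unfold Phi
      rw [dif_neg hex, dif_neg hex']
  unfold Psi
  rw [hF]
  exact finsum_congr fun p => finsum_congr fun _ => key p

end Pool.Agent.EPO
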