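import Pool.Agent.EPO.SRT

open scoped Manifold Topology LinearAlgebra.Projectivization
open Filter Metric Set

namespace Pool.Agent.EPO

/-- A form of degree `n` with `n + 1` independent zeros vanishes. -/
private theorem RTA_vdm {n : ℕ} {e : Fin (n + 1) → ℂ} {Z : Fin (n + 1) → ℂ × ℂ}
    (h0 : ∀ i, form e (Z i) = 0) (hw : ∀ i j, i ≠ j → wd (Z i) (Z j) ≠ 0) : e = 0 := by
  have hdet : (Matrix.projVandermonde (fun i => (Z i).1) (fun i => (Z i).2)).det ≠ 0 := by
    rw [Matrix.det_projVandermonde]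
    refine Finset.prod_ne_zero_iff.2 fun i _ => Finset.prod_ne_zero_iff.2 fun j hj => ?_
    have hij : j ≠ i := (Finset.mem_Ioi.1 hj).ne'
    have := hw j i hij
    unfold wd at this
    intro h
    apply this
    linear_combination h
  apply Matrix.eq_zero_of_mulVec_eq_zero hdet
  ext i
  have := h0 i
  rw [form] at this
  rw [Matrix.mulVec, dotProduct, Pi.zero_apply, ← this]
  refine Finset.sum_congr rfl fun j _ => ?_
  rw [Matrix.projVandermonde_apply]
  have : ((j.rev : Fin (n + 1)) : ℕ) = n - j := by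
    rw [Fin.val_rev]; omega
  rw [this]
  ring

/-- The coefficients of a product of linear forms. -/
private noncomputable def RTA_co {n : ℕ} (B : Fin n → ℂ × ℂ) : Fin (n + 1) → ℂ := fun i =>
  (∏ l, (Polynomial.C (B l).2 * Polynomial.X - Polynomial.C (B l).1)).coeff (i : ℕ)

private theorem RTA_form_co {n : ℕ} (B : Fin n → ℂ × ℂ) (X : ℂ × ℂ) :
    form (RTA_co B) X = ∏ l, wd X (B l) := by
  rw [← pr_ver]
  rfl

private theorem RTA_form_sub {n : ℕ} (c d : Fin (n + 1) → ℂ) (X : ℂ × ℂ) :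
    form (c - d) X = form c X - form d X := by
  simp only [form, Pi.sub_apply, sub_mul, Finset.sum_sub_distrib]

private theorem RTA_ext {n : ℕ} {c d : Fin (n + 1) → ℂ} (h : ∀ X, form c X = form d X) :
    c = d := by
  rw [← sub_eq_zero]
  apply RTA_vdm (Z := fun i => ((i : ℕ), 1))
  · intro i
    rw [RTA_form_sub, h, sub_self]
  · intro i j hij h
    unfold wd at h
    simp only [mul_one, one_mul] at h
    apply hij
    have h2 := sub_eq_zero.1 h
    exact Fin.ext (by exact_mod_cast h2)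

private theorem RTA_exists_indep {n : ℕ} {B : Fin n → ℂ × ℂ} (hB : ∀ i, B i ≠ 0) :
    ∃ X : ℂ × ℂ, ∀ i, wd X (B i) ≠ 0 := by
  have hp : (∏ l, (Polynomial.C (B l).2 * Polynomial.X - Polynomial.C (B l).1) :
      Polynomial ℂ) ≠ 0 := by
    refine Finset.prod_ne_zero_iff.2 fun l _ h => hB l ?_
    have h1 := congrArg (fun p => Polynomial.coeff p 0) h
    have h2 := congrArg (fun p => Polynomial.coeff p 1) h
    simp at h1 h2
    exact Prod.ext h1 h2
  obtain ⟨t, ht⟩ : ∃ t : ℂ, (∏ l, (Polynomial.C (B l).2 * Polynomial.X -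
      Polynomial.C (B l).1) : Polynomial ℂ).eval t ≠ 0 := by
    by_contra hcon
    push Not at hcon
    exact hp (Polynomial.funext fun r => by rw [hcon r, Polynomial.eval_zero])
  refine ⟨(t, 1), fun i h => ht ?_⟩
  rw [Polynomial.eval_prod]
  refine Finset.prod_eq_zero (Finset.mem_univ i) ?_
  unfold wd at h
  simp only [Polynomial.eval_sub, Polynomial.eval_mul, Polynomial.eval_C, Polynomial.eval_X]
  linear_combination h

theorem roots_of_zeros {n : ℕ} (hn : 0 < n) {c : Fin (n + 1) → ℂ} (hc : c ≠ 0)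
    {B : Fin n → ℂ × ℂ} (h0 : ∀ i, form c (B i) = 0) (hw : ∀ i j, i ≠ j → wd (B i) (B j) ≠ 0)
    (hB : ∀ i, B i ≠ 0) : ∃ s : Fin n → ℂ, Roots c (fun i => s i • B i) := by
  obtain ⟨X₀, hX₀⟩ := RTA_exists_indep hB
  set d := RTA_co B with hd
  have hdX : form d X₀ ≠ 0 := by
    rw [hd, RTA_form_co]
    exact Finset.prod_ne_zero_iff.2 fun i _ => hX₀ i
  set lam := form c X₀ / form d X₀ with hlam
  have key : c = lam • d := by
    rw [← sub_eq_zero]
    apply RTA_vdm (Z := Fin.cons X₀ B)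
    · intro i
      rw [RTA_form_sub, form_smul_left]
      refine Fin.cases ?_ (fun i => ?_) i
      · rw [Fin.cons_zero, hlam, div_mul_cancel₀ _ hdX, sub_self]
      · rw [Fin.cons_succ, h0, hd, RTA_form_co,
          Finset.prod_eq_zero (Finset.mem_univ i) (by unfold wd; ring), mul_zero, sub_self]
    · intro i j
      refine Fin.cases ?_ (fun i => ?_) i <;> refine Fin.cases ?_ (fun j => ?_) j
      · intro h; exact absurd rfl h
      · intro _
        rw [Fin.cons_zero, Fin.cons_succ]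
        exact hX₀ j
      · intro _
        rw [Fin.cons_zero, Fin.cons_succ]
        intro h
        apply hX₀ i
        unfold wd at h ⊢
        linear_combination -h
      · intro h
        rw [Fin.cons_succ, Fin.cons_succ]
        exact hw i j fun e => h (by rw [e])
  have hl0 : lam ≠ 0 := by
    rintro h
    rw [h, zero_smul] at key
    exact hc key
  have hwd : ∀ (a b : ℂ) (X Y : ℂ × ℂ), wd (a • X) (b • Y) = a * b * wd X Y := by
    intro a b X Y
    simp only [wd, Prod.smul_fst, Prod.smul_snd, smul_eq_mul]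
    ring
  refine ⟨fun i => if i = ⟨0, hn⟩ then lam else 1, fun X => ?_, fun i j hij => ?_⟩
  · rw [key, form_smul_left, hd, RTA_form_co]
    have : ∀ i : Fin n, wd X ((if i = ⟨0, hn⟩ then lam else 1) • B i) =
        (if i = ⟨0, hn⟩ then lam else 1) * wd X (B i) := by
      intro i
      have := hwd 1 (if i = ⟨0, hn⟩ then lam else 1) X (B i)
      rw [one_smul, one_mul] at this
      exact this
    rw [Finset.prod_congr rfl fun i _ => this i, Finset.prod_mul_distrib]
    congr 1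
    rw [Finset.prod_ite_eq' Finset.univ (⟨0, hn⟩ : Fin n) (fun _ => lam)]
    simp
  · rw [hwd]
    have hne : ∀ k : Fin n, (if k = ⟨0, hn⟩ then lam else 1) ≠ 0 := by
      intro k
      split_ifs
      · exact hl0
      · exact one_ne_zero
    exact mul_ne_zero (mul_ne_zero (hne i) (hne j)) (hw i j hij)

theorem roots_ne_zero {n : ℕ} (hn : 2 ≤ n) {c : Fin (n + 1) → ℂ} {B : Fin n → ℂ × ℂ}
    (h : Roots c B) (i : Fin n) : B i ≠ 0 := by
  intro h0
  obtain ⟨j, hj⟩ : ∃ j : Fin n, i ≠ j := by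
    have : Nontrivial (Fin n) := Fin.nontrivial_iff_two_le.2 hn
    obtain ⟨j, hj⟩ := exists_ne i
    exact ⟨j, hj.symm⟩
  apply h.2 i j hj
  rw [h0]
  simp [wd]

theorem roots_zero {n : ℕ} {c : Fin (n + 1) → ℂ} {B : Fin n → ℂ × ℂ} (h : Roots c B)
    {Y : ℂ × ℂ} (hY : form c Y = 0) : ∃ i, wd Y (B i) = 0 := by
  rw [h.1] at hY
  obtain ⟨i, -, hi⟩ := Finset.prod_eq_zero_iff.1 hY
  exact ⟨i, hi⟩

private theorem RTA_self (X : ℂ × ℂ) : wd X X = 0 := by
  unfold wd; ring

private theorem RTA_root {n : ℕ} {c : Fin (n + 1) → ℂ} {B : Fin n → ℂ × ℂ} (h : Roots c B)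
    (i : Fin n) : form c (B i) = 0 := by
  rw [h.1]
  exact Finset.prod_eq_zero (Finset.mem_univ i) (RTA_self _)

theorem roots_perm {n : ℕ} (hn : 2 ≤ n) {c : Fin (n + 1) → ℂ} {B B' : Fin n → ℂ × ℂ}
    (h : Roots c B) (h' : Roots c B') :
    ∃ (σ : Equiv.Perm (Fin n)) (s : Fin n → ℂ), ∀ i, B' i = s i • B (σ i) := by
  have h1 : ∀ i, ∃ j, ∃ s : ℂ, s ≠ 0 ∧ B' i = s • B j := by
    intro i
    obtain ⟨j, hj⟩ := roots_zero h (RTA_root h' i)
    have hj' : wd (B j) (B' i) = 0 := by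
      unfold wd at hj ⊢
      linear_combination -hj
    obtain ⟨s, hs, e⟩ := exists_smul_of_wd (roots_ne_zero hn h j) (roots_ne_zero hn h' i) hj'
    exact ⟨j, s, hs, e⟩
  choose σ s hs e using h1
  have hinj : Function.Injective σ := by
    intro i j hij
    by_contra hne
    apply h'.2 i j hne
    rw [e i, e j, hij]
    simp only [wd, Prod.smul_fst, Prod.smul_snd, smul_eq_mul]
    ring
  exact ⟨Equiv.ofBijective σ (Finite.injective_iff_bijective.1 hinj), s, fun i => e i⟩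

theorem roots_grad {n : ℕ} {c : Fin (n + 1) → ℂ} {B : Fin n → ℂ × ℂ} (h : Roots c B)
    (i : Fin n) : Grad c (B i) (∏ l ∈ Finset.univ.erase i, wd (B i) (B l)) := by
  intro γ
  have e1 : ∀ t : ℂ, form c (B i + t • γ) =
      (t * wd γ (B i)) * ∏ l ∈ Finset.univ.erase i, (wd (B i) (B l) + t * wd γ (B l)) := by
    intro t
    rw [h.1, ← Finset.mul_prod_erase Finset.univ _ (Finset.mem_univ i)]
    congr 1
    · simp only [wd, Prod.fst_add, Prod.snd_add, Prod.smul_fst, Prod.smul_snd, smul_eq_mul]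
      ring
    · refine Finset.prod_congr rfl fun l _ => ?_
      simp only [wd, Prod.fst_add, Prod.snd_add, Prod.smul_fst, Prod.smul_snd, smul_eq_mul]
      ring
  have e2 : (fun t : ℂ => form c (B i + t • γ)) = fun t => (t * wd γ (B i)) *
      ∏ l ∈ Finset.univ.erase i, (wd (B i) (B l) + t * wd γ (B l)) := funext e1
  rw [e2]
  have d1 : HasDerivAt (fun t : ℂ => t * wd γ (B i)) (wd γ (B i)) 0 := by
    simpa using (hasDerivAt_id (0 : ℂ)).mul_const (wd γ (B i))
  have d2 : DifferentiableAt ℂ (fun t : ℂ =>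
      ∏ l ∈ Finset.univ.erase i, (wd (B i) (B l) + t * wd γ (B l))) 0 := by
    fun_prop
  have d3 := d1.mul d2.hasDerivAt
  simp only [zero_mul, add_zero] at d3
  rw [mul_comm (∏ l ∈ Finset.univ.erase i, wd (B i) (B l))]
  exact d3

theorem roots_NofR {n : ℕ} (hn : 2 ≤ n) {c : Fin (n + 1) → ℂ} {B : Fin n → ℂ × ℂ}
    (h : Roots c B) (i : Fin n) :
    NofR c (B i) ((∏ l ∈ Finset.univ.erase i, wd (B i) (B l))⁻¹ • ver (n - 2) (B i)) := by
  refine ⟨_, ⟨roots_ne_zero hn h i, ?_, RTA_root h i, roots_grad h i⟩, rfl⟩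
  exact Finset.prod_ne_zero_iff.2 fun l hl => h.2 i l (Finset.ne_of_mem_erase hl).symm

theorem roots_IsN {n : ℕ} (hn : 3 ≤ n) {c : Fin (n + 1) → ℂ} {B : Fin n → ℂ × ℂ}
    (h : Roots c B) {N : Fin (n - 2 + 1) → ℂ} (hN : IsN c N) :
    ∃ i, N = (∏ l ∈ Finset.univ.erase i, wd (B i) (B l))⁻¹ • ver (n - 2) (B i) := by
  obtain ⟨Y, hY⟩ := hN
  have hY' := hY
  obtain ⟨g, hg, -⟩ := hY'
  obtain ⟨i, hi⟩ := roots_zero h hg.2.2.1
  exact ⟨i, NofR_eq hn hY (roots_NofR (by omega) h i) hi⟩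

theorem roots_norm {n : ℕ} {c : Fin (n + 1) → ℂ} {B : Fin n → ℂ × ℂ} (h : Roots c B) :
    ‖c‖ ≤ 2 ^ n * ∏ i, ‖B i‖ := by
  have hc : c = RTA_co B := RTA_ext fun X => by rw [RTA_form_co, h.1]
  rw [hc]
  refine (pi_norm_le_iff_of_nonneg (by positivity)).2 fun i => ?_
  have h1 := norm_pr_le B (Pi.single i 1 : Fin (n + 1) → ℂ)
  have h2 : pr B (Pi.single i 1 : Fin (n + 1) → ℂ) = RTA_co B i := by
    unfold pr RTA_co
    rw [Finset.sum_eq_single i]
    · simp
    · intro j _ hj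
      rw [Pi.single_eq_of_ne hj, mul_zero]
    · intro h; exact absurd (Finset.mem_univ i) h
  have h3 : ‖(Pi.single i 1 : Fin (n + 1) → ℂ)‖ ≤ 1 := by
    refine (pi_norm_le_iff_of_nonneg zero_le_one).2 fun j => ?_
    by_cases hj : j = i
    · subst hj; simp
    · rw [Pi.single_eq_of_ne hj]; simp
  rw [h2] at h1
  refine h1.trans ?_
  have : 0 ≤ 2 ^ n * ∏ i, ‖B i‖ := by positivity
  nlinarith

end Pool.Agent.EPO
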