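import Pool.Agent.EPO.FIB
import Pool.Agent.EPO.SRT

open scoped Manifold Topology LinearAlgebra.Projectivization
open Filter Metric Set

namespace Pool.Agent.EPO

variable {Λ : Submodule ℤ ℂ} [DiscreteTopology Λ] [IsZLattice ℝ Λ] {n : ℕ}
  {f : ℂ → Fin (n + 1) → ℂ} {C : Type*} [TopologicalSpace C] [T2Space C]
  {z : C → ℂ ⧸ Λ} {x : C → ℙ ℂ (ℂ × ℂ)} {e k : C → ℕ}

theorem Mc_mk {X : ℂ × ℂ} (hX : X ≠ 0) (ζ : ℂ) :
    Mc f (Projectivization.mk ℂ X hX) ζ = (form (f ζ) X)⁻¹ • ver n X := by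
  obtain ⟨a, ha⟩ := Projectivization.exists_smul_eq_mk_rep ℂ X hX
  unfold Mc
  rw [← ha]
  have h1 : (a • X : ℂ × ℂ) = (a : ℂ) • X := rfl
  rw [h1, form_smul_right, ver_smul, smul_smul]
  congr 1
  have h2 : (a : ℂ) ^ n ≠ 0 := pow_ne_zero _ a.ne_zero
  rw [mul_inv, mul_comm, ← mul_assoc, mul_inv_cancel₀ h2, one_mul]

omit [IsZLattice ℝ Λ] [T2Space C] in
/-- Local form of a continuous section through a point where `z` is unramified. -/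
private theorem SCA_local {P : Set C} {q : C} {k₀ : ℕ} {a : ℂ} {ε : ℝ} {σ : ℂ → C}
    (h : NF Λ f z x P q 1 k₀ a ε σ) {U : Set ℂ} {s : ℂ → C} (hs : ContinuousWithinAt s U a)
    (hz : ∀ ζ ∈ U, z (s ζ) = Λ.mkQ ζ) (hq : s a = q) :
    ∀ᶠ ζ in 𝓝[U] a, ‖ζ - a‖ < ε ∧ s ζ = σ (ζ - a) := by
  -- discreteness of the lattice
  obtain ⟨ρ, hρ, hρ'⟩ : ∃ ρ > 0, ∀ ω ∈ Λ, ‖ω‖ < ρ → ω = 0 := by
    have h1 : ({0} : Set Λ) ∈ 𝓝 (0 : Λ) := (isOpen_discrete _).mem_nhds rfl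
    obtain ⟨ρ, hρ, h2⟩ := Metric.mem_nhds_iff.1 h1
    refine ⟨ρ, hρ, fun ω hω hn => ?_⟩
    have h3 : (⟨ω, hω⟩ : Λ) ∈ ball (0 : Λ) ρ := by
      rw [mem_ball_zero_iff]
      exact hn
    have h4 := h2 h3
    simpa using h4
  set δ := min ε (ρ / 2) with hδ
  have hδ0 : 0 < δ := lt_min h.pos (by positivity)
  have hsub : ball (0 : ℂ) δ ⊆ ball 0 ε := ball_subset_ball (min_le_left _ _)
  have hopn : IsOpen (σ '' ball 0 δ) := h.opn _ hsub isOpen_ball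
  have hmem : σ '' ball 0 δ ∈ 𝓝 (s a) := by
    rw [hq, ← h.center]
    exact hopn.mem_nhds ⟨0, mem_ball_self hδ0, rfl⟩
  have h1 : ∀ᶠ ζ in 𝓝[U] a, s ζ ∈ σ '' ball 0 δ := hs hmem
  have h2 : ∀ᶠ ζ in 𝓝[U] a, ‖ζ - a‖ < δ := by
    refine mem_nhdsWithin_of_mem_nhds ?_
    filter_upwards [ball_mem_nhds a hδ0] with ζ hζ
    rwa [mem_ball, dist_eq_norm] at hζ
  filter_upwards [h1, h2, self_mem_nhdsWithin] with ζ ⟨u, hu, hus⟩ hζ hζU
  have hu' := mem_ball_zero_iff.1 hu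
  refine ⟨hζ.trans_le (min_le_left _ _), ?_⟩
  have h3 := hz ζ hζU
  rw [← hus, h.zlift u (hsub hu), pow_one] at h3
  have h4 : a + u - ζ ∈ Λ := by
    have := (Submodule.Quotient.eq Λ).1 h3
    exact this
  have h5 : a + u - ζ = 0 := by
    apply hρ' _ h4
    have h6 : a + u - ζ = u - (ζ - a) := by ring
    rw [h6]
    have h7 : δ ≤ ρ / 2 := min_le_right _ _
    calc ‖u - (ζ - a)‖ ≤ ‖u‖ + ‖ζ - a‖ := norm_sub_le _ _
      _ < ρ := by linarith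
  have h6 : u = ζ - a := by linear_combination h5
  rw [← hus, h6]

/-- Sections through nonspecial points give normalised sections. -/
theorem sec_asec (hf : Differentiable ℂ f) (hn : 3 ≤ n) (H : AllNF Λ f z x e k) {U : Set ℂ}
    (hU : IsOpen U) {s : ℂ → C} (hs : IsSec Λ z (Spec e k) U s) :
    ASec f U (fun η => Mc f (x (s η)) η) := by
  -- the local expression
  have hloc : ∀ ζ₀ ∈ U, ∃ ε > 0, ∃ X : ℂ → ℂ × ℂ, DifferentiableOn ℂ X (ball ζ₀ ε) ∧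
      (∀ ζ ∈ ball ζ₀ ε, form (f ζ) (X ζ) ≠ 0) ∧ ∀ᶠ ζ in 𝓝 ζ₀, ζ ∈ ball ζ₀ ε ∧
        Mc f (x (s ζ)) ζ = (form (f ζ) (X ζ))⁻¹ • ver n (X ζ) := by
    intro ζ₀ hζ₀
    obtain ⟨hz0, hns⟩ := hs.2 ζ₀ hζ₀
    obtain ⟨ε, σ, hN⟩ := H (s ζ₀) ζ₀ hz0
    unfold Spec at hns
    simp only [mem_ofPred_eq, not_or, not_not] at hns
    rw [hns.1, hns.2] at hN
    have h1 := SCA_local hN (hs.1 ζ₀ hζ₀) (fun ζ' hζ' => (hs.2 ζ' hζ').1) rfl
    rw [hU.nhdsWithin_eq hζ₀] at h1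
    obtain ⟨X, hXd, hX, κ, hκ, hfb⟩ := hN.xlift
    have hm : ∀ ζ ∈ ball ζ₀ ε, ζ - ζ₀ ∈ ball (0 : ℂ) ε := by
      intro ζ hζ
      rw [mem_ball_zero_iff]
      rwa [mem_ball, dist_eq_norm] at hζ
    refine ⟨ε, hN.pos, fun ζ => X (ζ - ζ₀), hXd.comp (by fun_prop) hm, ?_, ?_⟩
    · intro ζ hζ
      have h2 := (hfb _ (hm ζ hζ)).1
      rw [pow_zero, mul_one, pow_one, add_sub_cancel] at h2
      exact norm_pos_iff.1 (hκ.trans_le h2)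
    · filter_upwards [h1] with ζ hζ
      have hζ' : ζ ∈ ball ζ₀ ε := by
        rw [mem_ball, dist_eq_norm]
        exact hζ.1
      refine ⟨hζ', ?_⟩
      obtain ⟨hX0, hxX⟩ := hX _ (hm ζ hζ')
      rw [hζ.2, hxX, Mc_mk]
  refine ⟨fun ζ₀ hζ₀ => ?_, fun ζ₀ hζ₀ => ?_⟩
  · obtain ⟨ε, hε, X, hXd, hX0, hev⟩ := hloc ζ₀ hζ₀
    have h1 : DifferentiableOn ℂ (fun ζ => (form (f ζ) (X ζ))⁻¹ • ver n (X ζ)) (ball ζ₀ ε) :=
      DifferentiableOn.smul ((form_diff hf.differentiableOn hXd).inv hX0) (ver_diff hXd)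
    have h2 : DifferentiableAt ℂ (fun ζ => (form (f ζ) (X ζ))⁻¹ • ver n (X ζ)) ζ₀ :=
      (h1 ζ₀ (mem_ball_self hε)).differentiableAt (ball_mem_nhds _ hε)
    have h3 : (fun ζ => Mc f (x (s ζ)) ζ) =ᶠ[𝓝 ζ₀]
        fun ζ => (form (f ζ) (X ζ))⁻¹ • ver n (X ζ) := by
      filter_upwards [hev] with ζ hζ
      exact hζ.2
    exact (h2.congr_of_eventuallyEq h3).differentiableWithinAt
  · obtain ⟨ε, hε, X, hXd, hX0, hev⟩ := hloc ζ₀ hζ₀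
    obtain ⟨-, h1⟩ := hev.self_of_nhds
    have h0 := hX0 ζ₀ (mem_ball_self hε)
    obtain ⟨t, ht⟩ := IsAlgClosed.exists_pow_nat_eq (form (f ζ₀) (X ζ₀))⁻¹ (by omega : 0 < n)
    refine ⟨t • X ζ₀, ?_, ?_⟩
    · rw [form_smul_right, ht, inv_mul_cancel₀ h0]
    · rw [ver_smul, ht]
      exact h1

/-- Uniqueness of sections. -/
theorem sec_unique (H : AllNF Λ f z x e k) {U : Set ℂ} (hU : IsPreconnected U) {s s' : ℂ → C}
    (hs : IsSec Λ z (Spec e k) U s) (hs' : IsSec Λ z (Spec e k) U s') {ζ : ℂ} (hζ : ζ ∈ U)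
    (h : s ζ = s' ζ) : EqOn s s' U := by
  have hne : ∀ η ∈ U, e (s η) = 1 := by
    intro η hη
    have h1 := (hs.2 η hη).2
    unfold Spec at h1
    simp only [mem_ofPred_eq, not_or, not_not] at h1
    exact h1.1
  have hps : PreconnectedSpace U := isPreconnected_iff_preconnectedSpace.1 hU
  set S : Set U := {η | s η = s' η} with hS
  have hcl : IsClosed S :=
    isClosed_eq (continuousOn_iff_continuous_domRestrict.1 hs.1)
      (continuousOn_iff_continuous_domRestrict.1 hs'.1)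
  have hop : IsOpen S := by
    rw [isOpen_iff_mem_nhds]
    rintro ⟨η, hη⟩ (hηS : s η = s' η)
    obtain ⟨ε, σ, hN⟩ := H (s η) η (hs.2 η hη).1
    rw [hne η hη] at hN
    have h1 := SCA_local hN (hs.1 η hη) (fun ζ' hζ' => (hs.2 ζ' hζ').1) rfl
    have h2 := SCA_local hN (hs'.1 η hη) (fun ζ' hζ' => (hs'.2 ζ' hζ').1) hηS.symm
    have h3 : ∀ᶠ ζ' in 𝓝[U] η, s ζ' = s' ζ' := by
      filter_upwards [h1, h2] with ζ' ha hb
      rw [ha.2, hb.2]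
    rw [nhdsWithin_eq_map_subtype_coe hη] at h3
    exact h3
  have huniv : S = univ := IsClopen.eq_univ ⟨hcl, hop⟩ ⟨⟨ζ, hζ⟩, h⟩
  intro η hη
  have : (⟨η, hη⟩ : U) ∈ S := by rw [huniv]; trivial
  exact this

/-- The section through a point near `q`. -/
theorem sec_near {q : C} {e₀ k₀ : ℕ} {a : ℂ} {ε : ℝ} {σ : ℂ → C}
    (h : NF Λ f z x (Spec e k) q e₀ k₀ a ε σ) {ζ u : ℂ} (hζ : ζ ≠ a)
    (h2 : 2 * ‖ζ - a‖ ≤ ε ^ e₀) (hu : u ^ e₀ = ζ - a) :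
    ∃ s, IsSec Λ z (Spec e k) (ball ζ ‖ζ - a‖) s ∧ s ζ = σ u := by
  have he : e₀ ≠ 0 := h.epos.ne'
  have he' : (e₀ : ℂ) ≠ 0 := by exact_mod_cast he
  have hd : ζ - a ≠ 0 := sub_ne_zero.2 hζ
  have hd' : 0 < ‖ζ - a‖ := norm_pos_iff.2 hd
  -- the auxiliary function
  set v : ℂ → ℂ := fun η => u * ((η - a) / (ζ - a)) ^ ((e₀ : ℂ)⁻¹) with hv
  have hvp : ∀ η, v η ^ e₀ = η - a := by
    intro η
    simp only [hv]
    rw [mul_pow, hu, Complex.cpow_nat_inv_pow _ he]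
    field_simp
  have hvn : ∀ η ∈ ball ζ ‖ζ - a‖, v η ∈ ball (0 : ℂ) ε ∧ v η ≠ 0 := by
    intro η hη
    rw [mem_ball, dist_eq_norm] at hη
    have h3 : ‖η - a‖ < 2 * ‖ζ - a‖ := by
      calc ‖η - a‖ = ‖(η - ζ) + (ζ - a)‖ := by congr 1; ring
        _ ≤ ‖η - ζ‖ + ‖ζ - a‖ := norm_add_le _ _
        _ < _ := by linarith
    have h4 : ‖v η‖ ^ e₀ < ε ^ e₀ := by
      rw [← norm_pow, hvp]
      exact h3.trans_le h2
    refine ⟨mem_ball_zero_iff.2 (lt_of_pow_lt_pow_left₀ _ h.pos.le h4), ?_⟩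
    intro h0
    have h5 := hvp η
    rw [h0, zero_pow he] at h5
    have h6 : η - ζ = -(ζ - a) := by linear_combination -h5
    rw [h6, norm_neg] at hη
    exact lt_irrefl _ hη
  have hvc : ContinuousOn v (ball ζ ‖ζ - a‖) := by
    apply ContinuousOn.mul continuousOn_const
    apply ContinuousOn.cpow_const
    · fun_prop
    · intro η hη
      rw [mem_ball, dist_eq_norm] at hη
      rw [Complex.mem_slitPlane_iff]
      left
      have h3 : (η - a) / (ζ - a) = 1 + (η - ζ) / (ζ - a) := by field_simp; ring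
      rw [h3, Complex.add_re, Complex.one_re]
      have h4 : ‖(η - ζ) / (ζ - a)‖ < 1 := by
        rw [norm_div, div_lt_one hd']
        exact hη
      have h5 := (abs_le.1 ((Complex.abs_re_le_norm ((η - ζ) / (ζ - a))))).1
      linarith
  refine ⟨fun η => σ (v η), ⟨?_, ?_⟩, ?_⟩
  · exact h.cont.comp hvc fun η hη => (hvn η hη).1
  · intro η hη
    refine ⟨?_, h.avoid _ (hvn η hη).1 (hvn η hη).2⟩
    rw [h.zlift _ (hvn η hη).1, hvp]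
    congr 1
    ring
  · simp only [hv]
    rw [div_self hd, Complex.one_cpow, mul_one]

/-- The section through a nonspecial point. -/
theorem sec_reg {q : C} (hq : q ∉ Spec e k) {a : ℂ} {ε : ℝ} {σ : ℂ → C}
    (h : NF Λ f z x (Spec e k) q (e q) (k q) a ε σ) :
    IsSec Λ z (Spec e k) (ball a ε) (fun ζ => σ (ζ - a)) := by
  have h1 := hq
  unfold Spec at h1
  simp only [mem_ofPred_eq, not_or, not_not] at h1
  have hm : ∀ ζ ∈ ball a ε, ζ - a ∈ ball (0 : ℂ) ε := by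
    intro ζ hζ
    rw [mem_ball_zero_iff]
    rwa [mem_ball, dist_eq_norm] at hζ
  refine ⟨h.cont.comp (by fun_prop) hm, fun ζ hζ => ⟨?_, ?_⟩⟩
  · rw [h.zlift _ (hm ζ hζ), h1.1, pow_one]
    congr 1
    ring
  · by_cases h0 : ζ - a = 0
    · simp only [h0, h.center]
      exact hq
    · exact h.avoid _ (hm ζ hζ) h0

/-- Lower bound for the normalised vector near `q`. -/
theorem Mc_lower {P : Set C} {q : C} {e₀ k₀ : ℕ} {a : ℂ} {ε : ℝ} {σ : ℂ → C}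
    (h : NF Λ f z x P q e₀ k₀ a ε σ) : ∃ c > 0, ∀ u ∈ ball (0 : ℂ) ε, u ≠ 0 →
      c ≤ ‖u‖ ^ k₀ * ‖Mc f (x (σ u)) (a + u ^ e₀)‖ := by
  obtain ⟨X, -, hX, κ, hκ, hf⟩ := h.xlift
  refine ⟨κ, hκ, fun u hu hu0 => ?_⟩
  obtain ⟨hX0, hxX⟩ := hX u hu
  obtain ⟨h1, h2⟩ := hf u hu
  rw [hxX, Mc_mk, norm_smul, norm_ver, norm_inv]
  have hup : 0 < ‖u‖ ^ k₀ := pow_pos (norm_pos_iff.2 hu0) _
  have hpos : 0 < ‖form (f (a + u ^ e₀)) (X u)‖ := lt_of_lt_of_le (mul_pos hκ hup) h1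
  rw [← mul_assoc, mul_comm (‖u‖ ^ k₀), mul_assoc, inv_mul_eq_div, le_div_iff₀ hpos]
  calc κ * ‖form (f (a + u ^ e₀)) (X u)‖ ≤ κ * (κ⁻¹ * ‖u‖ ^ k₀ * ‖X u‖ ^ n) :=
        mul_le_mul_of_nonneg_left h2 hκ.le
    _ = ‖u‖ ^ k₀ * ‖X u‖ ^ n := by field_simp

/-- Translation of the normalised vector. -/
theorem Mc_translate (y : ℙ ℂ (ℂ × ℂ)) {ζ ω : ℂ} {j : ℂ} (hj : j ≠ 0)
    (h : f (ζ + ω) = j • f ζ) : j • Mc f y (ζ + ω) = Mc f y ζ := by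
  unfold Mc
  rw [h, form_smul_left, smul_smul, mul_inv, ← mul_assoc, mul_inv_cancel₀ hj, one_mul]

end Pool.Agent.EPO
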