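import Pool.Agent.EPO.SEB
import Pool.Agent.EPO.LDA

open scoped Manifold Topology LinearAlgebra.Projectivization
open Filter Metric Set

namespace Pool.Agent.EPO

private theorem SEA_fund (Λ : Submodule ℤ ℂ) [DiscreteTopology Λ] [IsZLattice ℝ Λ] :
    ∃ R : ℝ, ∀ ζ : ℂ, ∃ ω ∈ Λ, ‖ζ - ω‖ ≤ R := by
  classical
  let b₀ := Module.Free.chooseBasis ℤ Λ
  let b := b₀.ofZLatticeBasis ℝ Λ
  have : Fintype (Module.Free.ChooseBasisIndex ℤ Λ) := inferInstance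
  refine ⟨∑ i, ‖b i‖, fun ζ => ⟨(ZSpan.floor b ζ : ℂ), ?_, ?_⟩⟩
  · have h1 : (ZSpan.floor b ζ : ℂ) ∈ Submodule.span ℤ (Set.range b) := (ZSpan.floor b ζ).2
    exact (SetLike.ext_iff.1 (b₀.ofZLatticeBasis_span ℝ) _).1 h1
  · have h2 := ZSpan.norm_fract_le b ζ
    rw [ZSpan.fract_apply] at h2
    exact h2

/-- There is no entire section which avoids the curve. -/
theorem SEA {Λ : Submodule ℤ ℂ} [DiscreteTopology Λ] [IsZLattice ℝ Λ] {n : ℕ} (hn : 3 ≤ n)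
    {f : ℂ → Fin (n + 1) → ℂ} (hf : IsCurve Λ f) {M : ℂ → Fin (n + 1) → ℂ}
    (hM : ASec f univ M) : False := by
  have hn1 : 1 ≤ n := by omega
  have hMd : Differentiable ℂ M := differentiableOn_univ.1 hM.1
  by_cases hbd : ∃ C : ℝ, ∀ ζ, ‖f ζ‖ * ‖M ζ‖ ≤ C
  · obtain ⟨C, hC⟩ := hbd
    exact LIO hf hMd (fun ζ => IsM_ne (hM.2 ζ (mem_univ ζ))) hC
  push Not at hbd
  obtain ⟨R, hR⟩ := SEA_fund Λ
  choose ζs hζs using fun k : ℕ => hbd (k : ℝ)
  choose ω hω hωR using fun k : ℕ => hR (ζs k)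
  choose j hj hfj using fun k : ℕ => hf.aut (ω k) (hω k)
  have hMk : ∀ k, ASec f univ (fun ζ => j k ζ • M (ζ + ω k)) := by
    intro k
    constructor
    · have h1 : Differentiable ℂ (j k) := by
        intro ζ
        obtain ⟨m, hm⟩ := Function.ne_iff.1 (hf.no_fibre ζ)
        have hfm : ∀ m, Differentiable ℂ (fun η => f η m) := fun m =>
          differentiable_pi.1 hf.hol m
        have hev : ∀ᶠ η in 𝓝 ζ, f η m ≠ 0 := (hfm m).continuous.continuousAt.eventually_ne hm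
        have heq : j k =ᶠ[𝓝 ζ] fun η => f (η + ω k) m / f η m := by
          filter_upwards [hev] with η hη
          rw [hfj k η, Pi.smul_apply, smul_eq_mul]
          field_simp
        refine DifferentiableAt.congr_of_eventuallyEq ?_ heq
        refine DifferentiableAt.div ?_ (hfm m ζ) hm
        exact ((hfm m).comp (differentiable_id.add_const (ω k))) ζ
      have h2 : Differentiable ℂ (fun ζ => M (ζ + ω k)) :=
        hMd.comp (differentiable_id.add_const (ω k))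
      exact (h1.smul h2).differentiableOn
    · intro ζ _
      have h1 := hM.2 (ζ + ω k) (mem_univ _)
      rw [hfj k ζ] at h1
      exact IsM_mul hn1 (hj k ζ) h1
  obtain ⟨φ, hφ, hdich⟩ := GDI hn hf.hol.continuous hf.no_fibre isOpen_univ
    isPreconnected_univ (fun b _ => LDA hn hf b) (fun k ζ => j k ζ • M (ζ + ω k))
    (fun b _ => ⟨1, one_pos, Eventually.of_forall fun k =>
      ⟨(hMk k).1.mono (subset_univ _), fun ζ _ => (hMk k).2 ζ (mem_univ ζ)⟩⟩)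
  -- the points in the compact set
  have hK : IsCompact (closedBall (0 : ℂ) R) := isCompact_closedBall 0 R
  have hmem : ∀ k, ζs (φ k) - ω (φ k) ∈ closedBall (0 : ℂ) R := by
    intro k
    rw [mem_closedBall_zero_iff]
    exact hωR (φ k)
  rcases hdich with ⟨L, hL⟩ | ⟨N, hN⟩
  · obtain ⟨η, hη, ψ, hψ, hlim⟩ := hK.tendsto_subseq hmem
    obtain ⟨s, hs, hsec, hunif⟩ := hL η (mem_univ η)
    -- bound of f on the compact set
    obtain ⟨F, hF⟩ := hK.exists_bound_of_continuousOn (f := f) hf.hol.continuous.continuousOn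
    have hLc : ContinuousAt L η :=
      hsec.1.continuousOn.continuousAt (isOpen_ball.mem_nhds (mem_ball_self hs))
    have hLlim : Tendsto (fun k => ‖L (ζs (φ (ψ k)) - ω (φ (ψ k)))‖) atTop (𝓝 ‖L η‖) :=
      (hLc.norm.tendsto.comp hlim)
    have hev1 : ∀ᶠ k in atTop, ‖L (ζs (φ (ψ k)) - ω (φ (ψ k)))‖ < ‖L η‖ + 1 :=
      hLlim.eventually_lt_const (lt_add_one _)
    have hev2 : ∀ᶠ k in atTop, ζs (φ (ψ k)) - ω (φ (ψ k)) ∈ ball η s :=
      hlim.eventually (isOpen_ball.mem_nhds (mem_ball_self hs))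
    have hev3 : ∀ᶠ k in atTop, ∀ ζ ∈ ball η s,
        dist (L ζ) ((fun ζ => j (φ (ψ k)) ζ • M (ζ + ω (φ (ψ k)))) ζ) < 1 :=
      hψ.tendsto_atTop.eventually (Metric.tendstoUniformlyOn_iff.1 hunif 1 one_pos)
    have hev4 : ∀ᶠ k : ℕ in atTop, (|F| + 1) * (‖L η‖ + 2) < (k : ℝ) :=
      tendsto_natCast_atTop_atTop.eventually_gt_atTop _
    obtain ⟨k, h1, h2, h3, h4⟩ := (hev1.and (hev2.and (hev3.and hev4))).exists
    have h5 := h3 _ h2
    simp only [sub_add_cancel] at h5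
    have h6 : ‖j (φ (ψ k)) (ζs (φ (ψ k)) - ω (φ (ψ k))) • M (ζs (φ (ψ k)))‖ < ‖L η‖ + 2 := by
      have h7 := norm_sub_norm_le
        (j (φ (ψ k)) (ζs (φ (ψ k)) - ω (φ (ψ k))) • M (ζs (φ (ψ k))))
        (L (ζs (φ (ψ k)) - ω (φ (ψ k))))
      rw [dist_comm, dist_eq_norm] at h5
      linarith
    have h8 := hζs (φ (ψ k))
    have h9 := hfj (φ (ψ k)) (ζs (φ (ψ k)) - ω (φ (ψ k)))
    rw [sub_add_cancel] at h9
    rw [h9, norm_smul] at h8
    rw [norm_smul] at h6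
    have h10 : ‖f (ζs (φ (ψ k)) - ω (φ (ψ k)))‖ ≤ |F| + 1 :=
      ((hF _ (hmem (ψ k))).trans (le_abs_self F)).trans (by linarith)
    have h11 : (k : ℝ) ≤ ((φ (ψ k) : ℕ) : ℝ) := by
      exact_mod_cast (hφ.comp hψ).le_apply
    have h12 : ‖j (φ (ψ k)) (ζs (φ (ψ k)) - ω (φ (ψ k)))‖ *
        ‖f (ζs (φ (ψ k)) - ω (φ (ψ k)))‖ * ‖M (ζs (φ (ψ k)))‖ ≤
        (|F| + 1) * (‖L η‖ + 2) := by
      have h13 : ‖j (φ (ψ k)) (ζs (φ (ψ k)) - ω (φ (ψ k)))‖ *
          ‖f (ζs (φ (ψ k)) - ω (φ (ψ k)))‖ * ‖M (ζs (φ (ψ k)))‖ =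
          ‖f (ζs (φ (ψ k)) - ω (φ (ψ k)))‖ *
            (‖j (φ (ψ k)) (ζs (φ (ψ k)) - ω (φ (ψ k)))‖ * ‖M (ζs (φ (ψ k)))‖) := by ring
      rw [h13]
      exact mul_le_mul h10 h6.le (by positivity) (by positivity)
    linarith
  · refine SEB hn hf (N := N) ?_ ?_
    · intro ζ
      obtain ⟨s, hs, h1, -, -⟩ := hN ζ (mem_univ ζ)
      exact (h1 ζ (mem_ball_self hs)).differentiableAt (isOpen_ball.mem_nhds (mem_ball_self hs))
    · intro ζ
      obtain ⟨s, hs, -, h2, -⟩ := hN ζ (mem_univ ζ)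
      exact h2 ζ (mem_ball_self hs)

end Pool.Agent.EPO
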