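import Pool.Agent.EPO.LIO
import Pool.Agent.EPO.BRD
import Pool.Agent.EPO.RTS

open scoped Manifold Topology LinearAlgebra.Projectivization
open Filter Metric Set

namespace Pool.Agent.EPO

private theorem SEB_red (Λ : Submodule ℤ ℂ) [DiscreteTopology Λ] [IsZLattice ℝ Λ] :
    ∃ R : ℝ, ∀ z : ℂ, ∃ ω ∈ Λ, ‖z - ω‖ ≤ R := by
  classical
  have hfree : Module.Free ℤ Λ := ZLattice.module_free ℝ Λ
  have hfin : Module.Finite ℤ Λ := ZLattice.module_finite ℝ Λ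
  let b := (Module.Free.chooseBasis ℤ Λ).ofZLatticeBasis ℝ Λ
  refine ⟨∑ i, ‖b i‖, fun z => ⟨ZSpan.floor b z, ?_, ?_⟩⟩
  · exact ((Module.Free.chooseBasis ℤ Λ).ofZLatticeBasis_span ℝ).le (ZSpan.floor b z).2
  · have := ZSpan.norm_fract_le b z
    rwa [ZSpan.fract_apply] at this

private theorem SEB_j {n : ℕ} {f : ℂ → Fin (n + 1) → ℂ} (hf : Differentiable ℂ f)
    (h0 : ∀ ζ, f ζ ≠ 0) {ω : ℂ} {j : ℂ → ℂ} (hj : ∀ ζ, f (ζ + ω) = j ζ • f ζ) :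
    Differentiable ℂ j := by
  intro ζ₀
  obtain ⟨i, hi⟩ : ∃ i, f ζ₀ i ≠ 0 := by
    by_contra hcon
    push Not at hcon
    exact h0 ζ₀ (funext hcon)
  have hfi : Differentiable ℂ (fun ζ => f ζ i) := differentiable_pi.1 hf i
  have h1 : ∀ᶠ ζ in 𝓝 ζ₀, f ζ i ≠ 0 := (hfi.continuous.continuousAt).eventually_ne hi
  have h2 : (fun ζ => f (ζ + ω) i / f ζ i) =ᶠ[𝓝 ζ₀] j := by
    filter_upwards [h1] with ζ hζ
    rw [hj ζ, Pi.smul_apply, smul_eq_mul, mul_div_cancel_right₀ _ hζ]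
  have h3 : DifferentiableAt ℂ (fun ζ => f (ζ + ω) i / f ζ i) ζ₀ := by
    refine DifferentiableAt.div ?_ (hfi ζ₀) hi
    exact (hfi (ζ₀ + ω)).comp ζ₀ (differentiableAt_id.add_const ω)
  exact h3.congr_of_eventuallyEq h2.symm

/-- The canonical vectors of a root system. -/
private noncomputable def SEB_N {n : ℕ} (B : Fin n → ℂ → ℂ × ℂ) (i : Fin n) (ζ : ℂ) :
    Fin (n - 2 + 1) → ℂ :=
  (∏ l ∈ Finset.univ.erase i, wd (B i ζ) (B l ζ))⁻¹ • ver (n - 2) (B i ζ)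

private theorem SEB_cont {n : ℕ} {f : ℂ → Fin (n + 1) → ℂ} {U : Set ℂ} {B : Fin n → ℂ → ℂ × ℂ}
    (h : RootSys f U B) (i : Fin n) : ContinuousOn (SEB_N B i) U := by
  have hB : ∀ l, ContinuousOn (B l) U := fun l => (h.1 l).continuousOn
  have h1 : ContinuousOn (fun ζ => ∏ l ∈ Finset.univ.erase i, wd (B i ζ) (B l ζ)) U := by
    refine continuousOn_finsetProd _ fun l _ => ?_
    unfold wd
    exact ((hB i).fst.mul (hB l).snd).sub ((hB i).snd.mul (hB l).fst)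
  have h2 : ContinuousOn (fun ζ => ver (n - 2) (B i ζ)) U := (ver_diff (h.1 i)).continuousOn
  refine ContinuousOn.smul (h1.inv₀ fun ζ hζ => ?_) h2
  exact Finset.prod_ne_zero_iff.2 fun l hl =>
    (h.2 ζ hζ).2 i l (Finset.ne_of_mem_erase hl).symm

private theorem SEB_index {n : ℕ} (hn : 3 ≤ n) {f : ℂ → Fin (n + 1) → ℂ} {U : Set ℂ}
    (hU : IsPreconnected U) (hne : U.Nonempty) {B : Fin n → ℂ → ℂ × ℂ}
    (h : RootSys f U B) {N : ℂ → Fin (n - 2 + 1) → ℂ} (hN : ContinuousOn N U)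
    (hN' : ∀ ζ ∈ U, IsN (f ζ) (N ζ)) : ∃ i, ∀ ζ ∈ U, N ζ = SEB_N B i ζ := by
  have : PreconnectedSpace U := Subtype.preconnectedSpace hU
  let S : Fin n → Set U := fun i => {ζ | N ζ = SEB_N B i ζ}
  have hcl : ∀ i, IsClosed (S i) := fun i =>
    isClosed_eq (continuousOn_iff_continuous_domRestrict.1 hN)
      (continuousOn_iff_continuous_domRestrict.1 (SEB_cont h i))
  have hcov : ∀ ζ : U, ∃ i, ζ ∈ S i := by
    intro ζ
    exact roots_IsN hn (h.2 ζ ζ.2) (hN' ζ ζ.2)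
  have hdis : ∀ i j, ∀ ζ : U, ζ ∈ S i → ζ ∈ S j → i = j := by
    intro i j ζ hi hj
    by_contra hij
    have hr := h.2 ζ ζ.2
    have h1 := roots_NofR (by omega) hr i
    have h2 := roots_NofR (by omega) hr j
    have e : SEB_N B i ζ = SEB_N B j ζ := (show N ζ = SEB_N B i ζ from hi).symm.trans hj
    have h2' : NofR (f ζ) (B j ζ) (SEB_N B i ζ) := by rw [e]; exact h2
    exact hr.2 i j hij (NofR_wd hn h1 h2')
  obtain ⟨ζ₀, hζ₀⟩ := hne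
  obtain ⟨i, hi⟩ := hcov ⟨ζ₀, hζ₀⟩
  have hop : IsOpen (S i) := by
    have : S i = (⋃ j : {j : Fin n // j ≠ i}, S j)ᶜ := by
      ext ζ
      simp only [mem_compl_iff, mem_iUnion, not_exists]
      constructor
      · intro hζ j hj
        exact j.2 (hdis _ _ ζ hj hζ)
      · intro hζ
        obtain ⟨k, hk⟩ := hcov ζ
        by_cases hki : k = i
        · rwa [hki] at hk
        · exact absurd hk (hζ ⟨k, hki⟩)
    rw [this]
    have h3 : IsClosed (⋃ j : {j : Fin n // j ≠ i}, S j) :=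
      isClosed_iUnion_of_finite fun j => hcl j
    exact h3.isOpen_compl
  have huniv : S i = univ := IsClopen.eq_univ ⟨hcl i, hop⟩ ⟨_, hi⟩
  refine ⟨i, fun ζ hζ => ?_⟩
  have : (⟨ζ, hζ⟩ : U) ∈ S i := by rw [huniv]; exact mem_univ _
  exact this

private theorem SEB_fin {Λ : Submodule ℤ ℂ} [DiscreteTopology Λ] [IsZLattice ℝ Λ] {n : ℕ}
    (hn : 3 ≤ n) {f : ℂ → Fin (n + 1) → ℂ} (hf : IsCurve Λ f) :
    {N : ℂ → Fin (n - 2 + 1) → ℂ | Differentiable ℂ N ∧ ∀ ζ, IsN (f ζ) (N ζ)}.Finite := by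
  obtain ⟨m, hm⟩ := BRD hn hf
  obtain ⟨δ₁, hδ₁, c, -, h1⟩ := hm 0
  obtain ⟨δ₂, hδ₂, h2⟩ := RTS hn hf.hol hf.no_fibre 0
  set d := min δ₁ δ₂ with hd
  have hd0 : 0 < d := lt_min hδ₁ hδ₂
  have hsub : ball ((d / 2 : ℝ) : ℂ) (d / 2) ⊆ ball (0 : ℂ) d := by
    intro ζ hζ
    rw [mem_ball, dist_eq_norm] at hζ ⊢
    rw [sub_zero]
    calc ‖ζ‖ = ‖(ζ - ((d / 2 : ℝ) : ℂ)) + ((d / 2 : ℝ) : ℂ)‖ := by ring_nf
      _ ≤ ‖ζ - ((d / 2 : ℝ) : ℂ)‖ + ‖((d / 2 : ℝ) : ℂ)‖ := norm_add_le _ _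
      _ < d / 2 + d / 2 := by
        have : ‖((d / 2 : ℝ) : ℂ)‖ = d / 2 := by
          rw [Complex.norm_real, Real.norm_eq_abs, abs_of_pos (by positivity)]
        linarith
      _ = d := by ring
  have hne : ∀ ζ ∈ ball ((d / 2 : ℝ) : ℂ) (d / 2), ζ ≠ 0 := by
    rintro ζ hζ rfl
    rw [mem_ball, dist_eq_norm, zero_sub, norm_neg, Complex.norm_real, Real.norm_eq_abs,
      abs_of_pos (by positivity)] at hζ
    exact lt_irrefl _ hζ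
  obtain ⟨B, hB⟩ := h2 ((d / 2 : ℝ) : ℂ) (d / 2)
    (hsub.trans (ball_subset_ball (min_le_right _ _)))
    (fun ζ hζ => (h1 ζ (ball_subset_ball (min_le_left _ _) (hsub hζ)) (hne ζ hζ)).1)
  have hVp : IsPreconnected (ball ((d / 2 : ℝ) : ℂ) (d / 2)) :=
    (convex_ball _ _).isPreconnected
  have hVn : (ball ((d / 2 : ℝ) : ℂ) (d / 2)).Nonempty :=
    ⟨_, mem_ball_self (by positivity)⟩
  have hidx : ∀ N : {N : ℂ → Fin (n - 2 + 1) → ℂ |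
      Differentiable ℂ N ∧ ∀ ζ, IsN (f ζ) (N ζ)},
      ∃ i, ∀ ζ ∈ ball ((d / 2 : ℝ) : ℂ) (d / 2), N.1 ζ = SEB_N B i ζ := fun N =>
    SEB_index hn hVp hVn hB N.2.1.continuous.continuousOn fun ζ _ => N.2.2 ζ
  choose Φ hΦ using hidx
  have hinj : Function.Injective Φ := by
    intro N N' hNN
    apply Subtype.ext
    refine AnalyticOnNhd.eq_of_eventuallyEq (𝕜 := ℂ)
      (fun z _ => N.2.1.analyticAt z) (fun z _ => N'.2.1.analyticAt z)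
      (z₀ := ((d / 2 : ℝ) : ℂ)) ?_
    filter_upwards [ball_mem_nhds ((d / 2 : ℝ) : ℂ) (half_pos hd0)] with ζ hζ
    rw [hΦ N ζ hζ, hΦ N' ζ hζ, hNN]
  exact Finite.of_injective Φ hinj

/-- There is no entire simple root branch. -/
theorem SEB {Λ : Submodule ℤ ℂ} [DiscreteTopology Λ] [IsZLattice ℝ Λ] {n : ℕ} (hn : 3 ≤ n)
    {f : ℂ → Fin (n + 1) → ℂ} (hf : IsCurve Λ f) {N : ℂ → Fin (n - 2 + 1) → ℂ}
    (hN : Differentiable ℂ N) (hN' : ∀ ζ, IsN (f ζ) (N ζ)) : False := by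
  obtain ⟨R, hR⟩ := SEB_red Λ
  have hfin := SEB_fin hn hf
  have hbd : ∀ N' ∈ {N : ℂ → Fin (n - 2 + 1) → ℂ |
      Differentiable ℂ N ∧ ∀ ζ, IsN (f ζ) (N ζ)}, ∃ C : ℝ, ∀ ζ ∈ closedBall (0 : ℂ) R,
      ‖f ζ‖ * ‖N' ζ‖ ≤ C := by
    intro N' hN'
    have hc : ContinuousOn (fun ζ => ‖f ζ‖ * ‖N' ζ‖) (closedBall (0 : ℂ) R) :=
      (hf.hol.continuous.norm.mul hN'.1.continuous.norm).continuousOn
    obtain ⟨C, hC⟩ := (isCompact_closedBall (0 : ℂ) R).bddAbove_image hc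
    exact ⟨C, fun ζ hζ => hC ⟨ζ, hζ, rfl⟩⟩
  choose! C hC using hbd
  obtain ⟨C₀, hC₀⟩ := (hfin.image C).bddAbove
  refine LIO hf hN (fun ζ => IsN_ne (hN' ζ)) (C := C₀) fun ζ => ?_
  obtain ⟨ω, hω, hζω⟩ := hR ζ
  obtain ⟨j, hj0, hj⟩ := hf.aut ω hω
  have hNω : (fun ζ => j ζ • N (ζ + ω)) ∈ {N : ℂ → Fin (n - 2 + 1) → ℂ |
      Differentiable ℂ N ∧ ∀ ζ, IsN (f ζ) (N ζ)} := by
    refine ⟨?_, fun ζ => ?_⟩
    · exact (SEB_j hf.hol hf.no_fibre hj).smul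
        (hN.comp (differentiable_id.add_const ω))
    · have := hN' (ζ + ω)
      rw [hj ζ] at this
      exact IsN_mul (hj0 ζ) this
  have h1 := hC _ hNω (ζ - ω) (by rw [mem_closedBall, dist_zero_right]; exact hζω)
  have h2 := hC₀ ⟨_, hNω, rfl⟩
  have h3 : f ζ = j (ζ - ω) • f (ζ - ω) := by
    have := hj (ζ - ω)
    rwa [sub_add_cancel] at this
  refine le_trans (le_of_eq ?_) (h1.trans h2)
  simp only [sub_add_cancel]
  rw [h3, norm_smul, norm_smul]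
  ring

end Pool.Agent.EPO
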